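import Pool.Agent.Lib.MP_e3cc28_al.Irr
import Pool.Agent.Lib.MP_e3cc28_al.S5

/-!
# MP_e3cc28, groups with alternating composition factors: definitions

`Star'` (property `(∗)` in working form) is in `MP_e3cc28_al/Basic.lean`.
-/

set_option autoImplicit false

namespace Pool.Agent.Lib.MP_e3cc28_alA

open Subgroup Equiv
open Pool.Agent.Lib.MP_e3cc28_al (Star')

universe u

/-- `P` is a Sylow 2-subgroup of the subgroup `G` (both subgroups of an ambient group). -/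
def SylIn {Y : Type u} [Group Y] (G P : Subgroup Y) : Prop :=
  P ≤ G ∧ IsPGroup 2 P ∧ ¬ 2 ∣ P.relIndex G

/-- property `(∗)` for a subgroup `G` of an ambient group -/
def StarIn {Y : Type u} [Group Y] (G : Subgroup Y) : Prop :=
  ∀ P Q : Subgroup Y, SylIn G P → SylIn G Q → ∃ S : Subgroup Y, SylIn G S ∧ S ≤ P ⊔ Q ∧
    (∀ d, d ∈ P → d ∈ Q → d ∈ S) ∧
    ∀ s ∈ S, ∀ d, d ∈ P → d ∈ Q → s * d * s⁻¹ ∈ P ∧ s * d * s⁻¹ ∈ Q

/-- the strong form of `(∗)`: the Sylow subgroup `S` is a conjugate of `P` under an element of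
`⟨P ∩ A, Q ∩ A⟩`. -/
def Strong {Y : Type u} [Group Y] (G A : Subgroup Y) : Prop :=
  ∀ P Q : Subgroup Y, SylIn G P → SylIn G Q → ∃ h ∈ (P ⊓ A) ⊔ (Q ⊓ A),
    (∀ d, d ∈ P → d ∈ Q → h⁻¹ * d * h ∈ P) ∧
    ∀ s ∈ P, ∀ d, d ∈ P → d ∈ Q →
      (h * s * h⁻¹) * d * (h * s * h⁻¹)⁻¹ ∈ P ∧ (h * s * h⁻¹) * d * (h * s * h⁻¹)⁻¹ ∈ Q

/-- every nonabelian composition factor of `G` is isomorphic to an alternating group -/
def AltFactors (G : Type u) [Group G] : Prop :=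
  ∀ (A B : Subgroup G) [(B.subgroupOf A).Normal], A.IsSubnormal → B ≤ A →
    IsSimpleGroup (A ⧸ B.subgroupOf A) → (∃ x y : A ⧸ B.subgroupOf A, x * y ≠ y * x) →
    ∃ n, 5 ≤ n ∧ Nonempty ((A ⧸ B.subgroupOf A) ≃* alternatingGroup (Fin n))

/-- every nonabelian simple subnormal subgroup is alternating -/
def AltSub (G : Type u) [Group G] : Prop :=
  ∀ L : Subgroup G, L.IsSubnormal → IsSimpleGroup L → (∃ x ∈ L, ∃ y ∈ L, x * y ≠ y * x) →
    ∃ n, 5 ≤ n ∧ Nonempty (L ≃* alternatingGroup (Fin n))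

/-- `O^{2'}(G)`: the subgroup generated by the Sylow 2-subgroups -/
def O2' (G : Type u) [Group G] : Subgroup G := ⨆ P : Sylow 2 G, (P : Subgroup G)

/-- there is no nontrivial abelian normal subgroup -/
def NoAb (G : Type u) [Group G] : Prop :=
  ∀ N : Subgroup G, N.Normal → (∀ a ∈ N, ∀ b ∈ N, a * b = b * a) → N = ⊥

/-- `N` is a minimal normal subgroup -/
def MinN {G : Type u} [Group G] (N : Subgroup G) : Prop :=
  N.Normal ∧ N ≠ ⊥ ∧ ∀ B : Subgroup G, B.Normal → B ≤ N → B = ⊥ ∨ B = N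

end Pool.Agent.Lib.MP_e3cc28_alA
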