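import Pool.Agent.Lib.MP_e3cc28_alA.AF00

section

/-! job AF01: basic facts about `SylIn` (Sylow 2-subgroups of subgroups of an ambient group).
Everything is standard Sylow theory (`IsPGroup.toSylow`, `Sylow.mapSurjective`,
`IsPGroup.exists_le_sylow`, conjugacy, `Subgroup.relIndex`). -/

set_option autoImplicit false

namespace Pool.Agent.Lib.MP_e3cc28_alA

open Subgroup Equiv
open Pool.Agent.Lib.MP_e3cc28_al (Star')

universe u v

variable {G : Type u} [Group G] [Finite G]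

omit [Finite G] in
theorem card_mul_relIndex' {H P : Subgroup G} (h : P ≤ H) :
    Nat.card P * P.relIndex H = Nat.card H := by
  have h1 := (P.subgroupOf H).card_mul_index
  rw [Nat.card_congr (Subgroup.subgroupOfEquivOfLe h).toEquiv] at h1
  exact h1

/-- `SylIn H P` and Sylow subgroups of the type `H`. -/
theorem sylIn_iff {H P : Subgroup G} :
    SylIn H P ↔ P ≤ H ∧ ∃ S : Sylow 2 H, (S : Subgroup H) = P.subgroupOf H := by
  constructor
  · rintro ⟨h1, h2, h3⟩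
    exact ⟨h1, (h2.comap_subtype (K := H)).toSylow h3, rfl⟩
  · rintro ⟨h1, S, hS⟩
    have hmap : (P.subgroupOf H).map H.subtype = P := by
      rw [Subgroup.subgroupOf_map_subtype, inf_of_le_left h1]
    refine ⟨h1, ?_, ?_⟩
    · have h2 : IsPGroup 2 (S : Subgroup H) := S.isPGroup'
      rw [hS] at h2
      have h3 := h2.map H.subtype
      rw [hmap] at h3
      exact h3
    · have h2 := S.not_dvd_index
      rw [hS] at h2
      exact h2

theorem sylIn_map (H : Subgroup G) (S : Sylow 2 H) : SylIn H ((S : Subgroup H).map H.subtype) := by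
  rw [sylIn_iff]
  refine ⟨Subgroup.map_subtype_le _, S, ?_⟩
  rw [Subgroup.subgroupOf, Subgroup.comap_map_eq_self_of_injective H.subtype_injective]

theorem sylIn_top_iff {P : Subgroup G} : SylIn ⊤ P ↔ ∃ S : Sylow 2 G, (S : Subgroup G) = P := by
  constructor
  · rintro ⟨_, h2, h3⟩
    rw [Subgroup.relIndex_top_right] at h3
    exact ⟨h2.toSylow h3, rfl⟩
  · rintro ⟨S, rfl⟩
    refine ⟨le_top, S.isPGroup', ?_⟩
    rw [Subgroup.relIndex_top_right]
    exact S.not_dvd_index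

/-- Sylow subgroups of a subgroup of odd index. -/
theorem SylIn.up {H K P : Subgroup G} (h : SylIn H P) (hHK : H ≤ K) (hi : ¬ 2 ∣ H.relIndex K) :
    SylIn K P := by
  obtain ⟨h1, h2, h3⟩ := h
  refine ⟨h1.trans hHK, h2, ?_⟩
  rw [← Subgroup.relIndex_mul_relIndex P H K h1 hHK]
  exact Nat.prime_two.not_dvd_mul h3 hi

theorem SylIn.down {H K P : Subgroup G} (h : SylIn K P) (hPH : P ≤ H) (hHK : H ≤ K) :
    SylIn H P := by
  obtain ⟨h1, h2, h3⟩ := h
  refine ⟨hPH, h2, fun hd => h3 ?_⟩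
  rw [← Subgroup.relIndex_mul_relIndex P H K hPH hHK]
  exact hd.mul_right _

theorem SylIn.eq_of_le {H P Q : Subgroup G} (h : SylIn H P) (hQ : IsPGroup 2 Q) (hQH : Q ≤ H)
    (hPQ : P ≤ Q) : Q = P := by
  obtain ⟨h1, h2, h3⟩ := h
  refine le_antisymm ?_ hPQ
  rw [← Subgroup.relIndex_eq_one]
  obtain ⟨n, hn⟩ := hQ.index (P.subgroupOf Q)
  change P.relIndex Q = 2 ^ n at hn
  rcases Nat.eq_zero_or_pos n with h0 | h0
  · rw [hn, h0, pow_zero]
  · exfalso
    apply h3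
    rw [← Subgroup.relIndex_mul_relIndex P Q H hPQ hQH, hn]
    exact (dvd_pow_self 2 h0.ne').mul_right _

/-- a 2-subgroup `U` of `H` is contained in a Sylow 2-subgroup of `H`. -/
theorem exists_sylIn_le (H U : Subgroup G) (hU : IsPGroup 2 U) (hUH : U ≤ H) :
    ∃ P, SylIn H P ∧ U ≤ P := by
  obtain ⟨S, hS⟩ := (hU.comap_subtype (K := H)).exists_le_sylow
  refine ⟨_, sylIn_map H S, ?_⟩
  intro u hu
  exact ⟨⟨u, hUH hu⟩, hS (show (⟨u, hUH hu⟩ : H) ∈ U.subgroupOf H from hu), rfl⟩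

theorem SylIn.card_eq {H P Q : Subgroup G} (hP : SylIn H P) (hQ : SylIn H Q) :
    Nat.card P = Nat.card Q := by
  obtain ⟨h1, S, hS⟩ := sylIn_iff.mp hP
  obtain ⟨h2, T, hT⟩ := sylIn_iff.mp hQ
  have e1 : Nat.card P = Nat.card (S : Subgroup H) := by
    rw [hS, Nat.card_congr (Subgroup.subgroupOfEquivOfLe h1).toEquiv]
  have e2 : Nat.card Q = Nat.card (T : Subgroup H) := by
    rw [hT, Nat.card_congr (Subgroup.subgroupOfEquivOfLe h2).toEquiv]
  rw [e1, e2]
  have e3 := S.card_eq_multiplicity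
  have e4 := T.card_eq_multiplicity
  exact e3.trans e4.symm

/-- a 2-subgroup of the right order is Sylow -/
theorem SylIn.of_card {H P Q : Subgroup G} (hP : SylIn H P) (hQ : Q ≤ H)
    (hc : Nat.card Q = Nat.card P) : SylIn H Q := by
  obtain ⟨h1, h2, h3⟩ := hP
  obtain ⟨n, hn⟩ := IsPGroup.iff_card.mp h2
  refine ⟨hQ, IsPGroup.of_card (hc.trans hn), ?_⟩
  have e1 := card_mul_relIndex' h1
  have e2 := card_mul_relIndex' hQ
  rw [hc, ← e1] at e2
  have e3 : Q.relIndex H = P.relIndex H := Nat.eq_of_mul_eq_mul_left Nat.card_pos e2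
  rwa [e3]

theorem mem_map_conj' {H : Type u} [Group H] {P : Subgroup H} {h x : H} :
    x ∈ P.map (MulAut.conj h).toMonoidHom ↔ h⁻¹ * x * h ∈ P := by
  constructor
  · rintro ⟨y, hy, rfl⟩
    have : h⁻¹ * ((MulAut.conj h).toMonoidHom y) * h = y := by
      simp [MulAut.conj_apply, mul_assoc]
    rw [this]
    exact hy
  · intro hx
    refine ⟨_, hx, ?_⟩
    simp [MulAut.conj_apply, mul_assoc]

theorem SylIn.exists_conj {H P Q : Subgroup G} (hP : SylIn H P) (hQ : SylIn H Q) :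
    ∃ h ∈ H, ∀ x, x ∈ Q ↔ h⁻¹ * x * h ∈ P := by
  obtain ⟨h1, S, hS⟩ := sylIn_iff.mp hP
  obtain ⟨h2, T, hT⟩ := sylIn_iff.mp hQ
  obtain ⟨g, hg⟩ := MulAction.exists_smul_eq H S T
  refine ⟨g, g.2, ?_⟩
  have key : ∀ y : H, y ∈ (T : Subgroup H) ↔ g⁻¹ * y * g ∈ (S : Subgroup H) := by
    intro y
    rw [← hg, Sylow.coe_subgroup_smul]
    constructor
    · intro hy
      rw [Subgroup.mem_smul_pointwise_iff_exists] at hy
      obtain ⟨s, hs, rfl⟩ := hy
      have : g⁻¹ * (MulAut.conj g • s) * g = s := by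
        simp [MulAut.smul_def, MulAut.conj_apply, mul_assoc]
      rw [this]
      exact hs
    · intro hy
      rw [Subgroup.mem_smul_pointwise_iff_exists]
      refine ⟨_, hy, ?_⟩
      simp [MulAut.smul_def, MulAut.conj_apply, mul_assoc]
  intro x
  constructor
  · intro hx
    have h3 := (key ⟨x, h2 hx⟩).mp (by rw [hT]; exact hx)
    rw [hS] at h3
    exact h3
  · intro hx
    have hxH : x ∈ H := by
      have h4 := H.mul_mem (H.mul_mem g.2 (h1 hx)) (H.inv_mem g.2)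
      have h5 : (g : G) * ((g : G)⁻¹ * x * g) * (g : G)⁻¹ = x := by group
      rwa [h5] at h4
    have h3 := (key ⟨x, hxH⟩).mpr (by rw [hS]; exact hx)
    rw [hT] at h3
    exact h3

/-- conjugates of Sylow subgroups (`Q = h P h⁻¹`) -/
theorem SylIn.conj {H P : Subgroup G} (hP : SylIn H P) {h : G} (hh : h ∈ H) :
    SylIn H (P.map (MulAut.conj h).toMonoidHom) := by
  refine hP.of_card ?_ ?_
  · intro x hx
    rw [mem_map_conj'] at hx
    have h4 := H.mul_mem (H.mul_mem hh (hP.1 hx)) (H.inv_mem hh)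
    have h5 : h * (h⁻¹ * x * h) * h⁻¹ = x := by group
    rwa [h5] at h4
  · exact Subgroup.card_map_of_injective (MulAut.conj h).injective

theorem mem_map_conj {H : Type u} [Group H] {P : Subgroup H} {h x : H} :
    x ∈ P.map (MulAut.conj h).toMonoidHom ↔ h⁻¹ * x * h ∈ P := mem_map_conj'

/-- images of Sylow subgroups -/
theorem SylIn.map {G' : Type v} [Group G'] (f : G →* G') {H P : Subgroup G} (hP : SylIn H P) :
    SylIn (H.map f) (P.map f) := by
  obtain ⟨h1, h2, h3⟩ := hP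
  refine ⟨Subgroup.map_mono h1, h2.map f, fun hd => h3 (hd.trans ?_)⟩
  have e1 : (P.subgroupOf H).map (f.subgroupMap H) = (P.map f).subgroupOf (H.map f) := by
    ext ⟨y, hy⟩
    constructor
    · rintro ⟨z, hz, hzy⟩
      have : f z = y := congrArg Subtype.val hzy
      exact ⟨z, hz, this⟩
    · rintro ⟨z, hz, hzy⟩
      exact ⟨⟨z, h1 hz⟩, hz, Subtype.ext hzy⟩
  have e2 := (P.subgroupOf H).index_map_dvd (f.subgroupMap_surjective H)
  rw [e1] at e2
  exact e2

end Pool.Agent.Lib.MP_e3cc28_alA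
end

section

/-! job AF01b: intersections with normal subgroups, `StarIn` and `Star'`, subgroups of odd index,
subgroups containing all Sylow subgroups. -/

set_option autoImplicit false

namespace Pool.Agent.Lib.MP_e3cc28_alA

open Subgroup Equiv
open Pool.Agent.Lib.MP_e3cc28_al (Star')

universe u v

variable {G : Type u} [Group G] [Finite G]

/-- `P ∩ N` is a Sylow subgroup of `N` if `N` is normalised by `H` (`|N : P ∩ N| = |PN : P|`
divides `|H : P|`). -/
theorem SylIn.inf {H P N : Subgroup G} (hP : SylIn H P) (hNH : N ≤ H)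
    (hn : ∀ h ∈ H, ∀ x ∈ N, h * x * h⁻¹ ∈ N) : SylIn N (P ⊓ N) := by
  have hp : IsPGroup 2 (P ⊓ N : Subgroup G) := hP.2.1.to_le inf_le_left
  obtain ⟨R, hR, hle⟩ := exists_sylIn_le N (P ⊓ N) hp inf_le_right
  obtain ⟨Q, hQ, hRQ⟩ := exists_sylIn_le H R hR.2.1 (hR.1.trans hNH)
  obtain ⟨h, hh, hc⟩ := hP.exists_conj hQ
  have h1 : R.map (MulAut.conj h⁻¹).toMonoidHom ≤ P ⊓ N := by
    rintro _ ⟨x, hx, rfl⟩
    have e1 : (MulAut.conj h⁻¹).toMonoidHom x = h⁻¹ * x * h := by simp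
    rw [e1]
    refine ⟨(hc x).1 (hRQ hx), ?_⟩
    have h2 := hn h⁻¹ (inv_mem hh) x (hR.1 hx)
    rwa [inv_inv] at h2
  have h2 : Nat.card (R.map (MulAut.conj h⁻¹).toMonoidHom) = Nat.card R :=
    Nat.card_congr (R.equivMapOfInjective _ (MulAut.conj h⁻¹).injective).symm.toEquiv
  have h3 : Nat.card R ≤ Nat.card (P ⊓ N : Subgroup G) := by
    rw [← h2]
    exact Subgroup.card_le_of_le h1
  have h4 : P ⊓ N = R := Subgroup.eq_of_le_of_card_ge hle h3
  rw [h4]
  exact hR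

/-- extension of a Sylow subgroup of a normal subgroup -/
theorem exists_sylIn_inf {H N R : Subgroup G} (hNH : N ≤ H) (hR : SylIn N R)
    (hn : ∀ h ∈ H, ∀ x ∈ N, h * x * h⁻¹ ∈ N) : ∃ P, SylIn H P ∧ P ⊓ N = R := by
  obtain ⟨P, hP, hRP⟩ := exists_sylIn_le H R hR.2.1 (hR.1.trans hNH)
  exact ⟨P, hP, hR.eq_of_le (hP.2.1.to_le inf_le_left) inf_le_right (le_inf hRP hR.1)⟩

theorem starIn_iff {H : Subgroup G} : StarIn H ↔ Star' H := by
  constructor
  · intro h P Q
    obtain ⟨S, hS, hle, hmem, hconj⟩ := h _ _ (sylIn_map H P) (sylIn_map H Q)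
    obtain ⟨hSH, S', hS'⟩ := sylIn_iff.1 hS
    have key : ∀ (P : Sylow 2 H) (x : H), x.1 ∈ (P : Subgroup H).map H.subtype ↔ x ∈ P := by
      intro P x
      constructor
      · rintro ⟨y, hy, hyx⟩
        have : y = x := Subtype.ext hyx
        rwa [← this]
      · intro hx
        exact ⟨x, hx, rfl⟩
    have keyS : ∀ x : H, x ∈ S' ↔ x.1 ∈ S := by
      intro x
      have h1 : x ∈ (S' : Subgroup H) ↔ x ∈ S.subgroupOf H := by rw [hS']
      exact h1.trans Subgroup.mem_subgroupOf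
    refine ⟨S', ?_, ?_, ?_⟩
    · intro x hx
      have h1 : x.1 ∈ S := (keyS x).1 hx
      have h2 := hle h1
      rw [← Subgroup.map_sup] at h2
      obtain ⟨y, hy, hyx⟩ := h2
      have : y = x := Subtype.ext hyx
      rwa [← this]
    · intro x hxP hxQ
      exact (keyS x).2 (hmem x.1 ((key P x).2 hxP) ((key Q x).2 hxQ))
    · intro s hs d hdP hdQ
      have h1 := hconj s.1 ((keyS s).1 hs) d.1 ((key P d).2 hdP) ((key Q d).2 hdQ)
      exact ⟨(key P (s * d * s⁻¹)).1 h1.1, (key Q (s * d * s⁻¹)).1 h1.2⟩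
  · intro h P Q hP hQ
    obtain ⟨hPH, P', hP'⟩ := sylIn_iff.1 hP
    obtain ⟨hQH, Q', hQ'⟩ := sylIn_iff.1 hQ
    obtain ⟨S, hS1, hS2, hS3⟩ := h P' Q'
    have keyP : ∀ x : H, x ∈ P' ↔ x.1 ∈ P := by
      intro x
      have h1 : x ∈ (P' : Subgroup H) ↔ x ∈ P.subgroupOf H := by rw [hP']
      exact h1.trans Subgroup.mem_subgroupOf
    have keyQ : ∀ x : H, x ∈ Q' ↔ x.1 ∈ Q := by
      intro x
      have h1 : x ∈ (Q' : Subgroup H) ↔ x ∈ Q.subgroupOf H := by rw [hQ']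
      exact h1.trans Subgroup.mem_subgroupOf
    refine ⟨(S : Subgroup H).map H.subtype, sylIn_map H S, ?_, ?_, ?_⟩
    · refine (Subgroup.map_mono hS1).trans ?_
      rw [Subgroup.map_sup]
      refine sup_le_sup ?_ ?_
      · rintro _ ⟨x, hx, rfl⟩
        exact (keyP x).1 hx
      · rintro _ ⟨x, hx, rfl⟩
        exact (keyQ x).1 hx
    · intro d hdP hdQ
      exact ⟨⟨d, hPH hdP⟩, hS2 _ ((keyP ⟨d, hPH hdP⟩).2 hdP) ((keyQ ⟨d, hPH hdP⟩).2 hdQ), rfl⟩
    · rintro _ ⟨s, hs, rfl⟩ d hdP hdQ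
      have h1 := hS3 s hs ⟨d, hPH hdP⟩ ((keyP ⟨d, hPH hdP⟩).2 hdP) ((keyQ ⟨d, hPH hdP⟩).2 hdQ)
      exact ⟨(keyP _).1 h1.1, (keyQ _).1 h1.2⟩

theorem starIn_top_iff : StarIn (⊤ : Subgroup G) ↔ Star' G := by
  constructor
  · intro h P Q
    obtain ⟨S, hS, hle, hmem, hconj⟩ := h P Q (sylIn_top_iff.2 ⟨P, rfl⟩) (sylIn_top_iff.2 ⟨Q, rfl⟩)
    obtain ⟨S', rfl⟩ := sylIn_top_iff.1 hS
    exact ⟨S', hle, hmem, hconj⟩
  · intro h P Q hP hQ
    obtain ⟨P', rfl⟩ := sylIn_top_iff.1 hP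
    obtain ⟨Q', rfl⟩ := sylIn_top_iff.1 hQ
    obtain ⟨S, hS1, hS2, hS3⟩ := h P' Q'
    exact ⟨S, sylIn_top_iff.2 ⟨S, rfl⟩, hS1, hS2, hS3⟩

/-- `(∗)` is inherited by subgroups of odd index (their Sylow 2-subgroups are Sylow 2-subgroups
of the whole group). -/
theorem StarIn.of_odd {H K : Subgroup G} (h : StarIn K) (hHK : H ≤ K)
    (hi : ¬ 2 ∣ H.relIndex K) : StarIn H := by
  intro P Q hP hQ
  obtain ⟨S, hS, hle, hmem, hconj⟩ := h P Q (hP.up hHK hi) (hQ.up hHK hi)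
  exact ⟨S, hS.down (hle.trans (sup_le hP.1 hQ.1)) hHK, hle, hmem, hconj⟩

/-- `(∗)` for a subgroup which contains all the Sylow 2-subgroups. -/
theorem star_of_sylow_le (Y : Subgroup G) (hY : ∀ P : Sylow 2 G, (P : Subgroup G) ≤ Y)
    (h : Star' Y) : Star' G := by
  have hs : StarIn Y := starIn_iff.2 h
  rw [← starIn_top_iff]
  intro P Q hP hQ
  have hle : ∀ R : Subgroup G, SylIn ⊤ R → SylIn Y R := by
    intro R hR
    obtain ⟨R', rfl⟩ := sylIn_top_iff.1 hR
    exact hR.down (hY R') le_top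
  obtain ⟨S, hS, h1, h2, h3⟩ := hs P Q (hle P hP) (hle Q hQ)
  exact ⟨S, hP.of_card le_top (hS.card_eq (hle P hP)), h1, h2, h3⟩

theorem not_dvd_index_O2' : ¬ 2 ∣ (O2' G).index := by
  intro h
  obtain ⟨P⟩ : Nonempty (Sylow 2 G) := inferInstance
  have h1 : (P : Subgroup G) ≤ O2' G := le_iSup (fun P : Sylow 2 G => (P : Subgroup G)) P
  exact P.not_dvd_index (h.trans (Subgroup.index_dvd_of_le h1))

theorem star_O2'_iff : Star' G ↔ Star' (O2' G) := by
  constructor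
  · intro h
    refine starIn_iff.1 ((starIn_top_iff.2 h).of_odd le_top ?_)
    rw [Subgroup.relIndex_top_right]
    exact not_dvd_index_O2'
  · intro h
    exact star_of_sylow_le (O2' G) (fun P => le_iSup (fun P : Sylow 2 G => (P : Subgroup G)) P) h

theorem O2'_normal : (O2' G).Normal := by
  refine ⟨fun x hx g => ?_⟩
  have h1 : O2' G ≤ (O2' G).comap (MulAut.conj g).toMonoidHom := by
    refine iSup_le fun P => ?_
    intro y hy
    have h2 : g * y * g⁻¹ ∈ ((g • P : Sylow 2 G) : Subgroup G) := by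
      rw [Sylow.coe_subgroup_smul]
      have h3 := Subgroup.smul_mem_pointwise_smul y (MulAut.conj g) (P : Subgroup G) hy
      simpa using h3
    have h4 : ((g • P : Sylow 2 G) : Subgroup G) ≤ O2' G :=
      le_iSup (fun P : Sylow 2 G => (P : Subgroup G)) (g • P)
    have h5 := h4 h2
    rw [Subgroup.mem_comap]
    simpa using h5
  have h2 := h1 hx
  rw [Subgroup.mem_comap] at h2
  simpa using h2

/-- the group `O^{2'}(G)` is generated by its Sylow 2-subgroups -/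
theorem O2'_O2' : O2' (O2' G) = ⊤ := by
  have hP : ∀ P : Sylow 2 G, (P : Subgroup G) ≤ O2' G :=
    fun P => le_iSup (fun P : Sylow 2 G => (P : Subgroup G)) P
  have h1 : O2' G ≤ (O2' (O2' G)).map (O2' G).subtype := by
    conv_lhs => rw [O2']
    refine iSup_le fun P => ?_
    intro y hy
    have h2 : ((P.subtype (hP P) : Sylow 2 (O2' G)) : Subgroup (O2' G)) ≤ O2' (O2' G) :=
      le_iSup (fun P : Sylow 2 (O2' G) => (P : Subgroup (O2' G))) (P.subtype (hP P))
    refine ⟨⟨y, hP P hy⟩, h2 ?_, rfl⟩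
    exact hy
  rw [eq_top_iff]
  rintro ⟨x, hx⟩ _
  obtain ⟨y, hy, hyx⟩ := h1 hx
  have : y = ⟨x, hx⟩ := Subtype.ext hyx
  rwa [← this]

end Pool.Agent.Lib.MP_e3cc28_alA
end
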