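import Pool.Agent.Lib.MP_e3cc28_alA.AF01b

/-! job AF03: a Sylow 2-subgroup cannot move a subgroup `E` (the basic contradiction). -/

set_option autoImplicit false

namespace Pool.Agent.Lib.MP_e3cc28_alA

open Subgroup Equiv
open Pool.Agent.Lib.MP_e3cc28_al (Star')

universe u v

private theorem relIndex_eq_of_syl {G : Type u} [Group G] [Finite G] {W : Subgroup G}
    {P S : Subgroup G} (hP : SylIn W P) (hS : SylIn W S) (C : Subgroup G) (hCW : C ≤ W)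
    (hCn : ∀ w ∈ W, ∀ c ∈ C, w * c * w⁻¹ ∈ C) : C.relIndex P = C.relIndex S := by
  have h1 := hP.inf hCW hCn
  have h2 := hS.inf hCW hCn
  have h3 := h1.card_eq h2
  have e1 := card_mul_relIndex' (H := P) (P := P ⊓ C) inf_le_left
  have e2 := card_mul_relIndex' (H := S) (P := S ⊓ C) inf_le_left
  rw [Subgroup.inf_relIndex_left] at e1 e2
  rw [hP.card_eq hS, ← e2, h3] at e1
  exact Nat.eq_of_mul_eq_mul_left Nat.card_pos e1

/-- an element of `S` in the coset `x C`. -/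
private theorem exists_mem_coset {G : Type u} [Group G] [Finite G] {W : Subgroup G}
    {P S : Subgroup G} (hP : SylIn W P) (hS : SylIn W S) (C : Subgroup G) (hCW : C ≤ W)
    (hCn : ∀ w ∈ W, ∀ c ∈ C, w * c * w⁻¹ ∈ C)
    (hSP : ∀ s ∈ S, ∃ a ∈ P, a⁻¹ * s ∈ C) {x : G} (hx : x ∈ P) :
    ∃ s ∈ S, s⁻¹ * x ∈ C := by
  classical
  -- work in the quotient `G ⧸ C`
  let f : G → G ⧸ C := fun a => (QuotientGroup.mk a : G ⧸ C)
  have hcard : ∀ T : Subgroup G, Nat.card (f '' (T : Set G)) = C.relIndex T := by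
    intro T
    rw [Subgroup.relIndex, Subgroup.index]
    symm
    refine Nat.card_congr (Equiv.ofBijective
      (fun q : T ⧸ C.subgroupOf T => (⟨Quotient.liftOn' q (fun t : T => f t) (by
        intro a b hab
        rw [QuotientGroup.leftRel_apply] at hab
        exact QuotientGroup.eq.2 (by simpa [Subgroup.mem_subgroupOf] using hab)), by
        induction q using Quotient.inductionOn' with
        | h t => exact ⟨t, t.2, rfl⟩⟩ : f '' (T : Set G))) ⟨?_, ?_⟩)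
    · intro q r hqr
      induction q using Quotient.inductionOn' with
      | h a =>
        induction r using Quotient.inductionOn' with
        | h b =>
          have h1 : f a = f b := congrArg Subtype.val hqr
          have h2 := QuotientGroup.eq.1 h1
          refine Quotient.sound' ?_
          rw [QuotientGroup.leftRel_apply]
          simpa [Subgroup.mem_subgroupOf] using h2
    · rintro ⟨_, t, ht, rfl⟩
      exact ⟨Quotient.mk'' ⟨t, ht⟩, rfl⟩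
  have hsub : f '' (S : Set G) ⊆ f '' (P : Set G) := by
    rintro _ ⟨s, hs, rfl⟩
    obtain ⟨a, ha, hc⟩ := hSP s hs
    exact ⟨a, ha, QuotientGroup.eq.2 hc⟩
  have heq : f '' (S : Set G) = f '' (P : Set G) := by
    apply Set.eq_of_subset_of_ncard_le hsub
    rw [← Nat.card_coe_set_eq, ← Nat.card_coe_set_eq, hcard, hcard,
      relIndex_eq_of_syl hP hS C hCW hCn]
  have hxm : f x ∈ f '' (S : Set G) := by
    rw [heq]
    exact ⟨x, hx, rfl⟩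
  obtain ⟨s, hs, hsx⟩ := hxm
  exact ⟨s, hs, QuotientGroup.eq.1 hsx⟩

/-- Let `W` have `(∗)`, `P` Sylow in `W`, `C` normal in `W`, `E` normalised by `C`. Let `x ∈ P`,
`g ∈ C` such that `g` commutes with all the elements of `P ∩ xEx⁻¹`, and let `y ∈ P ∩ E` with
`g⁻¹ y g ∉ P`. Contradiction.

Proof. Let `Q = g P g⁻¹`, `D = P ∩ Q`, and let `S ≤ ⟨P, Q⟩` be a Sylow 2-subgroup of `W` which
contains and normalises `D`.
(1) `S ≤ P C`: `P ≤ PC`, `Q ≤ PC` (because `g ∈ C`, `C` normal), so `⟨P,Q⟩ ≤ PC`.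
(2) `SC = PC`: both are contained in `PC` and have the same order
(`|S ∩ C| = |P ∩ C|`, Sylow subgroups of `C`). So there is `s ∈ S` with `s ∈ x C`, hence
`s E s⁻¹ = x E x⁻¹` (`C` normalises `E`).
(3) `D ∩ xEx⁻¹ = P ∩ xEx⁻¹`: an element `e ∈ P ∩ xEx⁻¹` commutes with `g`, so
`e = g e g⁻¹ ∈ Q`.
(4) `s` normalises `D`, so `s (D ∩ E) s⁻¹ = D ∩ sEs⁻¹ = D ∩ xEx⁻¹ = P ∩ xEx⁻¹ = x (P ∩ E) x⁻¹`.
Hence `|D ∩ E| = |P ∩ E|` and, as `D ∩ E ≤ P ∩ E`, `D ∩ E = P ∩ E`. So `y ∈ Q`, i.e.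
`g⁻¹ y g ∈ P`, a contradiction. -/
theorem swap_contra {G : Type u} [Group G] [Finite G] {W : Subgroup G} (hW : StarIn W)
    {P : Subgroup G} (hP : SylIn W P) (E C : Subgroup G) (hCW : C ≤ W)
    (hCn : ∀ w ∈ W, ∀ c ∈ C, w * c * w⁻¹ ∈ C) (hCE : ∀ c ∈ C, ∀ e ∈ E, c * e * c⁻¹ ∈ E)
    {x y g : G} (hx : x ∈ P) (hg : g ∈ C) (hy : y ∈ P) (hyE : y ∈ E) (hgy : g⁻¹ * y * g ∉ P)
    (hcomm : ∀ e ∈ P, x⁻¹ * e * x ∈ E → g * e = e * g) : False := by
  have hQ := hP.conj (hCW hg)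
  obtain ⟨S, hS, hSle, _, hSn⟩ := hW _ _ hP hQ
  -- the subgroup `P C`
  let T : Subgroup G :=
    { carrier := {z | ∃ a ∈ P, a⁻¹ * z ∈ C}
      mul_mem' := by
        rintro z w ⟨a, ha, hz⟩ ⟨b, hb, hw⟩
        refine ⟨a * b, P.mul_mem ha hb, ?_⟩
        have h1 := hCn b⁻¹ (W.inv_mem (hP.1 hb)) _ hz
        have h2 := C.mul_mem h1 hw
        have e : b⁻¹ * (a⁻¹ * z) * b⁻¹⁻¹ * (b⁻¹ * w) = (a * b)⁻¹ * (z * w) := by group
        rwa [e] at h2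
      one_mem' := ⟨1, P.one_mem, by simp⟩
      inv_mem' := by
        rintro z ⟨a, ha, hz⟩
        refine ⟨a⁻¹, P.inv_mem ha, ?_⟩
        have h1 := hCn a (hP.1 ha) _ (C.inv_mem hz)
        have e : a * (a⁻¹ * z)⁻¹ * a⁻¹ = a⁻¹⁻¹ * z⁻¹ := by group
        rwa [e] at h1 }
  have hPT : P ≤ T := fun a ha => ⟨a, ha, by simp⟩
  have hQT : P.map (MulAut.conj g).toMonoidHom ≤ T := by
    intro z hz
    rw [mem_map_conj'] at hz
    refine ⟨g⁻¹ * z * g, hz, ?_⟩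
    have h1 := hCn (g⁻¹ * z * g)⁻¹ (W.inv_mem (hP.1 hz)) g hg
    have h2 := C.mul_mem h1 (C.inv_mem hg)
    have e : (g⁻¹ * z * g)⁻¹ * g * (g⁻¹ * z * g)⁻¹⁻¹ * g⁻¹ = (g⁻¹ * z * g)⁻¹ * z := by group
    rwa [e] at h2
  have hST : S ≤ T := hSle.trans (sup_le hPT hQT)
  obtain ⟨s, hs, hsx⟩ := exists_mem_coset hP hS C hCW hCn (fun s hs => hST hs) hx
  -- `c = x⁻¹ s`
  have hc : x⁻¹ * s ∈ C := by
    have := C.inv_mem hsx
    have e : (s⁻¹ * x)⁻¹ = x⁻¹ * s := by group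
    rwa [e] at this
  have hmap : (P ⊓ E).map (MulAut.conj (x⁻¹ * s)⁻¹).toMonoidHom ≤
      P ⊓ P.map (MulAut.conj g).toMonoidHom ⊓ E := by
    intro z hz
    rw [mem_map_conj'] at hz
    obtain ⟨h1, h2⟩ := hz
    have h1' : (x⁻¹ * s) * z * (x⁻¹ * s)⁻¹ ∈ P := by
      have e : (x⁻¹ * s)⁻¹⁻¹ * z * (x⁻¹ * s)⁻¹ = (x⁻¹ * s) * z * (x⁻¹ * s)⁻¹ := by group
      rw [e] at h1
      exact h1
    have h2' : (x⁻¹ * s) * z * (x⁻¹ * s)⁻¹ ∈ E := by
      have e : (x⁻¹ * s)⁻¹⁻¹ * z * (x⁻¹ * s)⁻¹ = (x⁻¹ * s) * z * (x⁻¹ * s)⁻¹ := by group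
      rw [e] at h2
      exact h2
    -- `e = x y x⁻¹ = s z s⁻¹`
    have hsz : s * z * s⁻¹ ∈ P := by
      have h3 := P.mul_mem (P.mul_mem hx h1') (P.inv_mem hx)
      have e : x * (x⁻¹ * s * z * (x⁻¹ * s)⁻¹) * x⁻¹ = s * z * s⁻¹ := by group
      rwa [e] at h3
    have hszE : x⁻¹ * (s * z * s⁻¹) * x ∈ E := by
      have e : x⁻¹ * (s * z * s⁻¹) * x = x⁻¹ * s * z * (x⁻¹ * s)⁻¹ := by group
      rw [e]
      exact h2'
    have hco := hcomm _ hsz hszE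
    have hszQ : s * z * s⁻¹ ∈ P.map (MulAut.conj g).toMonoidHom := by
      rw [mem_map_conj']
      have e : g⁻¹ * (s * z * s⁻¹) * g = s * z * s⁻¹ := by
        rw [mul_assoc, ← hco, inv_mul_cancel_left]
      rw [e]
      exact hsz
    have h4 := hSn s⁻¹ (S.inv_mem hs) _ hsz hszQ
    have e2 : s⁻¹ * (s * z * s⁻¹) * s⁻¹⁻¹ = z := by group
    rw [e2] at h4
    refine ⟨h4, ?_⟩
    have h5 := hCE _ (C.inv_mem hc) _ h2'
    have e3 : (x⁻¹ * s)⁻¹ * (x⁻¹ * s * z * (x⁻¹ * s)⁻¹) * (x⁻¹ * s)⁻¹⁻¹ = z := by group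
    rwa [e3] at h5
  have hcardm : Nat.card ((P ⊓ E).map (MulAut.conj (x⁻¹ * s)⁻¹).toMonoidHom) =
      Nat.card (P ⊓ E : Subgroup G) :=
    Subgroup.card_map_of_injective (MulAut.conj (x⁻¹ * s)⁻¹).injective
  have hle : P ⊓ P.map (MulAut.conj g).toMonoidHom ⊓ E ≤ P ⊓ E :=
    inf_le_inf_right _ inf_le_left
  have hge : Nat.card (P ⊓ E : Subgroup G) ≤
      Nat.card (P ⊓ P.map (MulAut.conj g).toMonoidHom ⊓ E : Subgroup G) := by
    rw [← hcardm]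
    exact Subgroup.card_le_of_le hmap
  have heq := Subgroup.eq_of_le_of_card_ge hle hge
  have hyQ : y ∈ P ⊓ P.map (MulAut.conj g).toMonoidHom ⊓ E := by
    rw [heq]
    exact ⟨hy, hyE⟩
  have h6 : y ∈ P.map (MulAut.conj g).toMonoidHom := hyQ.1.2
  rw [mem_map_conj'] at h6
  exact hgy h6

end Pool.Agent.Lib.MP_e3cc28_alA
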