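import Pool.Agent.Lib.MP_e3cc28_alA.AF01b
import Pool.Agent.Lib.MP_e3cc28_alA.AF03

section

/-! job AF04: minimal normal subgroups, the part without property `(∗)`. -/

set_option autoImplicit false

namespace Pool.Agent.Lib.MP_e3cc28_alA

open Subgroup Equiv

universe u

variable {K : Type u} [Group K] [Finite K]

theorem exists_minN_le {A : Subgroup K} (hA : A.Normal) (h : A ≠ ⊥) : ∃ N, MinN N ∧ N ≤ A := by
  obtain ⟨N, ⟨h1, h2, h3⟩, h4⟩ := (wellFounded_lt (α := Subgroup K)).has_min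
    {N : Subgroup K | N.Normal ∧ N ≠ ⊥ ∧ N ≤ A} ⟨A, hA, h, le_rfl⟩
  refine ⟨N, ⟨h1, h2, fun B hB hBN => ?_⟩, h3⟩
  by_cases hb : B = ⊥
  · exact Or.inl hb
  · refine Or.inr ?_
    by_contra hne
    exact h4 B ⟨hB, hb, hBN.trans h3⟩ (lt_of_le_of_ne hBN hne)

/-- different minimal normal subgroups intersect trivially, hence commute -/
theorem MinN.comm {N M : Subgroup K} (hN : MinN N) (hM : MinN M) (h : N ≠ M) :
    ∀ a ∈ N, ∀ b ∈ M, a * b = b * a := by
  obtain ⟨n1, n2, n3⟩ := hN
  obtain ⟨m1, m2, m3⟩ := hM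
  have hd : Disjoint N M := by
    rw [disjoint_iff]
    have hnm : (N ⊓ M).Normal := Subgroup.normal_inf_normal N M
    rcases n3 _ hnm inf_le_left with h1 | h1
    · exact h1
    · have hle : N ≤ M := by
        rw [← h1]; exact inf_le_right
      rcases m3 _ n1 hle with h2 | h2
      · exact absurd h2 n2
      · exact absurd h2 h
  intro a ha b hb
  exact Subgroup.commute_of_normal_of_disjoint N M n1 m1 hd a b ha hb

/-- the common centraliser of all the minimal normal subgroups is trivial (otherwise it contains a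
minimal normal subgroup, which is abelian). -/
theorem eq_one_of_cent (hab : NoAb K) (x : K) (hx : ∀ N, MinN N → ∀ a ∈ N, x * a = a * x) :
    x = 1 := by
  let C : Subgroup K :=
    { carrier := {y | ∀ N, MinN N → ∀ a ∈ N, y * a = a * y}
      mul_mem' := by
        intro y z hy hz N hN a ha
        rw [mul_assoc, hz N hN a ha, ← mul_assoc, hy N hN a ha, mul_assoc]
      one_mem' := by
        intro N hN a ha
        simp
      inv_mem' := by
        intro y hy N hN a ha
        have := hy N hN a ha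
        rw [inv_mul_eq_iff_eq_mul, ← mul_assoc, this, mul_assoc, mul_inv_cancel, mul_one] }
  have hC : ∀ y, y ∈ C ↔ ∀ N, MinN N → ∀ a ∈ N, y * a = a * y := fun y => Iff.rfl
  have hCn : C.Normal := by
    refine ⟨fun y hy g => ?_⟩
    rw [hC] at hy ⊢
    intro N hN a ha
    have h1 : g⁻¹ * a * g ∈ N := by
      have := hN.1.conj_mem a ha g⁻¹
      simpa using this
    have h2 := hy N hN _ h1
    have h3 : g * (y * (g⁻¹ * a * g)) * g⁻¹ = g * ((g⁻¹ * a * g) * y) * g⁻¹ := by rw [h2]
    calc g * y * g⁻¹ * a = g * (y * (g⁻¹ * a * g)) * g⁻¹ := by group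
      _ = g * ((g⁻¹ * a * g) * y) * g⁻¹ := h3
      _ = a * (g * y * g⁻¹) := by group
  by_contra hne
  have hCb : C ≠ ⊥ := by
    intro hb
    have : x ∈ C := (hC x).2 hx
    rw [hb, Subgroup.mem_bot] at this
    exact hne this
  obtain ⟨N, hN, hNC⟩ := exists_minN_le hCn hCb
  exact hN.2.1 (hab N hN.1 (fun a ha b hb => (hC a).1 (hNC ha) N hN b hb))

/-- Let `L` be a minimal nontrivial subgroup of `N` which is normalised by `N`. Then `L` is simple,
nonabelian, subnormal in `K`, and every conjugate of `L` is equal to `L` or commutes with `L`.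

Proof. `xLx⁻¹ ≤ N` is again minimal among the nontrivial subgroups normalised by `N`; so
`L ∩ xLx⁻¹` is trivial (and then `L` and `xLx⁻¹` commute, commutators lie in the intersection) or
`L = xLx⁻¹`. The subgroup generated by all `xLx⁻¹` is normal in `K`, hence it is `N`. If `B ≤ L` is
normalised by `L`, then it is normalised by all `xLx⁻¹`, hence by `N`, so `B` is trivial or `L`: `L`
is simple. If `L` is abelian, then `N` is abelian (generated by commuting abelian subgroups), a
contradiction to `NoAb`. `L` is normal in `N` and `N` is normal in `K`, so `L` is subnormal. -/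
theorem min_normal_factor (hab : NoAb K) {N : Subgroup K} (hN : MinN N) :
    ∃ L : Subgroup K, L ≤ N ∧ L ≠ ⊥ ∧ (∀ n ∈ N, ∀ l ∈ L, n * l * n⁻¹ ∈ L) ∧ IsSimpleGroup L ∧
      L.IsSubnormal ∧ (∃ a ∈ L, ∃ b ∈ L, a * b ≠ b * a) ∧
      ∀ x : K, (∀ l, l ∈ L ↔ x⁻¹ * l * x ∈ L) ∨
        ∀ a ∈ L, ∀ b, x⁻¹ * b * x ∈ L → a * b = b * a := by
  obtain ⟨hNn, hNb, hNm⟩ := hN
  obtain ⟨L, ⟨h1, h2, h3⟩, h4⟩ := (wellFounded_lt (α := Subgroup K)).has_min
    {L : Subgroup K | L ≤ N ∧ L ≠ ⊥ ∧ ∀ n ∈ N, ∀ l ∈ L, n * l * n⁻¹ ∈ L}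
    ⟨N, le_rfl, hNb, fun n hn l hl => N.mul_mem (N.mul_mem hn hl) (N.inv_mem hn)⟩
  have hmin : ∀ B : Subgroup K, B ≤ L → (∀ n ∈ N, ∀ l ∈ B, n * l * n⁻¹ ∈ B) → B ≠ ⊥ → B = L := by
    intro B hBL hB hBb
    by_contra hne
    exact h4 B ⟨hBL.trans h1, hBb, hB⟩ (lt_of_le_of_ne hBL hne)
  have hmem : ∀ x l : K, l ∈ L.map (MulAut.conj x).toMonoidHom ↔ x⁻¹ * l * x ∈ L := by
    intro x l
    rw [Subgroup.mem_map]
    constructor
    · rintro ⟨y, hy, rfl⟩
      have : x⁻¹ * (x * y * x⁻¹) * x = y := by group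
      simpa [this] using hy
    · intro hl
      refine ⟨_, hl, ?_⟩
      simp [MulAut.conj_apply, mul_assoc]
  have hdich : ∀ x : K, (∀ l, l ∈ L ↔ x⁻¹ * l * x ∈ L) ∨
        ∀ a ∈ L, ∀ b, x⁻¹ * b * x ∈ L → a * b = b * a := by
    intro x
    set Lx := L.map (MulAut.conj x).toMonoidHom with hLx
    have hLxN : ∀ b, x⁻¹ * b * x ∈ L → b ∈ N := by
      intro b hb
      have := hNn.conj_mem _ (h1 hb) x
      have h5 : x * (x⁻¹ * b * x) * x⁻¹ = b := by group
      rwa [h5] at this
    have hLxn : ∀ n ∈ N, ∀ b, x⁻¹ * b * x ∈ L → x⁻¹ * (n * b * n⁻¹) * x ∈ L := by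
      intro n hn b hb
      have h5 : x⁻¹ * n * x ∈ N := by
        have := hNn.conj_mem n hn x⁻¹
        simpa using this
      have h6 := h3 _ h5 _ hb
      have h7 : x⁻¹ * n * x * (x⁻¹ * b * x) * (x⁻¹ * n * x)⁻¹ = x⁻¹ * (n * b * n⁻¹) * x := by group
      rwa [h7] at h6
    by_cases hb : L ⊓ Lx = ⊥
    · right
      intro a ha b hb'
      have h5 : a * b * a⁻¹ * b⁻¹ ∈ L ⊓ Lx := by
        refine ⟨?_, ?_⟩
        · have h6 : b * a⁻¹ * b⁻¹ ∈ L := h3 b (hLxN b hb') _ (L.inv_mem ha)
          have h7 := L.mul_mem ha h6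
          have h8 : a * (b * a⁻¹ * b⁻¹) = a * b * a⁻¹ * b⁻¹ := by group
          rwa [h8] at h7
        · have h6 : a * b * a⁻¹ ∈ Lx := (hmem x _).2 (hLxn a (h1 ha) b hb')
          exact Lx.mul_mem h6 (Lx.inv_mem ((hmem x b).2 hb'))
      rw [hb, Subgroup.mem_bot] at h5
      have h6 : a * b * a⁻¹ * b⁻¹ * (b * a) = b * a := by rw [h5, one_mul]
      have h7 : a * b * a⁻¹ * b⁻¹ * (b * a) = a * b := by group
      rw [h7] at h6
      exact h6
    · left
      have h5 : L ⊓ Lx = L := by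
        refine hmin _ inf_le_left ?_ hb
        rintro n hn l ⟨hl1, hl2⟩
        exact ⟨h3 n hn l hl1, (hmem x _).2 (hLxn n hn l ((hmem x l).1 hl2))⟩
      have h6 : L ≤ Lx := inf_eq_left.1 h5
      have h7 : Nat.card Lx = Nat.card L :=
        (Nat.card_congr (L.equivMapOfInjective _ (MulAut.conj x).injective).toEquiv).symm
      have h8 : L = Lx := Subgroup.eq_of_le_of_card_ge h6 h7.le
      intro l
      rw [← hmem x l, ← hLx, ← h8]
  have hgen : Subgroup.normalClosure (L : Set K) = N := by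
    have hle : Subgroup.normalClosure (L : Set K) ≤ N := Subgroup.normalClosure_le_normal h1
    rcases hNm _ Subgroup.normalClosure_normal hle with h5 | h5
    · exfalso
      have h6 : (L : Set K) ⊆ Subgroup.normalClosure (L : Set K) := Subgroup.subset_normalClosure
      rw [h5] at h6
      exact h2 (le_bot_iff.1 h6)
    · exact h5
  have hconj : ∀ b ∈ Group.conjugatesOfSet (L : Set K), ∃ c, c⁻¹ * b * c ∈ L := by
    intro b hb
    obtain ⟨a, ha, hab'⟩ := Group.mem_conjugatesOfSet_iff.1 hb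
    obtain ⟨c, hc⟩ := isConj_iff.1 hab'
    refine ⟨c, ?_⟩
    rw [← hc]
    have : c⁻¹ * (c * a * c⁻¹) * c = a := by group
    rw [this]; exact ha
  have hnorm : ∀ B : Subgroup K, B ≤ L → (∀ n ∈ L, ∀ b ∈ B, n * b * n⁻¹ ∈ B) →
      ∀ n ∈ N, ∀ b ∈ B, n * b * n⁻¹ ∈ B := by
    intro B hBL hB
    have hle : N ≤ Subgroup.normalizer (B : Set K) := by
      rw [← hgen, Subgroup.normalClosure, Subgroup.closure_le]
      intro n hn
      obtain ⟨c, hc⟩ := hconj n hn
      rw [SetLike.mem_coe, Subgroup.mem_normalizer_iff]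
      rcases hdich c with h5 | h5
      · have hnL : n ∈ L := (h5 n).2 hc
        intro b
        refine ⟨fun hb => hB n hnL b hb, fun hb => ?_⟩
        have h6 := hB n⁻¹ (L.inv_mem hnL) _ hb
        have h7 : n⁻¹ * (n * b * n⁻¹) * n⁻¹⁻¹ = b := by group
        rwa [h7] at h6
      · intro b
        constructor
        · intro hb
          have h6 := h5 b (hBL hb) n hc
          rw [← h6, mul_inv_cancel_right]; exact hb
        · intro hb
          have h6 := h5 _ (hBL hb) n hc
          have h7 : b = n * b * n⁻¹ := by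
            have h8 : n * b * n⁻¹ * n = n * (n * b * n⁻¹) := h6
            rw [inv_mul_cancel_right] at h8
            exact mul_left_cancel h8
          rw [h7]; exact hb
    intro n hn b hb
    exact (Subgroup.mem_normalizer_iff.1 (hle hn) b).1 hb
  have hnonab : ∃ a ∈ L, ∃ b ∈ L, a * b ≠ b * a := by
    by_contra hcon
    push Not at hcon
    have hcomm : ∀ a ∈ Group.conjugatesOfSet (L : Set K), ∀ b ∈ Group.conjugatesOfSet (L : Set K),
        a * b = b * a := by
      intro a ha b hb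
      obtain ⟨c, hc⟩ := hconj a ha
      obtain ⟨d, hd⟩ := hconj b hb
      have key : (c⁻¹ * a * c) * (c⁻¹ * b * c) = (c⁻¹ * b * c) * (c⁻¹ * a * c) := by
        have h5 : (c⁻¹ * d)⁻¹ * (c⁻¹ * b * c) * (c⁻¹ * d) ∈ L := by
          have : (c⁻¹ * d)⁻¹ * (c⁻¹ * b * c) * (c⁻¹ * d) = d⁻¹ * b * d := by group
          rw [this]; exact hd
        rcases hdich (c⁻¹ * d) with h6 | h6
        · exact hcon _ hc _ ((h6 _).2 h5)
        · exact h6 _ hc _ h5
      have h7 : c * ((c⁻¹ * a * c) * (c⁻¹ * b * c)) * c⁻¹ = c * ((c⁻¹ * b * c) * (c⁻¹ * a * c)) * c⁻¹ := by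
        rw [key]
      calc a * b = c * ((c⁻¹ * a * c) * (c⁻¹ * b * c)) * c⁻¹ := by group
        _ = c * ((c⁻¹ * b * c) * (c⁻¹ * a * c)) * c⁻¹ := h7
        _ = b * a := by group
    have e1 : N ≤ Subgroup.centralizer (Group.conjugatesOfSet (L : Set K)) := by
      rw [← hgen, Subgroup.normalClosure, Subgroup.closure_le]
      intro a ha
      rw [SetLike.mem_coe, Subgroup.mem_centralizer_iff]
      intro b hb
      exact hcomm b hb a ha
    have e2 : N ≤ Subgroup.centralizer (N : Set K) := by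
      conv_lhs => rw [← hgen]
      rw [Subgroup.normalClosure, Subgroup.closure_le]
      intro a ha
      rw [SetLike.mem_coe, Subgroup.mem_centralizer_iff]
      intro b hb
      have := Subgroup.mem_centralizer_iff.1 (e1 hb) a ha
      exact this.symm
    refine hNb (hab N hNn (fun a ha b hb => ?_))
    exact (Subgroup.mem_centralizer_iff.1 (e2 ha) b hb).symm
  refine ⟨L, h1, h2, h3, ?_, ?_, hnonab, hdich⟩
  · haveI : Nontrivial L := (Subgroup.nontrivial_iff_ne_bot L).2 h2
    refine ⟨fun H hH => ?_⟩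
    have hBL : H.map L.subtype ≤ L := Subgroup.map_subtype_le H
    have hB : ∀ n ∈ L, ∀ b ∈ H.map L.subtype, n * b * n⁻¹ ∈ H.map L.subtype := by
      intro n hn b hb
      obtain ⟨y, hy, rfl⟩ := hb
      refine ⟨⟨n, hn⟩ * y * ⟨n, hn⟩⁻¹, hH.conj_mem y hy ⟨n, hn⟩, ?_⟩
      simp
    by_cases hb : H.map L.subtype = ⊥
    · left
      rw [Subgroup.map_eq_bot_iff_of_injective _ L.subtype_injective] at hb
      exact hb
    · right
      have h5 := hmin _ hBL (hnorm _ hBL hB) hb
      rw [eq_top_iff]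
      intro y _
      have h6 : (y : K) ∈ H.map L.subtype := by rw [h5]; exact y.2
      obtain ⟨z, hz, hzy⟩ := h6
      have : z = y := Subtype.ext hzy
      rw [← this]; exact hz
  · refine IsSubnormal.step L N h1 hNn.isSubnormal ⟨fun l hl n => ?_⟩
    rw [Subgroup.mem_subgroupOf] at hl ⊢
    exact h3 n n.2 l hl

end Pool.Agent.Lib.MP_e3cc28_alA
end

section

/-! job AF04b: minimal normal subgroups are simple. -/

set_option autoImplicit false

namespace Pool.Agent.Lib.MP_e3cc28_alA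

open Subgroup Equiv
open Pool.Agent.Lib.MP_e3cc28_al (Star')

universe u

variable {K : Type u} [Group K] [Finite K]

/-- Let `L ≤ N` be a nonabelian simple group of even order which is normalised by `N`, `N` normal
in `K`, `P` a Sylow 2-subgroup of `K`. Then there are `y ∈ P ∩ L` and `g ∈ L` with `g⁻¹ y g ∉ P`.

Proof. Otherwise `P ∩ L` is normal in `L`, so it is trivial or `L`. It is not `L`: a 2-group has a
nontrivial centre, so a simple 2-group is abelian. It is not trivial: let `t ∈ L` be an involution;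
`P ∩ N` is a Sylow 2-subgroup of `N` (`SylIn.inf`), so `n⁻¹ t n ∈ P` for some `n ∈ N`, and it is in
`L`. -/
theorem exists_not_mem {N L : Subgroup K} (hN : N.Normal) (hLN : L ≤ N)
    (hL : ∀ n ∈ N, ∀ l ∈ L, n * l * n⁻¹ ∈ L) (hs : IsSimpleGroup L) (h2 : 2 ∣ Nat.card L)
    (hna : ∃ a ∈ L, ∃ b ∈ L, a * b ≠ b * a) (P : Sylow 2 K) :
    ∃ y ∈ P, y ∈ L ∧ ∃ g ∈ L, g⁻¹ * y * g ∉ P := by
  classical
  by_contra hcon
  push Not at hcon
  have hLnt : Nontrivial L := hs.toNontrivial
  -- `P ∩ L` is normal in `L`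
  have hnorm : (((P : Subgroup K) ⊓ L).subgroupOf L).Normal := by
    refine ⟨fun a ha g => ?_⟩
    rw [mem_subgroupOf] at ha ⊢
    have h1 := hcon a.1 ha.1 ha.2 (g⁻¹ : L).1 (g⁻¹ : L).2
    refine ⟨?_, (g * a * g⁻¹).2⟩
    simpa using h1
  rcases hs.eq_bot_or_eq_top_of_normal _ hnorm with hb | ht
  · -- the trivial case
    have : Fact (Nat.Prime 2) := ⟨Nat.prime_two⟩
    obtain ⟨t, ht2⟩ := exists_prime_orderOf_dvd_card' (G := L) 2 h2
    have htK : orderOf (t : K) = 2 := by rw [Subgroup.orderOf_coe, ht2]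
    have hP : SylIn (⊤ : Subgroup K) (P : Subgroup K) := sylIn_top_iff.2 ⟨P, rfl⟩
    have hPN : SylIn N ((P : Subgroup K) ⊓ N) :=
      hP.inf le_top fun h _ x hx => hN.conj_mem x hx h
    have hz : IsPGroup 2 (zpowers (t : K)) := by
      refine IsPGroup.of_card (n := 1) ?_
      rw [Nat.card_zpowers, htK, pow_one]
    obtain ⟨R, hR, htR⟩ := exists_sylIn_le N (zpowers (t : K)) hz
      ((zpowers_le).2 (hLN t.2))
    obtain ⟨h, hh, hR'⟩ := hPN.exists_conj hR
    have h1 := (hR' t).1 (htR (mem_zpowers _))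
    have h3 : h⁻¹ * (t : K) * h ∈ L := by
      have := hL h⁻¹ (N.inv_mem hh) t t.2
      rwa [inv_inv] at this
    have h4 : (⟨h⁻¹ * (t : K) * h, h3⟩ : L) ∈ ((P : Subgroup K) ⊓ L).subgroupOf L :=
      mem_subgroupOf.2 ⟨h1.1, h3⟩
    rw [hb, mem_bot] at h4
    have h5 : h⁻¹ * (t : K) * h = 1 := congrArg Subtype.val h4
    have h6 : (t : K) = 1 := by
      have : (t : K) = h * (h⁻¹ * t * h) * h⁻¹ := by group
      rw [this, h5]
      group
    rw [h6, orderOf_one] at htK
    exact absurd htK (by norm_num)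
  · -- the case of a 2-group
    have hLP : L ≤ (P : Subgroup K) := fun l hl => by
      have h1 : (⟨l, hl⟩ : L) ∈ ((P : Subgroup K) ⊓ L).subgroupOf L := by
        rw [ht]
        exact mem_top _
      exact (mem_subgroupOf.1 h1).1
    have hpg : IsPGroup 2 L := P.isPGroup'.to_le hLP
    have : Fact (Nat.Prime 2) := ⟨Nat.prime_two⟩
    have hc : Nontrivial (center L) := hpg.center_nontrivial
    rcases hs.eq_bot_or_eq_top_of_normal _ (inferInstance : (center L).Normal) with hb' | ht'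
    · rw [nontrivial_iff_ne_bot] at hc
      exact hc hb'
    · obtain ⟨a, ha, b, hb, hab⟩ := hna
      apply hab
      have h1 : (⟨a, ha⟩ : L) ∈ center L := by
        rw [ht']
        exact mem_top _
      have h2 := mem_center_iff.1 h1 ⟨b, hb⟩
      exact (congrArg Subtype.val h2).symm

theorem two_dvd_card_alt (n : ℕ) (hn : 5 ≤ n) : 2 ∣ Nat.card (alternatingGroup (Fin n)) := by
  have hnt : Nontrivial (Fin n) := Fin.nontrivial_iff_two_le.2 (by omega)
  have h1 : 2 * Nat.card (alternatingGroup (Fin n)) = n.factorial := by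
    rw [Nat.card_eq_fintype_card, two_mul_card_alternatingGroup, Fintype.card_perm,
      Fintype.card_fin]
  have h2 : (4 : ℕ) ∣ n.factorial :=
    (show (4 : ℕ) ∣ Nat.factorial 4 by decide).trans (Nat.factorial_dvd_factorial (by omega))
  omega

/-- Proof. Take `L` from `min_normal_factor`. It suffices that every Sylow 2-subgroup `P` normalises
`L` (then `L` is normal by `hgen`, so `L = N`). Suppose `x ∈ P` and `xLx⁻¹ ≠ L`; apply
`swap_contra` with `W = ⊤`, `E = L`, `C` = the elements which normalise all the conjugates of `L`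
(a normal subgroup which contains `L`), and `y`, `g` from `exists_not_mem`
(`L` has even order by `halt` and `two_dvd_card_alt`). -/
theorem min_normal_simple (hgen : O2' K = ⊤) (hstar : Star' K) (hab : NoAb K) (halt : AltSub K)
    {N : Subgroup K} (hN : MinN N) : IsSimpleGroup N ∧ N.IsSubnormal ∧
      ∃ a ∈ N, ∃ b ∈ N, a * b ≠ b * a := by
  obtain ⟨L, hLN, hL0, hLn, hs, hsub, hna, hdich⟩ := min_normal_factor hab hN
  have h2 : 2 ∣ Nat.card L := by
    obtain ⟨n, hn, ⟨e⟩⟩ := halt L hsub hs hna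
    rw [Nat.card_congr e.toEquiv]
    exact two_dvd_card_alt n hn
  have hNn := hN.1
  -- every Sylow 2-subgroup normalises `L`
  have hP : ∀ P : Sylow 2 K, ∀ x ∈ P, ∀ l, l ∈ L ↔ x⁻¹ * l * x ∈ L := by
    intro P x hx
    rcases hdich x with h | h
    · exact h
    exfalso
    obtain ⟨y, hy, hyL, g, hg, hgy⟩ := exists_not_mem hNn hLN hLn hs h2 hna P
    exact swap_contra (starIn_top_iff.2 hstar) (sylIn_top_iff.2 ⟨P, rfl⟩) L N le_top
      (fun w _ c hc => hNn.conj_mem c hc w) hLn hx (hLN hg) hy hyL hgy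
      (fun e _ he => h g hg e he)
  have hLnorm : L.Normal := by
    have h1 : O2' K ≤ normalizer (L : Set K) := by
      refine iSup_le fun P x hx => ?_
      rw [mem_normalizer_iff'']
      intro l
      exact hP P x hx l
    rw [hgen, top_le_iff] at h1
    exact normalizer_eq_top_iff.1 h1
  have hLeq : L = N := (hN.2.2 L hLnorm hLN).resolve_left hL0
  subst hLeq
  exact ⟨hs, hsub, hna⟩

end Pool.Agent.Lib.MP_e3cc28_alA
end

section

/-! job AF02: `(∗)` is inherited by all quotients. -/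

set_option autoImplicit false

namespace Pool.Agent.Lib.MP_e3cc28_alA

open Subgroup Equiv
open Pool.Agent.Lib.MP_e3cc28_al (Star')

universe u v

/-- lifting a Sylow subgroup of the image above a given 2-subgroup of its preimage -/
private theorem lift_sylow {G : Type u} [Group G] [Finite G] {G' : Type v} [Group G'] [Finite G']
    (f : G →* G') (hf : Function.Surjective f) (P' : Sylow 2 G') (T₀ : Subgroup G)
    (hT : IsPGroup 2 T₀) (hle : T₀ ≤ (P' : Subgroup G').comap f) :
    ∃ P : Sylow 2 G, T₀ ≤ P ∧ (P : Subgroup G) ≤ (P' : Subgroup G').comap f ∧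
      (P : Subgroup G).map f = P' := by
  obtain ⟨P, hP, hTP⟩ := exists_sylIn_le ((P' : Subgroup G').comap f) T₀ hT hle
  have hmapc : ((P' : Subgroup G').comap f).map f = P' :=
    Subgroup.map_comap_eq_self_of_surjective hf _
  have hPmap : P.map f = P' := by
    have h1 := hP.map f
    rw [hmapc] at h1
    exact (h1.eq_of_le P'.2 le_rfl h1.1).symm
  have htop : SylIn ⊤ P := by
    refine hP.up le_top ?_
    rw [Subgroup.relIndex_top_right, Subgroup.index_comap_of_surjective _ hf]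
    exact P'.not_dvd_index
  obtain ⟨S, hS⟩ := sylIn_top_iff.mp htop
  refine ⟨S, ?_, ?_, ?_⟩
  · rw [hS]; exact hTP
  · rw [hS]; exact hP.1
  · rw [hS]; exact hPmap

/-- `(∗)` is inherited by all quotients.

Proof. Let `P'`, `Q'` be Sylow 2-subgroups of `G'`, `D' = P' ∩ Q'`, `T` the preimage of `D'` and
`T₀` a Sylow 2-subgroup of `T`. Then `f(T₀) = D'` (the image is Sylow in the 2-group `D'`).
The preimage `f⁻¹(P')` has odd index in `G`; choose a Sylow 2-subgroup `P ≥ T₀` of it, it is a Sylow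
2-subgroup of `G` with `f(P) = P'`; similarly `Q`. Then `P ∩ Q ≤ T` is a 2-subgroup containing the
Sylow subgroup `T₀` of `T`, hence `P ∩ Q = T₀`. If `S ≤ ⟨P,Q⟩` normalises `P ∩ Q = T₀` and contains
it, then `f(S) ≤ ⟨P',Q'⟩` normalises and contains `f(T₀) = D'`. -/
theorem star_quot_any {G : Type u} [Group G] [Finite G] {G' : Type v} [Group G'] (f : G →* G')
    (hf : Function.Surjective f) (h : Star' G) : Star' G' := by
  have hG' : Finite G' := Finite.of_surjective f hf
  intro P' Q'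
  set D : Subgroup G' := (P' : Subgroup G') ⊓ (Q' : Subgroup G') with hD
  obtain ⟨T₀, hT₀, -⟩ := exists_sylIn_le (D.comap f) ⊥ IsPGroup.of_bot bot_le
  have hD2 : IsPGroup 2 D := P'.2.to_le inf_le_left
  have hmapT : T₀.map f = D := by
    have h1 := hT₀.map f
    rw [Subgroup.map_comap_eq_self_of_surjective hf] at h1
    exact (h1.eq_of_le hD2 le_rfl h1.1).symm
  obtain ⟨P, hTP, hPc, hPm⟩ := lift_sylow f hf P' T₀ hT₀.2.1
    (hT₀.1.trans (Subgroup.comap_mono inf_le_left))
  obtain ⟨Q, hTQ, hQc, hQm⟩ := lift_sylow f hf Q' T₀ hT₀.2.1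
    (hT₀.1.trans (Subgroup.comap_mono inf_le_right))
  have hPQ : (P : Subgroup G) ⊓ (Q : Subgroup G) = T₀ := by
    refine hT₀.eq_of_le (P.2.to_le inf_le_left) ?_ (le_inf hTP hTQ)
    rw [hD, Subgroup.comap_inf]
    exact inf_le_inf hPc hQc
  have key : ∀ y, y ∈ P' → y ∈ Q' → ∃ x, x ∈ P ∧ x ∈ Q ∧ f x = y := by
    intro y hy hy'
    have h1 : y ∈ T₀.map f := by
      rw [hmapT]
      exact ⟨hy, hy'⟩
    obtain ⟨x, hx, rfl⟩ := h1
    exact ⟨x, hTP hx, hTQ hx, rfl⟩
  obtain ⟨S, hS1, hS2, hS3⟩ := h P Q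
  refine ⟨S.mapSurjective hf, ?_, ?_, ?_⟩
  · rw [Sylow.coe_mapSurjective]
    refine (Subgroup.map_mono hS1).trans ?_
    rw [Subgroup.map_sup, hPm, hQm]
  · intro y hy hy'
    obtain ⟨x, hx, hx', rfl⟩ := key y hy hy'
    exact ⟨x, hS2 x hx hx', rfl⟩
  · rintro _ ⟨s, hs, rfl⟩ y hy hy'
    obtain ⟨d, hd, hd', rfl⟩ := key y hy hy'
    have h1 := hS3 s hs d hd hd'
    have h2 : f (s * d * s⁻¹) = f s * f d * (f s)⁻¹ := by
      rw [map_mul, map_mul, map_inv]
    refine ⟨?_, ?_⟩
    · rw [← h2]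
      exact hPc h1.1
    · rw [← h2]
      exact hQc h1.2

/-- the same for a homomorphism which is not surjective -/
theorem star_range {G : Type u} [Group G] [Finite G] {G' : Type v} [Group G'] (f : G →* G')
    (h : Star' G) : Star' f.range :=
  star_quot_any f.rangeRestrict f.rangeRestrict_surjective h

theorem star_equiv {G : Type u} [Group G] [Finite G] {G' : Type v} [Group G'] (e : G ≃* G') :
    Star' G ↔ Star' G' := by
  have hG' : Finite G' := Finite.of_equiv G e.toEquiv
  exact ⟨star_quot_any e.toMonoidHom e.surjective, star_quot_any e.symm.toMonoidHom e.symm.surjective⟩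

end Pool.Agent.Lib.MP_e3cc28_alA
end
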