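import Pool.Agent.Lib.MP_e3cc28_alA.AI00

/-! job AF07b: the index of `blk` is odd for two blocks of size `2^j` and `r < 2^(j+1)` further
points. -/

set_option autoImplicit false

namespace Pool.Agent.Lib.MP_e3cc28_alA

open Subgroup Equiv

/-- the classes of the two blocks and of the rest -/
def cls3 {h r : ℕ} : (Fin h ⊕ Fin h) ⊕ Fin r → Fin 3
  | Sum.inl (Sum.inl _) => 0
  | Sum.inl (Sum.inr _) => 1
  | Sum.inr _ => 2

private theorem card_cls0 {h r : ℕ} :
    Fintype.card {a : (Fin h ⊕ Fin h) ⊕ Fin r // cls3 a = 0} = h := by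
  have e : Fin h ≃ {a : (Fin h ⊕ Fin h) ⊕ Fin r // cls3 a = 0} :=
    { toFun := fun x => ⟨Sum.inl (Sum.inl x), rfl⟩
      invFun := fun a => match a with
        | ⟨Sum.inl (Sum.inl x), _⟩ => x
        | ⟨Sum.inl (Sum.inr x), h⟩ => absurd h (by simp [cls3])
        | ⟨Sum.inr x, h⟩ => absurd h (by simp [cls3])
      left_inv := fun x => rfl
      right_inv := by
        rintro ⟨(x | x) | x, h⟩
        · rfl
        · exact absurd h (by simp [cls3])
        · exact absurd h (by simp [cls3]) }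
  rw [← Fintype.card_congr e, Fintype.card_fin]

private theorem card_cls1 {h r : ℕ} :
    Fintype.card {a : (Fin h ⊕ Fin h) ⊕ Fin r // cls3 a = 1} = h := by
  have e : Fin h ≃ {a : (Fin h ⊕ Fin h) ⊕ Fin r // cls3 a = 1} :=
    { toFun := fun x => ⟨Sum.inl (Sum.inr x), rfl⟩
      invFun := fun a => match a with
        | ⟨Sum.inl (Sum.inr x), _⟩ => x
        | ⟨Sum.inl (Sum.inl x), h⟩ => absurd h (by simp [cls3])
        | ⟨Sum.inr x, h⟩ => absurd h (by simp [cls3])
      left_inv := fun x => rfl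
      right_inv := by
        rintro ⟨(x | x) | x, h⟩
        · exact absurd h (by simp [cls3])
        · rfl
        · exact absurd h (by simp [cls3]) }
  rw [← Fintype.card_congr e, Fintype.card_fin]

private theorem card_cls2 {h r : ℕ} :
    Fintype.card {a : (Fin h ⊕ Fin h) ⊕ Fin r // cls3 a = 2} = r := by
  have e : Fin r ≃ {a : (Fin h ⊕ Fin h) ⊕ Fin r // cls3 a = 2} :=
    { toFun := fun x => ⟨Sum.inr x, rfl⟩
      invFun := fun a => match a with
        | ⟨Sum.inr x, _⟩ => x
        | ⟨Sum.inl (Sum.inl x), h⟩ => absurd h (by simp [cls3])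
        | ⟨Sum.inl (Sum.inr x), h⟩ => absurd h (by simp [cls3])
      left_inv := fun x => rfl
      right_inv := by
        rintro ⟨(x | x) | x, h⟩
        · exact absurd h (by simp [cls3])
        · exact absurd h (by simp [cls3])
        · rfl }
  rw [← Fintype.card_congr e, Fintype.card_fin]

private theorem card_pres {h r : ℕ} :
    Nat.card {p : Perm ((Fin h ⊕ Fin h) ⊕ Fin r) // ∀ a, cls3 (p a) = cls3 a} =
      h.factorial * h.factorial * r.factorial := by
  have h1 := DomMulAct.stabilizer_card (α := (Fin h ⊕ Fin h) ⊕ Fin r)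
    (cls3 (h := h) (r := r))
  rw [Fin.prod_univ_three, card_cls0, card_cls1, card_cls2] at h1
  rw [← h1, ← Nat.card_eq_fintype_card]
  exact Nat.card_congr (Equiv.subtypeEquivRight fun p => by
    constructor
    · intro hp
      funext a
      exact hp a
    · intro hp a
      exact congrFun hp a)

/-- `|blk| = 2 (h!)² r!` (the class preserving permutations are counted by
`DomMulAct.stabilizer_card` or via `Equiv.Perm.sumCongrHom`; the exchange of the two blocks gives the
factor 2). -/
theorem card_blk {h r : ℕ} (hh : 1 ≤ h) :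
    Nat.card (blk (cls3 (h := h) (r := r))) = 2 * (h.factorial * h.factorial * r.factorial) := by
  classical
  have hdis : Disjoint (fun p : Perm ((Fin h ⊕ Fin h) ⊕ Fin r) => ∀ a, cls3 (p a) = cls3 a)
      (fun p => ∀ a, cls3 (p a) = swap 0 1 (cls3 a)) := by
    rw [Pi.disjoint_iff]
    intro p
    rw [Prop.disjoint_iff, not_and]
    intro h1 h2
    have a0 : Fin h := ⟨0, hh⟩
    have e1 := h1 (Sum.inl (Sum.inl a0))
    have e2 := h2 (Sum.inl (Sum.inl a0))
    rw [e1] at e2
    simp [cls3] at e2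
  have e0 : (blk (cls3 (h := h) (r := r))) ≃
      {p : Perm ((Fin h ⊕ Fin h) ⊕ Fin r) // (∀ a, cls3 (p a) = cls3 a) ∨
        ∀ a, cls3 (p a) = swap 0 1 (cls3 a)} := Equiv.refl _
  let τ : Perm ((Fin h ⊕ Fin h) ⊕ Fin r) := Equiv.sumCongr (Equiv.sumComm _ _) (Equiv.refl _)
  have hτ : ∀ a, cls3 (τ a) = swap 0 1 (cls3 a) := by
    rintro ((x | x) | x)
    · simp [τ, cls3]
    · simp [τ, cls3]
    · simp only [τ, cls3, Equiv.sumCongr_apply, Sum.map_inr, Equiv.refl_apply]
      decide
  have e1 : {p : Perm ((Fin h ⊕ Fin h) ⊕ Fin r) // ∀ a, cls3 (p a) = cls3 a} ≃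
      {p : Perm ((Fin h ⊕ Fin h) ⊕ Fin r) // ∀ a, cls3 (p a) = swap 0 1 (cls3 a)} := by
    refine Equiv.subtypeEquiv (Equiv.mulLeft τ) fun p => ?_
    constructor
    · intro hp a
      rw [Equiv.coe_mulLeft, Perm.mul_apply, hτ, hp]
    · intro hp a
      have := hp a
      rw [Equiv.coe_mulLeft, Perm.mul_apply, hτ] at this
      exact (swap (0 : Fin 3) 1).injective this
  rw [Nat.card_congr e0, Nat.card_congr (subtypeOrEquiv _ _ hdis), Nat.card_sum,
    ← Nat.card_congr e1, card_pres]
  ring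

private theorem val_pow_fact (j : ℕ) : padicValNat 2 (2 ^ j).factorial + 1 = 2 ^ j := by
  induction j with
  | zero => simp
  | succ j ih =>
    rw [pow_succ, mul_comm, padicValNat_factorial_mul]
    omega

private theorem val_add (j : ℕ) : ∀ r < 2 ^ j, padicValNat 2 (2 ^ j + r).factorial =
    padicValNat 2 (2 ^ j).factorial + padicValNat 2 r.factorial := by
  induction j with
  | zero =>
    intro r hr
    have : r = 0 := by omega
    subst this
    simp
  | succ j ih =>
    intro r hr
    have h2 : r % 2 < 2 := Nat.mod_lt _ (by norm_num)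
    have h3 : r / 2 < 2 ^ j := by
      rw [Nat.div_lt_iff_lt_mul (by norm_num)]
      rw [pow_succ] at hr
      exact hr
    have e1 : 2 ^ (j + 1) + r = 2 * (2 ^ j + r / 2) + r % 2 := by
      rw [pow_succ]
      omega
    have e2 : padicValNat 2 r.factorial = padicValNat 2 (r / 2).factorial + r / 2 := by
      conv_lhs => rw [← Nat.div_add_mod r 2]
      rw [padicValNat_factorial_mul_add _ h2, padicValNat_factorial_mul]
    rw [e1, padicValNat_factorial_mul_add _ h2, padicValNat_factorial_mul, ih _ h3, e2, pow_succ,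
      mul_comm (2 ^ j) 2, padicValNat_factorial_mul]
    omega

/-- the exponents of 2 in `(2h + r)!` and in `2 (h!)² r!` agree for `h = 2^j`, `r < 2h`
(Legendre: `v₂(n!) = n - s(n)`, `sub_one_mul_padicValNat_factorial`). -/
theorem index_blk {j r : ℕ} (hr : r < 2 ^ (j + 1)) :
    ¬ 2 ∣ (blk (cls3 (h := 2 ^ j) (r := r))).index := by
  have h1 := (blk (cls3 (h := 2 ^ j) (r := r))).card_mul_index
  rw [card_blk (Nat.one_le_two_pow), Nat.card_eq_fintype_card, Fintype.card_perm,
    Fintype.card_sum, Fintype.card_sum, Fintype.card_fin, Fintype.card_fin] at h1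
  have e0 : 2 ^ j + 2 ^ j + r = 2 ^ (j + 1) + r := by rw [pow_succ]; ring
  rw [e0] at h1
  have hne : (blk (cls3 (h := 2 ^ j) (r := r))).index ≠ 0 := by
    intro h0
    rw [h0, mul_zero] at h1
    exact Nat.factorial_ne_zero _ h1.symm
  have h2 := congrArg (padicValNat 2) h1
  have hf1 := Nat.factorial_ne_zero (2 ^ j)
  have hf2 := Nat.factorial_ne_zero r
  rw [padicValNat.mul (by positivity) hne, padicValNat.mul (by norm_num) (by positivity),
    padicValNat.mul (by positivity) hf2, padicValNat.mul hf1 hf1, val_add _ _ hr,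
    padicValNat_self] at h2
  have h3 := val_pow_fact j
  have h4 := val_pow_fact (j + 1)
  have h5 : (2 : ℕ) ^ (j + 1) = 2 ^ j + 2 ^ j := by rw [pow_succ]; ring
  intro hd
  have h6 : 1 ≤ padicValNat 2 (blk (cls3 (h := 2 ^ j) (r := r))).index :=
    one_le_padicValNat_of_dvd hne hd
  omega

/-- If `Y` has odd index in `Sym(Ω)`, then `Y ∩ Alt(Ω)` has odd index in `Alt(Ω)`: a Sylow
2-subgroup `P` of `Y` is one of `Sym(Ω)` and `P ∩ Alt(Ω)` is one of `Alt(Ω)` (`SylIn.inf`). -/
theorem relIndex_alt {Ω : Type} [Fintype Ω] [DecidableEq Ω] (Y : Subgroup (Perm Ω))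
    (hY : ¬ 2 ∣ Y.index) : ¬ 2 ∣ (Y ⊓ alternatingGroup Ω).relIndex (alternatingGroup Ω) := by
  obtain ⟨P, hP, -⟩ := exists_sylIn_le Y ⊥ (IsPGroup.of_bot) bot_le
  have h1 : SylIn ⊤ P := hP.up le_top (by rwa [Subgroup.relIndex_top_right])
  have h2 : SylIn (alternatingGroup Ω) (P ⊓ alternatingGroup Ω) := by
    refine h1.inf le_top fun h _ x hx => ?_
    exact (alternatingGroup.normal (α := Ω)).conj_mem x hx h
  have h3 : P ⊓ alternatingGroup Ω ≤ Y ⊓ alternatingGroup Ω := inf_le_inf_right _ hP.1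
  intro hd
  apply h2.2.2
  rw [← Subgroup.relIndex_mul_relIndex _ _ _ h3 inf_le_right]
  exact hd.mul_left _

end Pool.Agent.Lib.MP_e3cc28_alA
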