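import Pool.Agent.Lib.MP_e3cc28_alA.AF07b
import Pool.Agent.Lib.MP_e3cc28_alA.AF02

/-! job AF07c: `(∗)` fails for `Sym(n)`, `n ≥ 8`, and for `Alt(n)`, `n ≥ 10`. -/

set_option autoImplicit false

namespace Pool.Agent.Lib.MP_e3cc28_alA

open Subgroup Equiv
open Pool.Agent.Lib.MP_e3cc28_al (Star')

/-- the embedding of a small symmetric group -/
private def cst {k h : ℕ} (hk : k ≤ h) : Fin k ≃ {i : Fin h // i.1 < k} where
  toFun i := ⟨⟨i.1, i.2.trans_le hk⟩, i.2⟩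
  invFun i := ⟨i.1.1, i.2⟩
  left_inv _ := rfl
  right_inv _ := rfl

/-- permutations of the first block and of the rest -/
private def TT {h r : ℕ} (p : Perm (Fin h)) (s : Perm (Fin r)) :
    Perm ((Fin h ⊕ Fin h) ⊕ Fin r) := (p.sumCongr 1).sumCongr s

private theorem TT_mul {h r : ℕ} (p p' : Perm (Fin h)) (s s' : Perm (Fin r)) :
    TT p s * TT p' s' = TT (p * p') (s * s') := by
  unfold TT
  rw [Perm.sumCongr_mul, Perm.sumCongr_mul, one_mul]

private theorem TT_one {h r : ℕ} : TT (1 : Perm (Fin h)) (1 : Perm (Fin r)) = 1 := by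
  unfold TT
  rw [Perm.sumCongr_one, Perm.sumCongr_one]

private theorem TT_inv {h r : ℕ} (p : Perm (Fin h)) (s : Perm (Fin r)) :
    (TT p s)⁻¹ = TT p⁻¹ s⁻¹ := by
  rw [inv_eq_iff_mul_eq_one, TT_mul, mul_inv_cancel, mul_inv_cancel, TT_one]

private theorem TT_pow {h r : ℕ} (p : Perm (Fin h)) (s : Perm (Fin r)) (m : ℕ) :
    (TT p s) ^ m = TT (p ^ m) (s ^ m) := by
  induction m with
  | zero => rw [pow_zero, pow_zero, pow_zero, TT_one]
  | succ m ih => rw [pow_succ, pow_succ, pow_succ, ih, TT_mul]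

private theorem TT_sign {h r : ℕ} (p : Perm (Fin h)) (s : Perm (Fin r)) :
    Perm.sign (TT p s) = Perm.sign p * Perm.sign s := by
  unfold TT
  rw [Perm.sign_sumCongr, Perm.sign_sumCongr, map_one, mul_one]

private theorem TT_inj {h r : ℕ} {p : Perm (Fin h)} {s : Perm (Fin r)} (hp : TT p s = 1) :
    p = 1 := by
  ext i
  have h1 := Equiv.congr_fun hp (Sum.inl (Sum.inl i))
  have h2 : (Sum.inl (Sum.inl (p i)) : (Fin h ⊕ Fin h) ⊕ Fin r) = Sum.inl (Sum.inl i) := h1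
  rw [Sum.inl.inj (Sum.inl.inj h2)]
  rfl

/-- the exchange of the two blocks -/
private def xx (h r : ℕ) : Perm ((Fin h ⊕ Fin h) ⊕ Fin r) :=
  Perm.sumCongr (Equiv.sumComm (Fin h) (Fin h)) 1

private theorem xx_sign {h r : ℕ} (he : Even h) : Perm.sign (xx h r) = 1 := by
  unfold xx
  rw [Perm.sign_sumCongr, map_one, mul_one]
  have h1 : (Equiv.sumComm (Fin h) (Fin h) : Perm (Fin h ⊕ Fin h)) =
      (Equiv.boolProdEquivSum (Fin h)).permCongr
        (Equiv.prodCongrLeft fun _ : Fin h => Equiv.boolNot) := by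
    ext a
    rcases a with a | a <;> rfl
  have h2 : Perm.sign (Equiv.boolNot : Perm Bool) = -1 := by decide
  rw [h1, Perm.sign_permCongr, Perm.sign_prodCongrLeft]
  simp only [h2, Finset.prod_const, Finset.card_univ, Fintype.card_fin]
  exact he.neg_one_pow

private theorem exists_xyg_aux {h r k : ℕ} (hk : k ≤ h) (he : Even h) (b : Bool)
    (y₀ g₀ : Perm (Fin k)) (s : Perm (Fin r)) (hy : y₀ * y₀ = 1) (hs : s * s = 1)
    (hg : Perm.sign g₀ = 1) (h3 : (y₀ * (g₀⁻¹ * y₀ * g₀)) ^ 3 = 1)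
    (h1 : y₀ * (g₀⁻¹ * y₀ * g₀) ≠ 1) (hb : b = true → Perm.sign y₀ * Perm.sign s = 1) :
    ∃ x y g : Perm ((Fin h ⊕ Fin h) ⊕ Fin r),
      (x ∈ alternatingGroup _ ∧ g ∈ alternatingGroup _ ∧ (b = true → y ∈ alternatingGroup _)) ∧
      (∀ a, cls3 (x a) = swap 0 1 (cls3 a)) ∧ x * x = 1 ∧ (∀ a, cls3 a = 2 → x a = a) ∧
      (∀ a, cls3 (y a) = cls3 a) ∧ (∀ a, cls3 a = 1 → y a = a) ∧ y * y = 1 ∧
      (∀ a, cls3 (g a) = cls3 a) ∧ (∀ a, cls3 a ≠ 0 → g a = a) ∧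
      (y * (g⁻¹ * y * g)) ^ 3 = 1 ∧ y * (g⁻¹ * y * g) ≠ 1 := by
  obtain ⟨φ, hφ⟩ : ∃ φ : Perm (Fin k) →* Perm (Fin h), φ = Perm.extendDomainHom (cst hk) :=
    ⟨_, rfl⟩
  have hφi : Function.Injective φ := by
    rw [hφ]
    exact Perm.extendDomainHom_injective _
  have hφs : ∀ p, Perm.sign (φ p) = Perm.sign p := by
    intro p
    rw [hφ]
    exact Perm.sign_extendDomain p (cst hk)
  have key : TT (φ y₀) s * ((TT (φ g₀) 1)⁻¹ * TT (φ y₀) s * TT (φ g₀) (1 : Perm (Fin r))) =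
      TT (φ (y₀ * (g₀⁻¹ * y₀ * g₀))) 1 := by
    rw [TT_inv, TT_mul, TT_mul, TT_mul]
    simp only [map_mul, map_inv, inv_one, one_mul, mul_one, hs]
  refine ⟨xx h r, TT (φ y₀) s, TT (φ g₀) 1, ⟨?_, ?_, ?_⟩, ?_, ?_, ?_, ?_, ?_, ?_, ?_, ?_, ?_, ?_⟩
  · rw [Perm.mem_alternatingGroup]
    exact xx_sign he
  · rw [Perm.mem_alternatingGroup, TT_sign, hφs, hg, map_one, one_mul]
  · intro hb'
    rw [Perm.mem_alternatingGroup, TT_sign, hφs]
    exact hb hb'
  · rintro ((a | a) | a)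
    · show (1 : Fin 3) = swap 0 1 0
      decide
    · show (0 : Fin 3) = swap 0 1 1
      decide
    · show (2 : Fin 3) = swap 0 1 2
      decide
  · ext a
    rcases a with (a | a) | a <;> rfl
  · rintro ((a | a) | a) ha
    · exact absurd ha (by show ¬ ((0 : Fin 3) = 2); decide)
    · exact absurd ha (by show ¬ ((1 : Fin 3) = 2); decide)
    · rfl
  · rintro ((a | a) | a) <;> rfl
  · rintro ((a | a) | a) ha
    · exact absurd ha (by show ¬ ((0 : Fin 3) = 1); decide)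
    · rfl
    · exact absurd ha (by show ¬ ((2 : Fin 3) = 1); decide)
  · rw [TT_mul, ← map_mul, hy, hs, map_one, TT_one]
  · rintro ((a | a) | a) <;> rfl
  · rintro ((a | a) | a) ha
    · exact absurd rfl ha
    · rfl
    · rfl
  · rw [key, TT_pow, ← map_pow, h3, map_one, one_pow, TT_one]
  · rw [key]
    intro hcon
    apply h1
    apply hφi
    rw [TT_inj hcon, map_one]

set_option maxRecDepth 100000 in
private theorem dec5 : ((swap 0 1 * swap 3 4 : Perm (Fin 5)) * ((swap 0 1 * swap 1 2)⁻¹ *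
    (swap 0 1 * swap 3 4) * (swap 0 1 * swap 1 2))) ^ 3 = 1 := by
  decide

set_option maxRecDepth 100000 in
private theorem dec5' : ((swap 0 1 * swap 3 4 : Perm (Fin 5)) * ((swap 0 1 * swap 1 2)⁻¹ *
    (swap 0 1 * swap 3 4) * (swap 0 1 * swap 1 2))) ≠ 1 := by
  decide

set_option maxRecDepth 100000 in
private theorem dec5s : (swap 0 1 * swap 3 4 : Perm (Fin 5)) * (swap 0 1 * swap 3 4) = 1 := by
  decide

/-- Elements for `fail_core`, `h ≥ 4` even, blocks `(Fin h ⊕ Fin h) ⊕ Fin r`: `x` exchanges the two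
blocks (even, a product of `h` transpositions), `g` is a 3-cycle `(a b c)` in the first block, `y` is
an involution of the first block and the rest:
* `y = (a b)` in `Sym`;
* `y = (a b)(u v)` with `u, v` in the rest if `r ≥ 2`;
* `y = (a b)(d e)` in the first block if `h ≥ 5`, where `d, e ∉ {a, b, c}`.
In all cases `y (g⁻¹ y g) = (a b)(g⁻¹ (a b) g)` is a 3-cycle. -/
theorem exists_xyg {h r : ℕ} (h4 : 4 ≤ h) (he : Even h) (b : Bool)
    (hb : b = true → 2 ≤ r ∨ 5 ≤ h) :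
    ∃ x y g : Perm ((Fin h ⊕ Fin h) ⊕ Fin r),
      (x ∈ alternatingGroup _ ∧ g ∈ alternatingGroup _ ∧ (b = true → y ∈ alternatingGroup _)) ∧
      (∀ a, cls3 (x a) = swap 0 1 (cls3 a)) ∧ x * x = 1 ∧ (∀ a, cls3 a = 2 → x a = a) ∧
      (∀ a, cls3 (y a) = cls3 a) ∧ (∀ a, cls3 a = 1 → y a = a) ∧ y * y = 1 ∧
      (∀ a, cls3 (g a) = cls3 a) ∧ (∀ a, cls3 a ≠ 0 → g a = a) ∧
      (y * (g⁻¹ * y * g)) ^ 3 = 1 ∧ y * (g⁻¹ * y * g) ≠ 1 := by
  have h01 : Perm.sign (swap 0 1 : Perm (Fin 3)) = -1 := Perm.sign_swap (by decide)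
  have hg3 : Perm.sign (swap 0 1 * swap 1 2 : Perm (Fin 3)) = 1 := by
    rw [map_mul, Perm.sign_swap (by decide), Perm.sign_swap (by decide)]
    rfl
  cases b with
  | false =>
    exact exists_xyg_aux (k := 3) (by omega) he false (swap 0 1) (swap 0 1 * swap 1 2) 1
      (by decide) (by rw [one_mul]) hg3 (by decide) (by decide) (fun h => by simp at h)
  | true =>
    rcases hb rfl with hr | hh
    · refine exists_xyg_aux (k := 3) (by omega) he true (swap 0 1) (swap 0 1 * swap 1 2)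
        (swap ⟨0, by omega⟩ ⟨1, by omega⟩) (by decide) (swap_mul_self _ _) hg3 (by decide)
        (by decide) (fun _ => ?_)
      rw [h01, Perm.sign_swap (by intro h; simp at h)]
      rfl
    · refine exists_xyg_aux (k := 5) hh he true (swap 0 1 * swap 3 4) (swap 0 1 * swap 1 2) 1
        dec5s (by rw [one_mul]) ?_ dec5 dec5' (fun _ => ?_)
      · rw [map_mul, Perm.sign_swap (by decide), Perm.sign_swap (by decide)]
        rfl
      · rw [map_mul, Perm.sign_swap (by decide), Perm.sign_swap (by decide), map_one]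
        rfl

private theorem exists_blocks (n : ℕ) (hn : 8 ≤ n) : ∃ j r : ℕ, 2 ≤ j ∧ r < 2 ^ (j + 1) ∧
    Nonempty (Fin n ≃ (Fin (2 ^ j) ⊕ Fin (2 ^ j)) ⊕ Fin r) := by
  have h1 : 3 ≤ Nat.log 2 n := Nat.le_log_of_pow_le (by norm_num) hn
  obtain ⟨j, hj⟩ : ∃ j, Nat.log 2 n = j + 1 := ⟨Nat.log 2 n - 1, by omega⟩
  have h2 := Nat.pow_log_le_self 2 (show n ≠ 0 by omega)
  have h3 := Nat.lt_pow_succ_log_self (b := 2) (by norm_num) n
  rw [hj] at h2 h3
  rw [Nat.succ_eq_add_one, pow_succ] at h3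
  have h4 : 2 ^ (j + 1) = 2 ^ j + 2 ^ j := by rw [pow_succ]; ring
  refine ⟨j, n - 2 ^ (j + 1), by omega, by omega, ⟨Fintype.equivOfCardEq ?_⟩⟩
  simp only [Fintype.card_fin, Fintype.card_sum]
  omega

/-- `n = 2h + r`, `h = 2^j`, `j = log₂ n - 1`, and `fail_core` with `G = ⊤`; transport along
`Fin n ≃ (Fin h ⊕ Fin h) ⊕ Fin r` (`star_equiv`, `Equiv.permCongrHom`). -/
theorem not_star_perm_big (n : ℕ) (hn : 8 ≤ n) : ¬ Star' (Perm (Fin n)) := by
  obtain ⟨j, r, hj, hr, e⟩ := exists_blocks n hn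
  obtain ⟨e⟩ := e
  intro hstar
  have h1 : Star' (Perm ((Fin (2 ^ j) ⊕ Fin (2 ^ j)) ⊕ Fin r)) :=
    (star_equiv (Equiv.permCongrHom e)).1 hstar
  have h4 : 4 ≤ 2 ^ j := by
    calc 4 = 2 ^ 2 := rfl
      _ ≤ 2 ^ j := Nat.pow_le_pow_right (by norm_num) hj
  have hev : Even (2 ^ j) := (Nat.even_pow' (by omega)).2 even_two
  obtain ⟨x, y, g, -, hx, hx2, hxb, hy, hy1, hy2, hg, hg0, h3, h1'⟩ :=
    exists_xyg (r := r) h4 hev false (fun h => by simp at h)
  refine fail_core cls3 ⊤ (starIn_top_iff.2 h1) ?_ x y g trivial trivial trivial hx hx2 hxb hy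
    hy1 hy2 hg hg0 h3 h1'
  rw [relIndex_top_right, inf_top_eq]
  exact index_blk hr

/-- the same with `G = alternatingGroup`; for `10 ≤ n ≤ 15`: `h = 4`, `r = n - 8 ≥ 2`. -/
theorem not_star_alt_big (n : ℕ) (hn : 10 ≤ n) : ¬ Star' (alternatingGroup (Fin n)) := by
  obtain ⟨j, r, hj, hr, e⟩ := exists_blocks n (by omega)
  obtain ⟨e⟩ := e
  intro hstar
  have h1 : Star' (alternatingGroup ((Fin (2 ^ j) ⊕ Fin (2 ^ j)) ⊕ Fin r)) :=
    (star_equiv (Equiv.altCongrHom e)).1 hstar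
  have h4 : 4 ≤ 2 ^ j := by
    calc 4 = 2 ^ 2 := rfl
      _ ≤ 2 ^ j := Nat.pow_le_pow_right (by norm_num) hj
  have hev : Even (2 ^ j) := (Nat.even_pow' (by omega)).2 even_two
  have hcard : n = 2 ^ j + 2 ^ j + r := by
    have h5 := Fintype.card_congr e
    simpa using h5
  obtain ⟨x, y, g, ⟨hxA, hgA, hyA⟩, hx, hx2, hxb, hy, hy1, hy2, hg, hg0, h3, h1'⟩ :=
    exists_xyg (r := r) h4 hev true (fun _ => by
      by_contra hcon
      push Not at hcon
      have h5 : 2 ^ j = 4 := by omega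
      omega)
  exact fail_core cls3 (alternatingGroup _) (starIn_iff.2 h1) (relIndex_alt _ (index_blk hr))
    x y g hxA (hyA rfl) hgA hx hx2 hxb hy hy1 hy2 hg hg0 h3 h1'

end Pool.Agent.Lib.MP_e3cc28_alA
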