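import Pool.Agent.Lib.MP_e3cc28_alA.AF02

/-! job AF07d: the groups of degree 7 and 9. -/

set_option autoImplicit false

namespace Pool.Agent.Lib.MP_e3cc28_alA

open Subgroup Equiv
open Pool.Agent.Lib.MP_e3cc28_al (Star' not_star_S5)

private theorem star_of_inj {A B : Type} [Group A] [Group B] [Finite B] (e : A →* B)
    (he : Function.Injective e) (hi : ¬ 2 ∣ e.range.index) (h : Star' B) : Star' A := by
  have : Finite A := Finite.of_injective e he
  have h1 : StarIn (⊤ : Subgroup B) := starIn_top_iff.2 h
  have h2 : StarIn e.range :=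
    StarIn.of_odd h1 le_top (by rwa [Subgroup.relIndex_top_right])
  have h3 : Star' e.range := starIn_iff.1 h2
  exact (star_equiv (MonoidHom.ofInjective he)).2 h3

private theorem index_range {A B : Type} [Group A] [Group B] [Finite B] (e : A →* B)
    (he : Function.Injective e) : Nat.card A * e.range.index = Nat.card B := by
  rw [Nat.card_congr (MonoidHom.ofInjective he).toEquiv]
  exact Subgroup.card_mul_index e.range

/-- the permutations of `Fin (a + b)` preserving the two blocks -/
private def blk (a b : ℕ) : Perm (Fin a) × Perm (Fin b) →* Perm (Fin (a + b)) :=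
  (finSumFinEquiv.permCongrHom : Perm (Fin a ⊕ Fin b) ≃* Perm (Fin (a + b))).toMonoidHom.comp
    (Perm.sumCongrHom (Fin a) (Fin b))

private theorem blk_inj (a b : ℕ) : Function.Injective (blk a b) := by
  intro x y h
  exact Perm.sumCongrHom_injective ((finSumFinEquiv.permCongrHom).injective h)

private theorem blk_sign (a b : ℕ) (x : Perm (Fin a) × Perm (Fin b)) :
    Perm.sign (blk a b x) = Perm.sign x.1 * Perm.sign x.2 := by
  have h : blk a b x = finSumFinEquiv.permCongr (Perm.sumCongr x.1 x.2) := rfl
  rw [h, Perm.sign_permCongr, Perm.sign_sumCongr]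

/-- The setwise stabiliser of `{5, 6}` has index 21 and maps onto `Sym(5)` (restriction to the
other five points); `StarIn.of_odd`, `star_quot_any`, `not_star_S5`. -/
theorem not_star_perm_seven : ¬ Star' (Perm (Fin 7)) := by
  intro h
  have hc := index_range (blk 5 2) (blk_inj 5 2)
  have h1 : Nat.card (Perm (Fin 5) × Perm (Fin 2)) = 240 := by
    rw [Nat.card_prod, Nat.card_perm, Nat.card_perm, Nat.card_fin, Nat.card_fin]; rfl
  have h2 : Nat.card (Perm (Fin (5 + 2))) = 5040 := by
    rw [Nat.card_perm, Nat.card_fin]; rfl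
  rw [h1, h2] at hc
  have h3 : Star' (Perm (Fin 5) × Perm (Fin 2)) :=
    star_of_inj (blk 5 2) (blk_inj 5 2) (by omega) h
  exact not_star_S5 (star_quot_any (MonoidHom.fst _ _) Prod.fst_surjective h3)

/-- the homomorphism `ℤˣ → Sym(2)` inverse to the sign -/
private def uHom : ℤˣ →* Perm (Fin 2) where
  toFun u := if u = 1 then 1 else swap 0 1
  map_one' := by simp
  map_mul' := by decide

private theorem sign_uHom (u : ℤˣ) : Perm.sign (uHom u) = u := by
  revert u; decide

/-- The setwise stabiliser of `{5, 6}` in `Alt(7)` has index 21 and is isomorphic to `Sym(5)`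
(`σ ↦ σ` or `σ (5 6)`). -/
theorem not_star_alt_seven : ¬ Star' (alternatingGroup (Fin 7)) := by
  intro h
  have hm : ∀ σ : Perm (Fin 5), blk 5 2 (σ, uHom (Perm.sign σ)) ∈ alternatingGroup (Fin 7) := by
    intro σ
    rw [Perm.mem_alternatingGroup]
    refine (blk_sign 5 2 _).trans ?_
    rw [sign_uHom]
    exact Int.units_mul_self _
  let g : Perm (Fin 5) →* alternatingGroup (Fin 7) :=
    { toFun := fun σ => ⟨blk 5 2 (σ, uHom (Perm.sign σ)), hm σ⟩
      map_one' := by
        apply Subtype.ext
        show blk 5 2 (1, uHom (Perm.sign 1)) = 1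
        rw [map_one, map_one]
        exact map_one (blk 5 2)
      map_mul' := by
        intro σ τ
        apply Subtype.ext
        show blk 5 2 (σ * τ, uHom (Perm.sign (σ * τ))) =
          blk 5 2 (σ, uHom (Perm.sign σ)) * blk 5 2 (τ, uHom (Perm.sign τ))
        rw [map_mul, map_mul, ← map_mul (blk 5 2)]
        rfl }
  have gi : Function.Injective g := by
    intro σ τ hst
    have h1 := blk_inj 5 2 (congrArg Subtype.val hst)
    exact congrArg Prod.fst h1
  have hc := index_range g gi
  have h1 : Nat.card (Perm (Fin 5)) = 120 := by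
    rw [Nat.card_perm, Nat.card_fin]; rfl
  have h2 : Nat.card (alternatingGroup (Fin 7)) = 2520 := by
    rw [nat_card_alternatingGroup, Nat.card_fin]; rfl
  rw [h1, h2] at hc
  exact not_star_S5 (star_of_inj g gi (by omega) h)

/-- the point stabiliser has index 9 -/
theorem star_alt_eight_of_nine (h : Star' (alternatingGroup (Fin 9))) :
    Star' (alternatingGroup (Fin 8)) := by
  have hm : ∀ σ : alternatingGroup (Fin 8),
      blk 8 1 ((σ : Perm (Fin 8)), 1) ∈ alternatingGroup (Fin 9) := by
    intro σ
    rw [Perm.mem_alternatingGroup]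
    refine (blk_sign 8 1 _).trans ?_
    rw [Perm.sign_one, mul_one]
    exact Perm.mem_alternatingGroup.1 σ.2
  let g : alternatingGroup (Fin 8) →* alternatingGroup (Fin 9) :=
    { toFun := fun σ => ⟨blk 8 1 ((σ : Perm (Fin 8)), 1), hm σ⟩
      map_one' := by
        apply Subtype.ext
        exact map_one (blk 8 1)
      map_mul' := by
        intro σ τ
        apply Subtype.ext
        show blk 8 1 ((σ : Perm (Fin 8)) * τ, 1) =
          blk 8 1 ((σ : Perm (Fin 8)), 1) * blk 8 1 ((τ : Perm (Fin 8)), 1)
        rw [← map_mul (blk 8 1)]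
        rfl }
  have gi : Function.Injective g := by
    intro σ τ hst
    have h1 := blk_inj 8 1 (congrArg Subtype.val hst)
    exact Subtype.ext (congrArg Prod.fst h1)
  have hc := index_range g gi
  have h1 : Nat.card (alternatingGroup (Fin 8)) = 20160 := by
    rw [nat_card_alternatingGroup, Nat.card_fin]; rfl
  have h2 : Nat.card (alternatingGroup (Fin 9)) = 181440 := by
    rw [nat_card_alternatingGroup, Nat.card_fin]; rfl
  rw [h1, h2] at hc
  exact star_of_inj g gi (by omega) h

end Pool.Agent.Lib.MP_e3cc28_alA
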