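import Pool.Agent.Lib.MP_e3cc28_alA.AF01b

/-! job AF09a: the strong form of `(∗)` for `Alt(5)` (Sylow 2-subgroups of order 4 with trivial
intersections). -/

set_option autoImplicit false

namespace Pool.Agent.Lib.MP_e3cc28_alA

open Subgroup Equiv

/-- order and relative index -/
private theorem card_mul_rel {Y : Type} [Group Y] [Finite Y] {P H : Subgroup Y} (hPH : P ≤ H) :
    Nat.card P * P.relIndex H = Nat.card H := by
  have h1 := Subgroup.relIndex_mul_relIndex ⊥ P H bot_le hPH
  rwa [relIndex_bot_left, relIndex_bot_left] at h1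

private theorem card_alt_five : Nat.card (alternatingGroup (Fin 5)) = 60 := by
  rw [nat_card_alternatingGroup, Nat.card_eq_fintype_card, Fintype.card_fin]
  rfl

/-- cycle types of even permutations of order dividing 4 -/
private theorem ct {m : Multiset ℕ} (h1 : ∀ n ∈ m, n = 2 ∨ n = 4) (h2 : m.sum ≤ 5)
    (h3 : Even (m.sum + Multiset.card m)) (h4 : m ≠ 0) : m = {2, 2} := by
  obtain ⟨a, ha⟩ := Multiset.exists_mem_of_ne_zero h4
  obtain ⟨m', rfl⟩ := Multiset.exists_cons_of_mem ha
  have hsmall : ∀ k : Multiset ℕ, (∀ n ∈ k, n = 2 ∨ n = 4) → k.sum ≤ 1 → k = 0 := by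
    intro k hk hk1
    by_contra hk0
    obtain ⟨b, hb⟩ := Multiset.exists_mem_of_ne_zero hk0
    have h5 := Multiset.single_le_sum (fun x _ => Nat.zero_le x) b hb
    rcases hk b hb with h6 | h6 <;> omega
  rw [Multiset.sum_cons] at h2
  rw [Multiset.sum_cons, Multiset.card_cons] at h3
  have h1' : ∀ n ∈ m', n = 2 ∨ n = 4 := fun n hn => h1 n (Multiset.mem_cons_of_mem hn)
  rcases h1 a ha with h5 | h5
  · subst h5
    have hm' : m' ≠ 0 := by
      rintro rfl
      simp only [Multiset.sum_zero, Multiset.card_zero] at h3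
      exact absurd h3 (by decide)
    obtain ⟨b, hb⟩ := Multiset.exists_mem_of_ne_zero hm'
    obtain ⟨m'', rfl⟩ := Multiset.exists_cons_of_mem hb
    rw [Multiset.sum_cons] at h2
    have h1'' : ∀ n ∈ m'', n = 2 ∨ n = 4 := fun n hn => h1' n (Multiset.mem_cons_of_mem hn)
    rcases h1' b hb with h6 | h6
    · subst h6
      rw [hsmall m'' h1'' (by omega)]
      rfl
    · omega
  · subst h5
    have h6 := hsmall m' h1' (by omega)
    subst h6
    simp only [Multiset.sum_zero, Multiset.card_zero] at h3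
    exact absurd h3 (by decide)

/-- The Sylow 2-subgroups of `Alt(5)` have order 4 (`|Alt(5)| = 60`). -/
theorem card_sylIn_alt_five {P : Subgroup (Perm (Fin 5))} (hP : SylIn (alternatingGroup (Fin 5)) P) :
    Nat.card P = 4 := by
  obtain ⟨hPA, hp, hi⟩ := hP
  have : Fact (Nat.Prime 2) := ⟨Nat.prime_two⟩
  have h1 := card_mul_rel hPA
  rw [card_alt_five] at h1
  obtain ⟨k, hk⟩ := IsPGroup.iff_card.1 hp
  rw [hk] at h1 ⊢
  have hk5 : k < 6 := by
    by_contra hcon
    have h2 : 2 ^ 6 ≤ 2 ^ k := Nat.pow_le_pow_right (by norm_num) (by omega)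
    have h3 : 2 ^ k ≤ 60 := Nat.le_of_dvd (by norm_num) ⟨_, h1.symm⟩
    omega
  interval_cases k
  · exfalso
    apply hi
    have h2 : P.relIndex (alternatingGroup (Fin 5)) = 60 := by omega
    rw [h2]
    norm_num
  · exfalso
    apply hi
    have h2 : P.relIndex (alternatingGroup (Fin 5)) = 30 := by omega
    rw [h2]
    norm_num
  · rfl
  · omega
  · omega
  · omega

/-- An element `x ≠ 1` of 2-power order of `Alt(5)` has cycle type `{2, 2}`; its centraliser in
`Sym(5)` has order 8 (`Equiv.Perm.nat_card_centralizer`) and contains odd permutations, so its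
centraliser in `Alt(5)` has order 4. (Only the upper bound is needed.) -/
theorem card_cent_alt_five (x : Perm (Fin 5)) (hx : x ∈ alternatingGroup (Fin 5))
    (h4 : x ^ 4 = 1) (h1 : x ≠ 1) :
    Nat.card ↥(centralizer {x} ⊓ alternatingGroup (Fin 5)) ≤ 4 := by
  classical
  have hct : x.cycleType = {2, 2} := by
    refine ct ?_ ?_ ?_ ?_
    · intro n hn
      have h5 : n ∣ 4 := (Equiv.Perm.dvd_of_mem_cycleType hn).trans (orderOf_dvd_of_pow_eq_one h4)
      have h6 : 2 ≤ n := Equiv.Perm.two_le_of_mem_cycleType hn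
      have h7 : n ≤ 4 := Nat.le_of_dvd (by norm_num) h5
      interval_cases n
      · exact Or.inl rfl
      · exact absurd h5 (by norm_num)
      · exact Or.inr rfl
    · have h5 := Equiv.Perm.sum_cycleType_le x
      rwa [Fintype.card_fin] at h5
    · have h5 : Equiv.Perm.sign x = 1 := Equiv.Perm.mem_alternatingGroup.1 hx
      rw [Equiv.Perm.sign_of_cycleType] at h5
      by_contra hcon
      rw [Nat.not_even_iff_odd] at hcon
      rw [hcon.neg_one_pow] at h5
      exact absurd h5 (by decide)
    · intro h5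
      exact h1 (Equiv.Perm.cycleType_eq_zero.1 h5)
  have hc8 : Nat.card (centralizer {x}) = 8 := by
    rw [Equiv.Perm.nat_card_centralizer, hct, Fintype.card_fin]
    decide
  have hodd : ∃ c ∈ centralizer {x}, c ∉ alternatingGroup (Fin 5) := by
    have h5 : 2 ∈ x.cycleType := by
      rw [hct]
      decide
    rw [Equiv.Perm.cycleType_def, Multiset.mem_map] at h5
    obtain ⟨c, hc, hc2⟩ := h5
    have hc' : c ∈ x.cycleFactorsFinset := hc
    refine ⟨c, ?_, ?_⟩
    · rw [mem_centralizer_singleton_iff]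
      exact Equiv.Perm.self_mem_cycle_factors_commute hc'
    · intro hcA
      have h6 : Equiv.Perm.sign c = 1 := Equiv.Perm.mem_alternatingGroup.1 hcA
      have h7 : c.IsCycle := (Equiv.Perm.mem_cycleFactorsFinset_iff.1 hc').1
      rw [h7.sign] at h6
      have h8 : c.support.card = 2 := hc2
      rw [h8] at h6
      exact absurd h6 (by decide)
  have h5 := card_mul_rel (inf_le_left : centralizer {x} ⊓ alternatingGroup (Fin 5) ≤
    centralizer {x})
  rw [hc8] at h5
  have h6 : (centralizer {x} ⊓ alternatingGroup (Fin 5)).relIndex (centralizer {x}) ≠ 1 := by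
    intro h7
    rw [relIndex_eq_one] at h7
    obtain ⟨c, hc, hcA⟩ := hodd
    exact hcA (h7 hc).2
  have h7 : (centralizer {x} ⊓ alternatingGroup (Fin 5)).relIndex (centralizer {x}) ≠ 0 := by
    intro h8
    rw [h8] at h5
    omega
  have h8 : 2 ≤ (centralizer {x} ⊓ alternatingGroup (Fin 5)).relIndex (centralizer {x}) := by
    omega
  nlinarith

/-- Proof. Groups of order 4 are commutative. If `1 ≠ x ∈ P ∩ Q`, then `P` and `Q` are contained in
the centraliser of `x` in `Alt(5)`, which has order at most 4, so `P = Q`. Hence `P = Q` or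
`P ∩ Q = 1`, and `h = 1` works in both cases. -/
theorem strong_five : Strong (alternatingGroup (Fin 5)) (alternatingGroup (Fin 5)) := by
  intro P Q hP hQ
  have : Fact (Nat.Prime 2) := ⟨Nat.prime_two⟩
  have key : ∀ x : Perm (Fin 5), x ≠ 1 → ∀ R : Subgroup (Perm (Fin 5)),
      SylIn (alternatingGroup (Fin 5)) R → x ∈ R →
      R = centralizer {x} ⊓ alternatingGroup (Fin 5) := by
    intro x hx R hR hxR
    have hc := card_sylIn_alt_five hR
    have hcomm : IsMulCommutative R := IsPGroup.isMulCommutative_of_card_eq_prime_sq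
      (p := 2) (by rw [hc]; norm_num)
    have hx4 : x ^ 4 = 1 := by
      have h1 : (⟨x, hxR⟩ : R) ^ Nat.card R = 1 := pow_card_eq_one'
      rw [hc] at h1
      exact congrArg Subtype.val h1
    have hle : R ≤ centralizer {x} ⊓ alternatingGroup (Fin 5) := by
      intro y hy
      refine mem_inf.2 ⟨?_, hR.1 hy⟩
      rw [mem_centralizer_singleton_iff]
      have h1 : (⟨x, hxR⟩ : R) * ⟨y, hy⟩ = ⟨y, hy⟩ * ⟨x, hxR⟩ := mul_comm' _ _
      exact (congrArg Subtype.val h1).symm
    exact eq_of_le_of_card_ge hle (by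
      rw [hc]
      exact card_cent_alt_five x (hR.1 hxR) hx4 hx)
  refine ⟨1, one_mem _, ?_, ?_⟩
  · intro d hd _
    simpa using hd
  · intro s hs d hdP hdQ
    by_cases hd : d = 1
    · subst hd
      simp
    · have h1 : P = Q := (key d hd P hP hdP).trans (key d hd Q hQ hdQ).symm
      subst h1
      have h2 : (1 * s * 1⁻¹) * d * (1 * s * 1⁻¹)⁻¹ ∈ P := by
        simpa using P.mul_mem (P.mul_mem hs hdP) (P.inv_mem hs)
      exact ⟨h2, h2⟩

end Pool.Agent.Lib.MP_e3cc28_alA
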