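import Pool.Agent.Lib.MP_e3cc28_alA.AH03

/-! job AF09d: the pairs of Sylow 2-subgroups `C_G(z)`, `C_G(w)` of `G = Alt(6)`, `Sym(6)`,
according to the order of `zw`. -/

set_option autoImplicit false

namespace Pool.Agent.Lib.MP_e3cc28_alA

open Subgroup Equiv

variable {G : Subgroup (Perm (Fin 6))} {z w : Perm (Fin 6)}

private theorem mem_cent {v x : Perm (Fin 6)} :
    x ∈ (centralizer {v} : Subgroup (Perm (Fin 6))) ↔ x * v = v * x := by
  rw [Subgroup.mem_centralizer_singleton_iff]

private theorem comm_zw {z w d : Perm (Fin 6)} (h1 : d * z = z * d) (h2 : d * w = w * d) :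
    d * (z * w) = (z * w) * d := by
  rw [← mul_assoc, h1, mul_assoc, h2, mul_assoc]

private theorem comm_v {z w d : Perm (Fin 6)} (h1 : d * z = z * d) (h2 : d * w = w * d) :
    d * (z * w * (z * w)) = (z * w * (z * w)) * d :=
  comm_zw (comm_zw h1 h2) (comm_zw h1 h2)

private theorem pow_of_mem_card {H : Subgroup (Perm (Fin 6))} {n : ℕ} (hn : Nat.card H = n)
    {d : Perm (Fin 6)} (hd : d ∈ H) : d ^ n = 1 := by
  have h1 : (⟨d, hd⟩ : H) ^ Nat.card H = 1 := pow_card_eq_one'
  rw [hn] at h1
  exact congrArg Subtype.val h1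

/-- `z` and `w` commute: `h = 1`. For `s` in the centraliser of `z` the commutator of `s` and `w` is
`1` or `z` (`EvInv.comm` for `z`), so `s⁻¹ w s` is `w` or `w z` up to order, and this commutes with
every `d` which commutes with `z` and `w`. -/
theorem pair_comm (hz : EvInv z) (hw : EvInv w) (h : z * w = w * z) :
    StrongPair G (alternatingGroup (Fin 6)) (centralizer {z} ⊓ G) (centralizer {w} ⊓ G) := by
  refine ⟨1, Subgroup.one_mem _, ?_, ?_⟩
  · intro d hdz _
    simpa using hdz
  · intro s hs d hdz hdw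
    rw [Subgroup.mem_inf, mem_cent] at hs hdz hdw
    have hwz : w * z = z * w := h.symm
    have hconj : ∃ y : Perm (Fin 6), w * s = s * y ∧ d * y = y * d := by
      rcases hz.comm hs.1 hwz with h1 | h1
      · exact ⟨w, h1.symm, hdw.1⟩
      · refine ⟨z * w, ?_, ?_⟩
        · have h2 : z * (s * w) = w * s := by
            rw [h1, ← mul_assoc, hz.2.1, one_mul]
          rw [← h2, ← mul_assoc, ← mul_assoc, hs.1]
        · rw [← mul_assoc, hdz.1, mul_assoc, hdw.1, mul_assoc]
    obtain ⟨y, hy1, hy2⟩ := hconj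
    have hz1 : (s * d * s⁻¹) * z = z * (s * d * s⁻¹) := by
      have h3 : s⁻¹ * z = z * s⁻¹ := by
        calc s⁻¹ * z = s⁻¹ * (z * s) * s⁻¹ := by group
          _ = s⁻¹ * (s * z) * s⁻¹ := by rw [hs.1]
          _ = z * s⁻¹ := by group
      calc (s * d * s⁻¹) * z = s * d * (s⁻¹ * z) := by group
        _ = s * (d * z) * s⁻¹ := by rw [h3]; group
        _ = (s * z) * d * s⁻¹ := by rw [hdz.1]; group
        _ = z * (s * d * s⁻¹) := by rw [hs.1]; group
    have hw1 : (s * d * s⁻¹) * w = w * (s * d * s⁻¹) := by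
      have h3 : s⁻¹ * w = y * s⁻¹ := by
        calc s⁻¹ * w = s⁻¹ * (w * s) * s⁻¹ := by group
          _ = s⁻¹ * (s * y) * s⁻¹ := by rw [hy1]
          _ = y * s⁻¹ := by group
      calc (s * d * s⁻¹) * w = s * d * (s⁻¹ * w) := by group
        _ = s * (d * y) * s⁻¹ := by rw [h3]; group
        _ = (s * y) * d * s⁻¹ := by rw [hy2]; group
        _ = w * (s * d * s⁻¹) := by rw [← hy1]; group
    have hG1 : s * d * s⁻¹ ∈ G := G.mul_mem (G.mul_mem hs.2 hdz.2) (G.inv_mem hs.2)
    rw [one_mul, inv_one, mul_one, Subgroup.mem_inf, Subgroup.mem_inf, mem_cent, mem_cent]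
    exact ⟨⟨hz1, hG1⟩, ⟨hw1, hG1⟩⟩

/-- `zw` has order 4: `v = (zw)²`. The group `⟨z, w⟩` has order 8 and centralises `v`, so it is the
centraliser of `v` in `Alt(6)` (`EvInv.card_cent_alt`). `D` = centraliser of `z` and `w` commutes
with `v` and contains `v`; for `s` in the centraliser of `v` and `d ∈ D` the commutator of `s` and
`d` is `1` or `v` (`EvInv.comm`), so `s d s⁻¹` is `d` or `v d`. Use `strongPair_of`. -/
theorem pair_four (hG : alternatingGroup (Fin 6) ≤ G) (hz : EvInv z) (hw : EvInv w)
    (h : z * w ≠ w * z) (h4 : (z * w) ^ 4 = 1) :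
    StrongPair G (alternatingGroup (Fin 6)) (centralizer {z} ⊓ G) (centralizer {w} ⊓ G) := by
  have hz2 := hz.2.1
  have hw2 := hw.2.1
  have hzi : z⁻¹ = z := inv_eq_of_mul_eq_one_left hz2
  have hwi : w⁻¹ = w := inv_eq_of_mul_eq_one_left hw2
  set v : Perm (Fin 6) := z * w * (z * w) with hvdef
  have hv : EvInv v := by
    refine ⟨mul_mem (mul_mem hz.1 hw.1) (mul_mem hz.1 hw.1), ?_, ?_⟩
    · calc v * v = (z * w) ^ 4 := by
            simp only [hvdef, pow_succ, pow_zero, one_mul, mul_assoc]
        _ = 1 := h4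
    · intro h1
      apply h
      have h2 : z * w = (z * w)⁻¹ := eq_inv_of_mul_eq_one_left h1
      rw [mul_inv_rev, hzi, hwi] at h2
      exact h2
  have hvi : v⁻¹ = v := inv_eq_of_mul_eq_one_left hv.2.1
  have hvr : v = w * z * (w * z) := by
    rw [← hvi, hvdef, mul_inv_rev, mul_inv_rev, hzi, hwi]
  have hzv : z * v = v * z := by
    calc z * v = (z * z) * (w * z * w) := by rw [hvdef]; group
      _ = (w * z * w) * (z * z) := by rw [hz2]; group
      _ = v * z := by rw [hvr]; group
  have hwv : w * v = v * w := by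
    calc w * v = (w * w) * (z * w * z) := by rw [hvr]; group
      _ = (z * w * z) * (w * w) := by rw [hw2]; group
      _ = v * w := by rw [hvdef]; group
  have hcl : closure {z, w} = centralizer {v} ⊓ alternatingGroup (Fin 6) := by
    have hle : closure {z, w} ≤ centralizer {v} ⊓ alternatingGroup (Fin 6) := by
      rw [closure_le]
      intro x hx
      rcases hx with hx | hx
      · rw [hx]
        exact Subgroup.mem_inf.2 ⟨mem_cent.2 hzv, hz.1⟩
      · rw [Set.mem_singleton_iff] at hx
        rw [hx]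
        exact Subgroup.mem_inf.2 ⟨mem_cent.2 hwv, hw.1⟩
    have hdvd : Nat.card (closure {z, w}) ∣ 2 ^ 3 := by
      have h1 := Subgroup.card_dvd_of_le hle
      rw [hv.card_cent_alt] at h1
      exact h1
    obtain ⟨k, hk3, hk⟩ := (Nat.dvd_prime_pow Nat.prime_two).1 hdvd
    have hzc : z ∈ closure {z, w} := subset_closure (by simp)
    have hwc : w ∈ closure {z, w} := subset_closure (by simp)
    have : Fact (Nat.Prime 2) := ⟨Nat.prime_two⟩
    have hnc : ∀ hc : IsMulCommutative (closure {z, w}), False := by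
      intro hc
      apply h
      have h1 : (⟨z, hzc⟩ : closure {z, w}) * ⟨w, hwc⟩ = ⟨w, hwc⟩ * ⟨z, hzc⟩ := mul_comm' _ _
      exact congrArg Subtype.val h1
    have hk' : k = 3 := by
      interval_cases k
      · exfalso
        have h1 := Subgroup.card_eq_one.1 hk
        rw [h1, Subgroup.mem_bot] at hzc
        exact hz.2.2 hzc
      · exfalso
        apply hnc
        have hcyc : IsCyclic (closure {z, w}) := isCyclic_of_prime_card (p := 2) (by rw [hk]; rfl)
        exact ⟨⟨fun a b => (IsCyclic.commGroup (α := closure {z, w})).mul_comm a b⟩⟩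
      · exfalso
        exact hnc (IsPGroup.isMulCommutative_of_card_eq_prime_sq (p := 2) hk)
      · rfl
    subst hk'
    exact Subgroup.eq_of_le_of_card_ge hle (by rw [hk, hv.card_cent_alt]; norm_num)
  refine strongPair_of hG hz hw hv ?_ ?_ ?_
  · rw [← hcl, closure_le]
    intro x hx
    rcases hx with hx | hx
    · rw [hx]
      refine Subgroup.mem_sup_left (Subgroup.mem_inf.2 ⟨Subgroup.mem_inf.2 ⟨?_, hG hz.1⟩, hz.1⟩)
      exact mem_cent.2 rfl
    · rw [Set.mem_singleton_iff] at hx
      rw [hx]
      refine Subgroup.mem_sup_right (Subgroup.mem_inf.2 ⟨Subgroup.mem_inf.2 ⟨?_, hG hw.1⟩, hw.1⟩)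
      exact mem_cent.2 rfl
  · intro d _ hdz hdw
    exact comm_v hdz hdw
  · intro s _ hsv d _ hdz hdw
    have hdv : d * v = v * d := comm_v hdz hdw
    rcases hv.comm hsv hdv with h1 | h1
    · have h2 : s * d * s⁻¹ = d := by rw [h1]; group
      rw [h2]
      exact ⟨hdz, hdw⟩
    · have h2 : s * d * s⁻¹ = v * d := by rw [h1]; group
      rw [h2]
      refine ⟨?_, ?_⟩
      · rw [mul_assoc, hdz, ← mul_assoc, ← hzv, mul_assoc]
      · rw [mul_assoc, hdw, ← mul_assoc, ← hwv, mul_assoc]

/-- `zw` has order 5: the intersection `D` of `C_G(z)` and `C_G(w)` is a 2-group (16 is a power of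
2) and it is contained in the centraliser of `zw`, of order 5 (`card_cent_five`), so `D = 1`
(`strongPair_of_trivial`). -/
theorem pair_five (hz : EvInv z) (hw : EvInv w) (h5 : (z * w) ^ 5 = 1) (h1 : z * w ≠ 1) :
    StrongPair G (alternatingGroup (Fin 6)) (centralizer {z} ⊓ G) (centralizer {w} ⊓ G) := by
  refine strongPair_of_trivial G ?_
  intro d _ hdz hdw
  have h16 : d ^ 16 = 1 := pow_of_mem_card hz.card_cent (mem_cent.2 hdz)
  have hd5 : d ^ 5 = 1 := pow_of_mem_card (card_cent_five h5 h1) (mem_cent.2 (comm_zw hdz hdw))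
  calc d = d ^ 16 * ((d ^ 5) ^ 3)⁻¹ := by group
    _ = 1 := by rw [h16, hd5]; simp

/-- If `zw` has order 3 and `D = C_G(z) ∩ C_G(w)` is not trivial, then `D = {1, u}` with an odd
involution `u`.

Proof. `D` is a 2-group and contained in the centraliser of `zw`, of order 18, so `|D| ≤ 2`. If
`D = {1, u}` and `u` is even, then the centraliser of `u` in `Alt(6)` has order 8 and contains
`zw`, of order 3, a contradiction. -/
theorem exists_odd (hz : EvInv z) (hw : EvInv w) (h3 : (z * w) ^ 3 = 1) (h1 : z * w ≠ 1)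
    (hD : ∃ d ∈ G, d * z = z * d ∧ d * w = w * d ∧ d ≠ 1) :
    ∃ u ∈ G, u ∉ alternatingGroup (Fin 6) ∧ u * u = 1 ∧ u * z = z * u ∧ u * w = w * u ∧
      ∀ d ∈ G, d * z = z * d → d * w = w * d → d = 1 ∨ d = u := by
  obtain ⟨u, huG, huz, huw, hu1⟩ := hD
  have hord : ∀ x : Perm (Fin 6), x * z = z * x → x * w = w * x → x ^ 2 = 1 := by
    intro x hxz hxw
    have h16 : x ^ 16 = 1 := pow_of_mem_card hz.card_cent (mem_cent.2 hxz)
    have h18 : x ^ 18 = 1 := pow_of_mem_card (card_cent_three h3 h1) (mem_cent.2 (comm_zw hxz hxw))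
    calc x ^ 2 = x ^ 18 * (x ^ 16)⁻¹ := by group
      _ = 1 := by rw [h16, h18]; simp
  have hcard : Nat.card ↥((centralizer {z} : Subgroup (Perm (Fin 6))) ⊓ centralizer {w}) ≤ 2 := by
    have d1 : Nat.card ↥((centralizer {z} : Subgroup (Perm (Fin 6))) ⊓ centralizer {w}) ∣ 16 := by
      have h2 := Subgroup.card_dvd_of_le
        (inf_le_left : (centralizer {z} : Subgroup (Perm (Fin 6))) ⊓ centralizer {w} ≤
          centralizer {z})
      rwa [hz.card_cent] at h2
    have d2 : Nat.card ↥((centralizer {z} : Subgroup (Perm (Fin 6))) ⊓ centralizer {w}) ∣ 18 := by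
      have hle : (centralizer {z} : Subgroup (Perm (Fin 6))) ⊓ centralizer {w} ≤
          centralizer {z * w} := by
        intro x hx
        rw [Subgroup.mem_inf, mem_cent, mem_cent] at hx
        exact mem_cent.2 (comm_zw hx.1 hx.2)
      have h2 := Subgroup.card_dvd_of_le hle
      rwa [card_cent_three h3 h1] at h2
    have d3 := Nat.dvd_gcd d1 d2
    exact Nat.le_of_dvd (by norm_num) d3
  have huA : u ∉ alternatingGroup (Fin 6) := by
    intro huA
    have hu2 : u * u = 1 := by
      have h2 := hord u huz huw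
      rwa [sq] at h2
    have hev : EvInv u := ⟨huA, hu2, hu1⟩
    have h8 : (z * w) ^ 8 = 1 := by
      refine pow_of_mem_card hev.card_cent_alt (Subgroup.mem_inf.2 ⟨mem_cent.2 ?_, ?_⟩)
      · exact (comm_zw huz huw).symm
      · exact mul_mem hz.1 hw.1
    apply h1
    calc z * w = ((z * w) ^ 3) ^ 3 * ((z * w) ^ 8)⁻¹ := by group
      _ = 1 := by rw [h3, h8]; simp
  refine ⟨u, huG, huA, ?_, huz, huw, ?_⟩
  · have h2 := hord u huz huw
    rwa [sq] at h2
  · intro d _ hdz hdw
    by_contra hcon
    push Not at hcon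
    obtain ⟨hd1, hdu⟩ := hcon
    have hmem : ∀ x : Perm (Fin 6), x * z = z * x → x * w = w * x →
        x ∈ (centralizer {z} : Subgroup (Perm (Fin 6))) ⊓ centralizer {w} := by
      intro x h2 h4
      rw [Subgroup.mem_inf, mem_cent, mem_cent]
      exact ⟨h2, h4⟩
    have hinj : Function.Injective (fun i : Fin 3 =>
        (![⟨1, Subgroup.one_mem _⟩, ⟨u, hmem u huz huw⟩, ⟨d, hmem d hdz hdw⟩] i :
          ↥((centralizer {z} : Subgroup (Perm (Fin 6))) ⊓ centralizer {w}))) := by
      intro i j hij
      have hij' := congrArg Subtype.val hij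
      fin_cases i <;> fin_cases j
      · rfl
      · exact absurd hij'.symm hu1
      · exact absurd hij'.symm hd1
      · exact absurd hij' hu1
      · rfl
      · exact absurd hij'.symm hdu
      · exact absurd hij' hd1
      · exact absurd hij' hdu
      · rfl
    have h5 := Nat.card_le_card_of_injective _ hinj
    rw [Nat.card_eq_fintype_card, Fintype.card_fin] at h5
    omega

/-- In the situation of `exists_odd`: the centraliser `C` of `u` in `A = Alt(6)` (order 24,
`card_cent_odd`) is generated by `U₁ = C ∩ C(z)` and `U₂ = C ∩ C(w)`.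

Proof. The centraliser of `z` in `A` has order 8, and its elements commute with `u` up to `z`
(`EvInv.comm` for `z`), so those which commute with `u` form a subgroup `U₁` of index at most 2, of
order at least 4; the same for `U₂`. `U₁ ∩ U₂` is trivial (an element of it commutes with `z` and
`w` and is even). So the subgroup generated by `U₁` and `U₂` has at least 16 elements
(`u₁ u₂`), and its order divides 24; hence it is 24. -/
theorem cent_le_sup {u : Perm (Fin 6)} (hz : EvInv z) (hw : EvInv w)
    (hu : u ∉ alternatingGroup (Fin 6)) (hu2 : u * u = 1) (huz : u * z = z * u)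
    (huw : u * w = w * u)
    (hD : ∀ d ∈ alternatingGroup (Fin 6), d * z = z * d → d * w = w * d → d = 1) :
    centralizer {u} ⊓ alternatingGroup (Fin 6) ≤
      (centralizer {z} ⊓ alternatingGroup (Fin 6)) ⊔
        (centralizer {w} ⊓ alternatingGroup (Fin 6)) := by
  have h4 : ∀ x : Perm (Fin 6), EvInv x → u * x = x * u →
      4 ≤ Nat.card ↥((centralizer {x} ⊓ centralizer {u} : Subgroup (Perm (Fin 6))) ⊓
        alternatingGroup (Fin 6)) := by
    intro x hx hux
    by_cases hall : centralizer {x} ⊓ alternatingGroup (Fin 6) ≤ centralizer {u}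
    · have h1 : centralizer {x} ⊓ alternatingGroup (Fin 6) ≤
          (centralizer {x} ⊓ centralizer {u} : Subgroup (Perm (Fin 6))) ⊓
            alternatingGroup (Fin 6) := le_inf (le_inf inf_le_left hall) inf_le_right
      have h2 := Nat.le_of_dvd Nat.card_pos (Subgroup.card_dvd_of_le h1)
      rw [hx.card_cent_alt] at h2
      omega
    · obtain ⟨a, ha, hau⟩ := SetLike.not_le_iff_exists.1 hall
      rw [Subgroup.mem_inf, mem_cent] at ha
      rw [mem_cent] at hau
      have hau' : a * u = x * (u * a) := by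
        rcases hx.comm ha.1 hux with h1 | h1
        · exact absurd h1 hau
        · exact h1
      -- the map to the subgroup times a sign
      have hkey : ∀ b : Perm (Fin 6), b * x = x * b → ¬ b * u = u * b →
          (a⁻¹ * b) * u = u * (a⁻¹ * b) := by
        intro b hbx hbu
        have hbu' : b * u = x * (u * b) := by
          rcases hx.comm hbx hux with h1 | h1
          · exact absurd h1 hbu
          · exact h1
        have e1 : a⁻¹ * (x * u) = u * a⁻¹ := by
          calc a⁻¹ * (x * u) = a⁻¹ * (x * (u * a)) * a⁻¹ := by group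
            _ = a⁻¹ * (a * u) * a⁻¹ := by rw [hau']
            _ = u * a⁻¹ := by group
        calc (a⁻¹ * b) * u = a⁻¹ * (b * u) := by group
          _ = a⁻¹ * (x * u) * b := by rw [hbu']; group
          _ = u * (a⁻¹ * b) := by rw [e1]; group
      classical
      let U : Subgroup (Perm (Fin 6)) := (centralizer {x} ⊓ centralizer {u}) ⊓
        alternatingGroup (Fin 6)
      let f : ↥(centralizer {x} ⊓ alternatingGroup (Fin 6)) → U × Bool := fun b =>
        if hb : (b : Perm (Fin 6)) * u = u * b then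
          (⟨b, by
            have h1 := Subgroup.mem_inf.1 b.2
            exact Subgroup.mem_inf.2 ⟨Subgroup.mem_inf.2 ⟨h1.1, mem_cent.2 hb⟩, h1.2⟩⟩, true)
        else
          (⟨a⁻¹ * b, by
            have h1 := Subgroup.mem_inf.1 b.2
            refine Subgroup.mem_inf.2 ⟨Subgroup.mem_inf.2 ⟨?_, mem_cent.2
              (hkey b (mem_cent.1 h1.1) hb)⟩, ?_⟩
            · exact mul_mem (inv_mem (mem_cent.2 ha.1)) h1.1
            · exact mul_mem (inv_mem ha.2) h1.2⟩, false)
      have hf : Function.Injective f := by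
        intro b c hbc
        by_cases hb : (b : Perm (Fin 6)) * u = u * b
        · by_cases hc : (c : Perm (Fin 6)) * u = u * c
          · simp only [f, hb, hc, dif_pos, Prod.mk.injEq, Subtype.mk.injEq] at hbc
            exact Subtype.ext hbc.1
          · simp only [f, hb, hc, dif_pos, dif_neg, not_false_eq_true, Prod.mk.injEq] at hbc
            exact absurd hbc.2 (by decide)
        · by_cases hc : (c : Perm (Fin 6)) * u = u * c
          · simp only [f, hb, hc, dif_pos, dif_neg, not_false_eq_true, Prod.mk.injEq] at hbc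
            exact absurd hbc.2 (by decide)
          · simp only [f, hb, hc, dif_neg, not_false_eq_true, Prod.mk.injEq,
              Subtype.mk.injEq] at hbc
            exact Subtype.ext (mul_left_cancel hbc.1)
      have h5 := Nat.card_le_card_of_injective f hf
      rw [hx.card_cent_alt, Nat.card_prod] at h5
      have h6 : Nat.card Bool = 2 := by simp
      rw [h6] at h5
      change 4 ≤ Nat.card U
      omega
  set U₁ : Subgroup (Perm (Fin 6)) := (centralizer {z} ⊓ centralizer {u}) ⊓
    alternatingGroup (Fin 6) with hU₁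
  set U₂ : Subgroup (Perm (Fin 6)) := (centralizer {w} ⊓ centralizer {u}) ⊓
    alternatingGroup (Fin 6) with hU₂
  have c1 := h4 z hz huz
  have c2 := h4 w hw huw
  rw [← hU₁] at c1
  rw [← hU₂] at c2
  have hle : U₁ ⊔ U₂ ≤ centralizer {u} ⊓ alternatingGroup (Fin 6) :=
    sup_le (le_inf (inf_le_left.trans inf_le_right) inf_le_right)
      (le_inf (inf_le_left.trans inf_le_right) inf_le_right)
  have h16 : 16 ≤ Nat.card ↥(U₁ ⊔ U₂) := by
    let f : U₁ × U₂ → ↥(U₁ ⊔ U₂) := fun p =>
      ⟨(p.1 : Perm (Fin 6)) * p.2, mul_mem (Subgroup.mem_sup_left p.1.2)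
        (Subgroup.mem_sup_right p.2.2)⟩
    have hf : Function.Injective f := by
      rintro ⟨⟨a, ha⟩, ⟨b, hb⟩⟩ ⟨⟨a', ha'⟩, ⟨b', hb'⟩⟩ h
      have h1 : a * b = a' * b' := congrArg Subtype.val h
      have h2 : a'⁻¹ * a = b' * b⁻¹ := by
        calc a'⁻¹ * a = a'⁻¹ * (a * b) * b⁻¹ := by group
          _ = a'⁻¹ * (a' * b') * b⁻¹ := by rw [h1]
          _ = b' * b⁻¹ := by group
      have m1 : a'⁻¹ * a ∈ U₁ := mul_mem (inv_mem ha') ha
      have m2 : a'⁻¹ * a ∈ U₂ := by rw [h2]; exact mul_mem hb' (inv_mem hb)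
      have h3 : a'⁻¹ * a = 1 :=
        hD _ (Subgroup.mem_inf.1 m1).2 (mem_cent.1 (Subgroup.mem_inf.1 (Subgroup.mem_inf.1 m1).1).1)
          (mem_cent.1 (Subgroup.mem_inf.1 (Subgroup.mem_inf.1 m2).1).1)
      have h5 : a' = a := by
        calc a' = a' * (a'⁻¹ * a) := by rw [h3, mul_one]
          _ = a := by group
      subst h5
      have h6 : b = b' := mul_left_cancel h1
      subst h6
      rfl
    have h5 := Nat.card_le_card_of_injective f hf
    rw [Nat.card_prod] at h5
    calc 16 = 4 * 4 := by norm_num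
      _ ≤ Nat.card U₁ * Nat.card U₂ := Nat.mul_le_mul c1 c2
      _ ≤ _ := h5
  have hdvd := Subgroup.card_dvd_of_le hle
  rw [card_cent_odd hu hu2] at hdvd
  have h24 : Nat.card ↥(U₁ ⊔ U₂) = 24 := by
    obtain ⟨k, hk⟩ := hdvd
    have hk0 : k ≠ 0 := by rintro rfl; omega
    have hk2 : k < 2 := by
      by_contra hcon
      have : 16 * 2 ≤ Nat.card ↥(U₁ ⊔ U₂) * k := Nat.mul_le_mul h16 (by omega)
      omega
    have hk1 : k = 1 := by omega
    rw [hk1, mul_one] at hk
    exact hk.symm
  have heq : U₁ ⊔ U₂ = centralizer {u} ⊓ alternatingGroup (Fin 6) :=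
    Subgroup.eq_of_le_of_card_ge hle (by rw [h24, card_cent_odd hu hu2])
  rw [← heq]
  exact sup_le_sup (le_inf (inf_le_left.trans inf_le_left) inf_le_right)
    (le_inf (inf_le_left.trans inf_le_left) inf_le_right)

/-- `zw` has order 3.

Proof. If `D` is trivial, `strongPair_of_trivial`. Otherwise let `u` be as in `exists_odd`. The
centraliser `C` of `u` in `Alt(6)` has order `24 = 8 * 3`; a Sylow 2-subgroup of `C` has order 8, so
it is a Sylow 2-subgroup of `Alt(6)` and equal to the centraliser of an even involution `v` in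
`Alt(6)` (`exists_evInv`). `v ∈ C`, so `D = {1, u}` commutes with `v`. Let `s ∈ G` commute with `v`:
if `s` is even, then `s` is in `C`, so it commutes with `u`; if `s` is odd, then `s u` is even and
commutes with `v`, so it commutes with `u`, and `s` commutes with `u`. Use `strongPair_of` and
`cent_le_sup`. -/
theorem pair_three (hG : alternatingGroup (Fin 6) ≤ G) (hz : EvInv z) (hw : EvInv w)
    (h3 : (z * w) ^ 3 = 1) (h1 : z * w ≠ 1) :
    StrongPair G (alternatingGroup (Fin 6)) (centralizer {z} ⊓ G) (centralizer {w} ⊓ G) := by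
  by_cases hD : ∃ d ∈ G, d * z = z * d ∧ d * w = w * d ∧ d ≠ 1
  swap
  · refine strongPair_of_trivial G ?_
    intro d hd hdz hdw
    by_contra hcon
    exact hD ⟨d, hd, hdz, hdw, hcon⟩
  obtain ⟨u, huG, huA, hu2, huz, huw, hdu⟩ := exists_odd hz hw h3 h1 hD
  have hne : u ≠ 1 := by
    rintro rfl
    exact huA (one_mem _)
  have hDA : ∀ d ∈ alternatingGroup (Fin 6), d * z = z * d → d * w = w * d → d = 1 := by
    intro d hd hdz hdw
    rcases hdu d (hG hd) hdz hdw with h | h
    · exact h
    · rw [h] at hd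
      exact absurd hd huA
  have hcs := cent_le_sup hz hw huA hu2 huz huw hDA
  -- a Sylow subgroup of the centraliser of `u`
  obtain ⟨v, hv, hvC⟩ : ∃ v, EvInv v ∧ centralizer {v} ⊓ alternatingGroup (Fin 6) ≤
      centralizer {u} ⊓ alternatingGroup (Fin 6) := by
    have : Fact (Nat.Prime 2) := ⟨Nat.prime_two⟩
    have hc := card_cent_odd huA hu2
    obtain ⟨K, hK⟩ := Sylow.exists_subgroup_card_pow_prime
      (G := ↥(centralizer {u} ⊓ alternatingGroup (Fin 6))) 2 (n := 3)
      (by rw [hc]; norm_num)
    have hcS : Nat.card ↥(K.map (centralizer {u} ⊓ alternatingGroup (Fin 6)).subtype) = 8 := by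
      rw [Subgroup.card_map_of_injective (Subgroup.subtype_injective _), hK]
      norm_num
    have hSle : K.map (centralizer {u} ⊓ alternatingGroup (Fin 6)).subtype ≤
        centralizer {u} ⊓ alternatingGroup (Fin 6) := Subgroup.map_subtype_le K
    have hSA : K.map (centralizer {u} ⊓ alternatingGroup (Fin 6)).subtype ≤
        alternatingGroup (Fin 6) := hSle.trans inf_le_right
    have hS : SylIn (alternatingGroup (Fin 6))
        (K.map (centralizer {u} ⊓ alternatingGroup (Fin 6)).subtype) := by
      refine ⟨hSA, IsPGroup.of_card (n := 3) (by rw [hcS]; norm_num), ?_⟩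
      have h2 := Subgroup.relIndex_mul_relIndex (⊥ : Subgroup (Perm (Fin 6))) _ _ bot_le hSA
      rw [Subgroup.relIndex_bot_left, Subgroup.relIndex_bot_left, hcS,
        nat_card_alternatingGroup, Nat.card_eq_fintype_card, Fintype.card_fin] at h2
      have h5 : Nat.factorial 6 / 2 = 360 := by decide
      rw [h5] at h2
      omega
    obtain ⟨v, hv, hSv⟩ := exists_evInv le_rfl hS
    exact ⟨v, hv, by rw [← hSv]; exact hSle⟩
  have hvu : u * v = v * u := by
    have h2 : v ∈ centralizer {v} ⊓ alternatingGroup (Fin 6) :=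
      Subgroup.mem_inf.2 ⟨mem_cent.2 rfl, hv.1⟩
    exact (mem_cent.1 (Subgroup.mem_inf.1 (hvC h2)).1).symm
  refine strongPair_of hG hz hw hv ?_ ?_ ?_
  · refine hvC.trans (hcs.trans ?_)
    exact sup_le_sup (le_inf (inf_le_inf le_rfl hG) inf_le_right)
      (le_inf (inf_le_inf le_rfl hG) inf_le_right)
  · intro d hd hdz hdw
    rcases hdu d hd hdz hdw with h | h
    · rw [h]; simp
    · rw [h]; exact hvu
  · intro s hs hsv d hd hdz hdw
    rcases hdu d hd hdz hdw with h | h
    · rw [h]; simp
    · have hsu : s * u = u * s := by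
        by_cases hsA : s ∈ alternatingGroup (Fin 6)
        · exact mem_cent.1 (Subgroup.mem_inf.1 (hvC (Subgroup.mem_inf.2 ⟨mem_cent.2 hsv, hsA⟩))).1
        · have h5 : s * u ∈ alternatingGroup (Fin 6) := by
            rw [Equiv.Perm.mem_alternatingGroup] at *
            have h6 : Equiv.Perm.sign s = -1 := by
              rcases Int.units_eq_one_or (Equiv.Perm.sign s) with h | h
              · exact absurd h hsA
              · exact h
            have h7 : Equiv.Perm.sign u = -1 := by
              rcases Int.units_eq_one_or (Equiv.Perm.sign u) with h | h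
              · exact absurd h huA
              · exact h
            rw [map_mul, h6, h7]
            decide
          have h6 : (s * u) * v = v * (s * u) := by
            rw [mul_assoc, hvu, ← mul_assoc, hsv, mul_assoc]
          have h7 : (s * u) * u = u * (s * u) :=
            mem_cent.1 (Subgroup.mem_inf.1 (hvC (Subgroup.mem_inf.2 ⟨mem_cent.2 h6, h5⟩))).1
          rw [← mul_assoc] at h7
          exact mul_right_cancel h7
      have h5 : s * d * s⁻¹ = u := by rw [h, hsu]; group
      rw [h5]
      exact ⟨huz, huw⟩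

theorem strong_six {G : Subgroup (Perm (Fin 6))} (hG : alternatingGroup (Fin 6) ≤ G) :
    Strong G (alternatingGroup (Fin 6)) := by
  intro P Q hP hQ
  obtain ⟨z, hz, rfl⟩ := exists_evInv hG hP
  obtain ⟨w, hw, rfl⟩ := exists_evInv hG hQ
  change StrongPair G (alternatingGroup (Fin 6)) (centralizer {z} ⊓ G) (centralizer {w} ⊓ G)
  by_cases h : z * w = w * z
  · exact pair_comm hz hw h
  have h1 : z * w ≠ 1 := by
    intro h1
    apply h
    have h2 : w = z⁻¹ := eq_inv_of_mul_eq_one_right h1
    rw [h2]; simp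
  rcases pow_alt_six (mul_mem hz.1 hw.1) with h3 | h4 | h5
  · exact pair_three hG hz hw h3 h1
  · exact pair_four hG hz hw h h4
  · exact pair_five hz hw h5 h1

end Pool.Agent.Lib.MP_e3cc28_alA
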