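import Pool.Agent.Lib.MP_e3cc28_alA.AF00

/-!
# MP_e3cc28, extension to further simple groups: definitions
-/

set_option autoImplicit false

namespace Pool.Agent.Lib.MP_e3cc28_alH

open Subgroup Equiv
open Pool.Agent.Lib.MP_e3cc28_al (Star')
open Pool.Agent.Lib.MP_e3cc28_alA

universe u v

/-- distinct Sylow 2-subgroups intersect trivially and their number is `|P| + 1` (as in the groups
`L_2(2^n)`, `Sz(2^n)`, `U_3(2^n)`) -/
def Bender (X : Type u) [Group X] : Prop :=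
  (∀ P Q : Sylow 2 X, P ≠ Q → ∀ x, x ∈ P → x ∈ Q → x = 1) ∧
    ∀ P : Sylow 2 X, Nat.card (Sylow 2 X) = Nat.card P + 1

/-- every automorphism of 2-power order is inner -/
def NoOuter (X : Type u) [Group X] : Prop :=
  ∀ φ : MulAut X, (∃ k : ℕ, φ ^ 2 ^ k = 1) → ∃ a : X, φ = MulAut.conj a

/-- the weak form of `(∗)`: every intersection of two Sylow 2-subgroups is contained in and normal
in some Sylow 2-subgroup -/
def Weak (X : Type u) [Group X] : Prop :=
  ∀ P Q : Sylow 2 X, ∃ S : Sylow 2 X, (∀ x, x ∈ P → x ∈ Q → x ∈ S) ∧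
    ∀ s ∈ S, ∀ d, d ∈ P → d ∈ Q → s * d * s⁻¹ ∈ P ∧ s * d * s⁻¹ ∈ Q

/-- the simple groups which are treated -/
def Listed (X : Type u) [Group X] : Prop :=
  (∃ n, 5 ≤ n ∧ Nonempty (X ≃* alternatingGroup (Fin n))) ∨ Bender X ∨
    (2 ∣ Nat.card X ∧ NoOuter X) ∨ ¬ Weak X

/-- every nonabelian composition factor of `G` is `Listed` -/
def ListedFactors (G : Type u) [Group G] : Prop :=
  ∀ (A B : Subgroup G) [(B.subgroupOf A).Normal], A.IsSubnormal → B ≤ A →
    IsSimpleGroup (A ⧸ B.subgroupOf A) → (∃ x y : A ⧸ B.subgroupOf A, x * y ≠ y * x) →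
    Listed (A ⧸ B.subgroupOf A)

/-- every nonabelian simple subnormal subgroup is `Listed` -/
def ListedSub (G : Type u) [Group G] : Prop :=
  ∀ L : Subgroup G, L.IsSubnormal → IsSimpleGroup L → (∃ x ∈ L, ∃ y ∈ L, x * y ≠ y * x) →
    Listed L

end Pool.Agent.Lib.MP_e3cc28_alH
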