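import Mathlib
import Pool.Agent.Lib.MP_e3cc28_alA.AF00
import Pool.Agent.Lib.MP_e3cc28_alA.AF01b
import Pool.Agent.Lib.MP_e3cc28_alA.AH00

section

/-! job AF05a: the 3-cycles `(a b c)` with fixed `a`, `b` generate the alternating group; the
centraliser of the alternating group is trivial. `swap a b * swap b c` is the 3-cycle
`a → b → c → a`. -/

set_option autoImplicit false

namespace Pool.Agent.Lib.MP_e3cc28_alA

open Subgroup Equiv

variable {Ω : Type} [Fintype Ω] [DecidableEq Ω]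

omit [Fintype Ω] in
private theorem swap_mul_mem {a b : Ω} (hab : a ≠ b) (τ : Perm Ω) (hτ : τ.IsSwap) :
    swap a b * τ ∈
      Subgroup.closure {p : Perm Ω | ∃ c, c ≠ a ∧ c ≠ b ∧ p = swap a b * swap b c} := by
  set H := Subgroup.closure {p : Perm Ω | ∃ c, c ≠ a ∧ c ≠ b ∧ p = swap a b * swap b c} with hH
  have hgen : ∀ c, c ≠ a → c ≠ b → swap a b * swap b c ∈ H := fun c h1 h2 =>
    Subgroup.subset_closure ⟨c, h1, h2, rfl⟩
  have hinv : ∀ c, c ≠ a → c ≠ b → swap b c * swap a b ∈ H := by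
    intro c h1 h2
    have := H.inv_mem (hgen c h1 h2)
    rwa [mul_inv_rev, swap_inv, swap_inv] at this
  have hpair : ∀ c d, c ≠ a → c ≠ b → d ≠ a → d ≠ b → swap b c * swap b d ∈ H := by
    intro c d h1 h2 h3 h4
    have := H.mul_mem (hinv c h1 h2) (hgen d h3 h4)
    have h5 : swap b c * swap a b * (swap a b * swap b d) = swap b c * swap b d := by
      rw [mul_assoc, ← mul_assoc (swap a b) (swap a b), swap_mul_self, one_mul]
    rwa [h5] at this
  have hb : ∀ c, c ≠ b → swap a b * swap b c ∈ H := by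
    intro c h2
    by_cases h1 : c = a
    · subst h1
      rw [swap_comm b c, swap_mul_self]
      exact H.one_mem
    · exact hgen c h1 h2
  have ha : ∀ c, c ≠ a → swap a b * swap a c ∈ H := by
    intro c h1
    by_cases h2 : c = b
    · subst h2
      rw [swap_mul_self]
      exact H.one_mem
    · have h5 : swap a b * swap a c = swap b c * swap a b := by
        rw [mul_swap_eq_swap_mul, swap_apply_left, swap_apply_of_ne_of_ne h1 h2]
      rw [h5]
      exact hinv c h1 h2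
  obtain ⟨x, y, hxy, rfl⟩ := hτ
  by_cases hxa : x = a
  · subst hxa; exact ha y (Ne.symm hxy)
  by_cases hxb : x = b
  · subst hxb; exact hb y (Ne.symm hxy)
  by_cases hya : y = a
  · subst hya; rw [swap_comm x y]; exact ha x hxy
  by_cases hyb : y = b
  · subst hyb; rw [swap_comm x y]; exact hb x hxy
  have h6 : swap a b * swap x y = swap a b * swap b x * (swap b y * swap b x) := by
    rw [mul_assoc, ← mul_assoc (swap b x), mul_swap_eq_swap_mul (swap b x), swap_apply_left,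
      swap_apply_of_ne_of_ne hyb (Ne.symm hxy), mul_assoc, swap_mul_self, mul_one]
  rw [h6]
  exact H.mul_mem (hgen x hxa hxb) (hpair y x hya hyb hxa hxb)

/-- Use `Equiv.Perm.closure_three_cycles_eq_alternating`; e.g. for different `x, y, z` not in
`{a, b}`: `(a x y) = (a b y)(a b x)⁻¹...`, `(x y z) = ...` (or: `(a b y)⁻¹`-conjugates). -/
theorem closure_three {a b : Ω} (hab : a ≠ b) :
    Subgroup.closure {p : Perm Ω | ∃ c, c ≠ a ∧ c ≠ b ∧ p = swap a b * swap b c} =
      alternatingGroup Ω := by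
  refine Subgroup.closure_eq_of_le _ ?_ ?_
  · rintro p ⟨c, h1, h2, rfl⟩
    rw [SetLike.mem_coe, Perm.mem_alternatingGroup, Perm.sign_mul, Perm.sign_swap hab,
      Perm.sign_swap (Ne.symm h2)]
    norm_num
  · intro σ hσ
    set H := Subgroup.closure {p : Perm Ω | ∃ c, c ≠ a ∧ c ≠ b ∧ p = swap a b * swap b c} with hH
    have hmul : ∀ τ₁ τ₂ : Perm Ω, τ₁.IsSwap → τ₂.IsSwap → τ₁ * τ₂ ∈ H := by
      intro τ₁ τ₂ h1 h2
      have h3 := H.inv_mem (swap_mul_mem hab τ₁ h1)
      have h4 := H.mul_mem h3 (swap_mul_mem hab τ₂ h2)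
      have h5 : (swap a b * τ₁)⁻¹ * (swap a b * τ₂) = τ₁ * τ₂ := by
        obtain ⟨x, y, _, rfl⟩ := h1
        rw [mul_inv_rev, swap_inv, swap_inv, mul_assoc, ← mul_assoc (swap a b) (swap a b),
          swap_mul_self, one_mul]
      rwa [h5] at h4
    have hind : ∀ (n : ℕ) (l : List (Perm Ω)), (∀ g, g ∈ l → g.IsSwap) → l.length = 2 * n →
        l.prod ∈ H := by
      intro n
      induction n with
      | zero =>
        intro l _ hn
        rw [Nat.mul_zero, List.length_eq_zero_iff] at hn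
        subst hn
        simp [H.one_mem]
      | succ n ih =>
        intro l hl hn
        match l, hl, hn with
        | g₁ :: g₂ :: l', hl, hn =>
          rw [List.prod_cons, List.prod_cons, ← mul_assoc]
          refine H.mul_mem (hmul g₁ g₂ (hl g₁ (by simp)) (hl g₂ (by simp))) ?_
          refine ih l' (fun g hg => hl g (by simp [hg])) ?_
          simp only [List.length_cons] at hn
          omega
        | [g], hl, hn => simp at hn; omega
        | [], hl, hn => simp at hn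
    obtain ⟨l, rfl, hl⟩ := Perm.truncSwapFactors σ
    obtain ⟨n, hn⟩ := (Perm.prod_list_swap_mem_alternatingGroup_iff_even_length hl).1 hσ
    rw [← two_mul] at hn
    exact hind n l hl hn

theorem cent_alt (hΩ : 4 ≤ Fintype.card Ω) (σ : Perm Ω)
    (h : ∀ c ∈ alternatingGroup Ω, σ * c = c * σ) : σ = 1 := by
  by_contra hσ
  have : ∃ x, σ x ≠ x := by
    by_contra hcon
    push Not at hcon
    exact hσ (Perm.ext hcon)
  obtain ⟨x, hx⟩ := this
  set y := σ x with hy
  have h1 : ∃ z, z ∉ ({x, y} : Finset Ω) := by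
    by_contra hcon
    push Not at hcon
    have h2 : (Finset.univ : Finset Ω) ⊆ {x, y} := fun z _ => hcon z
    have h3 := Finset.card_le_card h2
    have h4 := Finset.card_le_two (a := x) (b := y)
    rw [Finset.card_univ] at h3
    omega
  obtain ⟨z, hz⟩ := h1
  have h1 : ∃ w, w ∉ ({x, y, z} : Finset Ω) := by
    by_contra hcon
    push Not at hcon
    have h2 : (Finset.univ : Finset Ω) ⊆ {x, y, z} := fun w _ => hcon w
    have h3 := Finset.card_le_card h2
    have h4 := Finset.card_le_three (a := x) (b := y) (c := z)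
    rw [Finset.card_univ] at h3
    omega
  obtain ⟨w, hw⟩ := h1
  simp only [Finset.mem_insert, Finset.mem_singleton, not_or] at hz hw
  have hmem : swap y z * swap z w ∈ alternatingGroup Ω := by
    rw [Perm.mem_alternatingGroup, Perm.sign_mul, Perm.sign_swap (Ne.symm hz.2),
      Perm.sign_swap (Ne.symm hw.2.2)]
    norm_num
  have h2 := congrArg (fun p : Perm Ω => p x) (h _ hmem)
  simp only [Perm.mul_apply] at h2
  rw [swap_apply_of_ne_of_ne (Ne.symm hz.1) (Ne.symm hw.1),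
    swap_apply_of_ne_of_ne hx.symm (Ne.symm hz.1), ← hy,
    swap_apply_of_ne_of_ne (Ne.symm hz.2) (Ne.symm hw.2.1), swap_apply_left] at h2
  exact hz.2 h2.symm

end Pool.Agent.Lib.MP_e3cc28_alA
end

section

/-! job AF05b: 3-cycles whose products are involutions. `swap a b * swap b c` is the 3-cycle
`a → b → c → a`. -/

set_option autoImplicit false

namespace Pool.Agent.Lib.MP_e3cc28_alA

open Subgroup Equiv

variable {Ω : Type} [Fintype Ω] [DecidableEq Ω]

theorem isThreeCycle_swap {a b c : Ω} (hab : a ≠ b) (hac : c ≠ a) (hbc : c ≠ b) :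
    (swap a b * swap b c).IsThreeCycle := by
  rw [swap_comm a b]
  exact Perm.isThreeCycle_swap_mul_swap_same hab.symm hbc.symm hac.symm

private theorem tc3 {g : Perm Ω} (hg : g.IsThreeCycle) (x : Ω) : g (g (g x)) = x := by
  have h : (g ^ 3) x = x := by
    rw [← hg.orderOf, pow_orderOf_eq_one]
    rfl
  simpa [pow_succ] using h

private theorem tcU {g : Perm Ω} (hg : g.IsThreeCycle) {x y : Ω} (hx : g x ≠ x) (hy : g y ≠ y) :
    y = x ∨ y = g x ∨ y = g (g x) := by
  have h1 := hg.support_eq_iff_mem_support.mpr (Perm.mem_support.2 hx)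
  have h2 : y ∈ g.support := Perm.mem_support.2 hy
  rw [h1] at h2
  simpa using h2

private theorem tcE {g : Perm Ω} (hg : g.IsThreeCycle) {x : Ω} (hx : g x ≠ x) :
    g = swap x (g x) * swap (g x) (g (g x)) :=
  hg.eq_swap_mul_swap_iff_mem_support.2 (Perm.mem_support.2 hx)

private theorem tcN {g : Perm Ω} (hg : g.IsThreeCycle) {x : Ω} (hx : g x ≠ x) :
    g (g x) ≠ x ∧ g (g x) ≠ g x := by
  constructor
  · intro h
    have h1 := tc3 hg x
    rw [h] at h1
    exact hx h1
  · intro h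
    exact hx (g.injective h)

/-- two 3-cycles which agree at a point that is moved -/
private theorem edge_of {p q : Perm Ω} (hp : p.IsThreeCycle) (hq : q.IsThreeCycle)
    (hpq : p ≠ q) {a : Ω} (h : p a = q a) (ha : p a ≠ a) :
    ∃ a b x y : Ω, a ≠ b ∧ x ≠ a ∧ x ≠ b ∧ y ≠ a ∧ y ≠ b ∧ x ≠ y ∧
      p = swap a b * swap b x ∧ q = swap a b * swap b y := by
  have ha' : q a ≠ a := by rwa [← h]
  have e1 := tcE hp ha
  have e2 := tcE hq ha'
  obtain ⟨n1, n2⟩ := tcN hp ha
  obtain ⟨n3, n4⟩ := tcN hq ha'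
  rw [← h] at e2 n3 n4
  refine ⟨a, p a, p (p a), q (p a), ha.symm, n1, n2, n3, n4, ?_, e1, e2⟩
  intro h3
  apply hpq
  rw [e1, e2, h3]

theorem mul_self_three {a b c d : Ω} (hab : a ≠ b) (hca : c ≠ a) (hcb : c ≠ b) (hda : d ≠ a)
    (hdb : d ≠ b) (hcd : c ≠ d) :
    ((swap a b * swap b c) * (swap a b * swap b d)) ^ 2 = 1 ∧
      (swap a b * swap b c) * (swap a b * swap b d) ≠ 1 := by
  constructor
  · ext x
    simp only [pow_two, Perm.mul_apply, Perm.one_apply, swap_apply_def]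
    grind
  · intro h
    have h1 := congrArg (fun g : Perm Ω => g a) h
    simp only [Perm.mul_apply, Perm.one_apply, swap_apply_def] at h1
    grind

/-- Two 3-cycles `p`, `q` whose product is an involution have a common directed edge `a → b`.
Proof: if the supports are disjoint, `pq` has order 3; if they have one common point, `pq` is a
5-cycle; three common points: `q = p` or `q = p⁻¹`; two common points `a, b`: with opposite
directions `pq` is a 3-cycle. -/
theorem exists_edge {p q : Perm Ω} (hp : p.IsThreeCycle) (hq : q.IsThreeCycle)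
    (h2 : (p * q) ^ 2 = 1) (h1 : p * q ≠ 1) :
    ∃ a b x y : Ω, a ≠ b ∧ x ≠ a ∧ x ≠ b ∧ y ≠ a ∧ y ≠ b ∧ x ≠ y ∧
      p = swap a b * swap b x ∧ q = swap a b * swap b y := by
  have hpq : p ≠ q := by
    rintro rfl
    have h3 : p ^ 4 = p := by
      have h4 : p ^ 3 = 1 := by rw [← hp.orderOf, pow_orderOf_eq_one]
      rw [show 4 = 3 + 1 from rfl, pow_add, h4, one_mul, pow_one]
    have h5 : (p * p) ^ 2 = p ^ 4 := by rw [← pow_two, ← pow_mul]
    rw [h5, h3] at h2
    exact hp.ne_one h2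
  obtain ⟨z, hz⟩ : ∃ z, (p * q) z ≠ z := by
    by_contra hcon
    push Not at hcon
    exact h1 (Perm.ext hcon)
  have hzz : p (q (p (q z))) = z := by
    have h3 := congrArg (fun g : Perm Ω => g z) h2
    simpa [pow_two] using h3
  -- the one-sided case analysis
  have key : ∀ z w : Ω, z ≠ w → p (q z) = w → p (q w) = z → q z = z →
      ∃ a, p a = q a ∧ p a ≠ a := by
    intro z w hzw h3 h4 h5
    rw [h5] at h3
    -- `p z = w`, `p (q w) = z`
    have h6 : p z ≠ z := by rw [h3]; exact hzw.symm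
    have h7 : p w = q w := by
      have h8 := tc3 hp (q w)
      rw [h4, h3] at h8
      exact h8
    refine ⟨w, h7, ?_⟩
    intro h9
    rw [← h3] at h9
    exact h6 (p.injective h9)
  have key2 : ∀ z w : Ω, z ≠ w → p (q z) = w → p (q w) = z → q z = w →
      ∃ a, p a = q a ∧ p a ≠ a := by
    intro z w hzw h3 h4 h5
    have h6 : q (q w) = z := by
      have h7 := tc3 hq z
      rwa [h5] at h7
    refine ⟨q w, by rw [h4, h6], ?_⟩
    rw [h4]
    intro h7
    have h8 : q z ≠ z := by rw [h5]; exact hzw.symm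
    rw [← h7] at h6
    exact h8 h6
  obtain ⟨w, hw⟩ : ∃ w, p (q z) = w := ⟨_, rfl⟩
  have hzw : z ≠ w := by
    intro h
    apply hz
    rw [Perm.mul_apply, hw, ← h]
  rw [hw] at hzz
  have hfin : ∃ a, p a = q a ∧ p a ≠ a := by
    by_cases c1 : q z = z
    · exact key z w hzw hw hzz c1
    by_cases c2 : q w = w
    · exact key w z hzw.symm hzz hw c2
    by_cases c3 : q z = w
    · exact key2 z w hzw hw hzz c3
    by_cases c4 : q w = z
    · exact key2 w z hzw.symm hzz hw c4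
    exfalso
    rcases tcU hq c1 c2 with h3 | h3 | h3
    · exact hzw h3.symm
    · exact c3 h3.symm
    · apply c4
      rw [h3]
      exact tc3 hq z
  obtain ⟨a, ha1, ha2⟩ := hfin
  exact edge_of hp hq hpq ha1 ha2

/-- A family of at least two 3-cycles with this property has a common directed edge. Proof: two
members `d_i = (a b x)`, `d_j = (a b y)`. If `d_k` has the edge `a → b` in common with `d_i`, fine;
otherwise it has, say, the edge `b → x` in common with `d_i`, `d_k = (b x z)` with `z ≠ a`, and then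
it has no common directed edge with `d_j`; similarly for the edge `x → a`. -/
theorem exists_common_edge {J : Type} [Nontrivial J] (d : J → Perm Ω)
    (h3 : ∀ j, (d j).IsThreeCycle)
    (h : ∀ i j, i ≠ j → (d i * d j) ^ 2 = 1 ∧ d i * d j ≠ 1) :
    ∃ a b : Ω, a ≠ b ∧ ∃ τ : J → Ω, Function.Injective τ ∧
      ∀ j, τ j ≠ a ∧ τ j ≠ b ∧ d j = swap a b * swap b (τ j) := by
  obtain ⟨i, j, hij⟩ := exists_pair_ne J
  have hd : ∀ k l, k ≠ l → ∃ u, d k u = d l u ∧ d k u ≠ u := by
    intro k l hkl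
    obtain ⟨a, b, x, y, hab, hxa, hxb, hya, hyb, hxy, e1, e2⟩ :=
      exists_edge (h3 k) (h3 l) (h k l hkl).1 (h k l hkl).2
    refine ⟨a, ?_, ?_⟩
    · rw [e1, e2]
      simp only [Perm.mul_apply]
      rw [swap_apply_of_ne_of_ne hab hxa.symm, swap_apply_of_ne_of_ne hab hya.symm]
    · rw [e1]
      simp only [Perm.mul_apply]
      rw [swap_apply_of_ne_of_ne hab hxa.symm, swap_apply_left]
      exact hab.symm
  obtain ⟨a, b, x, y, hab, hxa, hxb, hya, hyb, hxy, e1, e2⟩ :=
    exists_edge (h3 i) (h3 j) (h i j hij).1 (h i j hij).2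
  have pa : d i a = b := by
    rw [e1]
    simp only [Perm.mul_apply]
    rw [swap_apply_of_ne_of_ne hab hxa.symm, swap_apply_left]
  have pb : d i b = x := by
    rw [e1]
    simp only [Perm.mul_apply]
    rw [swap_apply_left, swap_apply_of_ne_of_ne hxa hxb]
  have px : d i x = a := by
    rw [e1]
    simp only [Perm.mul_apply]
    rw [swap_apply_right, swap_apply_right]
  have qa : d j a = b := by
    rw [e2]
    simp only [Perm.mul_apply]
    rw [swap_apply_of_ne_of_ne hab hya.symm, swap_apply_left]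
  have qb : d j b = y := by
    rw [e2]
    simp only [Perm.mul_apply]
    rw [swap_apply_left, swap_apply_of_ne_of_ne hya hyb]
  have qy : d j y = a := by
    rw [e2]
    simp only [Perm.mul_apply]
    rw [swap_apply_right, swap_apply_right]
  have pfix : ∀ u, d i u ≠ u → u = a ∨ u = b ∨ u = x := by
    intro u hu
    have h4 := tcU (h3 i) (x := a) (by rw [pa]; exact hab.symm) hu
    rw [pa, pb] at h4
    exact h4
  have qfix : ∀ u, d j u ≠ u → u = a ∨ u = b ∨ u = y := by
    intro u hu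
    have h4 := tcU (h3 j) (x := a) (by rw [qa]; exact hab.symm) hu
    rw [qa, qb] at h4
    exact h4
  -- every member has the edge `a → b`
  have hall : ∀ k, d k a = b := by
    intro k
    by_cases hki : k = i
    · rw [hki]; exact pa
    by_cases hkj : k = j
    · rw [hkj]; exact qa
    obtain ⟨u, hu1, hu2⟩ := hd i k (fun h => hki h.symm)
    obtain ⟨v, hv1, hv2⟩ := hd j k (fun h => hkj h.symm)
    rcases pfix u hu2 with rfl | rfl | rfl
    · rw [← hu1, pa]
    · -- `b → x`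
      rcases qfix v hv2 with rfl | rfl | rfl
      · rw [← hv1, qa]
      · exfalso
        apply hxy
        rw [← pb, hu1, ← hv1, qb]
      · -- `y → a`
        exfalso
        rw [pb] at hu1
        rw [qy] at hv1
        have h4 : d k u ≠ u := by rw [← hu1]; exact hxb
        have h5 : d k v ≠ v := by rw [← hv1]; exact hya.symm
        rcases tcU (h3 k) h4 h5 with h6 | h6 | h6
        · exact hyb h6
        · rw [← hu1] at h6; exact hxy h6.symm
        · have h7 := tc3 (h3 k) u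
          rw [← h6, ← hv1] at h7
          exact hab h7
    · -- `x → a`
      rcases qfix v hv2 with rfl | rfl | rfl
      · rw [← hv1, qa]
      · exfalso
        rw [px] at hu1
        rw [qb] at hv1
        have h4 : d k u ≠ u := by rw [← hu1]; exact hxa.symm
        have h5 : d k v ≠ v := by rw [← hv1]; exact hyb
        rcases tcU (h3 k) h4 h5 with h6 | h6 | h6
        · exact hxb h6.symm
        · rw [← hu1] at h6; exact hab h6.symm
        · have h7 := tc3 (h3 k) u
          rw [← h6, ← hv1] at h7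
          exact hxy h7.symm
      · exfalso
        apply hxy
        apply (d k).injective
        rw [← hu1, ← hv1, px, qy]
  refine ⟨a, b, hab, fun k => d k b, ?_, ?_⟩
  · intro k l hkl
    by_contra hne
    have hmv : ∀ k, d k a ≠ a := fun k => by rw [hall]; exact hab.symm
    have e3 := tcE (h3 k) (hmv k)
    have e4 := tcE (h3 l) (hmv l)
    rw [hall] at e3 e4
    have h4 : d k b = d l b := hkl
    have h5 : d k = d l := by rw [e3, e4, h4]
    have h6 := (h k l hne).1
    rw [h5] at h6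
    have h7 : (d l) ^ 4 = d l := by
      have h8 : (d l) ^ 3 = 1 := by rw [← (h3 l).orderOf, pow_orderOf_eq_one]
      rw [show 4 = 3 + 1 from rfl, pow_add, h8, one_mul, pow_one]
    have h9 : (d l * d l) ^ 2 = (d l) ^ 4 := by rw [← pow_two, ← pow_mul]
    rw [h9, h7] at h6
    exact (h3 l).ne_one h6
  · intro k
    have hmv : d k a ≠ a := by rw [hall]; exact hab.symm
    obtain ⟨n1, n2⟩ := tcN (h3 k) hmv
    have e3 := tcE (h3 k) hmv
    rw [hall] at n1 n2 e3
    exact ⟨n1, n2, e3⟩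

end Pool.Agent.Lib.MP_e3cc28_alA
end

section

/-! job AF05c: automorphisms of alternating groups which preserve 3-cycles. -/

set_option autoImplicit false

namespace Pool.Agent.Lib.MP_e3cc28_alA

open Subgroup Equiv

universe u

variable {Ω : Type} [Fintype Ω] [DecidableEq Ω]

/-- Proof. Fix `a ≠ b`. For `x ≠ a, b` let `c_x = (a b x)`. By `mul_self_three` and
`exists_common_edge` the images `φ(c_x)` are `(a' b' τ(x))` with `τ` injective. Let `σ` be the
permutation `a ↦ a'`, `b ↦ b'`, `x ↦ τ(x)` (injective, hence bijective). Then `σ c_x σ⁻¹ = φ(c_x)`,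
and the `c_x` generate the alternating group (`closure_three`). -/
theorem aut_alt (hΩ : 5 ≤ Fintype.card Ω) (φ : alternatingGroup Ω ≃* alternatingGroup Ω)
    (hφ : ∀ c : alternatingGroup Ω, (c : Perm Ω).IsThreeCycle → (φ c : Perm Ω).IsThreeCycle) :
    ∃ σ : Perm Ω, ∀ c : alternatingGroup Ω, (φ c : Perm Ω) = σ * c * σ⁻¹ := by
  classical
  haveI : Nontrivial Ω := Fintype.one_lt_card_iff_nontrivial.1 (by omega)
  obtain ⟨a, b, hab⟩ := exists_pair_ne Ω
  -- two further points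
  have hex : ∀ s : Finset Ω, s.card < 5 → ∃ x, x ∉ s := by
    intro s hs
    by_contra hcon
    push Not at hcon
    have : s = Finset.univ := Finset.eq_univ_iff_forall.2 hcon
    rw [this, Finset.card_univ] at hs
    omega
  obtain ⟨x, hx⟩ := hex {a, b} (lt_of_le_of_lt Finset.card_le_two (by norm_num))
  obtain ⟨y, hy⟩ := hex {a, b, x} (lt_of_le_of_lt Finset.card_le_three (by norm_num))
  have hx' : x ≠ a ∧ x ≠ b := by simpa using hx
  have hy' : y ≠ a ∧ y ≠ b ∧ y ≠ x := by simpa using hy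
  let J := {z : Ω // z ≠ a ∧ z ≠ b}
  haveI : Nontrivial J := ⟨⟨⟨x, hx'⟩, ⟨y, hy'.1, hy'.2.1⟩, fun h =>
    hy'.2.2 (congrArg Subtype.val h).symm⟩⟩
  let cx : J → alternatingGroup Ω := fun j =>
    ⟨swap a b * swap b j.1, (isThreeCycle_swap hab j.2.1 j.2.2).mem_alternatingGroup⟩
  have hcx : ∀ j, ((cx j : alternatingGroup Ω) : Perm Ω) = swap a b * swap b j.1 := fun _ => rfl
  have h3 : ∀ j, ((φ (cx j) : alternatingGroup Ω) : Perm Ω).IsThreeCycle := fun j =>
    hφ (cx j) (isThreeCycle_swap hab j.2.1 j.2.2)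
  have h2 : ∀ i j, i ≠ j →
      (((φ (cx i) : alternatingGroup Ω) : Perm Ω) * ((φ (cx j) : alternatingGroup Ω) : Perm Ω)) ^ 2
        = 1 ∧
      ((φ (cx i) : alternatingGroup Ω) : Perm Ω) * ((φ (cx j) : alternatingGroup Ω) : Perm Ω)
        ≠ 1 := by
    intro i j hij
    have hne : i.1 ≠ j.1 := fun h => hij (Subtype.ext h)
    obtain ⟨h4, h5⟩ := mul_self_three hab i.2.1 i.2.2 j.2.1 j.2.2 hne
    have e1 : (cx i * cx j) ^ 2 = 1 := by
      apply Subtype.ext
      exact h4
    have e2 : cx i * cx j ≠ 1 := fun h => h5 (congrArg Subtype.val h)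
    constructor
    · have := congrArg (fun c : alternatingGroup Ω => ((φ c : alternatingGroup Ω) : Perm Ω)) e1
      simpa using this
    · intro h
      apply e2
      apply φ.injective
      rw [map_mul, map_one]
      exact Subtype.ext h
  obtain ⟨a', b', hab', τ, hτ, hd⟩ := exists_common_edge _ h3 h2
  let f : Ω → Ω := fun z => if h : z ≠ a ∧ z ≠ b then τ ⟨z, h⟩ else if z = a then a' else b'
  have fa : f a = a' := by simp [f]
  have fb : f b = b' := by simp [f, hab.symm]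
  have fj : ∀ j : J, f j.1 = τ j := fun j => by
    simp only [f]
    rw [dif_pos j.2]
  have hf : Function.Injective f := by
    intro z w hzw
    by_cases hz : z ≠ a ∧ z ≠ b
    · have e1 := fj ⟨z, hz⟩
      have e1' : f z = τ ⟨z, hz⟩ := e1
      by_cases hw : w ≠ a ∧ w ≠ b
      · have e2 : f w = τ ⟨w, hw⟩ := fj ⟨w, hw⟩
        rw [e1', e2] at hzw
        exact congrArg Subtype.val (hτ hzw)
      · rw [not_and_or, not_not, not_not] at hw
        rcases hw with rfl | rfl
        · rw [e1', fa] at hzw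
          exact absurd hzw (hd ⟨z, hz⟩).1
        · rw [e1', fb] at hzw
          exact absurd hzw (hd ⟨z, hz⟩).2.1
    · rw [not_and_or, not_not, not_not] at hz
      by_cases hw : w ≠ a ∧ w ≠ b
      · have e2 : f w = τ ⟨w, hw⟩ := fj ⟨w, hw⟩
        rcases hz with rfl | rfl
        · rw [e2, fa] at hzw
          exact absurd hzw.symm (hd ⟨w, hw⟩).1
        · rw [e2, fb] at hzw
          exact absurd hzw.symm (hd ⟨w, hw⟩).2.1
      · rw [not_and_or, not_not, not_not] at hw
        rcases hz with rfl | rfl <;> rcases hw with rfl | rfl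
        · rfl
        · rw [fa, fb] at hzw
          exact absurd hzw hab'
        · rw [fa, fb] at hzw
          exact absurd hzw.symm hab'
        · rfl
  let σ : Perm Ω := Equiv.ofBijective f (Finite.injective_iff_bijective.1 hf)
  have hσ : ∀ z, σ z = f z := fun _ => rfl
  refine ⟨σ, ?_⟩
  have key : ∀ j : J, ((φ (cx j) : alternatingGroup Ω) : Perm Ω) =
      σ * (swap a b * swap b j.1) * σ⁻¹ := by
    intro j
    have e1 : σ * (swap a b * swap b j.1) * σ⁻¹ =
        (σ * swap a b * σ⁻¹) * (σ * swap b j.1 * σ⁻¹) := by group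
    rw [e1, ← swap_apply_apply, ← swap_apply_apply, hσ, hσ, hσ, fa, fb, fj]
    exact (hd j).2.2
  let F : alternatingGroup Ω →* Perm Ω := (alternatingGroup Ω).subtype.comp φ.toMonoidHom
  let G : alternatingGroup Ω →* Perm Ω :=
    (MulAut.conj σ).toMonoidHom.comp (alternatingGroup Ω).subtype
  have hle : alternatingGroup Ω ≤ (MonoidHom.eqLocus F G).map (alternatingGroup Ω).subtype := by
    refine le_of_eq_of_le (closure_three hab).symm ((Subgroup.closure_le _).2 ?_)
    rintro p ⟨c, hca, hcb, rfl⟩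
    exact ⟨cx ⟨c, hca, hcb⟩, key ⟨c, hca, hcb⟩, rfl⟩
  intro c
  obtain ⟨e, he, hec⟩ := hle c.2
  have hec' : e = c := Subtype.ext hec
  rw [hec'] at he
  exact he

/-- If `N ≅ Alt(Ω)` is a normal subgroup of `K` and conjugation by elements of `K` preserves the
3-cycles, then `θ` extends to a homomorphism `K → Sym(Ω)` with kernel the centraliser of `N`.
Proof: `ψ k` is the permutation of `aut_alt` for the automorphism `x ↦ θ (k θ⁻¹(x) k⁻¹)`, it is
unique by `cent_alt`. -/
theorem exists_hom {K : Type u} [Group K] (hΩ : 5 ≤ Fintype.card Ω) (N : Subgroup K)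
    (hN : N.Normal) (θ : N ≃* alternatingGroup Ω)
    (h3 : ∀ (k : K) (c : N), (θ c : Perm Ω).IsThreeCycle →
      (θ ⟨k * c * k⁻¹, hN.conj_mem c c.2 k⟩ : Perm Ω).IsThreeCycle) :
    ∃ ψ : K →* Perm Ω, (∀ x : N, ψ x = θ x) ∧ ∀ k, ψ k = 1 ↔ ∀ x ∈ N, k * x = x * k := by
  haveI := hN
  have huniq : ∀ σ σ' : Perm Ω, (∀ c : alternatingGroup Ω,
      σ * (c : Perm Ω) * σ⁻¹ = σ' * (c : Perm Ω) * σ'⁻¹) → σ = σ' := by
    intro σ σ' h
    have h1 : σ'⁻¹ * σ = 1 := by
      apply cent_alt (by omega)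
      intro c hc
      have h2 := h ⟨c, hc⟩
      have h2' : σ * c * σ⁻¹ = σ' * c * σ'⁻¹ := h2
      calc σ'⁻¹ * σ * c = σ'⁻¹ * (σ * c * σ⁻¹) * σ := by group
        _ = σ'⁻¹ * (σ' * c * σ'⁻¹) * σ := by rw [h2']
        _ = c * (σ'⁻¹ * σ) := by group
    calc σ = σ' * (σ'⁻¹ * σ) := by group
      _ = σ' := by rw [h1, mul_one]
  -- conjugation on `N`
  have hex : ∀ k : K, ∃ σ : Perm Ω, ∀ x : N,
      (θ ⟨k * x * k⁻¹, hN.conj_mem x x.2 k⟩ : Perm Ω) = σ * (θ x : Perm Ω) * σ⁻¹ := by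
    intro k
    obtain ⟨σ, hσ⟩ := aut_alt hΩ (θ.symm.trans ((MulAut.conjNormal k).trans θ)) (by
      intro c hc
      have h4 := h3 k (θ.symm c) (by rw [θ.apply_symm_apply]; exact hc)
      have h5 : (MulAut.conjNormal k) (θ.symm c) =
          ⟨k * (θ.symm c : K) * k⁻¹, hN.conj_mem _ (θ.symm c).2 k⟩ :=
        Subtype.ext (MulAut.conjNormal_apply k _)
      show ((θ ((MulAut.conjNormal k) (θ.symm c)) : alternatingGroup Ω) : Perm Ω).IsThreeCycle
      rw [h5]
      exact h4)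
    refine ⟨σ, fun x => ?_⟩
    have h6 := hσ (θ x)
    have h5 : (MulAut.conjNormal k) x = ⟨k * (x : K) * k⁻¹, hN.conj_mem _ x.2 k⟩ :=
      Subtype.ext (MulAut.conjNormal_apply k _)
    have h7 : (θ.symm.trans ((MulAut.conjNormal k).trans θ)) (θ x) =
        θ ⟨k * (x : K) * k⁻¹, hN.conj_mem _ x.2 k⟩ := by
      show θ ((MulAut.conjNormal k) (θ.symm (θ x))) = _
      rw [θ.symm_apply_apply, h5]
    rw [h7] at h6
    exact h6
  choose s hs using hex
  have hu : ∀ (k : K) (σ : Perm Ω), (∀ x : N,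
      (θ ⟨k * x * k⁻¹, hN.conj_mem x x.2 k⟩ : Perm Ω) = σ * (θ x : Perm Ω) * σ⁻¹) → s k = σ := by
    intro k σ h
    apply huniq
    intro c
    obtain ⟨x, rfl⟩ := θ.surjective c
    rw [← hs, ← h]
  refine ⟨⟨⟨s, ?_⟩, ?_⟩, ?_, ?_⟩
  · apply hu
    intro x
    have e : (⟨1 * (x : K) * 1⁻¹, hN.conj_mem x x.2 1⟩ : N) = x := Subtype.ext (by simp)
    rw [e]
    simp
  · intro k l
    apply hu
    intro x
    have e : (⟨k * l * (x : K) * (k * l)⁻¹, hN.conj_mem x x.2 (k * l)⟩ : N) =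
        ⟨k * ((⟨l * (x : K) * l⁻¹, hN.conj_mem x x.2 l⟩ : N) : K) * k⁻¹,
          hN.conj_mem _ (⟨l * (x : K) * l⁻¹, hN.conj_mem x x.2 l⟩ : N).2 k⟩ :=
      Subtype.ext (by
        show k * l * (x : K) * (k * l)⁻¹ = k * (l * (x : K) * l⁻¹) * k⁻¹
        group)
    rw [e, hs k, hs l]
    show _ = s k * s l * (θ x : Perm Ω) * (s k * s l)⁻¹
    group
  · intro y
    apply hu
    intro x
    have e : (⟨(y : K) * (x : K) * (y : K)⁻¹, hN.conj_mem x x.2 (y : K)⟩ : N) =
        y * x * y⁻¹ := Subtype.ext rfl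
    rw [e, map_mul, map_mul, map_inv]
    rfl
  · intro k
    constructor
    · intro h x hx
      have h1 : s k = 1 := h
      have h2 := hs k ⟨x, hx⟩
      rw [h1, one_mul, inv_one, mul_one] at h2
      have h3' := θ.injective (Subtype.ext h2)
      have h4 : k * x * k⁻¹ = x := congrArg Subtype.val h3'
      calc k * x = k * x * k⁻¹ * k := by group
        _ = x * k := by rw [h4]
    · intro h
      show s k = 1
      apply hu
      intro x
      have e : (⟨k * (x : K) * k⁻¹, hN.conj_mem x x.2 k⟩ : N) = x :=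
        Subtype.ext (by
          show k * (x : K) * k⁻¹ = x
          rw [h x x.2]
          group)
      rw [e, one_mul, inv_one, mul_one]

end Pool.Agent.Lib.MP_e3cc28_alA
end

section

/-! job AF09b: facts about permutations of six points. -/

set_option autoImplicit false

namespace Pool.Agent.Lib.MP_e3cc28_alA

open Subgroup Equiv

/-- an even involution of `Sym(6)` -/
def EvInv (v : Perm (Fin 6)) : Prop := v ∈ alternatingGroup (Fin 6) ∧ v * v = 1 ∧ v ≠ 1

private theorem cyc_cases (m : Multiset ℕ) (h2 : ∀ i ∈ m, 2 ≤ i) (hs : m.sum ≤ 6) :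
    m = 0 ∨ (∃ a, m = {a}) ∨ (∃ a b, m = {a, b}) ∨ (∃ a b c, m = {a, b, c}) := by
  have hc : m.card • 2 ≤ m.sum := Multiset.card_nsmul_le_sum h2
  have hc3 : m.card ≤ 3 := by
    simp only [smul_eq_mul] at hc; omega
  rcases Nat.lt_or_ge 0 m.card with h | h
  · rcases Nat.lt_or_ge 1 m.card with h' | h'
    · rcases Nat.lt_or_ge 2 m.card with h'' | h''
      · right; right; right
        exact Multiset.card_eq_three.1 (by omega)
      · right; right; left
        exact Multiset.card_eq_two.1 (by omega)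
    · right; left
      exact Multiset.card_eq_one.1 (by omega)
  · left
    exact Multiset.card_eq_zero.1 (by omega)

private theorem cyc_sum (g : Perm (Fin 6)) : g.cycleType.sum ≤ 6 := by
  have := Equiv.Perm.sum_cycleType_le g
  simpa using this

private theorem cyc_prime {g : Perm (Fin 6)} {p : ℕ} (hp : p.Prime) (h : g ^ p = 1) :
    g.cycleType = Multiset.replicate g.cycleType.card p := by
  rw [Multiset.eq_replicate]
  refine ⟨rfl, fun n hn => ?_⟩
  have h1 : n ∣ p := (Equiv.Perm.dvd_of_mem_cycleType hn).trans (orderOf_dvd_of_pow_eq_one h)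
  have h2 : 2 ≤ n := Equiv.Perm.two_le_of_mem_cycleType hn
  rcases (Nat.dvd_prime hp).1 h1 with h3 | h3
  · omega
  · exact h3

private theorem cyc_card {g : Perm (Fin 6)} {p : ℕ} (hp : p.Prime) (h : g ^ p = 1) :
    g.cycleType.card * p ≤ 6 := by
  have h1 := cyc_sum g
  rw [cyc_prime hp h, Multiset.sum_replicate, smul_eq_mul] at h1
  exact h1

private theorem cyc_ne {g : Perm (Fin 6)} (h : g ≠ 1) : g.cycleType.card ≠ 0 := by
  intro h0
  exact h (Equiv.Perm.cycleType_eq_zero.1 (Multiset.card_eq_zero.1 h0))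

private theorem EvInv.cyc {v : Perm (Fin 6)} (hv : EvInv v) : v.cycleType = {2, 2} := by
  have h2 : v ^ 2 = 1 := by rw [sq]; exact hv.2.1
  have h := cyc_prime Nat.prime_two h2
  have hc := cyc_card Nat.prime_two h2
  have hn := cyc_ne hv.2.2
  have hs := Equiv.Perm.sign_of_cycleType v
  rw [Equiv.Perm.mem_alternatingGroup.1 hv.1] at hs
  have h3 : v.cycleType.card = 1 ∨ v.cycleType.card = 2 ∨ v.cycleType.card = 3 := by omega
  rcases h3 with h3 | h3 | h3
  · rw [h3] at h
    rw [h] at hs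
    exact absurd hs (by decide)
  · rw [h3] at h
    rw [h]; rfl
  · rw [h3] at h
    rw [h] at hs
    exact absurd hs (by decide)

private theorem ev0 : EvInv (swap 0 1 * swap 2 3) := by
  refine ⟨?_, by decide, by decide⟩
  rw [Equiv.Perm.mem_alternatingGroup, Equiv.Perm.sign_mul, Equiv.Perm.sign_swap (by decide),
    Equiv.Perm.sign_swap (by decide)]
  decide

/-- all even involutions have cycle type `{2, 2}` and are conjugate in `Sym(6)`. -/
theorem EvInv.exists_conj {v : Perm (Fin 6)} (hv : EvInv v) :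
    ∃ g : Perm (Fin 6), v = g * (swap 0 1 * swap 2 3) * g⁻¹ := by
  have h : IsConj (swap 0 1 * swap 2 3 : Perm (Fin 6)) v := by
    rw [Equiv.Perm.isConj_iff_cycleType_eq, hv.cyc, ev0.cyc]
  obtain ⟨g, hg⟩ := isConj_iff.1 h
  exact ⟨g, hg.symm⟩

/-- `Equiv.Perm.nat_card_centralizer` for the cycle type `{2, 2}`: `2^2 * 2! * 2!`. -/
theorem EvInv.card_cent {v : Perm (Fin 6)} (hv : EvInv v) :
    Nat.card ↥(centralizer {v} : Subgroup (Perm (Fin 6))) = 16 := by
  rw [Equiv.Perm.nat_card_centralizer, hv.cyc]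
  rfl

private theorem card_half (H : Subgroup (Perm (Fin 6))) {u : Perm (Fin 6)} (hu : u ∈ H)
    (h1 : u ∉ alternatingGroup (Fin 6)) :
    Nat.card ↥(H ⊓ alternatingGroup (Fin 6)) * 2 = Nat.card ↥H := by
  have e1 : (⊥ : Subgroup (Perm (Fin 6))).relIndex (H ⊓ alternatingGroup (Fin 6)) *
      (H ⊓ alternatingGroup (Fin 6)).relIndex H = (⊥ : Subgroup (Perm (Fin 6))).relIndex H :=
    relIndex_mul_relIndex _ _ _ bot_le inf_le_left
  rw [relIndex_bot_left, relIndex_bot_left, inf_relIndex_left] at e1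
  have e2 : (alternatingGroup (Fin 6)).relIndex H = 2 := by
    have : (alternatingGroup (Fin 6)).subgroupOf H =
        ((Equiv.Perm.sign (α := Fin 6)).comp H.subtype).ker := by
      ext x
      simp [Subgroup.mem_subgroupOf, MonoidHom.mem_ker]
    rw [Subgroup.relIndex, this, Subgroup.index_ker]
    have h2 : ((Equiv.Perm.sign (α := Fin 6)).comp H.subtype).range = ⊤ := by
      rw [eq_top_iff]
      intro z _
      rcases Int.units_eq_one_or z with hz | hz
      · rw [hz]; exact one_mem _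
      · rw [hz]
        refine ⟨⟨u, hu⟩, ?_⟩
        rcases Int.units_eq_one_or (Equiv.Perm.sign u) with h3 | h3
        · exact absurd (Equiv.Perm.mem_alternatingGroup.2 h3) h1
        · exact h3
    rw [h2]
    simp
  rw [e2] at e1
  exact e1

private theorem swap45_odd : (swap 4 5 : Perm (Fin 6)) ∉ alternatingGroup (Fin 6) := by
  rw [Equiv.Perm.mem_alternatingGroup, Equiv.Perm.sign_swap (by decide)]
  decide

/-- the centraliser of `(0 1)(2 3)` contains the odd permutation `(4 5)`. -/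
theorem EvInv.card_cent_alt {v : Perm (Fin 6)} (hv : EvInv v) :
    Nat.card ↥(centralizer {v} ⊓ alternatingGroup (Fin 6)) = 8 := by
  obtain ⟨g, hg⟩ := hv.exists_conj
  have h0 : (swap 0 1 * swap 2 3 : Perm (Fin 6)) * swap 4 5 =
      swap 4 5 * (swap 0 1 * swap 2 3) := by decide
  have hmem : g * swap 4 5 * g⁻¹ ∈ (centralizer {v} : Subgroup (Perm (Fin 6))) := by
    rw [Subgroup.mem_centralizer_singleton_iff, hg]
    calc g * swap 4 5 * g⁻¹ * (g * (swap 0 1 * swap 2 3) * g⁻¹)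
        = g * (swap 4 5 * (swap 0 1 * swap 2 3)) * g⁻¹ := by group
      _ = g * ((swap 0 1 * swap 2 3) * swap 4 5) * g⁻¹ := by rw [h0]
      _ = g * (swap 0 1 * swap 2 3) * g⁻¹ * (g * swap 4 5 * g⁻¹) := by group
  have hodd : g * swap 4 5 * g⁻¹ ∉ alternatingGroup (Fin 6) := by
    intro h
    apply swap45_odd
    rw [Equiv.Perm.mem_alternatingGroup] at h ⊢
    rw [← h, map_mul, map_mul, map_inv, mul_comm (Equiv.Perm.sign g), mul_assoc,
      mul_inv_cancel, mul_one]
  have h := card_half _ hmem hodd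
  rw [hv.card_cent] at h
  omega

private def sF : Fin 6 → Fin 6 := ![1, 0, 3, 2, 4, 5]
private def tF : Fin 6 → Fin 6 := ![0, 1, 2, 3, 5, 4]
private def fA (x y z : Fin 6) : Fin 6 → Fin 6 := ![x, sF x, y, sF y, z, tF z]

private def qB (x y z x' y' z' : Fin 6) : Bool :=
  decide (y = x) || decide (y = sF x) || decide (y' = x') || decide (y' = sF x') ||
    decide (∀ i, fA x y z (fA x' y' z' i) = fA x' y' z' (fA x y z i)) ||
    decide (∀ i, fA x y z (fA x' y' z' i) = sF (fA x' y' z' (fA x y z i)))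

set_option maxRecDepth 100000 in
private theorem key_q : ∀ x ∈ ([0, 1, 2, 3] : List (Fin 6)), ∀ y ∈ ([0, 1, 2, 3] : List (Fin 6)),
    ∀ z ∈ ([4, 5] : List (Fin 6)),
    ∀ x' ∈ ([0, 1, 2, 3] : List (Fin 6)), ∀ y' ∈ ([0, 1, 2, 3] : List (Fin 6)),
    ∀ z' ∈ ([4, 5] : List (Fin 6)), qB x y z x' y' z' = true := by
  decide

private theorem key_fA : ∀ x ∈ ([0, 1, 2, 3] : List (Fin 6)), ∀ y ∈ ([0, 1, 2, 3] : List (Fin 6)),
    y ≠ x → y ≠ sF x → ∀ z ∈ ([4, 5] : List (Fin 6)),
    ∀ x' ∈ ([0, 1, 2, 3] : List (Fin 6)), ∀ y' ∈ ([0, 1, 2, 3] : List (Fin 6)),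
    y' ≠ x' → y' ≠ sF x' → ∀ z' ∈ ([4, 5] : List (Fin 6)),
    (∀ i, fA x y z (fA x' y' z' i) = fA x' y' z' (fA x y z i)) ∨
      (∀ i, fA x y z (fA x' y' z' i) = sF (fA x' y' z' (fA x y z i))) := by
  intro x hx y hy h1 h2 z hz x' hx' y' hy' h3 h4 z' hz'
  have h := key_q x hx y hy z hz x' hx' y' hy' z' hz'
  simp only [qB, Bool.or_eq_true, decide_eq_true_eq] at h
  tauto

private theorem v0_apply (x : Fin 6) : (swap 0 1 * swap 2 3 : Perm (Fin 6)) x = sF x := by
  revert x; decide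

private theorem par_fA {a : Perm (Fin 6)}
    (h : a * (swap 0 1 * swap 2 3) = (swap 0 1 * swap 2 3) * a) :
    a 0 ∈ ([0, 1, 2, 3] : List (Fin 6)) ∧ a 2 ∈ ([0, 1, 2, 3] : List (Fin 6)) ∧ a 2 ≠ a 0 ∧
      a 2 ≠ sF (a 0) ∧ a 4 ∈ ([4, 5] : List (Fin 6)) ∧ ∀ i, a i = fA (a 0) (a 2) (a 4) i := by
  have hc : ∀ x, a (sF x) = sF (a x) := by
    intro x
    have h1 := congrArg (fun f : Perm (Fin 6) => f x) h
    simp only [Equiv.Perm.mul_apply (f := a), v0_apply] at h1
    rw [h1, Equiv.Perm.mul_apply (g := a), v0_apply]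
  have fix : ∀ w : Fin 6, sF w = w → w = 4 ∨ w = 5 := by decide
  have nfix : ∀ w : Fin 6, ¬ sF w = w → w ∈ ([0, 1, 2, 3] : List (Fin 6)) := by decide
  have h01 : a 1 = sF (a 0) := hc 0
  have h23 : a 3 = sF (a 2) := hc 2
  have h4 : sF (a 4) = a 4 := (hc 4).symm
  have h5 : sF (a 5) = a 5 := (hc 5).symm
  have inj := a.injective
  have n45 : a 4 ≠ a 5 := fun e => absurd (inj e) (by decide)
  have tf : ∀ w w' : Fin 6, (w = 4 ∨ w = 5) → (w' = 4 ∨ w' = 5) → w ≠ w' → w' = tF w := by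
    decide
  refine ⟨?_, ?_, fun e => absurd (inj e) (by decide), ?_, ?_, ?_⟩
  · apply nfix
    intro e
    rw [← h01] at e
    exact absurd (inj e) (by decide)
  · apply nfix
    intro e
    rw [← h23] at e
    exact absurd (inj e) (by decide)
  · rw [← h01]
    exact fun e => absurd (inj e) (by decide)
  · rcases fix _ h4 with e | e <;> rw [e] <;> decide
  · intro i
    fin_cases i
    · rfl
    · exact h01
    · rfl
    · exact h23
    · rfl
    · exact tf _ _ (fix _ h4) (fix _ h5) n45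

private theorem comm0 {a b : Perm (Fin 6)}
    (ha : a * (swap 0 1 * swap 2 3) = (swap 0 1 * swap 2 3) * a)
    (hb : b * (swap 0 1 * swap 2 3) = (swap 0 1 * swap 2 3) * b) :
    a * b = b * a ∨ a * b = (swap 0 1 * swap 2 3) * (b * a) := by
  obtain ⟨a1, a2, a3, a4, a5, a6⟩ := par_fA ha
  obtain ⟨b1, b2, b3, b4, b5, b6⟩ := par_fA hb
  rcases key_fA _ a1 _ a2 a3 a4 _ a5 _ b1 _ b2 b3 b4 _ b5 with h | h
  · left
    ext1 i
    rw [Equiv.Perm.mul_apply, Equiv.Perm.mul_apply, a6 (b i), b6 i, b6 (a i), a6 i]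
    exact h i
  · right
    ext1 i
    rw [Equiv.Perm.mul_apply, Equiv.Perm.mul_apply (f := swap 0 1 * swap 2 3), v0_apply,
      Equiv.Perm.mul_apply, a6 (b i), b6 i, b6 (a i), a6 i]
    exact h i

/-- commutators in the centraliser of an even involution `v` are `1` or `v`. (For
`v = (0 1)(2 3)`: a permutation `a` which commutes with `v` permutes the sets `{0, 1}`, `{2, 3}`
and preserves `{4, 5}`.) -/
theorem EvInv.comm {v : Perm (Fin 6)} (hv : EvInv v) {a b : Perm (Fin 6)} (ha : a * v = v * a)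
    (hb : b * v = v * b) : a * b = b * a ∨ a * b = v * (b * a) := by
  obtain ⟨g, hg⟩ := hv.exists_conj
  have key : ∀ c : Perm (Fin 6), c * v = v * c →
      (g⁻¹ * c * g) * (swap 0 1 * swap 2 3) = (swap 0 1 * swap 2 3) * (g⁻¹ * c * g) := by
    intro c hc
    have hv' : (swap 0 1 * swap 2 3 : Perm (Fin 6)) = g⁻¹ * v * g := by rw [hg]; group
    rw [hv']
    calc g⁻¹ * c * g * (g⁻¹ * v * g) = g⁻¹ * (c * v) * g := by group
      _ = g⁻¹ * (v * c) * g := by rw [hc]
      _ = g⁻¹ * v * g * (g⁻¹ * c * g) := by group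
  rcases comm0 (key a ha) (key b hb) with h | h
  · left
    calc a * b = g * ((g⁻¹ * a * g) * (g⁻¹ * b * g)) * g⁻¹ := by group
      _ = g * ((g⁻¹ * b * g) * (g⁻¹ * a * g)) * g⁻¹ := by rw [h]
      _ = b * a := by group
  · right
    calc a * b = g * ((g⁻¹ * a * g) * (g⁻¹ * b * g)) * g⁻¹ := by group
      _ = g * ((swap 0 1 * swap 2 3) * ((g⁻¹ * b * g) * (g⁻¹ * a * g))) * g⁻¹ := by rw [h]
      _ = (g * (swap 0 1 * swap 2 3) * g⁻¹) * (b * a) := by group
      _ = v * (b * a) := by rw [← hg]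

/-- for `v = (0 1)(2 3)`: `a = (0 1)(4 5)`, `b = (0 2)(1 3)`. -/
theorem EvInv.exists_comm {v : Perm (Fin 6)} (hv : EvInv v) :
    ∃ a ∈ alternatingGroup (Fin 6), ∃ b ∈ alternatingGroup (Fin 6), a * v = v * a ∧
      b * v = v * b ∧ a * b = v * (b * a) := by
  obtain ⟨g, hg⟩ := hv.exists_conj
  have hs : ∀ x y z w : Fin 6, x ≠ y → z ≠ w →
      g * (swap x y * swap z w) * g⁻¹ ∈ alternatingGroup (Fin 6) := by
    intro x y z w h1 h2
    rw [Equiv.Perm.mem_alternatingGroup, map_mul, map_mul, map_mul, map_inv,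
      Equiv.Perm.sign_swap h1, Equiv.Perm.sign_swap h2, mul_comm (Equiv.Perm.sign g), mul_assoc,
      mul_inv_cancel]
    decide
  refine ⟨g * (swap 0 1 * swap 4 5) * g⁻¹, hs _ _ _ _ (by decide) (by decide),
    g * (swap 0 2 * swap 1 3) * g⁻¹, hs _ _ _ _ (by decide) (by decide), ?_, ?_, ?_⟩
  · have h0 : (swap 0 1 * swap 4 5 : Perm (Fin 6)) * (swap 0 1 * swap 2 3) =
        (swap 0 1 * swap 2 3) * (swap 0 1 * swap 4 5) := by decide
    rw [hg]
    calc g * (swap 0 1 * swap 4 5) * g⁻¹ * (g * (swap 0 1 * swap 2 3) * g⁻¹)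
        = g * ((swap 0 1 * swap 4 5) * (swap 0 1 * swap 2 3)) * g⁻¹ := by group
      _ = g * ((swap 0 1 * swap 2 3) * (swap 0 1 * swap 4 5)) * g⁻¹ := by rw [h0]
      _ = g * (swap 0 1 * swap 2 3) * g⁻¹ * (g * (swap 0 1 * swap 4 5) * g⁻¹) := by group
  · have h0 : (swap 0 2 * swap 1 3 : Perm (Fin 6)) * (swap 0 1 * swap 2 3) =
        (swap 0 1 * swap 2 3) * (swap 0 2 * swap 1 3) := by decide
    rw [hg]
    calc g * (swap 0 2 * swap 1 3) * g⁻¹ * (g * (swap 0 1 * swap 2 3) * g⁻¹)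
        = g * ((swap 0 2 * swap 1 3) * (swap 0 1 * swap 2 3)) * g⁻¹ := by group
      _ = g * ((swap 0 1 * swap 2 3) * (swap 0 2 * swap 1 3)) * g⁻¹ := by rw [h0]
      _ = g * (swap 0 1 * swap 2 3) * g⁻¹ * (g * (swap 0 2 * swap 1 3) * g⁻¹) := by group
  · have h0 : (swap 0 1 * swap 4 5 : Perm (Fin 6)) * (swap 0 2 * swap 1 3) =
        (swap 0 1 * swap 2 3) * ((swap 0 2 * swap 1 3) * (swap 0 1 * swap 4 5)) := by decide
    rw [hg]
    calc g * (swap 0 1 * swap 4 5) * g⁻¹ * (g * (swap 0 2 * swap 1 3) * g⁻¹)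
        = g * ((swap 0 1 * swap 4 5) * (swap 0 2 * swap 1 3)) * g⁻¹ := by group
      _ = g * ((swap 0 1 * swap 2 3) * ((swap 0 2 * swap 1 3) * (swap 0 1 * swap 4 5))) * g⁻¹ := by
          rw [h0]
      _ = g * (swap 0 1 * swap 2 3) * g⁻¹ * (g * (swap 0 2 * swap 1 3) * g⁻¹ *
            (g * (swap 0 1 * swap 4 5) * g⁻¹)) := by group

/-- `v` is determined by its centraliser in `Alt(6)`. Proof: let `a, b` be the elements of
`exists_comm` for `v`; they commute with `x`, and by `comm` for `x` their commutator `v` is `1` or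
`x`. -/
theorem EvInv.eq_of_cent {v x : Perm (Fin 6)} (hv : EvInv v) (hx : EvInv x)
    (h : ∀ a ∈ alternatingGroup (Fin 6), a * v = v * a → a * x = x * a) : v = x := by
  obtain ⟨a, ha, b, hb, h1, h2, h3⟩ := hv.exists_comm
  rcases hx.comm (h a ha h1) (h b hb h2) with h4 | h4
  · exfalso
    rw [h3] at h4
    exact hv.2.2 (mul_eq_right.1 h4)
  · rw [h3] at h4
    exact mul_right_cancel h4

/-- the cycle types of even permutations of six points: `∅`, `{2,2}`, `{3}`, `{3,3}`, `{4,2}`,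
`{5}`. -/
theorem pow_alt_six {g : Perm (Fin 6)} (hg : g ∈ alternatingGroup (Fin 6)) :
    g ^ 3 = 1 ∨ g ^ 4 = 1 ∨ g ^ 5 = 1 := by
  have hd : ∀ p : ℕ, g.cycleType.lcm ∣ p → g ^ p = 1 := by
    intro p hp
    rw [Equiv.Perm.lcm_cycleType] at hp
    exact orderOf_dvd_iff_pow_eq_one.1 hp
  have h2 : ∀ i ∈ g.cycleType, 2 ≤ i := fun i hi => Equiv.Perm.two_le_of_mem_cycleType hi
  have hs := cyc_sum g
  have hsg := Equiv.Perm.sign_of_cycleType g
  rw [Equiv.Perm.mem_alternatingGroup.1 hg] at hsg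
  revert hd h2 hs hsg
  generalize g.cycleType = m
  intro hd h2 hs hsg
  rcases cyc_cases m h2 hs with h | ⟨a, h⟩ | ⟨a, b, h⟩ | ⟨a, b, c, h⟩
  · left; apply hd; rw [h]; simp
  · rw [h] at h2 hs hsg hd
    have ha := h2 a (by simp)
    simp only [Multiset.sum_singleton] at hs
    interval_cases a
    · exact absurd hsg (by decide)
    · left; apply hd; decide
    · exact absurd hsg (by decide)
    · right; right; apply hd; decide
    · exact absurd hsg (by decide)
  · rw [h] at h2 hs hsg hd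
    have ha := h2 a (by simp)
    have hb := h2 b (by simp)
    simp only [Multiset.insert_eq_cons, Multiset.sum_cons, Multiset.sum_singleton] at hs
    have ha' : a ≤ 4 := by omega
    have hb' : b ≤ 4 := by omega
    interval_cases a <;> interval_cases b
    · right; left; apply hd; decide
    · exact absurd hsg (by decide)
    · right; left; apply hd; decide
    · exact absurd hsg (by decide)
    · left; apply hd; decide
    · omega
    · right; left; apply hd; decide
    · omega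
    · omega
  · rw [h] at h2 hs hsg hd
    have ha := h2 a (by simp)
    have hb := h2 b (by simp)
    have hc := h2 c (by simp)
    simp only [Multiset.insert_eq_cons, Multiset.sum_cons, Multiset.sum_singleton] at hs
    have ha' : a = 2 := by omega
    have hb' : b = 2 := by omega
    have hc' : c = 2 := by omega
    subst ha' hb' hc'
    exact absurd hsg (by decide)

/-- the centraliser of an odd involution (type `{2}` or `{2,2,2}`) in `Sym(6)` has order 48, and it
contains the odd permutation `u`. -/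
theorem card_cent_odd {u : Perm (Fin 6)} (hu : u ∉ alternatingGroup (Fin 6)) (h2 : u * u = 1) :
    Nat.card ↥(centralizer {u} ⊓ alternatingGroup (Fin 6)) = 24 := by
  have h48 : Nat.card ↥(centralizer {u} : Subgroup (Perm (Fin 6))) = 48 := by
    have hp : u ^ 2 = 1 := by rw [sq]; exact h2
    have h := cyc_prime Nat.prime_two hp
    have hc := cyc_card Nat.prime_two hp
    have hs := Equiv.Perm.sign_of_cycleType u
    have hs1 : Equiv.Perm.sign u ≠ 1 := fun e => hu (Equiv.Perm.mem_alternatingGroup.2 e)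
    rw [hs] at hs1
    have h3 : u.cycleType.card = 0 ∨ u.cycleType.card = 1 ∨ u.cycleType.card = 2 ∨
      u.cycleType.card = 3 := by omega
    rcases h3 with h3 | h3 | h3 | h3
    · rw [h3] at h
      rw [h] at hs1
      exact absurd (by decide) hs1
    · rw [h3] at h
      rw [Equiv.Perm.nat_card_centralizer, h]; rfl
    · rw [h3] at h
      rw [h] at hs1
      exact absurd (by decide) hs1
    · rw [h3] at h
      rw [Equiv.Perm.nat_card_centralizer, h]; rfl
  have hm : u ∈ (centralizer {u} : Subgroup (Perm (Fin 6))) := by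
    rw [Subgroup.mem_centralizer_singleton_iff]
  have h := card_half _ hm hu
  rw [h48] at h
  omega

/-- the centraliser of an element of order 3 in `Sym(6)` has order 18. -/
theorem card_cent_three {g : Perm (Fin 6)} (h3 : g ^ 3 = 1) (h1 : g ≠ 1) :
    Nat.card ↥(centralizer {g} : Subgroup (Perm (Fin 6))) = 18 := by
  have h := cyc_prime Nat.prime_three h3
  have hc := cyc_card Nat.prime_three h3
  have hn := cyc_ne h1
  have h4 : g.cycleType.card = 1 ∨ g.cycleType.card = 2 := by omega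
  rcases h4 with h4 | h4 <;> rw [h4] at h <;> rw [Equiv.Perm.nat_card_centralizer, h] <;> rfl

/-- the centraliser of an element of order 5 in `Sym(6)` has order 5. -/
theorem card_cent_five {g : Perm (Fin 6)} (h5 : g ^ 5 = 1) (h1 : g ≠ 1) :
    Nat.card ↥(centralizer {g} : Subgroup (Perm (Fin 6))) = 5 := by
  have h := cyc_prime Nat.prime_five h5
  have hc := cyc_card Nat.prime_five h5
  have hn := cyc_ne h1
  have h4 : g.cycleType.card = 1 := by omega
  rw [h4] at h
  rw [Equiv.Perm.nat_card_centralizer, h]; rfl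

end Pool.Agent.Lib.MP_e3cc28_alA
end

section

/-! job AF09c: the Sylow 2-subgroups of `Alt(6)` and `Sym(6)` are the centralisers of even
involutions. -/

set_option autoImplicit false

namespace Pool.Agent.Lib.MP_e3cc28_alA

open Subgroup Equiv

/-- a subgroup of `Sym(6)` which contains `Alt(6)` is `Alt(6)` or `Sym(6)`. -/
theorem eq_alt_or_top {G : Subgroup (Perm (Fin 6))} (hG : alternatingGroup (Fin 6) ≤ G) :
    G = alternatingGroup (Fin 6) ∨ G = ⊤ := by
  by_cases h : G ≤ alternatingGroup (Fin 6)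
  · exact Or.inl (le_antisymm h hG)
  · right
    obtain ⟨g, hg, hga⟩ := SetLike.not_le_iff_exists.1 h
    rw [eq_top_iff]
    intro x _
    by_cases hx : x ∈ alternatingGroup (Fin 6)
    · exact hG hx
    · have h1 : x * g⁻¹ ∈ alternatingGroup (Fin 6) := by
        rw [Equiv.Perm.mem_alternatingGroup] at *
        have h2 : Equiv.Perm.sign x = -1 := by
          rcases Int.units_eq_one_or (Equiv.Perm.sign x) with h | h
          · exact absurd h hx
          · exact h
        have h3 : Equiv.Perm.sign g = -1 := by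
          rcases Int.units_eq_one_or (Equiv.Perm.sign g) with h | h
          · exact absurd h hga
          · exact h
        rw [map_mul, map_inv, h2, h3]
        decide
      have h4 : x = (x * g⁻¹) * g := by group
      rw [h4]
      exact G.mul_mem (hG h1) hg

private theorem card_rel {G P : Subgroup (Perm (Fin 6))} (h : P ≤ G) :
    Nat.card P * P.relIndex G = Nat.card G := by
  have h1 := Subgroup.relIndex_mul_relIndex (⊥ : Subgroup (Perm (Fin 6))) P G bot_le h
  rwa [Subgroup.relIndex_bot_left, Subgroup.relIndex_bot_left] at h1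

private theorem card_alt6 : Nat.card (alternatingGroup (Fin 6)) = 360 := by
  rw [nat_card_alternatingGroup]
  simp [Nat.factorial]

private theorem card_top6 : Nat.card (⊤ : Subgroup (Perm (Fin 6))) = 720 := by
  rw [Subgroup.card_top, Nat.card_eq_fintype_card, Fintype.card_perm]
  simp [Nat.factorial]

/-- Orders 16 and `720 = 16 * 45` for `G = ⊤`; 8 and `360 = 8 * 45` for `Alt(6)`
(`EvInv.card_cent`, `EvInv.card_cent_alt`). -/
theorem EvInv.sylIn {v : Perm (Fin 6)} (hv : EvInv v) {G : Subgroup (Perm (Fin 6))}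
    (hG : alternatingGroup (Fin 6) ≤ G) : SylIn G (centralizer {v} ⊓ G) := by
  rcases eq_alt_or_top hG with h | h
  · subst h
    have hc := hv.card_cent_alt
    refine ⟨inf_le_right, IsPGroup.of_card (n := 3) (by rw [hc]; norm_num), ?_⟩
    have h1 := card_rel (inf_le_right : centralizer {v} ⊓ alternatingGroup (Fin 6) ≤
      alternatingGroup (Fin 6))
    rw [hc, card_alt6] at h1
    omega
  · subst h
    rw [inf_top_eq]
    have hc := hv.card_cent
    refine ⟨le_top, IsPGroup.of_card (n := 4) (by rw [hc]; norm_num), ?_⟩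
    have h1 := card_rel (le_top : (centralizer {v} : Subgroup (Perm (Fin 6))) ≤ ⊤)
    rw [hc, card_top6] at h1
    omega

private theorem mem_cent {v x : Perm (Fin 6)} :
    x ∈ (centralizer {v} : Subgroup (Perm (Fin 6))) ↔ x * v = v * x := by
  rw [Subgroup.mem_centralizer_singleton_iff]

private theorem EvInv.conjg {v : Perm (Fin 6)} (hv : EvInv v) (h : Perm (Fin 6)) :
    EvInv (h * v * h⁻¹) := by
  obtain ⟨h1, h2, h3⟩ := hv
  refine ⟨?_, ?_, ?_⟩
  · exact (inferInstance : (alternatingGroup (Fin 6)).Normal).conj_mem v h1 h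
  · calc h * v * h⁻¹ * (h * v * h⁻¹) = h * (v * v) * h⁻¹ := by group
      _ = 1 := by rw [h2]; group
  · intro h4
    apply h3
    calc v = h⁻¹ * (h * v * h⁻¹) * h := by group
      _ = 1 := by rw [h4]; group

/-- commuting with a conjugate -/
private theorem comm_conj {h v x : Perm (Fin 6)} :
    (h⁻¹ * x * h) * v = v * (h⁻¹ * x * h) ↔ x * (h * v * h⁻¹) = (h * v * h⁻¹) * x := by
  constructor
  · intro e
    calc x * (h * v * h⁻¹) = h * ((h⁻¹ * x * h) * v) * h⁻¹ := by group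
      _ = h * (v * (h⁻¹ * x * h)) * h⁻¹ := by rw [e]
      _ = (h * v * h⁻¹) * x := by group
  · intro e
    calc (h⁻¹ * x * h) * v = h⁻¹ * (x * (h * v * h⁻¹)) * h := by group
      _ = h⁻¹ * ((h * v * h⁻¹) * x) * h := by rw [e]
      _ = v * (h⁻¹ * x * h) := by group

/-- Proof. `P ∩ Alt(6)` is a nontrivial normal subgroup of the 2-group `P`, so it contains a
nontrivial element of the centre of `P`, hence an element `v` of order 2 of the centre
(`P ≤ centralizer {v} ⊓ G`, and both are Sylow 2-subgroups of `G`). -/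
theorem exists_evInv {G P : Subgroup (Perm (Fin 6))} (hG : alternatingGroup (Fin 6) ≤ G)
    (hP : SylIn G P) : ∃ v, EvInv v ∧ P = centralizer {v} ⊓ G := by
  have h0 : EvInv (swap 0 1 * swap 2 3 : Perm (Fin 6)) := by
    refine ⟨?_, ?_, ?_⟩
    · rw [Equiv.Perm.mem_alternatingGroup]; decide
    · decide
    · decide
  obtain ⟨h, hh, hx⟩ := (h0.sylIn hG).exists_conj hP
  refine ⟨h * (swap 0 1 * swap 2 3) * h⁻¹, h0.conjg h, ?_⟩
  ext x
  rw [hx x, Subgroup.mem_inf, Subgroup.mem_inf, mem_cent, mem_cent, comm_conj]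
  refine and_congr Iff.rfl ?_
  constructor
  · intro e
    have : x = h * (h⁻¹ * x * h) * h⁻¹ := by group
    rw [this]
    exact G.mul_mem (G.mul_mem hh e) (G.inv_mem hh)
  · intro e
    exact G.mul_mem (G.mul_mem (G.inv_mem hh) e) hh

/-- Step 1: let `z`, `v` be even involutions, `H ≤ Alt(6)` a subgroup which contains the
centralisers of `z` and `v` in `Alt(6)`. Then `z` and `v` are conjugate in `H`.

Proof. The centralisers are Sylow 2-subgroups of `H` (order 8, `SylIn.down`), hence conjugate in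
`H` by some `h`; the centralisers of `h z h⁻¹` and `v` are equal, so `h z h⁻¹ = v` by
`EvInv.eq_of_cent`. -/
theorem EvInv.conj_of_le {z v : Perm (Fin 6)} (hz : EvInv z) (hv : EvInv v)
    {H : Subgroup (Perm (Fin 6))} (hH : H ≤ alternatingGroup (Fin 6))
    (h1 : centralizer {z} ⊓ alternatingGroup (Fin 6) ≤ H)
    (h2 : centralizer {v} ⊓ alternatingGroup (Fin 6) ≤ H) : ∃ h ∈ H, h * z * h⁻¹ = v := by
  have s1 : SylIn H (centralizer {z} ⊓ alternatingGroup (Fin 6)) :=
    (hz.sylIn le_rfl).down h1 hH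
  have s2 : SylIn H (centralizer {v} ⊓ alternatingGroup (Fin 6)) :=
    (hv.sylIn le_rfl).down h2 hH
  obtain ⟨h, hh, hx⟩ := s1.exists_conj s2
  refine ⟨h, hh, ?_⟩
  refine (hv.eq_of_cent (hz.conjg h) ?_).symm
  intro a ha hav
  have h3 : a ∈ centralizer {v} ⊓ alternatingGroup (Fin 6) :=
    Subgroup.mem_inf.2 ⟨mem_cent.2 hav, ha⟩
  have h4 := (hx a).1 h3
  exact comm_conj.1 (mem_cent.1 (Subgroup.mem_inf.1 h4).1)

/-- the strong form of `(∗)` for a pair of Sylow subgroups -/
def StrongPair (G A P Q : Subgroup (Perm (Fin 6))) : Prop :=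
  ∃ h ∈ (P ⊓ A) ⊔ (Q ⊓ A), (∀ d, d ∈ P → d ∈ Q → h⁻¹ * d * h ∈ P) ∧
    ∀ s ∈ P, ∀ d, d ∈ P → d ∈ Q →
      (h * s * h⁻¹) * d * (h * s * h⁻¹)⁻¹ ∈ P ∧ (h * s * h⁻¹) * d * (h * s * h⁻¹)⁻¹ ∈ Q

/-- Step 2: it is enough to find an even involution `v` such that `⟨P ∩ A, Q ∩ A⟩` contains the
centraliser of `v` in `A = Alt(6)` and the centraliser of `v` in `G` contains and normalises
`P ∩ Q`.

Proof. Let `h` be the element of `conj_of_le` for `H = (P ⊓ A) ⊔ (Q ⊓ A)`. Then
`h (centralizer {z} ⊓ G) h⁻¹ = centralizer {v} ⊓ G`. -/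
theorem strongPair_of {G : Subgroup (Perm (Fin 6))} (hG : alternatingGroup (Fin 6) ≤ G)
    {z w v : Perm (Fin 6)} (hz : EvInv z) (hw : EvInv w) (hv : EvInv v)
    (hle : centralizer {v} ⊓ alternatingGroup (Fin 6) ≤
      ((centralizer {z} ⊓ G) ⊓ alternatingGroup (Fin 6)) ⊔
        ((centralizer {w} ⊓ G) ⊓ alternatingGroup (Fin 6)))
    (hD : ∀ d ∈ G, d * z = z * d → d * w = w * d → d * v = v * d)
    (hn : ∀ s ∈ G, s * v = v * s → ∀ d ∈ G, d * z = z * d → d * w = w * d →
      (s * d * s⁻¹) * z = z * (s * d * s⁻¹) ∧ (s * d * s⁻¹) * w = w * (s * d * s⁻¹)) :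
    StrongPair G (alternatingGroup (Fin 6)) (centralizer {z} ⊓ G) (centralizer {w} ⊓ G) := by
  have hHA : ((centralizer {z} ⊓ G) ⊓ alternatingGroup (Fin 6)) ⊔
        ((centralizer {w} ⊓ G) ⊓ alternatingGroup (Fin 6)) ≤ alternatingGroup (Fin 6) :=
    sup_le inf_le_right inf_le_right
  have h1 : centralizer {z} ⊓ alternatingGroup (Fin 6) ≤
      ((centralizer {z} ⊓ G) ⊓ alternatingGroup (Fin 6)) ⊔
        ((centralizer {w} ⊓ G) ⊓ alternatingGroup (Fin 6)) := by
    refine le_trans ?_ le_sup_left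
    exact le_inf (inf_le_inf le_rfl hG) inf_le_right
  obtain ⟨h, hh, hhz⟩ := hz.conj_of_le hv hHA h1 hle
  have hhG : h ∈ G := hG (hHA hh)
  refine ⟨h, hh, ?_, ?_⟩
  · intro d hdz hdw
    rw [Subgroup.mem_inf, mem_cent] at hdz hdw ⊢
    refine ⟨comm_conj.2 ?_, G.mul_mem (G.mul_mem (G.inv_mem hhG) hdz.2) hhG⟩
    rw [hhz]
    exact hD d hdz.2 hdz.1 hdw.1
  · intro s hs d hdz hdw
    rw [Subgroup.mem_inf, mem_cent] at hs hdz hdw ⊢
    rw [Subgroup.mem_inf, mem_cent]
    have hsG : h * s * h⁻¹ ∈ G := G.mul_mem (G.mul_mem hhG hs.2) (G.inv_mem hhG)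
    have hsv : (h * s * h⁻¹) * v = v * (h * s * h⁻¹) := by
      rw [← hhz]
      calc h * s * h⁻¹ * (h * z * h⁻¹) = h * (s * z) * h⁻¹ := by group
        _ = h * (z * s) * h⁻¹ := by rw [hs.1]
        _ = h * z * h⁻¹ * (h * s * h⁻¹) := by group
    have h5 := hn _ hsG hsv d hdz.2 hdz.1 hdw.1
    have h6 : (h * s * h⁻¹) * d * (h * s * h⁻¹)⁻¹ ∈ G :=
      G.mul_mem (G.mul_mem hsG hdz.2) (G.inv_mem hsG)
    exact ⟨⟨h5.1, h6⟩, ⟨h5.2, h6⟩⟩

/-- the case of a trivial intersection: `h = 1` -/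
theorem strongPair_of_trivial (G : Subgroup (Perm (Fin 6))) {z w : Perm (Fin 6)}
    (hD : ∀ d ∈ G, d * z = z * d → d * w = w * d → d = 1) :
    StrongPair G (alternatingGroup (Fin 6)) (centralizer {z} ⊓ G) (centralizer {w} ⊓ G) := by
  refine ⟨1, Subgroup.one_mem _, ?_, ?_⟩
  · intro d hdz hdw
    rw [Subgroup.mem_inf, mem_cent] at hdz hdw
    have := hD d hdz.2 hdz.1 hdw.1
    subst this
    simp [Subgroup.one_mem]
  · intro s _ d hdz hdw
    rw [Subgroup.mem_inf, mem_cent] at hdz hdw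
    have := hD d hdz.2 hdz.1 hdw.1
    subst this
    simp [Subgroup.one_mem]

end Pool.Agent.Lib.MP_e3cc28_alA
end

section

/-! job AH03: in a group with `(∗)` which is generated by its Sylow 2-subgroups, a simple normal
subgroup of type `Bender` is a direct factor. -/

set_option autoImplicit false

namespace Pool.Agent.Lib.MP_e3cc28_alH

open Subgroup Equiv
open Pool.Agent.Lib.MP_e3cc28_al (Star')
open Pool.Agent.Lib.MP_e3cc28_alA

universe u

variable {K : Type u} [Group K] [Finite K]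

omit [Finite K] in
private lemma eq_map_of_subgroupOf {N T : Subgroup K} (h : T ≤ N) :
    (T.subgroupOf N).map N.subtype = T := by
  rw [Subgroup.subgroupOf_map_subtype, inf_eq_left]
  exact h

/-- a 2-element of `N` which normalises a Sylow 2-subgroup is contained in it -/
private lemma mem_of_norm {N T : Subgroup K} (hT : SylIn N T) {x : K} (hxN : x ∈ N)
    (hx : ∃ k : ℕ, x ^ 2 ^ k = 1) (hn : ∀ y, y ∈ T ↔ x⁻¹ * y * x ∈ T) : x ∈ T := by
  obtain ⟨hTN, S, hS⟩ := sylIn_iff.1 hT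
  set x' : N := ⟨x, hxN⟩ with hx'
  have hp : IsPGroup 2 (Subgroup.zpowers x') := by
    rintro ⟨y, hy⟩
    obtain ⟨n, rfl⟩ := Subgroup.mem_zpowers_iff.1 hy
    obtain ⟨k, hk⟩ := hx
    refine ⟨k, Subtype.ext ?_⟩
    have h1 : x' ^ 2 ^ k = 1 := by
      apply Subtype.ext
      simpa using hk
    change (x' ^ n) ^ 2 ^ k = 1
    rw [← zpow_natCast, ← zpow_mul, mul_comm, zpow_mul, zpow_natCast, h1, one_zpow]
  have h1 := hp.inf_normalizer_sylow S
  have h2 : x' ∈ normalizer ((S : Subgroup N) : Set N) := by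
    rw [Subgroup.mem_normalizer_iff]
    intro y
    rw [hS, Subgroup.mem_subgroupOf, Subgroup.mem_subgroupOf]
    have h3 := hn (x * y * x⁻¹)
    rw [show x⁻¹ * (x * y * x⁻¹) * x = y by group] at h3
    exact h3.symm
  have h3 : x' ∈ Subgroup.zpowers x' ⊓ (S : Subgroup N) := by
    rw [← h1]
    exact ⟨Subgroup.mem_zpowers x', h2⟩
  have h4 : x' ∈ (S : Subgroup N) := h3.2
  rw [hS, Subgroup.mem_subgroupOf] at h4
  exact h4

/-- `Bender` in terms of `SylIn`: (1) trivial intersections, (2) a Sylow 2-subgroup `T` of `N` acts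
transitively by conjugation on the other ones (for `x ∈ T`, if `x` normalises a Sylow subgroup
`U ≠ T`, then `x ∈ U` by maximality, so `x = 1`; so the orbits of `T` on the other Sylow subgroups
have length `|T|`, and their number is `|T|`). -/
theorem Bender.sylIn {N : Subgroup K} (h : Bender N) :
    (∀ T U : Subgroup K, SylIn N T → SylIn N U → T ≠ U → ∀ x, x ∈ T → x ∈ U → x = 1) ∧
    ∀ T U V : Subgroup K, SylIn N T → SylIn N U → SylIn N V → U ≠ T → V ≠ T →
      ∃ t ∈ T, ∀ x, x ∈ V ↔ t⁻¹ * x * t ∈ U := by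
  have hne : ∀ T U : Subgroup K, T ≤ N → U ≤ N → T ≠ U → T.subgroupOf N ≠ U.subgroupOf N := by
    intro T U hT hU hne he
    apply hne
    rw [← eq_map_of_subgroupOf hT, ← eq_map_of_subgroupOf hU, he]
  have h1 : ∀ T U : Subgroup K, SylIn N T → SylIn N U → T ≠ U → ∀ x, x ∈ T → x ∈ U → x = 1 := by
    intro T U hT hU hTU x hxT hxU
    obtain ⟨hTN, P, hP⟩ := sylIn_iff.1 hT
    obtain ⟨hUN, Q, hQ⟩ := sylIn_iff.1 hU
    have hPQ : P ≠ Q := by
      intro he
      apply hne T U hTN hUN hTU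
      rw [← hP, ← hQ, he]
    have h2 := h.1 P Q hPQ ⟨x, hTN hxT⟩
      (by
        change (⟨x, hTN hxT⟩ : N) ∈ (P : Subgroup N)
        rw [hP]; exact Subgroup.mem_subgroupOf.2 hxT)
      (by
        change (⟨x, hTN hxT⟩ : N) ∈ (Q : Subgroup N)
        rw [hQ]; exact Subgroup.mem_subgroupOf.2 hxU)
    simpa using congrArg Subtype.val h2
  refine ⟨h1, ?_⟩
  intro T U V hT hU hV hUT hVT
  obtain ⟨hTN, P, hP⟩ := sylIn_iff.1 hT
  obtain ⟨hUN, Q, hQ⟩ := sylIn_iff.1 hU
  obtain ⟨hVN, R, hR⟩ := sylIn_iff.1 hV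
  have hQP : Q ≠ P := by
    intro he
    apply hne U T hUN hTN hUT
    rw [← hP, ← hQ, he]
  have hRP : R ≠ P := by
    intro he
    apply hne V T hVN hTN hVT
    rw [← hP, ← hR, he]
  have hcard : Nat.card {X : Sylow 2 N // X ≠ P} = Nat.card P := by
    classical
    have e := Nat.card_congr (Equiv.optionSubtypeNe P)
    rw [Finite.card_option, h.2 P] at e
    omega
  have hfix : ∀ (t : N), t ∈ P → t • P = P := by
    intro t ht
    exact Sylow.smul_eq_iff_mem_normalizer.2 (Subgroup.le_normalizer ht)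
  let f : P → {X : Sylow 2 N // X ≠ P} := fun t => ⟨(t : N) • Q, by
    intro he
    apply hQP
    have h2 := congrArg (fun X => (t : N)⁻¹ • X) he
    simp only [inv_smul_smul] at h2
    rw [h2]
    exact hfix _ (inv_mem t.2)⟩
  have hinj : Function.Injective f := by
    intro s t hst
    have h2 : (s : N) • Q = (t : N) • Q := congrArg Subtype.val hst
    have h3 : ((t : N)⁻¹ * s) • Q = Q := by
      rw [mul_smul, h2, inv_smul_smul]
    have h4 := Sylow.smul_eq_iff_mem_normalizer.1 h3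
    have h5 : ((t : N)⁻¹ * s) ∈ (P : Subgroup N) := mul_mem (inv_mem t.2) s.2
    have h6 := P.isPGroup'.inf_normalizer_sylow Q
    have h7 : ((t : N)⁻¹ * s) ∈ (P : Subgroup N) ⊓ (Q : Subgroup N) := by
      rw [← h6]
      exact ⟨h5, h4⟩
    have h8 := h.1 P Q hQP.symm _ h5 h7.2
    apply Subtype.ext
    exact (inv_mul_eq_one.1 h8).symm
  have hbij : Function.Bijective f :=
    (Nat.bijective_iff_injective_and_card f).2 ⟨hinj, hcard.symm⟩
  obtain ⟨t, ht⟩ := hbij.2 ⟨R, hRP⟩
  have h2 : (t : N) • Q = R := congrArg Subtype.val ht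
  refine ⟨(t : N), ?_, ?_⟩
  · have h3 : (t : N) ∈ (P : Subgroup N) := t.2
    rw [hP, Subgroup.mem_subgroupOf] at h3
    exact h3
  · intro x
    have key : ∀ y : N, y ∈ (R : Subgroup N) ↔ (t : N)⁻¹ * y * t ∈ (Q : Subgroup N) := by
      intro y
      rw [← h2, Sylow.coe_subgroup_smul, Subgroup.mem_pointwise_smul_iff_inv_smul_mem]
      rw [← map_inv, MulAut.smul_def, MulAut.conj_apply, inv_inv]
    constructor
    · intro hx
      have h3 := (key ⟨x, hVN hx⟩).1 (by rw [hR]; exact Subgroup.mem_subgroupOf.2 hx)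
      rw [hQ, Subgroup.mem_subgroupOf] at h3
      simpa using h3
    · intro hx
      have hxN : x ∈ N := by
        have h3 := N.mul_mem (N.mul_mem (t : N).2 (hUN hx)) (N.inv_mem (t : N).2)
        rwa [show ((t : N) : K) * (((t : N) : K)⁻¹ * x * (t : N)) * ((t : N) : K)⁻¹ = x by
          group] at h3
      have h3 := (key ⟨x, hxN⟩).2 (by
        rw [hQ, Subgroup.mem_subgroupOf]
        simpa using hx)
      rw [hR, Subgroup.mem_subgroupOf] at h3
      exact h3

/-- the elements which normalise `T` and `U` -/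
private def normTwo (T U : Subgroup K) : Subgroup K where
  carrier := {g | (∀ x, x ∈ T ↔ g⁻¹ * x * g ∈ T) ∧ ∀ x, x ∈ U ↔ g⁻¹ * x * g ∈ U}
  mul_mem' := by
    rintro a b ⟨ha, ha'⟩ ⟨hb, hb'⟩
    refine ⟨fun x => ?_, fun x => ?_⟩
    · rw [ha, hb]
      simp only [mul_inv_rev, mul_assoc]
    · rw [ha', hb']
      simp only [mul_inv_rev, mul_assoc]
  one_mem' := by
    simp
  inv_mem' := by
    rintro a ⟨ha, ha'⟩
    refine ⟨fun x => ?_, fun x => ?_⟩
    · rw [ha (a⁻¹⁻¹ * x * a⁻¹)]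
      rw [show a⁻¹ * (a⁻¹⁻¹ * x * a⁻¹) * a = x by group]
    · rw [ha' (a⁻¹⁻¹ * x * a⁻¹)]
      rw [show a⁻¹ * (a⁻¹⁻¹ * x * a⁻¹) * a = x by group]

/-- the elements of `N` which exchange `T` and `U` -/
private def swapSet (N T U : Subgroup K) : Set K :=
  {w | w ∈ N ∧ (∀ x, x ∈ U ↔ w⁻¹ * x * w ∈ T) ∧ ∀ x, x ∈ T ↔ w⁻¹ * x * w ∈ U}

omit [Finite K] in
private lemma swapSet_conj {N T U : Subgroup K} (hN : N.Normal) {g w : K} (hg : g ∈ normTwo T U)
    (hw : w ∈ swapSet N T U) : g * w * g⁻¹ ∈ swapSet N T U := by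
  have hg' := (normTwo T U).inv_mem hg
  refine ⟨hN.conj_mem w hw.1 g, fun x => ?_, fun x => ?_⟩
  · rw [hg.2 x, hw.2.1, hg'.1]
    rw [show g⁻¹⁻¹ * (w⁻¹ * (g⁻¹ * x * g) * w) * g⁻¹ = (g * w * g⁻¹)⁻¹ * x * (g * w * g⁻¹) by group]
  · rw [hg.1 x, hw.2.2, hg'.2]
    rw [show g⁻¹⁻¹ * (w⁻¹ * (g⁻¹ * x * g) * w) * g⁻¹ = (g * w * g⁻¹)⁻¹ * x * (g * w * g⁻¹) by group]

/-- Let `φ ∈ K` normalise the Sylow 2-subgroups `T ≠ U` of the normal subgroup `N` and let `φ` be a
2-element. Then `φ` commutes with some `w ∈ N` which exchanges `T` and `U`.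

Proof. Let `W` be the set of all `w ∈ N` with `wTw⁻¹ = U`, `wUw⁻¹ = T`. It is not empty: choose
`y ∈ N` with `yTy⁻¹ = U`; then `yUy⁻¹ ≠ U` and `T ≠ U` are Sylow subgroups, so
`u (yUy⁻¹) u⁻¹ = T` for some `u ∈ U` (`Bender.sylIn`), `w = uy`. It is a coset of the group `C` of
all elements of `N` which normalise `T` and `U`. `|C|` is odd: an involution of `C` is in `T` and in
`U` by maximality, so it is trivial. So `|W|` is odd, and `⟨φ⟩`, a 2-group, has a fixed point on `W`
(conjugation), e.g. `IsPGroup.nonempty_fixed_point_of_prime_not_dvd_card`. -/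
theorem Bender.exists_swap {N : Subgroup K} (hN : N.Normal) (h : Bender N) {T U : Subgroup K}
    (hT : SylIn N T) (hU : SylIn N U) (hTU : T ≠ U) (φ : K) (hφ : ∃ k : ℕ, φ ^ 2 ^ k = 1)
    (h1 : ∀ x, x ∈ T ↔ φ⁻¹ * x * φ ∈ T) (h2 : ∀ x, x ∈ U ↔ φ⁻¹ * x * φ ∈ U) :
    ∃ w ∈ N, φ * w = w * φ ∧ ∀ x, x ∈ U ↔ w⁻¹ * x * w ∈ T := by
  obtain ⟨hB1, hB2⟩ := Bender.sylIn h
  -- an element of the set
  obtain ⟨y, hyN, hy⟩ := hT.exists_conj hU
  have hU' : SylIn N (U.map (MulAut.conj y).toMonoidHom) := hU.conj hyN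
  have hne : U.map (MulAut.conj y).toMonoidHom ≠ U := by
    intro he
    apply hTU
    ext x
    have h3 : y * x * y⁻¹ ∈ U.map (MulAut.conj y).toMonoidHom ↔ y * x * y⁻¹ ∈ U := by rw [he]
    rw [mem_map_conj', hy (y * x * y⁻¹)] at h3
    rw [show y⁻¹ * (y * x * y⁻¹) * y = x by group] at h3
    exact h3.symm
  obtain ⟨u, huU, hu⟩ := hB2 U (U.map (MulAut.conj y).toMonoidHom) T hU hU' hT hne hTU
  have huself : ∀ x, x ∈ U ↔ u⁻¹ * x * u ∈ U := by
    intro x
    constructor
    · intro hx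
      exact U.mul_mem (U.mul_mem (U.inv_mem huU) hx) huU
    · intro hx
      have h3 := U.mul_mem (U.mul_mem huU hx) (U.inv_mem huU)
      rwa [show u * (u⁻¹ * x * u) * u⁻¹ = x by group] at h3
  have hw0 : u * y ∈ swapSet N T U := by
    refine ⟨N.mul_mem (hU.1 huU) hyN, fun x => ?_, fun x => ?_⟩
    · rw [huself, hy]
      rw [show y⁻¹ * (u⁻¹ * x * u) * y = (u * y)⁻¹ * x * (u * y) by group]
    · rw [hu, mem_map_conj']
      rw [show y⁻¹ * (u⁻¹ * x * u) * y = (u * y)⁻¹ * x * (u * y) by group]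
  set w0 := u * y with hw0def
  -- the action
  let A : Subgroup K := normTwo T U
  let _ : MulAction A (swapSet N T U) :=
    { smul := fun g w => ⟨(g : K) * w * (g : K)⁻¹, swapSet_conj hN g.2 w.2⟩
      one_smul := fun w => Subtype.ext (by
        change ((1 : A) : K) * w * ((1 : A) : K)⁻¹ = w
        simp)
      mul_smul := fun g g' w => Subtype.ext (by
        change ((g * g' : A) : K) * w * ((g * g' : A) : K)⁻¹ =
          (g : K) * ((g' : K) * w * (g' : K)⁻¹) * (g : K)⁻¹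
        simp only [Subgroup.coe_mul]
        group) }
  have hφA : φ ∈ A := ⟨h1, h2⟩
  set φ' : A := ⟨φ, hφA⟩ with hφ'
  have hp : IsPGroup 2 (Subgroup.zpowers φ') := by
    rintro ⟨z, hz⟩
    obtain ⟨n, rfl⟩ := Subgroup.mem_zpowers_iff.1 hz
    obtain ⟨k, hk⟩ := hφ
    refine ⟨k, Subtype.ext ?_⟩
    have h1 : φ' ^ 2 ^ k = 1 := by
      apply Subtype.ext
      simpa using hk
    change (φ' ^ n) ^ 2 ^ k = 1
    rw [← zpow_natCast, ← zpow_mul, mul_comm, zpow_mul, zpow_natCast, h1, one_zpow]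
  -- the set is a coset of `C`
  have hcard : Nat.card (swapSet N T U) = Nat.card (A ⊓ N : Subgroup K) := by
    refine Nat.card_congr ⟨fun w => ⟨w0⁻¹ * w, ⟨⟨fun x => ?_, fun x => ?_⟩, ?_⟩⟩,
      fun c => ⟨w0 * c, ?_, fun x => ?_, fun x => ?_⟩, fun w => Subtype.ext ?_,
      fun c => Subtype.ext ?_⟩
    · have e1 := hw0.2.1 (w0 * x * w0⁻¹)
      have e2 := w.2.2.1 (w0 * x * w0⁻¹)
      rw [show w0⁻¹ * (w0 * x * w0⁻¹) * w0 = x by group] at e1
      rw [← e1, e2]
      simp only [mul_inv_rev, inv_inv, mul_assoc]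
    · have e1 := hw0.2.2 (w0 * x * w0⁻¹)
      have e2 := w.2.2.2 (w0 * x * w0⁻¹)
      rw [show w0⁻¹ * (w0 * x * w0⁻¹) * w0 = x by group] at e1
      rw [← e1, e2]
      simp only [mul_inv_rev, inv_inv, mul_assoc]
    · exact N.mul_mem (N.inv_mem hw0.1) w.2.1
    · exact N.mul_mem hw0.1 c.2.2
    · rw [hw0.2.1, c.2.1.1]
      simp only [mul_inv_rev, mul_assoc]
    · rw [hw0.2.2, c.2.1.2]
      simp only [mul_inv_rev, mul_assoc]
    · simp
    · simp
  have hodd : ¬ 2 ∣ Nat.card (swapSet N T U) := by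
    rw [hcard]
    intro hd
    have : Fact (Nat.Prime 2) := ⟨Nat.prime_two⟩
    obtain ⟨c, hc⟩ := exists_prime_orderOf_dvd_card' 2 hd
    have hc2 : (c : K) ^ 2 = 1 := by
      have h3 := pow_orderOf_eq_one c
      rw [hc] at h3
      simpa using congrArg Subtype.val h3
    have hc2' : ∃ k : ℕ, (c : K) ^ 2 ^ k = 1 := ⟨1, by simpa using hc2⟩
    have h3 : (c : K) ∈ T := mem_of_norm hT c.2.2 hc2' c.2.1.1
    have h4 : (c : K) ∈ U := mem_of_norm hU c.2.2 hc2' c.2.1.2
    have h5 : (c : K) = 1 := hB1 T U hT hU hTU _ h3 h4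
    have h6 : c = 1 := Subtype.ext h5
    rw [h6, orderOf_one] at hc
    omega
  obtain ⟨w, hw⟩ := hp.nonempty_fixed_point_of_prime_not_dvd_card (swapSet N T U) hodd
  have h3 := hw ⟨φ', Subgroup.mem_zpowers φ'⟩
  have h4 : φ * (w : K) * φ⁻¹ = w := congrArg Subtype.val h3
  refine ⟨w, w.2.1, ?_, w.2.2.1⟩
  exact mul_inv_eq_iff_eq_mul.1 h4

/-- Let `φ` normalise the Sylow 2-subgroups `T ≠ U` of the simple normal subgroup `N`, and let `φ`
centralise a Sylow 2-subgroup `V` of `N`. Then `φ` centralises `N`.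

Proof. `φ` normalises every Sylow 2-subgroup of `N`: it normalises `V`, and one of `T`, `U` is
different from `V`, say `T`; every Sylow subgroup different from `V` is `vTv⁻¹` for some `v ∈ V`
(`Bender.sylIn`), and `φ` commutes with `v`. For `l ∈ N` the commutator `c = φ l φ⁻¹ l⁻¹ ∈ N`
normalises every Sylow 2-subgroup of `N`. The elements of `N` with this property form a normal
subgroup `M` of `N`. `M ≠ N` (`N` does not normalise `T`, because `U = xTx⁻¹` for some `x ∈ N`), so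
`M = 1` and `c = 1`. -/
theorem Bender.central {N : Subgroup K} (hN : N.Normal) (hs : IsSimpleGroup N) (h : Bender N)
    {T U V : Subgroup K} (hT : SylIn N T) (hU : SylIn N U) (hV : SylIn N V) (hTU : T ≠ U) (φ : K)
    (h1 : ∀ x, x ∈ T ↔ φ⁻¹ * x * φ ∈ T) (h2 : ∀ x, x ∈ U ↔ φ⁻¹ * x * φ ∈ U)
    (h3 : ∀ v ∈ V, φ * v = v * φ) : ∀ l ∈ N, φ * l = l * φ := by
  obtain ⟨hB1, hB2⟩ := Bender.sylIn h
  have hVself : ∀ x, x ∈ V ↔ φ⁻¹ * x * φ ∈ V := by
    intro x
    constructor
    · intro hx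
      rw [mul_assoc, ← h3 x hx, inv_mul_cancel_left]
      exact hx
    · intro hx
      have e := h3 _ hx
      have e2 : x = φ⁻¹ * x * φ := by
        have e3 : φ * (φ⁻¹ * x * φ) = x * φ := by group
        rw [e3] at e
        exact mul_right_cancel e
      rw [e2]
      exact hx
  -- a Sylow subgroup different from `V` normalised by `φ`
  obtain ⟨X, hX, hXV, hXn⟩ : ∃ X, SylIn N X ∧ X ≠ V ∧ ∀ x, x ∈ X ↔ φ⁻¹ * x * φ ∈ X := by
    by_cases hTV : T = V
    · exact ⟨U, hU, fun he => hTU (hTV.trans he.symm), h2⟩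
    · exact ⟨T, hT, hTV, h1⟩
  have hall : ∀ R, SylIn N R → ∀ x, x ∈ R ↔ φ⁻¹ * x * φ ∈ R := by
    intro R hR x
    by_cases hRV : R = V
    · rw [hRV]; exact hVself x
    · obtain ⟨v, hv, hvR⟩ := hB2 V X R hV hX hR hXV hRV
      rw [hvR, hvR, hXn]
      have e := h3 v hv
      have e1 : φ⁻¹ * (v⁻¹ * x * v) * φ = v⁻¹ * (φ⁻¹ * x * φ) * v := by
        have e2 : v * φ = φ * v := e.symm
        have e3 : φ⁻¹ * v⁻¹ = v⁻¹ * φ⁻¹ := by
          rw [← mul_inv_rev, ← mul_inv_rev, e2]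
        calc φ⁻¹ * (v⁻¹ * x * v) * φ = (φ⁻¹ * v⁻¹) * x * (v * φ) := by group
          _ = (v⁻¹ * φ⁻¹) * x * (φ * v) := by rw [e2, e3]
          _ = v⁻¹ * (φ⁻¹ * x * φ) * v := by group
      rw [e1]
  -- the subgroup of the elements of `N` which normalise all Sylow subgroups
  let M : Subgroup N :=
    { carrier := {m | ∀ R, SylIn N R → ∀ x, x ∈ R ↔ (m : K)⁻¹ * x * m ∈ R}
      mul_mem' := by
        intro a b ha hb R hR x
        rw [ha R hR, hb R hR]
        simp only [Subgroup.coe_mul, mul_inv_rev, mul_assoc]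
      one_mem' := by
        intro R hR x
        simp
      inv_mem' := by
        intro a ha R hR x
        rw [ha R hR (((a⁻¹ : N) : K)⁻¹ * x * (a⁻¹ : N))]
        simp only [Subgroup.coe_inv]
        rw [show (a : K)⁻¹ * ((a : K)⁻¹⁻¹ * x * (a : K)⁻¹) * a = x by group] }
  have hMn : M.Normal := by
    refine ⟨fun m hm g R hR x => ?_⟩
    have hR' : SylIn N (R.map (MulAut.conj (g : K)⁻¹).toMonoidHom) := hR.conj (N.inv_mem g.2)
    have e := hm _ hR' ((g : K)⁻¹ * x * g)
    rw [mem_map_conj', mem_map_conj'] at e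
    rw [show (g : K)⁻¹⁻¹ * ((g : K)⁻¹ * x * g) * (g : K)⁻¹ = x by group] at e
    rw [e]
    simp only [Subgroup.coe_mul, Subgroup.coe_inv, mul_inv_rev, inv_inv, mul_assoc]
  have hM : M = ⊥ := by
    rcases hMn.eq_bot_or_eq_top with h4 | h4
    · exact h4
    · exfalso
      apply hTU
      obtain ⟨y, hyN, hy⟩ := hT.exists_conj hU
      have h5 : (⟨y, hyN⟩ : N) ∈ M := by rw [h4]; trivial
      ext x
      rw [hy, h5 T hT]
  intro l hl
  have hlφ : φ * l * φ⁻¹ ∈ N := hN.conj_mem l hl φ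
  have hc : (⟨φ * l * φ⁻¹ * l⁻¹, N.mul_mem hlφ (N.inv_mem hl)⟩ : N) ∈ M := by
    intro R hR x
    have hR' : SylIn N (R.map (MulAut.conj l⁻¹).toMonoidHom) := hR.conj (N.inv_mem hl)
    rw [hall R hR]
    have e1 : φ⁻¹ * x * φ ∈ R ↔ l⁻¹ * (φ⁻¹ * x * φ) * l ∈ R.map (MulAut.conj l⁻¹).toMonoidHom := by
      rw [mem_map_conj']
      rw [show l⁻¹⁻¹ * (l⁻¹ * (φ⁻¹ * x * φ) * l) * l⁻¹ = φ⁻¹ * x * φ by group]
    have e2 := hall _ hR' (φ * (l⁻¹ * (φ⁻¹ * x * φ) * l) * φ⁻¹)
    rw [show φ⁻¹ * (φ * (l⁻¹ * (φ⁻¹ * x * φ) * l) * φ⁻¹) * φ = l⁻¹ * (φ⁻¹ * x * φ) * l by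
      group] at e2
    rw [e1, ← e2, mem_map_conj']
    change _ ↔ (φ * l * φ⁻¹ * l⁻¹)⁻¹ * x * (φ * l * φ⁻¹ * l⁻¹) ∈ R
    rw [show l⁻¹⁻¹ * (φ * (l⁻¹ * (φ⁻¹ * x * φ) * l) * φ⁻¹) * l⁻¹ =
      (φ * l * φ⁻¹ * l⁻¹)⁻¹ * x * (φ * l * φ⁻¹ * l⁻¹) by group]
  rw [hM, Subgroup.mem_bot] at hc
  have h5 : φ * l * φ⁻¹ * l⁻¹ = 1 := congrArg Subtype.val hc
  rw [mul_inv_eq_one, mul_inv_eq_iff_eq_mul] at h5
  exact h5

/-- Proof. Let `C` be the centraliser of `N`. `K` is generated by its Sylow 2-subgroups, so it is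
enough to show that every Sylow 2-subgroup `P` is contained in the subgroup `NC`
(`hgen`; `NC = N ⊔ C`, `C` is normal, `Subgroup.mem_sup`). Let `x ∈ P`, `x ∉ NC`, and
`T = P ∩ N` (`SylIn.inf`). There is a Sylow 2-subgroup `U ≠ T` of `N` (their number is
`|T| + 1 ≥ 2`). `xUx⁻¹ ≠ T` (`x` normalises `T`), so `t (xUx⁻¹) t⁻¹ = U` for some `t ∈ T`; let
`φ = tx ∈ P`, `φ ∉ NC`. `φ` normalises `T` and `U`. Let `w` be as in `Bender.exists_swap`,
`Q = wPw⁻¹`. Then `φ ∈ P ∩ Q` and `P ∩ Q ∩ N = T ∩ wTw⁻¹ = T ∩ U = 1`. Let `S` be the Sylow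
subgroup of `(∗)` for `P`, `Q`. For `s ∈ S ∩ N` the element `s φ s⁻¹ φ⁻¹` is in `P ∩ Q` (which `S`
normalises) and in `N`, so it is trivial. So `φ` centralises the Sylow subgroup `S ∩ N` of `N`, and
by `Bender.central` `φ ∈ C`, a contradiction. -/
theorem split_of_bender (hgen : O2' K = ⊤) (hstar : Star' K) {N : Subgroup K} (hN : N.Normal)
    (hs : IsSimpleGroup N) (h : Bender N) (k : K) :
    ∃ n ∈ N, ∃ c : K, (∀ x ∈ N, c * x = x * c) ∧ k = n * c := by
  obtain ⟨hB1, hB2⟩ := Bender.sylIn h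
  have hn : ∀ h ∈ (⊤ : Subgroup K), ∀ x ∈ N, h * x * h⁻¹ ∈ N := fun g _ x hx => hN.conj_mem x hx g
  -- it is enough to show that the Sylow subgroups are contained in `N C`
  suffices hP : ∀ P : Sylow 2 K, (P : Subgroup K) ≤ N ⊔ Subgroup.centralizer (N : Set K) by
    have h1 : O2' K ≤ N ⊔ Subgroup.centralizer (N : Set K) := iSup_le hP
    have h2 : k ∈ N ⊔ Subgroup.centralizer (N : Set K) := h1 (by rw [hgen]; trivial)
    rw [← SetLike.mem_coe, Subgroup.normal_mul] at h2
    obtain ⟨n, hnN, c, hc, rfl⟩ := h2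
    refine ⟨n, hnN, c, fun x hx => ?_, rfl⟩
    exact (Subgroup.mem_centralizer_iff.1 hc x hx).symm
  intro P x hxP
  by_contra hx
  have hPtop : SylIn ⊤ (P : Subgroup K) := sylIn_top_iff.2 ⟨P, rfl⟩
  set T : Subgroup K := (P : Subgroup K) ⊓ N with hTdef
  have hT : SylIn N T := hPtop.inf le_top hn
  have hPT : ∀ p ∈ (P : Subgroup K), ∀ y, y ∈ T ↔ p⁻¹ * y * p ∈ T := by
    intro p hp y
    constructor
    · intro hy
      refine ⟨(P : Subgroup K).mul_mem ((P : Subgroup K).mul_mem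
        ((P : Subgroup K).inv_mem hp) hy.1) hp, ?_⟩
      have h3 := hN.conj_mem y hy.2 p⁻¹
      rwa [inv_inv] at h3
    · intro hy
      have h3 := mul_mem (mul_mem hp hy.1) (inv_mem hp)
      have h4 := hN.conj_mem _ hy.2 p
      rw [show p * (p⁻¹ * y * p) * p⁻¹ = y by group] at h3 h4
      exact ⟨h3, h4⟩
  -- a Sylow subgroup different from `T`
  obtain ⟨U, hU, hUT⟩ : ∃ U, SylIn N U ∧ U ≠ T := by
    obtain ⟨hTN, S, hS⟩ := sylIn_iff.1 hT
    have h3 := h.2 S
    have h4 : 1 < Nat.card (Sylow 2 N) := by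
      have h5 : 0 < Nat.card S := Nat.card_pos
      omega
    have := (Finite.one_lt_card_iff_nontrivial).1 h4
    obtain ⟨R, hR⟩ := exists_ne S
    refine ⟨_, sylIn_map N R, fun he => hR ?_⟩
    apply Sylow.ext
    rw [hS, ← he, Subgroup.subgroupOf, Subgroup.comap_map_eq_self_of_injective N.subtype_injective]
  have hU1 : SylIn N (U.map (MulAut.conj x).toMonoidHom) := by
    have h3 := hU.map (MulAut.conj x).toMonoidHom
    have h4 : N.map (MulAut.conj x).toMonoidHom = N := by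
      ext y
      rw [mem_map_conj']
      constructor
      · intro hy
        have h5 := hN.conj_mem _ hy x
        rwa [show x * (x⁻¹ * y * x) * x⁻¹ = y by group] at h5
      · intro hy
        have h5 := hN.conj_mem _ hy x⁻¹
        rwa [inv_inv] at h5
    rwa [h4] at h3
  have hU1T : U.map (MulAut.conj x).toMonoidHom ≠ T := by
    intro he
    apply hUT
    ext y
    have h3 : x * y * x⁻¹ ∈ U.map (MulAut.conj x).toMonoidHom ↔ x * y * x⁻¹ ∈ T := by rw [he]
    rw [mem_map_conj', hPT x hxP] at h3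
    rwa [show x⁻¹ * (x * y * x⁻¹) * x = y by group] at h3
  obtain ⟨t, htT, ht⟩ := hB2 T _ U hT hU1 hU hU1T hUT
  set φ := t * x with hφdef
  have hφP : φ ∈ (P : Subgroup K) := mul_mem htT.1 hxP
  have hφT : ∀ y, y ∈ T ↔ φ⁻¹ * y * φ ∈ T := hPT φ hφP
  have hφU : ∀ y, y ∈ U ↔ φ⁻¹ * y * φ ∈ U := by
    intro y
    rw [ht, mem_map_conj']
    rw [show x⁻¹ * (t⁻¹ * y * t) * x = φ⁻¹ * y * φ by rw [hφdef]; group]
  have hφ2 : ∃ k : ℕ, φ ^ 2 ^ k = 1 := by
    obtain ⟨k, hk⟩ := P.isPGroup' ⟨φ, hφP⟩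
    exact ⟨k, by simpa using congrArg Subtype.val hk⟩
  obtain ⟨w, hwN, hwφ, hw⟩ := Bender.exists_swap hN h hT hU hUT.symm φ hφ2 hφT hφU
  have hQ : ∀ y, y ∈ (w • P : Sylow 2 K) ↔ w⁻¹ * y * w ∈ P := by
    intro y
    change y ∈ ((w • P : Sylow 2 K) : Subgroup K) ↔ w⁻¹ * y * w ∈ (P : Subgroup K)
    rw [Sylow.coe_subgroup_smul, Subgroup.mem_pointwise_smul_iff_inv_smul_mem]
    rw [← map_inv, MulAut.smul_def, MulAut.conj_apply, inv_inv]
  obtain ⟨S, -, hS2, hS3⟩ := hstar P (w • P)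
  have hφQ : φ ∈ (w • P : Sylow 2 K) := by
    rw [hQ, mul_assoc, hwφ, inv_mul_cancel_left]
    exact hφP
  have hStop : SylIn ⊤ (S : Subgroup K) := sylIn_top_iff.2 ⟨S, rfl⟩
  have hV : SylIn N ((S : Subgroup K) ⊓ N) := hStop.inf le_top hn
  have hcomm : ∀ s ∈ (S : Subgroup K) ⊓ N, φ * s = s * φ := by
    rintro s ⟨hsS, hsN⟩
    obtain ⟨h3, h4⟩ := hS3 s hsS φ hφP hφQ
    have h5 : s * φ * s⁻¹ * φ⁻¹ ∈ (P : Subgroup K) := mul_mem h3 (inv_mem hφP)
    have h6 : s * φ * s⁻¹ * φ⁻¹ ∈ ((w • P : Sylow 2 K) : Subgroup K) := mul_mem h4 (inv_mem hφQ)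
    have h7 : s * φ * s⁻¹ * φ⁻¹ ∈ N := by
      have h8 := N.mul_mem hsN (hN.conj_mem _ (N.inv_mem hsN) φ)
      rwa [show s * (φ * s⁻¹ * φ⁻¹) = s * φ * s⁻¹ * φ⁻¹ by group] at h8
    have h8 : s * φ * s⁻¹ * φ⁻¹ ∈ T := ⟨h5, h7⟩
    have h9 : s * φ * s⁻¹ * φ⁻¹ ∈ U := by
      rw [hw]
      refine ⟨(hQ _).1 h6, ?_⟩
      have h10 := hN.conj_mem _ h7 w⁻¹
      rwa [inv_inv] at h10
    have h10 := hB1 T U hT hU hUT.symm _ h8 h9
    rw [mul_inv_eq_one, mul_inv_eq_iff_eq_mul] at h10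
    exact h10.symm
  have hcen := Bender.central hN hs h hT hU hV hUT.symm φ hφT hφU hcomm
  apply hx
  have h3 : φ ∈ N ⊔ Subgroup.centralizer (N : Set K) := by
    apply Subgroup.mem_sup_right
    rw [Subgroup.mem_centralizer_iff]
    intro l hl
    exact (hcen l hl).symm
  have h4 : t⁻¹ * φ ∈ N ⊔ Subgroup.centralizer (N : Set K) :=
    mul_mem (Subgroup.mem_sup_left (inv_mem (hT.1 htT))) h3
  rwa [hφdef, inv_mul_cancel_left] at h4

end Pool.Agent.Lib.MP_e3cc28_alH
end
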