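import Mathlib
import Pool.Agent.Lib.MP_e3cc28_alA.AF01b
import Pool.Agent.Lib.MP_e3cc28_alA.AF03
import Pool.Agent.Lib.MP_e3cc28_alA.AH00

section

/-! job AF05d: automorphisms of `Alt(Ω)`, `|Ω| ≥ 5`, `|Ω| ≠ 6`, preserve 3-cycles. -/

set_option autoImplicit false

namespace Pool.Agent.Lib.MP_e3cc28_alA

open Subgroup Equiv

variable {Ω : Type} [Fintype Ω] [DecidableEq Ω]

/-- The product of two 3-cycles has order 1, 2, 3 or 5: if the supports are disjoint, they commute;
otherwise the product is an even permutation which moves at most 5 points, so its cycle type is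
`0`, `{3}`, `{2,2}` or `{5}` (`orderOf = cycleType.lcm`). -/
theorem prod_three_pow (c d : Perm Ω) (hc : c.IsThreeCycle) (hd : d.IsThreeCycle) :
    (c * d) ^ 30 = 1 := by
  by_cases hdis : Disjoint c.support d.support
  · have hcd : Perm.Disjoint c d := Perm.disjoint_iff_disjoint_support.mpr hdis
    have h1 : (c * d) ^ 3 = 1 := by
      rw [hcd.commute.mul_pow]
      have h2 : c ^ 3 = 1 := by rw [← hc.orderOf]; exact pow_orderOf_eq_one c
      have h3 : d ^ 3 = 1 := by rw [← hd.orderOf]; exact pow_orderOf_eq_one d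
      rw [h2, h3, one_mul]
    rw [show (30 : ℕ) = 3 * 10 from rfl, pow_mul, h1, one_pow]
  · have hcard : (c * d).support.card ≤ 5 := by
      have h1 : (c * d).support.card ≤ (c.support ∪ d.support).card :=
        Finset.card_le_card (Perm.support_mul_le c d)
      have h2 := Finset.card_union_add_card_inter c.support d.support
      have h3 : 0 < (c.support ∩ d.support).card := by
        rw [Finset.card_pos]
        rw [Finset.disjoint_iff_inter_eq_empty] at hdis
        exact Finset.nonempty_iff_ne_empty.mpr hdis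
      rw [hc.card_support, hd.card_support] at h2
      omega
    have hsgn : Perm.sign (c * d) = 1 := by
      rw [Perm.sign_mul, hc.sign, hd.sign, one_mul]
    have hdvd : orderOf (c * d) ∣ 30 := by
      rw [← Perm.lcm_cycleType]
      apply Multiset.lcm_dvd.mpr
      intro n hn
      have hn2 := Perm.two_le_of_mem_cycleType hn
      obtain ⟨m, hm⟩ := Multiset.exists_cons_of_mem hn
      have hsum : n + m.sum ≤ 5 := by
        have h4 := Perm.sum_cycleType (c * d)
        rw [hm, Multiset.sum_cons] at h4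
        omega
      have hn5 : n ≤ 5 := by omega
      by_cases hn4 : n = 4
      · exfalso
        have hm0 : m = 0 := by
          by_contra hne
          obtain ⟨k, hk⟩ := Multiset.exists_mem_of_ne_zero hne
          have hk2 : 2 ≤ k := Perm.two_le_of_mem_cycleType (σ := c * d)
            (by rw [hm]; exact Multiset.mem_cons_of_mem hk)
          have hk3 : k ≤ m.sum := Multiset.le_sum_of_mem hk
          omega
        rw [Perm.sign_of_cycleType, hm, hm0, hn4] at hsgn
        revert hsgn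
        decide
      · interval_cases n
        · norm_num
        · norm_num
        · exact absurd rfl hn4
        · norm_num
    exact orderOf_dvd_iff_pow_eq_one.mp hdvd

omit [Fintype Ω] [DecidableEq Ω] in
private theorem af05d_ddd (d : Perm Ω) (h3 : d ^ 3 = 1) (x : Ω) : d (d (d x)) = x := by
  have h := congrArg (fun t : Perm Ω => t x) h3
  simpa [pow_succ, Perm.mul_apply] using h

omit [Fintype Ω] [DecidableEq Ω] in
private theorem af05d_cyc (d : Perm Ω) (h3 : d ^ 3 = 1) (a : Ω) (ha : d a ≠ a) :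
    d (d a) ≠ d a ∧ d (d a) ≠ a := by
  refine ⟨fun h => ha (d.injective h), fun h => ?_⟩
  have h1 := af05d_ddd d h3 a
  rw [h] at h1
  exact ha h1

private theorem af05d_two (d : Perm Ω) (h3 : d ^ 3 = 1) (h1 : d ≠ 1)
    (hd : ¬ d.IsThreeCycle) : ∃ a e, d a ≠ a ∧ d e ≠ e ∧ e ≠ a ∧ e ≠ d a ∧ e ≠ d (d a) := by
  obtain ⟨a, ha⟩ : ∃ a, d a ≠ a := by
    by_contra hcon
    push Not at hcon
    exact h1 (Equiv.ext hcon)
  obtain ⟨h4, h5⟩ := af05d_cyc d h3 a ha
  by_contra hcon
  push Not at hcon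
  apply hd
  rw [← card_support_eq_three_iff]
  have hsub : d.support = {a, d a, d (d a)} := by
    ext x
    simp only [Perm.mem_support, Finset.mem_insert, Finset.mem_singleton]
    constructor
    · intro hx
      by_contra hx2
      push Not at hx2
      exact hx2.2.2 (hcon a x ha hx hx2.1 hx2.2.1)
    · rintro (rfl | rfl | rfl)
      · exact ha
      · exact h4
      · intro h
        exact h4 (d.injective h)
  rw [hsub]
  rw [Finset.card_insert_of_notMem, Finset.card_insert_of_notMem, Finset.card_singleton]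
  · simp only [Finset.mem_singleton]
    exact fun h => h4 h.symm
  · simp only [Finset.mem_insert, Finset.mem_singleton]
    rintro (h | h)
    · exact ha h.symm
    · exact h5 h.symm

omit [Fintype Ω] [DecidableEq Ω] in
/-- the second cycle is disjoint from the first -/
private theorem af05d_sep (d : Perm Ω) (h3 : d ^ 3 = 1) (a e : Ω)
    (h1 : e ≠ a) (h2 : e ≠ d a) (h4 : e ≠ d (d a)) :
    (d e ≠ a ∧ d e ≠ d a ∧ d e ≠ d (d a)) ∧ (d (d e) ≠ a ∧ d (d e) ≠ d a ∧ d (d e) ≠ d (d a)) := by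
  have ha := af05d_ddd d h3 a
  have key : ∀ x : Ω, x ≠ a → x ≠ d a → x ≠ d (d a) →
      d x ≠ a ∧ d x ≠ d a ∧ d x ≠ d (d a) := by
    intro x hx1 hx2 hx3
    refine ⟨fun h => hx3 ?_, fun h => hx1 (d.injective h), fun h => hx2 (d.injective h)⟩
    apply d.injective
    rw [h, ha]
  have k1 := key e h1 h2 h4
  exact ⟨k1, key (d e) k1.1 k1.2.1 k1.2.2⟩

omit [Fintype Ω] in
private theorem af05d_s (a c e g p : Ω) (h1 : a ≠ c) (h2 : a ≠ e) (h3 : a ≠ g) (h4 : a ≠ p) :
    (swap c e * swap g p) a = a := by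
  rw [Perm.mul_apply, swap_apply_of_ne_of_ne h3 h4, swap_apply_of_ne_of_ne h1 h2]

omit [Fintype Ω] in
private theorem af05d_s4 (c e g p : Ω) (h2 : c ≠ g) (h3 : c ≠ p) (h4 : e ≠ g) (h5 : e ≠ p) :
    (swap c e * swap g p) c = e ∧ (swap c e * swap g p) e = c ∧
    (swap c e * swap g p) g = p ∧ (swap c e * swap g p) p = g := by
  refine ⟨?_, ?_, ?_, ?_⟩
  · rw [Perm.mul_apply, swap_apply_of_ne_of_ne h2 h3, swap_apply_left]
  · rw [Perm.mul_apply, swap_apply_of_ne_of_ne h4 h5, swap_apply_right]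
  · rw [Perm.mul_apply, swap_apply_left, swap_apply_of_ne_of_ne h3.symm h5.symm]
  · rw [Perm.mul_apply, swap_apply_right, swap_apply_of_ne_of_ne h2.symm h4.symm]

omit [Fintype Ω] [DecidableEq Ω] in
private theorem af05d_conj (d s : Perm Ω) (x y : Ω) (h : s x = y) :
    (d * (s * d * s⁻¹)) y = d (s (d x)) := by
  rw [← h]
  simp [Perm.mul_apply]

omit [Fintype Ω] [DecidableEq Ω] in
private theorem af05d_p7 (π : Perm Ω) (a c g e b f p : Ω) (h1 : π a = c) (h2 : π c = g)
    (h3 : π g = e) (h4 : π e = b) (h5 : π b = f) (h6 : π f = p) (h7 : π p = a) :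
    (π ^ 30) a = g := by
  have h8 : (π ^ 7) a = a := by
    simp [pow_succ, Perm.mul_apply, h1, h2, h3, h4, h5, h6, h7]
  have h9 : ((π ^ 7) ^ 4) a = a := Perm.pow_apply_eq_self_of_apply_eq_self h8 4
  rw [show (30 : ℕ) = 2 + 7 * 4 from rfl, pow_add, pow_mul, Perm.mul_apply, h9]
  simp [pow_succ, Perm.mul_apply, h1, h2]

omit [Fintype Ω] [DecidableEq Ω] in
private theorem af05d_p9 (π : Perm Ω) (a c g r e b f q p : Ω) (h1 : π a = c) (h2 : π c = g)
    (h3 : π g = r) (h4 : π r = e) (h5 : π e = b) (h6 : π b = f) (h7 : π f = q) (h8 : π q = p)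
    (h9 : π p = a) : (π ^ 30) a = r := by
  have h10 : (π ^ 9) a = a := by
    simp [pow_succ, Perm.mul_apply, h1, h2, h3, h4, h5, h6, h7, h8, h9]
  have h11 : ((π ^ 9) ^ 3) a = a := Perm.pow_apply_eq_self_of_apply_eq_self h10 3
  rw [show (30 : ℕ) = 3 + 9 * 3 from rfl, pow_add, pow_mul, Perm.mul_apply, h11]
  simp [pow_succ, Perm.mul_apply, h1, h2, h3]

/-- Let `d` have cycles `(a b c)`, `(e f g)` and let `p` be a seventh point; take
`s = (c e)(g p)`. The orbit of `a` under `d (s d s⁻¹)` is `a c g e b f p` (length 7) if `p` is fixed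
by `d`, and `a c g r e b f q p` (length 9) if `p, q, r` is a cycle of `d`. Neither 7 nor 9
divides 30: the 30-th power maps `a` to `e`... (7: `30 = 2 mod 7`, so `a ↦ g`; 9: `30 = 3 mod 9`,
so `a ↦ r`); please recompute. -/
theorem exists_bad_conj (hΩ : 7 ≤ Fintype.card Ω) (d : Perm Ω) (h3 : d ^ 3 = 1) (h1 : d ≠ 1)
    (hd : ¬ d.IsThreeCycle) : ∃ s ∈ alternatingGroup Ω, (d * (s * d * s⁻¹)) ^ 30 ≠ 1 := by
  obtain ⟨a, e, ha, he, hea, heb, hec⟩ := af05d_two d h3 h1 hd
  obtain ⟨⟨hfa, hfb, hfc⟩, hga, hgb, hgc⟩ := af05d_sep d h3 a e hea heb hec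
  obtain ⟨hcb, hca⟩ := af05d_cyc d h3 a ha
  obtain ⟨hgf, hge⟩ := af05d_cyc d h3 e he
  have dc := af05d_ddd d h3 a
  have dg := af05d_ddd d h3 e
  obtain ⟨p, _, hp⟩ := Finset.exists_mem_notMem_of_card_lt_card
    (s := ({a, d a, d (d a), e, d e, d (d e)} : Finset Ω)) (t := Finset.univ) (by
      rw [Finset.card_univ]
      exact lt_of_le_of_lt Finset.card_le_six (by omega))
  simp only [Finset.mem_insert, Finset.mem_singleton, not_or] at hp
  obtain ⟨hpa, hpb, hpc, hpe, hpf, hpg⟩ := hp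
  obtain ⟨⟨hqa, hqb, hqc⟩, hra, hrb, hrc⟩ := af05d_sep d h3 a p hpa hpb hpc
  obtain ⟨⟨hqe, hqf, hqg⟩, hre, hrf, hrg⟩ := af05d_sep d h3 e p hpe hpf hpg
  have dr := af05d_ddd d h3 p
  set b := d a with hb
  set c := d b with hc
  set f := d e with hf
  set g := d f with hg
  have sa : (swap c e * swap g p) a = a :=
    af05d_s a c e g p hca.symm hea.symm hga.symm (Ne.symm hpa)
  have sb : (swap c e * swap g p) b = b :=
    af05d_s b c e g p hcb.symm heb.symm hgb.symm (Ne.symm hpb)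
  have sf : (swap c e * swap g p) f = f :=
    af05d_s f c e g p hfc he hgf.symm (Ne.symm hpf)
  obtain ⟨sc, se, sg, sp⟩ := af05d_s4 c e g p hgc.symm (Ne.symm hpc) hge.symm (Ne.symm hpe)
  refine ⟨swap c e * swap g p, ?_, ?_⟩
  · rw [Perm.mem_alternatingGroup, Perm.sign_mul, Perm.sign_swap hec.symm,
      Perm.sign_swap (Ne.symm hpg)]
    rfl
  · set s : Perm Ω := swap c e * swap g p with hs
    have e1 : (d * (s * d * s⁻¹)) a = c := by
      rw [af05d_conj d s a a sa, ← hb, sb]
    have e2 : (d * (s * d * s⁻¹)) c = g := by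
      rw [af05d_conj d s e c se, ← hf, sf]
    have e5 : (d * (s * d * s⁻¹)) e = b := by
      rw [af05d_conj d s c e sc, dc, sa]
    have e6 : (d * (s * d * s⁻¹)) b = f := by
      rw [af05d_conj d s b b sb, ← hc, sc]
    have e7 : (d * (s * d * s⁻¹)) f = d p := by
      rw [af05d_conj d s f f sf, ← hg, sg]
    have e9 : (d * (s * d * s⁻¹)) p = a := by
      rw [af05d_conj d s g p sg, dg, se, dc]
    have e3 : (d * (s * d * s⁻¹)) g = d (s (d p)) := af05d_conj d s p g sp
    by_cases hdp : d p = p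
    · have h := af05d_p7 (d * (s * d * s⁻¹)) a c g e b f p e1 e2
        (by rw [e3, hdp, sp, dg]) e5 e6 (by rw [e7, hdp]) e9
      intro h30
      rw [h30, Perm.one_apply] at h
      exact hga h.symm
    · obtain ⟨hrq, hrp⟩ := af05d_cyc d h3 p hdp
      have sq : s (d p) = d p := af05d_s (d p) c e g p hqc hqe hqg hdp
      have sr : s (d (d p)) = d (d p) := af05d_s (d (d p)) c e g p hrc hre hrg hrp
      have h := af05d_p9 (d * (s * d * s⁻¹)) a c g (d (d p)) e b f (d p) p e1 e2
        (by rw [e3, sq]) (by rw [af05d_conj d s (d (d p)) (d (d p)) sr, dr, sp, dg]) e5 e6 e7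
        (by rw [af05d_conj d s (d p) (d p) sq, sr, dr]) e9
      intro h30
      rw [h30, Perm.one_apply] at h
      exact hra h.symm

/-- Proof. `d = φ c` has order 3. For `|Ω| = 5` an element of order 3 is a 3-cycle. For `|Ω| ≥ 7`
apply `exists_bad_conj` to `d` and `prod_three_pow` to `c` and its conjugate by `φ⁻¹(s)`. -/
theorem three_pres (hΩ : 5 ≤ Fintype.card Ω) (h6 : Fintype.card Ω ≠ 6)
    (φ : alternatingGroup Ω ≃* alternatingGroup Ω) (c : alternatingGroup Ω)
    (hc : (c : Perm Ω).IsThreeCycle) : (φ c : Perm Ω).IsThreeCycle := by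
  by_contra hd
  have hc3 : c ^ 3 = 1 := by
    apply Subtype.ext
    have h : (c : Perm Ω) ^ 3 = 1 := by
      rw [← hc.orderOf]
      exact pow_orderOf_eq_one _
    simpa using h
  have h3 : (φ c : Perm Ω) ^ 3 = 1 := by
    have h : (φ c) ^ 3 = 1 := by rw [← map_pow, hc3, map_one]
    have h' := congrArg (fun t : alternatingGroup Ω => (t : Perm Ω)) h
    simpa using h'
  have h1 : (φ c : Perm Ω) ≠ 1 := by
    intro h
    have h' : φ c = 1 := Subtype.ext h
    have h'' : c = 1 := by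
      apply φ.injective
      rw [h', map_one]
    have := hc.card_support
    rw [h''] at this
    simp at this
  by_cases h7 : 7 ≤ Fintype.card Ω
  · obtain ⟨s, hs, hbad⟩ := exists_bad_conj h7 (φ c : Perm Ω) h3 h1 hd
    apply hbad
    let t : alternatingGroup Ω := φ.symm ⟨s, hs⟩
    have ht : φ t = ⟨s, hs⟩ := φ.apply_symm_apply _
    have hcc : ((t * c * t⁻¹ : alternatingGroup Ω) : Perm Ω).IsThreeCycle := by
      have : ((t * c * t⁻¹ : alternatingGroup Ω) : Perm Ω)
          = (t : Perm Ω) * (c : Perm Ω) * (t : Perm Ω)⁻¹ := by simp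
      rw [this]
      unfold Perm.IsThreeCycle at hc ⊢
      rw [Perm.cycleType_conj, hc]
    have h30 := prod_three_pow (c : Perm Ω) ((t * c * t⁻¹ : alternatingGroup Ω) : Perm Ω) hc hcc
    have h30' : (c * (t * c * t⁻¹)) ^ 30 = 1 := by
      apply Subtype.ext
      simpa using h30
    have h31 : (φ c * (φ t * φ c * (φ t)⁻¹)) ^ 30 = 1 := by
      rw [← map_inv, ← map_mul, ← map_mul, ← map_mul, ← map_pow, h30', map_one]
    rw [ht] at h31
    have h32 := congrArg (fun t : alternatingGroup Ω => (t : Perm Ω)) h31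
    simpa using h32
  · have h5 : Fintype.card Ω = 5 := by omega
    obtain ⟨a, e, ha, he, hea, heb, hec⟩ := af05d_two (φ c : Perm Ω) h3 h1 hd
    obtain ⟨⟨hfa, hfb, hfc⟩, hga, hgb, hgc⟩ := af05d_sep (φ c : Perm Ω) h3 a e hea heb hec
    obtain ⟨hcb, hca⟩ := af05d_cyc (φ c : Perm Ω) h3 a ha
    obtain ⟨hgf, hge⟩ := af05d_cyc (φ c : Perm Ω) h3 e he
    set d : Perm Ω := (φ c : Perm Ω) with hdd
    have hcard : ({a, d a, d (d a), e, d e, d (d e)} : Finset Ω).card = 6 := by
      rw [Finset.card_insert_of_notMem, Finset.card_insert_of_notMem,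
        Finset.card_insert_of_notMem, Finset.card_insert_of_notMem,
        Finset.card_insert_of_notMem, Finset.card_singleton]
      · simp only [Finset.mem_singleton]
        exact hgf.symm
      · simp only [Finset.mem_insert, Finset.mem_singleton, not_or]
        exact ⟨he.symm, hge.symm⟩
      · simp only [Finset.mem_insert, Finset.mem_singleton, not_or]
        exact ⟨hec.symm, hfc.symm, hgc.symm⟩
      · simp only [Finset.mem_insert, Finset.mem_singleton, not_or]
        exact ⟨hcb.symm, heb.symm, hfb.symm, hgb.symm⟩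
      · simp only [Finset.mem_insert, Finset.mem_singleton, not_or]
        exact ⟨ha.symm, hca.symm, hea.symm, hfa.symm, hga.symm⟩
    have hle := Finset.card_le_univ ({a, d a, d (d a), e, d e, d (d e)} : Finset Ω)
    omega

end Pool.Agent.Lib.MP_e3cc28_alA
end

section

/-! AH06: embedding in a product of two families. -/

set_option autoImplicit false

namespace Pool.Agent.Lib.MP_e3cc28_alH

open Subgroup Equiv

universe u

theorem embed_of_homs' {K : Type u} [Group K] {ι κ : Type u} [Finite ι] [Finite κ]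
    {m : ι → ℕ} (L : ∀ i, Subgroup (Perm (Fin (m i))))
    (f : ∀ i, K →* L i) (g : κ → K →* Perm (Fin 6))
    (hinj : ∀ x, (∀ i, f i x = 1) → (∀ j, g j x = 1) → x = 1)
    (hf : ∀ i c, ∃ x, f i x = c ∧ (∀ i', i' ≠ i → f i' x = 1) ∧ ∀ j, g j x = 1)
    (hg : ∀ j, ∀ c ∈ alternatingGroup (Fin 6),
      ∃ x, g j x = c ∧ (∀ j', j' ≠ j → g j' x = 1) ∧ ∀ i, f i x = 1) :
    ∃ (a b : ℕ) (e : Fin a ≃ ι), ∃ K' : Subgroup ((∀ i : Fin a, L (e i)) ×
      (Fin b → Perm (Fin 6))),
      (∀ x, (∀ j, x.2 j ∈ alternatingGroup (Fin 6)) → x ∈ K') ∧ Nonempty (K ≃* K') := by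
  classical
  obtain ⟨a, ⟨ea'⟩⟩ := Finite.exists_equiv_fin ι
  obtain ⟨b, ⟨eb⟩⟩ := Finite.exists_equiv_fin κ
  set ea : Fin a ≃ ι := ea'.symm with hea
  let F1 : K →* (∀ i : Fin a, L (ea i)) := Pi.monoidHom fun i => f (ea i)
  let F2 : K →* (Fin b → Perm (Fin 6)) := Pi.monoidHom fun j => g (eb.symm j)
  let F : K →* (∀ i : Fin a, L (ea i)) × (Fin b → Perm (Fin 6)) := F1.prod F2
  have hF1 : ∀ x i, (F x).1 i = f (ea i) x := fun _ _ => rfl
  have hF2 : ∀ x j, (F x).2 j = g (eb.symm j) x := fun _ _ => rfl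
  have hFinj : Function.Injective F := by
    rw [injective_iff_map_eq_one]
    intro x hx
    refine hinj x (fun i => ?_) (fun j => ?_)
    · obtain ⟨i', rfl⟩ := ea.surjective i
      have h1 := hF1 x i'
      rw [hx] at h1
      exact h1.symm
    · have h1 := hF2 x (eb j)
      rw [Equiv.symm_apply_apply, hx] at h1
      exact h1.symm
  have hA : ∀ y : (∀ i : Fin a, L (ea i)),
      y ∈ F.range.comap (MonoidHom.inl (∀ i : Fin a, L (ea i)) (Fin b → Perm (Fin 6))) := by
    intro y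
    refine Subgroup.pi_mem_of_mulSingle_mem y fun i => ?_
    obtain ⟨x, h1, h2, h3⟩ := hf (ea i) (y i)
    rw [Subgroup.mem_comap, MonoidHom.mem_range]
    refine ⟨x, Prod.ext (funext fun k => ?_) (funext fun j => ?_)⟩
    · rw [hF1]
      change f (ea k) x = (Pi.mulSingle i (y i) : ∀ i : Fin a, L (ea i)) k
      by_cases hk : k = i
      · subst hk
        rw [Pi.mulSingle_eq_same]
        exact h1
      · rw [Pi.mulSingle_eq_of_ne hk]
        exact h2 _ fun h => hk (ea.injective h)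
    · rw [hF2]
      exact h3 _
  have hB : ∀ y : Fin b → Perm (Fin 6), (∀ j, y j ∈ alternatingGroup (Fin 6)) →
      y ∈ F.range.comap (MonoidHom.inr (∀ i : Fin a, L (ea i)) (Fin b → Perm (Fin 6))) := by
    intro y hy
    refine Subgroup.pi_mem_of_mulSingle_mem y fun j => ?_
    obtain ⟨x, h1, h2, h3⟩ := hg (eb.symm j) (y j) (hy j)
    rw [Subgroup.mem_comap, MonoidHom.mem_range]
    refine ⟨x, Prod.ext (funext fun i => ?_) (funext fun k => ?_)⟩
    · rw [hF1]
      exact h3 _
    · rw [hF2]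
      change g (eb.symm k) x = (Pi.mulSingle j (y j) : Fin b → Perm (Fin 6)) k
      by_cases hk : k = j
      · subst hk
        rw [Pi.mulSingle_eq_same]
        exact h1
      · rw [Pi.mulSingle_eq_of_ne hk]
        exact h2 _ fun h => hk (eb.symm.injective h)
  refine ⟨a, b, ea, F.range, fun x hx => ?_, ⟨MonoidHom.ofInjective hFinj⟩⟩
  have h1 : x = MonoidHom.inl _ _ x.1 * MonoidHom.inr _ _ x.2 := by
    ext1 <;> simp
  rw [h1]
  exact F.range.mul_mem (hA x.1) (hB x.2 hx)

end Pool.Agent.Lib.MP_e3cc28_alH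
end

section

/-! job AF06: facts about `Alt(6)`. `V` is the four-group on the points `0, 1, 2, 3`. -/

set_option autoImplicit false

namespace Pool.Agent.Lib.MP_e3cc28_alA

open Subgroup Equiv

/-- the four-group on the points `0, 1, 2, 3`, as a predicate -/
def isV (v : Perm (Fin 6)) : Prop :=
  v = 1 ∨ v = swap 0 1 * swap 2 3 ∨ v = swap 0 2 * swap 1 3 ∨ v = swap 0 3 * swap 1 2

private def LP : Finset (Perm (Fin 6)) :=
  {1, swap 0 1 * swap 2 3, swap 0 2 * swap 1 3, swap 0 3 * swap 1 2,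
   swap 0 1 * swap 4 5, swap 2 3 * swap 4 5, (swap 0 2 * swap 1 3) * (swap 0 1 * swap 4 5),
   (swap 0 3 * swap 1 2) * (swap 0 1 * swap 4 5)}

private def LQ : Finset (Perm (Fin 6)) :=
  {1, swap 0 1 * swap 2 3, swap 0 2 * swap 1 3, swap 0 3 * swap 1 2,
   swap 0 2 * swap 4 5, swap 1 3 * swap 4 5, (swap 0 1 * swap 2 3) * (swap 0 2 * swap 4 5),
   (swap 0 3 * swap 1 2) * (swap 0 2 * swap 4 5)}

private theorem LP_mul : ∀ a ∈ LP, ∀ b ∈ LP, a * b ∈ LP := by decide +kernel
private theorem LQ_mul : ∀ a ∈ LQ, ∀ b ∈ LQ, a * b ∈ LQ := by decide +kernel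
private theorem LP_inv : ∀ a ∈ LP, a⁻¹ ∈ LP := by decide +kernel
private theorem LQ_inv : ∀ a ∈ LQ, a⁻¹ ∈ LQ := by decide +kernel
private theorem LP_sign : ∀ a ∈ LP, Perm.sign a = 1 := by decide +kernel
private theorem LQ_sign : ∀ a ∈ LQ, Perm.sign a = 1 := by decide +kernel
private theorem LP_card : LP.card = 8 := by decide +kernel
private theorem LQ_card : LQ.card = 8 := by decide +kernel

private instance decV : DecidablePred isV := fun v => by unfold isV; infer_instance

private theorem LPQ : ∀ a ∈ LP, a ∈ LQ → isV a := by decide +kernel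
private theorem VLP : ∀ a : Perm (Fin 6), isV a → a ∈ LP := by
  rintro a (rfl | rfl | rfl | rfl) <;> decide +kernel
private theorem VLQ : ∀ a : Perm (Fin 6), isV a → a ∈ LQ := by
  rintro a (rfl | rfl | rfl | rfl) <;> decide +kernel

private theorem card_alt6 : Nat.card (alternatingGroup (Fin 6)) = 360 := by
  have h := two_mul_nat_card_alternatingGroup (α := Fin 6)
  have h2 : Nat.card (Perm (Fin 6)) = 720 := by
    rw [Nat.card_eq_fintype_card, Fintype.card_perm, Fintype.card_fin]; rfl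
  omega

private theorem mk_syl (L : Finset (Perm (Fin 6))) (h1 : 1 ∈ L)
    (hm : ∀ a ∈ L, ∀ b ∈ L, a * b ∈ L) (hi : ∀ a ∈ L, a⁻¹ ∈ L)
    (hs : ∀ a ∈ L, Perm.sign a = 1) (hc : L.card = 8) :
    ∃ P : Subgroup (alternatingGroup (Fin 6)), SylIn ⊤ P ∧
      ∀ x : alternatingGroup (Fin 6), x ∈ P ↔ (x : Perm (Fin 6)) ∈ L := by
  let S : Subgroup (Perm (Fin 6)) :=
    { carrier := {x | x ∈ L}
      mul_mem' := fun {a b} ha hb => hm a ha b hb
      one_mem' := h1
      inv_mem' := fun {a} ha => hi a ha }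
  have hSle : S ≤ alternatingGroup (Fin 6) := fun a ha => Perm.mem_alternatingGroup.2 (hs a ha)
  have hS : Nat.card S = 8 := by
    rw [← hc]
    have h : Nat.card {x // x ∈ L} = L.card := by simp
    exact h
  refine ⟨S.subgroupOf (alternatingGroup (Fin 6)), ?_, fun x => Iff.rfl⟩
  have hcard : Nat.card (S.subgroupOf (alternatingGroup (Fin 6))) = 8 := by
    rw [Nat.card_congr (Subgroup.subgroupOfEquivOfLe hSle).toEquiv, hS]
  refine ⟨le_top, IsPGroup.of_card (n := 3) (by rw [hcard]; rfl), ?_⟩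
  rw [Subgroup.relIndex_top_right]
  have h := (S.subgroupOf (alternatingGroup (Fin 6))).card_mul_index
  rw [hcard, card_alt6] at h
  omega

/-- `V` is an intersection of two Sylow 2-subgroups of `Alt(6)`: `P = V ∪ V (0 1)(4 5)` and
`Q = V ∪ V (0 2)(4 5)` (order 8; the order of `Alt(6)` is `360 = 8 * 45`). -/
theorem exists_sylows_V : ∃ P Q : Subgroup (alternatingGroup (Fin 6)),
    SylIn ⊤ P ∧ SylIn ⊤ Q ∧ ∀ x : alternatingGroup (Fin 6), x ∈ P ∧ x ∈ Q ↔ isV x := by
  obtain ⟨P, hP, hP'⟩ := mk_syl LP (VLP _ (Or.inl rfl)) LP_mul LP_inv LP_sign LP_card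
  obtain ⟨Q, hQ, hQ'⟩ := mk_syl LQ (VLQ _ (Or.inl rfl)) LQ_mul LQ_inv LQ_sign LQ_card
  refine ⟨P, Q, hP, hQ, fun x => ?_⟩
  rw [hP', hQ']
  exact ⟨fun h => LPQ _ h.1 h.2, fun h => ⟨VLP _ h, VLQ _ h⟩⟩

private theorem norm_aux : ∀ g : Perm (Fin 6), g * g * g = 1 → g ≠ 1 →
    isV (g * (swap 0 1 * swap 2 3) * g⁻¹) → isV (g * (swap 0 2 * swap 1 3) * g⁻¹) →
    g.support.card = 3 := by
  decide +kernel

/-- an element of order 3 which normalises `V` fixes `{4, 5}`, so it is a 3-cycle. -/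
theorem isThreeCycle_of_norm (g : Perm (Fin 6)) (h3 : g ^ 3 = 1) (h1 : g ≠ 1)
    (hg : ∀ v, isV v → isV (g * v * g⁻¹)) : g.IsThreeCycle := by
  rw [← card_support_eq_three_iff]
  exact norm_aux g (by rw [← h3, pow_succ, pow_two]) h1 (hg _ (Or.inr (Or.inl rfl)))
    (hg _ (Or.inr (Or.inr (Or.inl rfl))))

theorem three_norm (v : Perm (Fin 6)) (hv : isV v) :
    isV ((swap 0 1 * swap 1 2) * v * (swap 0 1 * swap 1 2)⁻¹) := by
  rcases hv with rfl | rfl | rfl | rfl <;> decide +kernel

/-- if one 3-cycle is mapped to a 3-cycle, then all are (they are conjugate in `Alt(6)`). -/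
private theorem pres_of_one' (φ : alternatingGroup (Fin 6) ≃* alternatingGroup (Fin 6))
    (c d : alternatingGroup (Fin 6)) (hc : (c : Perm (Fin 6)).IsThreeCycle)
    (hd : (d : Perm (Fin 6)).IsThreeCycle) (hφ : (φ c : Perm (Fin 6)).IsThreeCycle) :
    (φ d : Perm (Fin 6)).IsThreeCycle := by
  have h5 : 5 ≤ Nat.card (Fin 6) := by simp
  obtain ⟨g, hg⟩ := isConj_iff.1 (alternatingGroup.isThreeCycle_isConj h5 hc hd)
  have h2 : (φ d : Perm (Fin 6)) = (φ g : Perm (Fin 6)) * (φ c : Perm (Fin 6)) *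
      (φ g : Perm (Fin 6))⁻¹ := by
    rw [← hg, map_mul, map_mul, map_inv]; rfl
  rw [Perm.IsThreeCycle, h2, Perm.cycleType_conj]
  exact hφ

private theorem sets_card :
    ({g : Perm (Fin 6) | g.cycleType = {3, 3}} : Finset (Perm (Fin 6))).card ≤
    ({g : Perm (Fin 6) | g.cycleType = {3}} : Finset (Perm (Fin 6))).card := by
  rw [Perm.card_of_cycleType, Perm.card_of_cycleType]
  decide +kernel

private theorem ct_of_order (g : Perm (Fin 6)) (h3 : g ^ 3 = 1) (h1 : g ≠ 1)
    (hg : ¬ g.IsThreeCycle) : g.cycleType = {3, 3} := by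
  have ho : orderOf g = 3 := orderOf_eq_prime h3 h1
  have hp : (3 : ℕ).Prime := by norm_num
  obtain ⟨n, hn⟩ := Perm.cycleType_prime_order (by rw [ho]; exact hp)
  rw [ho] at hn
  have hsum : g.cycleType.sum ≤ 6 := by
    rw [Perm.sum_cycleType]
    exact (Finset.card_le_univ _).trans (by simp)
  rw [hn, Multiset.sum_replicate, smul_eq_mul] at hsum
  have hn1 : n = 0 ∨ n = 1 := by omega
  rcases hn1 with rfl | rfl
  · exact absurd hn hg
  · exact hn

/-- An automorphism of `Alt(6)` which does not preserve the 3-cycles exchanges them with the other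
elements of order 3 (40 elements each; the 3-cycles are one conjugacy class of `Alt(6)`). So the
product of two such automorphisms preserves the 3-cycles. -/
theorem comp_pres (φ ψ : alternatingGroup (Fin 6) ≃* alternatingGroup (Fin 6))
    (c d : alternatingGroup (Fin 6)) (hc : (c : Perm (Fin 6)).IsThreeCycle)
    (hd : (d : Perm (Fin 6)).IsThreeCycle) (hφ : ¬ (φ c : Perm (Fin 6)).IsThreeCycle)
    (hψ : ¬ (ψ d : Perm (Fin 6)).IsThreeCycle) (e : alternatingGroup (Fin 6))
    (he : (e : Perm (Fin 6)).IsThreeCycle) : (φ (ψ e) : Perm (Fin 6)).IsThreeCycle := by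
  classical
  -- elements of order 3 are mapped to elements of order 3
  have key : ∀ (χ : alternatingGroup (Fin 6) ≃* alternatingGroup (Fin 6))
      (c₀ x : alternatingGroup (Fin 6)), (c₀ : Perm (Fin 6)).IsThreeCycle →
      ¬ (χ c₀ : Perm (Fin 6)).IsThreeCycle → (x : Perm (Fin 6)).IsThreeCycle →
      (χ x : Perm (Fin 6)).cycleType = {3, 3} := by
    intro χ c₀ x h0 h1 hx
    have hx3 : (x : Perm (Fin 6)) ^ 3 = 1 := by
      have := hx.orderOf
      rw [← this]; exact pow_orderOf_eq_one _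
    have hx1 : x ≠ 1 := by
      rintro rfl
      have := hx.orderOf
      simp at this
    have hx3' : x ^ 3 = 1 := Subtype.ext (by simpa using hx3)
    apply ct_of_order
    · have : (χ x) ^ 3 = 1 := by rw [← map_pow, hx3', map_one]
      simpa using congrArg Subtype.val this
    · intro h
      apply hx1
      apply χ.injective
      rw [map_one]
      exact Subtype.ext h
    · intro h
      exact h1 (pres_of_one' χ x c₀ hx h0 h)
  -- the image of the 3-cycles under `φ` is the set of all elements of type `{3, 3}`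
  let A : Finset (Perm (Fin 6)) := {g : Perm (Fin 6) | g.cycleType = {3}}
  let B : Finset (Perm (Fin 6)) := {g : Perm (Fin 6) | g.cycleType = {3, 3}}
  have hA : ∀ g ∈ A, g ∈ alternatingGroup (Fin 6) := by
    intro g hg
    have h : g.IsThreeCycle := (Finset.mem_filter.1 hg).2
    exact Perm.mem_alternatingGroup.2 h.sign
  let f : A → Perm (Fin 6) := fun g => (φ ⟨g.1, hA g.1 g.2⟩ : Perm (Fin 6))
  have hf : Function.Injective f := by
    intro a b hab
    have h1 := φ.injective (Subtype.ext hab)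
    exact Subtype.ext (Subtype.mk.inj h1)
  have himg : (Finset.univ : Finset A).image f ⊆ B := by
    intro y hy
    obtain ⟨a, -, rfl⟩ := Finset.mem_image.1 hy
    exact Finset.mem_filter.2 ⟨Finset.mem_univ _,
      key φ c ⟨a.1, hA a.1 a.2⟩ hc hφ (Finset.mem_filter.1 a.2).2⟩
  have heq : (Finset.univ : Finset A).image f = B := by
    apply Finset.eq_of_subset_of_card_le himg
    rw [Finset.card_image_of_injective _ hf, Finset.card_univ, Fintype.card_coe]
    exact sets_card
  by_contra hcon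
  have h33 := key ψ d e hd hψ he
  -- `φ (ψ e)` has type `{3, 3}`
  have hψe3 : (ψ e) ^ 3 = 1 := by
    have he3 : (e : Perm (Fin 6)) ^ 3 = 1 := by
      have := he.orderOf
      rw [← this]; exact pow_orderOf_eq_one _
    have : e ^ 3 = 1 := Subtype.ext (by simpa using he3)
    rw [← map_pow, this, map_one]
  have hne : ψ e ≠ 1 := by
    intro h
    rw [h] at h33
    simp at h33
  have h2 : (φ (ψ e) : Perm (Fin 6)).cycleType = {3, 3} := by
    apply ct_of_order _ _ _ hcon
    · have : (φ (ψ e)) ^ 3 = 1 := by rw [← map_pow, hψe3, map_one]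
      simpa using congrArg Subtype.val this
    · intro h
      exact hne (φ.injective (by rw [map_one]; exact Subtype.ext h))
  have hmem : (φ (ψ e) : Perm (Fin 6)) ∈ (Finset.univ : Finset A).image f := by
    rw [heq]; exact Finset.mem_filter.2 ⟨Finset.mem_univ _, h2⟩
  obtain ⟨a, -, ha⟩ := Finset.mem_image.1 hmem
  have h4 := φ.injective (Subtype.ext ha)
  have h5 : (a.1 : Perm (Fin 6)) = (ψ e : Perm (Fin 6)) :=
    congrArg Subtype.val h4
  have h6 : (a.1 : Perm (Fin 6)).cycleType = {3} := (Finset.mem_filter.1 a.2).2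
  rw [h5, h33] at h6
  exact absurd h6 (by decide)

/-- if one 3-cycle is mapped to a 3-cycle, then all are (they are conjugate in `Alt(6)`). -/
theorem pres_of_one (φ : alternatingGroup (Fin 6) ≃* alternatingGroup (Fin 6))
    (c d : alternatingGroup (Fin 6)) (hc : (c : Perm (Fin 6)).IsThreeCycle)
    (hd : (d : Perm (Fin 6)).IsThreeCycle) (hφ : (φ c : Perm (Fin 6)).IsThreeCycle) :
    (φ d : Perm (Fin 6)).IsThreeCycle := pres_of_one' φ c d hc hd hφ

end Pool.Agent.Lib.MP_e3cc28_alA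
end

section

/-! job AF08: `(∗)` fails for `Alt(8)`.

Let `T` be the group of all permutations of `{0,...,7}` which preserve the partitions
`{0,1},{2,3},{4,5},{6,7}` and `{0,1,2,3},{4,5,6,7}` (order 128, a Sylow 2-subgroup of `Sym(8)`),
`P = T ∩ Alt(8)` and `Q = (3 4) P (3 4)`. Then
`P ∩ Q = {1, (0 7)(1 6)(2 5)(3 4), (0 6)(1 7)(2 5)(3 4), (0 1)(6 7)}` (checked by computer), and
`(0 1)(6 7)` is the only element of cycle type `{2, 2}` in `P ∩ Q`. -/

set_option autoImplicit false

namespace Pool.Agent.Lib.MP_e3cc28_alA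

open Subgroup Equiv
open Pool.Agent.Lib.MP_e3cc28_al (Star')

private def FN (p i : ℕ) : ℕ :=
  Nat.xor i (4 * ((p >>> 6) % 2) + 2 * ((p >>> (4 + i / 4)) % 2) + ((p >>> (i / 2)) % 2))

private def PN (a b c d : ℕ) : ℕ :=
  64 * (a / 4) + 32 * ((c / 2) % 2) + 16 * ((a / 2) % 2) + 8 * (d % 2) + 4 * (c % 2) +
    2 * (b % 2) + a % 2

private lemma FN_lt : ∀ p : Fin 128, ∀ i : Fin 8, FN p i < 8 := by decide +kernel

private def FF (p : Fin 128) (i : Fin 8) : Fin 8 := ⟨FN p i, FN_lt p i⟩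

private lemma FF_inj : ∀ p : Fin 128, ∀ i j : Fin 8, FN p i = FN p j → i = j := by decide +kernel

private lemma FF_rel : ∀ p : Fin 128, ∀ i j : Fin 8,
    ((i : ℕ) / 2 = (j : ℕ) / 2 ↔ FN p i / 2 = FN p j / 2) ∧
    ((i : ℕ) / 4 = (j : ℕ) / 4 ↔ FN p i / 4 = FN p j / 4) := by decide +kernel

private lemma PN_lt : ∀ a b c d : Fin 8, PN a b c d < 128 := by decide +kernel

private lemma PN_FN : ∀ p : Fin 128, PN (FN p 0) (FN p 2) (FN p 4) (FN p 6) = p := by
  decide +kernel

private lemma FN_PN : ∀ a b c d : Fin 8, (a : ℕ) / 4 = (b : ℕ) / 4 → (a : ℕ) / 2 ≠ (b : ℕ) / 2 →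
    (c : ℕ) / 4 = (d : ℕ) / 4 → (c : ℕ) / 2 ≠ (d : ℕ) / 2 → (a : ℕ) / 4 ≠ (c : ℕ) / 4 →
    FN (PN a b c d) 0 = a ∧ FN (PN a b c d) 2 = b ∧ FN (PN a b c d) 4 = c ∧
      FN (PN a b c d) 6 = d := by decide +kernel

private lemma partner : ∀ a b : Fin 8, (a : ℕ) / 2 = (b : ℕ) / 2 → a ≠ b → (b : ℕ) =
    Nat.xor a 1 := by decide +kernel

private lemma FN_odd : ∀ p : Fin 128, FN p 1 = Nat.xor (FN p 0) 1 ∧ FN p 3 = Nat.xor (FN p 2) 1 ∧
    FN p 5 = Nat.xor (FN p 4) 1 ∧ FN p 7 = Nat.xor (FN p 6) 1 := by decide +kernel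

/-- the permutations which preserve the two partitions -/
private def TT : Subgroup (Perm (Fin 8)) where
  carrier := {g | ∀ i j : Fin 8, ((i : ℕ) / 2 = (j : ℕ) / 2 ↔ (g i : ℕ) / 2 = (g j : ℕ) / 2) ∧
    ((i : ℕ) / 4 = (j : ℕ) / 4 ↔ (g i : ℕ) / 4 = (g j : ℕ) / 4)}
  mul_mem' := by
    intro g h hg hh i j
    exact ⟨(hh i j).1.trans (hg _ _).1, (hh i j).2.trans (hg _ _).2⟩
  one_mem' := fun i j => ⟨Iff.rfl, Iff.rfl⟩
  inv_mem' := by
    intro g hg i j
    have h := hg (g⁻¹ i) (g⁻¹ j)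
    have e : ∀ i, g (g⁻¹ i) = i := fun i => g.apply_symm_apply i
    rw [e, e] at h
    exact ⟨h.1.symm, h.2.symm⟩

private lemma mem_TT {g : Perm (Fin 8)} : g ∈ TT ↔
    ∀ i j : Fin 8, ((i : ℕ) / 2 = (j : ℕ) / 2 ↔ (g i : ℕ) / 2 = (g j : ℕ) / 2) ∧
    ((i : ℕ) / 4 = (j : ℕ) / 4 ↔ (g i : ℕ) / 4 = (g j : ℕ) / 4) := Iff.rfl

private instance (g : Perm (Fin 8)) : Decidable (g ∈ TT) := decidable_of_iff' _ mem_TT

private noncomputable def pm (p : Fin 128) : Perm (Fin 8) :=
  Equiv.ofBijective (FF p) (Finite.injective_iff_bijective.1 fun i j h =>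
    FF_inj p i j (congrArg Fin.val h))

private lemma pm_apply (p : Fin 128) (i : Fin 8) : (pm p i : ℕ) = FN p i := rfl

private lemma pm_mem (p : Fin 128) : pm p ∈ TT := by
  intro i j
  exact FF_rel p i j

private noncomputable def cd (g : Perm (Fin 8)) : Fin 128 :=
  ⟨PN (g 0) (g 2) (g 4) (g 6), PN_lt _ _ _ _⟩

private lemma cd_pm (p : Fin 128) : cd (pm p) = p := by
  apply Fin.ext
  exact PN_FN p

private lemma pm_cd {g : Perm (Fin 8)} (hg : g ∈ TT) : pm (cd g) = g := by
  have h02 := hg 0 2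
  have h46 := hg 4 6
  have h04 := hg 0 4
  obtain ⟨e0, e2, e4, e6⟩ := FN_PN (g 0) (g 2) (g 4) (g 6) (h02.2.1 (by decide))
    (fun h => by have := h02.1.2 h; revert this; decide) (h46.2.1 (by decide))
    (fun h => by have := h46.1.2 h; revert this; decide)
    (fun h => by have := h04.2.2 h; revert this; decide)
  obtain ⟨o1, o3, o5, o7⟩ := FN_odd (cd g)
  have hp : ∀ i j : Fin 8, (i : ℕ) / 2 = (j : ℕ) / 2 → i ≠ j → (g j : ℕ) = Nat.xor (g i) 1 :=
    fun i j h1 h2 => partner _ _ ((hg i j).1.1 h1) (fun h => h2 (g.injective h))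
  have e0' : FN (cd g) 0 = g 0 := e0
  have e2' : FN (cd g) 2 = g 2 := e2
  have e4' : FN (cd g) 4 = g 4 := e4
  have e6' : FN (cd g) 6 = g 6 := e6
  have hall : ∀ i : Fin 8, FN (cd g) i = g i := by
    intro i
    fin_cases i
    · exact e0'
    · exact o1.trans ((congrArg (Nat.xor · 1) e0').trans (hp 0 1 (by decide) (by decide)).symm)
    · exact e2'
    · exact o3.trans ((congrArg (Nat.xor · 1) e2').trans (hp 2 3 (by decide) (by decide)).symm)
    · exact e4'
    · exact o5.trans ((congrArg (Nat.xor · 1) e4').trans (hp 4 5 (by decide) (by decide)).symm)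
    · exact e6'
    · exact o7.trans ((congrArg (Nat.xor · 1) e6').trans (hp 6 7 (by decide) (by decide)).symm)
  ext i
  exact hall i

private lemma card_TT : Nat.card TT = 128 := by
  have e : TT ≃ Fin 128 :=
    { toFun := fun g => cd g
      invFun := fun p => ⟨pm p, pm_mem p⟩
      left_inv := fun g => Subtype.ext (pm_cd g.2)
      right_inv := fun p => cd_pm p }
  rw [Nat.card_congr e, Nat.card_eq_fintype_card, Fintype.card_fin]

private lemma sylIn_TT : SylIn ⊤ TT := by
  refine ⟨le_top, IsPGroup.of_card (n := 7) (by rw [card_TT]; norm_num), ?_⟩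
  rw [Subgroup.relIndex_top_right]
  have h1 := TT.card_mul_index
  rw [card_TT, Nat.card_eq_fintype_card, Fintype.card_perm, Fintype.card_fin] at h1
  have h2 : Nat.factorial 8 = 128 * 315 := by decide
  rw [h2] at h1
  have h3 : TT.index = 315 := Nat.eq_of_mul_eq_mul_left (by norm_num) h1
  rw [h3]
  norm_num

/-- finite check -/
private lemma check : ∀ p : Fin 128,
    (∀ i j : Fin 8, ((i : ℕ) / 2 = (j : ℕ) / 2 ↔
      (swap (3 : Fin 8) 4 (FF p (swap 3 4 i)) : ℕ) / 2 =
        (swap (3 : Fin 8) 4 (FF p (swap 3 4 j)) : ℕ) / 2) ∧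
      ((i : ℕ) / 4 = (j : ℕ) / 4 ↔
      (swap (3 : Fin 8) 4 (FF p (swap 3 4 i)) : ℕ) / 4 =
        (swap (3 : Fin 8) 4 (FF p (swap 3 4 j)) : ℕ) / 4)) →
    (∀ i, FF p (FF p i) = i) → (Finset.univ.filter fun i => FF p i ≠ i).card = 4 →
    ∀ i, FF p i = swap (0 : Fin 8) 1 (swap 6 7 i) := by decide +kernel

private lemma z_conj : (swap (3 : Fin 8) 4)⁻¹ * (swap 0 1 * swap 6 7) * swap 3 4 ∈ TT := by
  decide +kernel

private lemma z_mem : (swap (0 : Fin 8) 1 * swap 6 7) ∈ TT := by decide +kernel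

private lemma z_type : (swap (0 : Fin 8) 1 * swap 6 7).cycleType = {2, 2} := by
  rw [Perm.Disjoint.cycleType_mul]
  · rw [(Perm.swap_isSwap_iff.2 (by decide)).isCycle.cycleType,
      (Perm.swap_isSwap_iff.2 (by decide)).isCycle.cycleType, Perm.card_support_swap (by decide),
      Perm.card_support_swap (by decide)]
    rfl
  · intro x
    revert x
    decide

/-- Two Sylow 2-subgroups of `Alt(8)` such that `(0 1)(6 7)` is the only element of cycle type
`{2, 2}` in their intersection.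

Suggestion. Write `i = 4 i₂ + 2 i₁ + i₀`. The elements of `T` are the 128 maps
`i ↦ 4 (i₂ + t) + 2 (i₁ + s (i₂)) + (i₀ + r (i₂, i₁))` (bits modulo 2, `t`, `s 0`, `s 1`, `r 0`,
..., `r 3` are 7 bits); they form a subgroup of `Sym(8)` of order 128 (`40320 = 128 * 315`), and
`T ⊓ alternatingGroup` is a Sylow subgroup of `alternatingGroup` by `SylIn.inf`. The last statement
is a finite check (`decide`) over the 128 parameters: `(3 4) p (3 4)` is in `T` and `p` is even with
cycle type `{2, 2}` iff `p = (0 1)(6 7)` (cycle type `{2, 2}` = even involution with a fixed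
point). -/
theorem exists_sylows_eight : ∃ P Q : Subgroup (alternatingGroup (Fin 8)),
    SylIn ⊤ P ∧ SylIn ⊤ Q ∧ ∀ x : alternatingGroup (Fin 8), (x ∈ P ∧ x ∈ Q ∧
      (x : Perm (Fin 8)).cycleType = {2, 2}) ↔ (x : Perm (Fin 8)) = swap 0 1 * swap 6 7 := by
  have key : ∀ R : Subgroup (Perm (Fin 8)), SylIn ⊤ R →
      SylIn (⊤ : Subgroup (alternatingGroup (Fin 8))) (R.subgroupOf (alternatingGroup (Fin 8))) := by
    intro R hR
    have h1 : SylIn (alternatingGroup (Fin 8)) (R ⊓ alternatingGroup (Fin 8)) :=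
      hR.inf le_top fun h _ x hx => (inferInstance : (alternatingGroup (Fin 8)).Normal).conj_mem x hx h
    obtain ⟨-, S, hS⟩ := sylIn_iff.1 h1
    rw [sylIn_top_iff]
    refine ⟨S, hS.trans ?_⟩
    ext x
    simp [Subgroup.mem_subgroupOf]
  refine ⟨TT.subgroupOf _, (TT.map (MulAut.conj (swap 3 4)).toMonoidHom).subgroupOf _,
    key _ sylIn_TT, key _ (sylIn_TT.conj (Subgroup.mem_top _)), fun x => ?_⟩
  rw [Subgroup.mem_subgroupOf, Subgroup.mem_subgroupOf, mem_map_conj]
  constructor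
  · rintro ⟨h1, h2, h3⟩
    obtain ⟨g, hgA⟩ := x
    change g ∈ TT at h1
    change (swap 3 4)⁻¹ * g * swap 3 4 ∈ TT at h2
    change g.cycleType = {2, 2} at h3
    change g = swap 0 1 * swap 6 7
    have hFF : ∀ i, FF (cd g) i = g i := fun i => by
      conv_rhs => rw [← pm_cd h1]
      rfl
    have hinv : (swap (3 : Fin 8) 4)⁻¹ = swap 3 4 := swap_inv _ _
    rw [hinv] at h2
    have hord : orderOf g = 2 := by
      rw [← Perm.lcm_cycleType, h3]
      decide
    have hsq : g * g = 1 := by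
      rw [← pow_two, ← hord]
      exact pow_orderOf_eq_one g
    have hsupp : g.support.card = 4 := by
      rw [← Perm.sum_cycleType, h3]
      rfl
    have h4 := check (cd g) (by
      intro i j
      simp only [hFF]
      exact h2 i j) (by
      intro i
      simp only [hFF]
      exact DFunLike.congr_fun hsq i) (by
      simp only [hFF]
      exact hsupp)
    ext i
    rw [← hFF, h4 i]
    rfl
  · intro h
    rw [h]
    exact ⟨z_mem, z_conj, z_type⟩

/-- The centraliser of `(0 1)(6 7)` in `Sym(8)` has order `192` (`Equiv.Perm.nat_card_centralizer`)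
and contains the odd permutation `(0 1)`, so the centraliser in `Alt(8)` has order 96, which is not
divisible by `64`, the order of a Sylow 2-subgroup of `Alt(8)` (`|Alt(8)| = 20160`). -/
theorem not_cent_eight (S : Subgroup (alternatingGroup (Fin 8))) (hS : SylIn ⊤ S) :
    ∃ s : alternatingGroup (Fin 8), s ∈ S ∧
      (s : Perm (Fin 8)) * (swap 0 1 * swap 6 7) ≠
        (swap 0 1 * swap 6 7) * (s : Perm (Fin 8)) := by
  by_contra hno
  push Not at hno
  set z : Perm (Fin 8) := swap 0 1 * swap 6 7 with hz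
  let C : Subgroup (Perm (Fin 8)) := Subgroup.centralizer {z}
  have hC : Nat.card C = 192 := by
    have h1 := Perm.nat_card_centralizer z
    rw [hz, z_type] at h1
    rw [show Nat.card C = Nat.card (Subgroup.centralizer {z}) from rfl, hz, h1]
    decide
  let χ : C →* ℤˣ := Perm.sign.comp C.subtype
  have hodd : swap (0 : Fin 8) 1 ∈ C := by
    rw [Subgroup.mem_centralizer_singleton_iff]
    decide
  have hsurj : Function.Surjective χ := by
    intro u
    rcases Int.units_eq_one_or u with rfl | rfl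
    · exact ⟨1, map_one χ⟩
    · exact ⟨⟨_, hodd⟩, Perm.sign_swap (show (0 : Fin 8) ≠ 1 by decide)⟩
  have hker : Nat.card χ.ker = 96 := by
    have h1 := χ.ker.card_mul_index
    rw [hC, Subgroup.index_ker, MonoidHom.range_eq_top.2 hsurj, Subgroup.card_top,
      Nat.card_eq_fintype_card (α := ℤˣ), Fintype.card_units_int] at h1
    omega
  have hS64 : 64 ∣ Nat.card S := by
    obtain ⟨-, -, h3⟩ := hS
    rw [Subgroup.relIndex_top_right] at h3
    have h1 := S.card_mul_index
    have h2 : Nat.card (alternatingGroup (Fin 8)) = 64 * 315 := by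
      have h4 := two_mul_nat_card_alternatingGroup (α := Fin 8)
      rw [Nat.card_eq_fintype_card (α := Perm (Fin 8)), Fintype.card_perm, Fintype.card_fin] at h4
      have h5 : Nat.factorial 8 = 2 * (64 * 315) := by decide
      omega
    rw [h2] at h1
    have hcop : Nat.Coprime 64 S.index := by
      rw [show 64 = 2 ^ 6 by norm_num]
      exact Nat.Coprime.pow_left 6 ((Nat.Prime.coprime_iff_not_dvd Nat.prime_two).2 h3)
    exact hcop.dvd_of_dvd_mul_right ⟨315, h1⟩
  have hdvd : Nat.card S ∣ Nat.card χ.ker := by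
    let j : S →* χ.ker :=
      { toFun := fun s => ⟨⟨(s : alternatingGroup (Fin 8)), by
            rw [Subgroup.mem_centralizer_singleton_iff]
            exact (hno s s.2)⟩, by
            rw [MonoidHom.mem_ker]
            exact Perm.mem_alternatingGroup.1 (s : alternatingGroup (Fin 8)).2⟩
        map_one' := rfl
        map_mul' := fun a b => rfl }
    apply Subgroup.card_dvd_of_injective j
    intro a b h
    have h1 : ((a : alternatingGroup (Fin 8)) : Perm (Fin 8)) = b :=
      congrArg (fun t : χ.ker => ((t : C) : Perm (Fin 8))) h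
    exact Subtype.ext (Subtype.ext h1)
  rw [hker] at hdvd
  have := hS64.trans hdvd
  omega

theorem not_star_alt_eight : ¬ Star' (alternatingGroup (Fin 8)) := by
  intro h
  obtain ⟨P, Q, hP, hQ, hPQ⟩ := exists_sylows_eight
  obtain ⟨S, hS, -, hSD, hSn⟩ := starIn_top_iff.2 h P Q hP hQ
  have hmem : swap 0 1 * swap 6 7 ∈ alternatingGroup (Fin 8) := by
    rw [Perm.mem_alternatingGroup]
    decide
  obtain ⟨s, hs, hne⟩ := not_cent_eight S hS
  obtain ⟨h1, h2, h3⟩ := (hPQ ⟨_, hmem⟩).2 rfl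
  obtain ⟨h4, h5⟩ := hSn s hs _ h1 h2
  have h6 := (hPQ _).1 ⟨h4, h5, by
    change ((s : Perm (Fin 8)) * (swap 0 1 * swap 6 7) * (s : Perm (Fin 8))⁻¹).cycleType = _
    rw [Perm.cycleType_conj]
    exact h3⟩
  apply hne
  change (s : Perm (Fin 8)) * (swap 0 1 * swap 6 7) * (s : Perm (Fin 8))⁻¹ = _ at h6
  rw [mul_inv_eq_iff_eq_mul] at h6
  exact h6

end Pool.Agent.Lib.MP_e3cc28_alA
end

section

/-! job AF10: `(∗)` for subdirect products which contain the product of subgroups `A i` with the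
strong form of `(∗)`. -/

set_option autoImplicit false

namespace Pool.Agent.Lib.MP_e3cc28_alA

open Subgroup Equiv
open Pool.Agent.Lib.MP_e3cc28_al (Star')

universe u

section

variable {K : Type u} [Group K] [Finite K] {ι : Type} [Finite ι] {Y : ι → Type}
  [∀ i, Group (Y i)] [∀ i, Finite (Y i)]

/-- A Sylow 2-subgroup of `K` is determined by its images: the right-hand side is a subgroup of `K`
which contains `P` and is a 2-group (it embeds in the product of the 2-groups `π i (P)`), so it is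
`P` by maximality. -/
theorem mem_sylow_iff (π : ∀ i, K →* Y i) (hinj : ∀ x, (∀ i, π i x = 1) → x = 1)
    (P : Sylow 2 K) (x : K) : x ∈ P ↔ ∀ i, π i x ∈ (P : Subgroup K).map (π i) := by
  classical
  have hfin : Fintype ι := Fintype.ofFinite ι
  set R : Subgroup K := ⨅ i, ((P : Subgroup K).map (π i)).comap (π i) with hR
  have memR : ∀ y : K, y ∈ R ↔ ∀ i, π i y ∈ (P : Subgroup K).map (π i) := by
    intro y
    rw [hR, Subgroup.mem_iInf]
    rfl
  have hle : (P : Subgroup K) ≤ R := fun y hy => (memR y).2 fun i => ⟨y, hy, rfl⟩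
  have hp : IsPGroup 2 R := by
    rintro ⟨y, hy⟩
    have h1 : ∀ i, ∃ k : ℕ, (π i y) ^ 2 ^ k = 1 := by
      intro i
      obtain ⟨k, hk⟩ := (P.isPGroup'.map (π i)) ⟨π i y, (memR y).1 hy i⟩
      exact ⟨k, congrArg Subtype.val hk⟩
    choose k hk using h1
    refine ⟨∑ i, k i, Subtype.ext ?_⟩
    show y ^ 2 ^ (∑ i, k i) = 1
    apply hinj
    intro i
    rw [map_pow]
    have h2 : k i ≤ ∑ i, k i := Finset.single_le_sum (fun _ _ => Nat.zero_le _) (Finset.mem_univ i)
    obtain ⟨m, hm⟩ := Nat.exists_eq_add_of_le h2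
    rw [hm, pow_add, pow_mul, hk i, one_pow]
  have h3 : R = P := P.is_maximal' hp hle
  have h4 : x ∈ P ↔ x ∈ R := by
    rw [h3]
    rfl
  rw [h4]
  exact memR x

/-- one index: lifts with all the other components `1`. -/
private theorem exists_lift_one (π : ∀ i, K →* Y i) (hinj : ∀ x, (∀ i, π i x = 1) → x = 1)
    (A : ∀ i, Subgroup (Y i))
    (hA : ∀ i, ∀ a ∈ A i, ∃ x : K, π i x = a ∧ ∀ j, j ≠ i → π j x = 1) (P Q : Sylow 2 K)
    (i : ι) (a : Y i) (ha : a ∈ ((P : Subgroup K).map (π i) ⊓ A i) ⊔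
      ((Q : Subgroup K).map (π i) ⊓ A i)) :
    ∃ g ∈ (P : Subgroup K) ⊔ Q, π i g = a ∧ ∀ j, j ≠ i → π j g = 1 := by
  have key : ∀ S : Sylow 2 K, ∀ b ∈ (S : Subgroup K).map (π i) ⊓ A i,
      ∃ g ∈ S, π i g = b ∧ ∀ j, j ≠ i → π j g = 1 := by
    rintro S b ⟨hb1, hb2⟩
    obtain ⟨x, hx1, hx2⟩ := hA i b hb2
    refine ⟨x, (mem_sylow_iff π hinj S x).2 fun j => ?_, hx1, hx2⟩
    by_cases hj : j = i
    · subst hj
      rw [hx1]
      exact hb1
    · rw [hx2 j hj]
      exact one_mem _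
  set T : Subgroup K := ((P : Subgroup K) ⊔ Q) ⊓ ⨅ j : {j : ι // j ≠ i}, (π j.1).ker with hT
  have memT : ∀ g : K, g ∈ T ↔ g ∈ (P : Subgroup K) ⊔ Q ∧ ∀ j, j ≠ i → π j g = 1 := by
    intro g
    rw [hT, Subgroup.mem_inf, Subgroup.mem_iInf]
    constructor
    · rintro ⟨h1, h2⟩
      exact ⟨h1, fun j hj => MonoidHom.mem_ker.1 (h2 ⟨j, hj⟩)⟩
    · rintro ⟨h1, h2⟩
      exact ⟨h1, fun j => MonoidHom.mem_ker.2 (h2 j.1 j.2)⟩
  have hle : ((P : Subgroup K).map (π i) ⊓ A i) ⊔ ((Q : Subgroup K).map (π i) ⊓ A i) ≤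
      T.map (π i) := by
    refine sup_le ?_ ?_
    · intro b hb
      obtain ⟨g, hg, h1, h2⟩ := key P b hb
      have hg' : g ∈ (P : Subgroup K) ⊔ Q := (le_sup_left : (P : Subgroup K) ≤ _) hg
      exact ⟨g, (memT g).2 ⟨hg', h2⟩, h1⟩
    · intro b hb
      obtain ⟨g, hg, h1, h2⟩ := key Q b hb
      have hg' : g ∈ (P : Subgroup K) ⊔ Q := (le_sup_right : (Q : Subgroup K) ≤ _) hg
      exact ⟨g, (memT g).2 ⟨hg', h2⟩, h1⟩
  obtain ⟨g, hg, h1⟩ := hle ha
  exact ⟨g, ((memT g).1 hg).1, h1, ((memT g).1 hg).2⟩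

/-- Elements `h i ∈ ⟨P_i ∩ A_i, Q_i ∩ A_i⟩` have a common lift in `⟨P, Q⟩`.

Proof. An element `a ∈ P_i ∩ A_i` has a lift `x ∈ K` (`hA`) with `π_j x = 1` for `j ≠ i`; by
`mem_sylow_iff` `x ∈ P`. So (closure induction) every element of `⟨P_i ∩ A_i, Q_i ∩ A_i⟩` has a lift
in `⟨P, Q⟩` with all other components `1`. Induction over a `Finset` of indices: for every finset `s`
there is `g ∈ ⟨P, Q⟩` with `π_i g = h_i` for `i ∈ s` and `π_i g = 1` for `i ∉ s`. -/
theorem exists_common_lift (π : ∀ i, K →* Y i) (hinj : ∀ x, (∀ i, π i x = 1) → x = 1)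
    (A : ∀ i, Subgroup (Y i))
    (hA : ∀ i, ∀ a ∈ A i, ∃ x : K, π i x = a ∧ ∀ j, j ≠ i → π j x = 1) (P Q : Sylow 2 K)
    (h : ∀ i, Y i) (hh : ∀ i, h i ∈ ((P : Subgroup K).map (π i) ⊓ A i) ⊔
      ((Q : Subgroup K).map (π i) ⊓ A i)) :
    ∃ g ∈ (P : Subgroup K) ⊔ Q, ∀ i, π i g = h i := by
  classical
  have hfin : Fintype ι := Fintype.ofFinite ι
  have main : ∀ s : Finset ι, ∃ g ∈ (P : Subgroup K) ⊔ Q, (∀ i ∈ s, π i g = h i) ∧
      ∀ i, i ∉ s → π i g = 1 := by
    intro s
    induction s using Finset.induction_on with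
    | empty => exact ⟨1, one_mem _, by simp, fun i _ => map_one _⟩
    | insert i s hi ih =>
      obtain ⟨g, hg, h1, h2⟩ := ih
      obtain ⟨x, hx, h3, h4⟩ := exists_lift_one π hinj A hA P Q i (h i) (hh i)
      refine ⟨g * x, mul_mem hg hx, ?_, ?_⟩
      · intro j hj
        rw [map_mul]
        by_cases hji : j = i
        · subst hji
          rw [h2 j hi, h3, one_mul]
        · rw [h4 j hji, mul_one]
          exact h1 j ((Finset.mem_insert.1 hj).resolve_left hji)
      · intro j hj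
        rw [Finset.mem_insert, not_or] at hj
        rw [map_mul, h2 j hj.2, h4 j hj.1, mul_one]
  obtain ⟨g, hg, h1, -⟩ := main Finset.univ
  exact ⟨g, hg, fun i => h1 i (Finset.mem_univ i)⟩

/-- Proof. Let `P`, `Q` be Sylow 2-subgroups of `K`; `π_i(P)`, `π_i(Q)` are Sylow 2-subgroups of
`(π i).range` (`SylIn.map` for `H = ⊤`). Let `h_i` be the elements of `Strong`, `g ∈ ⟨P, Q⟩` their
common lift and `S = g P g⁻¹ ≤ ⟨P, Q⟩`. For `d ∈ P ∩ Q` all the components of `g⁻¹ d g` are in
`π_i(P)`, so `g⁻¹ d g ∈ P` (`mem_sylow_iff`) and `d ∈ S`; in the same way `S` normalises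
`P ∩ Q`. -/
theorem star_of_family (π : ∀ i, K →* Y i) (hinj : ∀ x, (∀ i, π i x = 1) → x = 1)
    (A : ∀ i, Subgroup (Y i))
    (hA : ∀ i, ∀ a ∈ A i, ∃ x : K, π i x = a ∧ ∀ j, j ≠ i → π j x = 1)
    (hs : ∀ i, Strong (π i).range (A i)) : Star' K := by
  rw [← starIn_top_iff]
  intro P' Q' hP' hQ'
  obtain ⟨P, rfl⟩ := sylIn_top_iff.1 hP'
  obtain ⟨Q, rfl⟩ := sylIn_top_iff.1 hQ'
  have hrange : ∀ i, (π i).range = (⊤ : Subgroup K).map (π i) := fun i => MonoidHom.range_eq_map _
  have hP : ∀ i, SylIn (π i).range ((P : Subgroup K).map (π i)) := by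
    intro i
    rw [hrange]
    exact hP'.map (π i)
  have hQ : ∀ i, SylIn (π i).range ((Q : Subgroup K).map (π i)) := by
    intro i
    rw [hrange]
    exact hQ'.map (π i)
  choose h hh h1 h2 using fun i => hs i _ _ (hP i) (hQ i)
  obtain ⟨g, hg, hgi⟩ := exists_common_lift π hinj A hA P Q h hh
  refine ⟨(P : Subgroup K).map (MulAut.conj g).toMonoidHom, hP'.conj (Subgroup.mem_top g),
    ?_, ?_, ?_⟩
  · intro x hx
    rw [mem_map_conj] at hx
    have hx' : g⁻¹ * x * g ∈ (P : Subgroup K) ⊔ Q := (le_sup_left : (P : Subgroup K) ≤ _) hx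
    have h5 : g * (g⁻¹ * x * g) * g⁻¹ = x := by group
    rw [← h5]
    exact mul_mem (mul_mem hg hx') (inv_mem hg)
  · intro d hdP hdQ
    rw [mem_map_conj]
    refine (mem_sylow_iff π hinj P _).2 fun i => ?_
    rw [map_mul, map_mul, map_inv, hgi]
    exact h1 i (π i d) ⟨d, hdP, rfl⟩ ⟨d, hdQ, rfl⟩
  · intro s hs' d hdP hdQ
    rw [mem_map_conj] at hs'
    have key : ∀ i, π i (s * d * s⁻¹) ∈ (P : Subgroup K).map (π i) ∧
        π i (s * d * s⁻¹) ∈ (Q : Subgroup K).map (π i) := by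
      intro i
      have h6 := h2 i (π i (g⁻¹ * s * g)) ⟨_, hs', rfl⟩ (π i d) ⟨d, hdP, rfl⟩ ⟨d, hdQ, rfl⟩
      have h7 : h i * π i (g⁻¹ * s * g) * (h i)⁻¹ = π i s := by
        rw [← hgi i, map_mul, map_mul, map_inv]
        group
      rw [h7] at h6
      rw [map_mul, map_mul, map_inv]
      exact h6
    exact ⟨(mem_sylow_iff π hinj P _).2 fun i => (key i).1,
      (mem_sylow_iff π hinj Q _).2 fun i => (key i).2⟩

end

end Pool.Agent.Lib.MP_e3cc28_alA
end

section

/-! job AF06b: if a group with `(∗)` has a normal subgroup `Alt(6)`, then conjugation preserves the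
3-cycles. -/

set_option autoImplicit false

namespace Pool.Agent.Lib.MP_e3cc28_alA

open Subgroup Equiv
open Pool.Agent.Lib.MP_e3cc28_al (Star')

universe u

/-- conjugation by `k`, transported to `Alt(6)` -/
private def Phi {K : Type u} [Group K] (N : Subgroup K) [N.Normal]
    (θ : N ≃* alternatingGroup (Fin 6)) (k : K) :
    alternatingGroup (Fin 6) ≃* alternatingGroup (Fin 6) :=
  (θ.symm.trans (MulAut.conjNormal k : MulAut N)).trans θ

private theorem Phi_apply {K : Type u} [Group K] (N : Subgroup K) [N.Normal]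
    (θ : N ≃* alternatingGroup (Fin 6)) (k : K) (x : N) (hx : k * x * k⁻¹ ∈ N) :
    Phi N θ k (θ x) = θ ⟨k * x * k⁻¹, hx⟩ := by
  show θ ((MulAut.conjNormal k : MulAut N) (θ.symm (θ x))) = _
  congr 1
  apply Subtype.ext
  rw [MulAut.conjNormal_apply, MulEquiv.symm_apply_apply]

private theorem Phi_mul {K : Type u} [Group K] (N : Subgroup K) [N.Normal]
    (θ : N ≃* alternatingGroup (Fin 6)) (k l : K) (x : alternatingGroup (Fin 6)) :
    Phi N θ (k * l) x = Phi N θ k (Phi N θ l x) := by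
  show θ ((MulAut.conjNormal (k * l) : MulAut N) (θ.symm x)) =
    θ ((MulAut.conjNormal k : MulAut N) (θ.symm (θ ((MulAut.conjNormal l : MulAut N)
      (θ.symm x)))))
  rw [map_mul, MulEquiv.symm_apply_apply]
  rfl

private theorem Phi_one {K : Type u} [Group K] (N : Subgroup K) [N.Normal]
    (θ : N ≃* alternatingGroup (Fin 6)) (x : alternatingGroup (Fin 6)) :
    Phi N θ 1 x = x := by
  show θ ((MulAut.conjNormal (1 : K) : MulAut N) (θ.symm x)) = x
  rw [map_one]
  simp

/-- Proof. Let `P₀, Q₀` be the Sylow subgroups of `N` with `P₀ ∩ Q₀ = θ⁻¹(V)`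
(`exists_sylows_V`), and `P`, `Q` Sylow 2-subgroups of `K` with `P ∩ N = P₀`, `Q ∩ N = Q₀`
(`exists_sylIn_inf`). Let `S` be a Sylow 2-subgroup of `K` which normalises `P ∩ Q`; it normalises
`P ∩ Q ∩ N = θ⁻¹(V)`. For `s ∈ S` the element `θ(s c s⁻¹)`, `θ(c) = (0 1 2)`, has order 3 and
normalises `V` (`three_norm`), hence it is a 3-cycle (`isThreeCycle_of_norm`), and by `pres_of_one`
`s` preserves the 3-cycles. Let `K₀` be the set of all `k ∈ K` which preserve the 3-cycles; it is a
subgroup (finite set of 3-cycles) which contains `S`, and by `comp_pres` its index is at most 2. As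
the index of `S` is odd, `K₀ = K`. -/
theorem three_pres_six {K : Type u} [Group K] [Finite K] (hK : Star' K) (N : Subgroup K)
    (hN : N.Normal) (θ : N ≃* alternatingGroup (Fin 6)) (k : K) (c : N)
    (hc : (θ c : Perm (Fin 6)).IsThreeCycle) :
    (θ ⟨k * c * k⁻¹, hN.conj_mem c c.2 k⟩ : Perm (Fin 6)).IsThreeCycle := by
  classical
  obtain ⟨P', Q', hP', hQ', hV⟩ := exists_sylows_V
  let f : alternatingGroup (Fin 6) →* K := N.subtype.comp θ.symm.toMonoidHom
  have hfN : (⊤ : Subgroup (alternatingGroup (Fin 6))).map f = N := by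
    ext x
    constructor
    · rintro ⟨y, -, rfl⟩
      exact (θ.symm y).2
    · intro hx
      exact ⟨θ ⟨x, hx⟩, Subgroup.mem_top _, by simp [f]⟩
  have hP₀ : SylIn N (P'.map f) := by have := hP'.map f; rwa [hfN] at this
  have hQ₀ : SylIn N (Q'.map f) := by have := hQ'.map f; rwa [hfN] at this
  obtain ⟨P₁, hP₁, hPN⟩ := exists_sylIn_inf (H := ⊤) le_top hP₀
    (fun h _ x hx => hN.conj_mem x hx h)
  obtain ⟨Q₁, hQ₁, hQN⟩ := exists_sylIn_inf (H := ⊤) le_top hQ₀
    (fun h _ x hx => hN.conj_mem x hx h)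
  obtain ⟨P, hP⟩ := sylIn_top_iff.1 hP₁
  obtain ⟨Q, hQ⟩ := sylIn_top_iff.1 hQ₁
  obtain ⟨S, -, -, hS⟩ := hK P Q
  -- membership in `P ∩ Q ∩ N`
  have hmapP : ∀ (x : K) (hx : x ∈ N), x ∈ P'.map f ↔ θ ⟨x, hx⟩ ∈ P' := by
    intro x hx
    constructor
    · rintro ⟨y, hy, rfl⟩
      have : θ ⟨f y, hx⟩ = y := by
        have h1 : (⟨f y, hx⟩ : N) = θ.symm y := Subtype.ext rfl
        rw [h1, MulEquiv.apply_symm_apply]
      rw [this]; exact hy
    · intro h
      exact ⟨_, h, by simp [f]⟩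
  have hmapQ : ∀ (x : K) (hx : x ∈ N), x ∈ Q'.map f ↔ θ ⟨x, hx⟩ ∈ Q' := by
    intro x hx
    constructor
    · rintro ⟨y, hy, rfl⟩
      have : θ ⟨f y, hx⟩ = y := by
        have h1 : (⟨f y, hx⟩ : N) = θ.symm y := Subtype.ext rfl
        rw [h1, MulEquiv.apply_symm_apply]
      rw [this]; exact hy
    · intro h
      exact ⟨_, h, by simp [f]⟩
  have hPQ : ∀ (x : K) (hx : x ∈ N), (x ∈ (P : Subgroup K) ∧ x ∈ (Q : Subgroup K)) ↔
      isV (θ ⟨x, hx⟩) := by
    intro x hx
    rw [← hV, hP, hQ, ← hmapP x hx, ← hmapQ x hx, ← hPN, ← hQN]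
    simp [hx]
  -- `S` preserves `V`
  have hSV : ∀ s ∈ S, ∀ v : alternatingGroup (Fin 6), isV v → isV (Phi N θ s v) := by
    intro s hs v hv
    obtain ⟨x, rfl⟩ := θ.surjective v
    have h1 := (hPQ x x.2).2 hv
    have h2 := hS s hs x h1.1 h1.2
    rw [Phi_apply N θ s x (hN.conj_mem x x.2 s)]
    exact (hPQ _ _).1 h2
  -- the 3-cycle `(0 1 2)`
  let z : alternatingGroup (Fin 6) := ⟨swap 0 1 * swap 1 2, by
    rw [Perm.mem_alternatingGroup]; decide +kernel⟩
  have hz : (z : Perm (Fin 6)).IsThreeCycle := by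
    rw [← card_support_eq_three_iff]; decide +kernel
  have hz3 : z ^ 3 = 1 := by
    apply Subtype.ext
    have := hz.orderOf
    have h := pow_orderOf_eq_one (z : Perm (Fin 6))
    rw [this] at h
    exact h
  have hz1 : z ≠ 1 := fun h => hz.ne_one (congrArg Subtype.val h)
  have hSz : ∀ s ∈ S, (Phi N θ s z : Perm (Fin 6)).IsThreeCycle := by
    intro s hs
    apply isThreeCycle_of_norm
    · have : (Phi N θ s z) ^ 3 = 1 := by rw [← map_pow, hz3, map_one]
      exact congrArg Subtype.val this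
    · intro h
      apply hz1
      apply (Phi N θ s).injective
      rw [map_one]
      exact Subtype.ext h
    · intro v hv
      have hve : v ∈ alternatingGroup (Fin 6) := by
        rw [Perm.mem_alternatingGroup]
        rcases hv with rfl | rfl | rfl | rfl <;> decide +kernel
      have h1 : isV (Phi N θ s⁻¹ ⟨v, hve⟩) := hSV _ (inv_mem hs) ⟨v, hve⟩ hv
      have h2 : isV ((z : Perm (Fin 6)) * (Phi N θ s⁻¹ ⟨v, hve⟩ : Perm (Fin 6)) *
          (z : Perm (Fin 6))⁻¹) := three_norm _ h1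
      have h3 : isV (Phi N θ s (z * Phi N θ s⁻¹ ⟨v, hve⟩ * z⁻¹)) := hSV s hs _ h2
      have h4 : Phi N θ s (z * Phi N θ s⁻¹ ⟨v, hve⟩ * z⁻¹) =
          Phi N θ s z * ⟨v, hve⟩ * (Phi N θ s z)⁻¹ := by
        rw [map_mul, map_mul, map_inv, ← Phi_mul, mul_inv_cancel, Phi_one]
      rw [h4] at h3
      exact h3
  have hSall : ∀ s ∈ S, ∀ e : alternatingGroup (Fin 6), (e : Perm (Fin 6)).IsThreeCycle →
      (Phi N θ s e : Perm (Fin 6)).IsThreeCycle :=
    fun s hs e he => pres_of_one _ z e hz he (hSz s hs)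
  -- the subgroup `K₀`
  let K₀ : Subgroup K :=
    { carrier := {k | (Phi N θ k z : Perm (Fin 6)).IsThreeCycle}
      mul_mem' := by
        intro a b ha hb
        show (Phi N θ (a * b) z : Perm (Fin 6)).IsThreeCycle
        rw [Phi_mul]
        exact pres_of_one _ z _ hz hb ha
      one_mem' := by
        show (Phi N θ 1 z : Perm (Fin 6)).IsThreeCycle
        rw [Phi_one]; exact hz
      inv_mem' := by
        intro a ha
        show (Phi N θ a⁻¹ z : Perm (Fin 6)).IsThreeCycle
        by_contra hcon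
        -- `a⁻¹` exchanges the two classes; so does its inverse
        have h1 : ¬ (Phi N θ a⁻¹ (Phi N θ a z) : Perm (Fin 6)).IsThreeCycle := fun h =>
          hcon (pres_of_one _ (Phi N θ a z) z ha hz h)
        rw [← Phi_mul, inv_mul_cancel, Phi_one] at h1
        exact h1 hz }
  have hK₀ : K₀ = ⊤ := by
    by_contra hne
    obtain ⟨a, ha⟩ : ∃ a, a ∉ K₀ := by
      by_contra hcon
      push Not at hcon
      exact hne (eq_top_iff.2 fun x _ => hcon x)
    have hidx : K₀.index = 2 := by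
      rw [Subgroup.index_eq_two_iff]
      refine ⟨a, fun b => ?_⟩
      by_cases hb : b ∈ K₀
      · refine Or.inr ⟨hb, fun h => ha ?_⟩
        have := mul_mem (inv_mem hb) h
        rwa [inv_mul_cancel_left] at this
      · refine Or.inl ⟨?_, hb⟩
        show (Phi N θ (b * a) z : Perm (Fin 6)).IsThreeCycle
        rw [Phi_mul]
        exact comp_pres (Phi N θ b) (Phi N θ a) z z hz hz hb ha z hz
    have hle : (S : Subgroup K) ≤ K₀ := fun s hs => hSz s hs
    have hd : K₀.index ∣ (S : Subgroup K).index := Subgroup.index_dvd_of_le hle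
    rw [hidx] at hd
    exact S.not_dvd_index hd
  have hk : k ∈ K₀ := hK₀ ▸ Subgroup.mem_top k
  have := pres_of_one (Phi N θ k) z (θ c) hz hc hk
  rwa [Phi_apply N θ k c (hN.conj_mem c c.2 k)] at this

end Pool.Agent.Lib.MP_e3cc28_alA
end

section

/-! job AF07a: permutation groups with two blocks which can be exchanged. -/

set_option autoImplicit false

namespace Pool.Agent.Lib.MP_e3cc28_alA

open Subgroup Equiv

variable {Ω : Type} [Fintype Ω] [DecidableEq Ω]

/-- The permutations which preserve the classes `0, 1, 2`, or exchange the classes `0` and `1` and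
preserve the class `2`. -/
def blk (cls : Ω → Fin 3) : Subgroup (Perm Ω) where
  carrier := {p | (∀ a, cls (p a) = cls a) ∨ ∀ a, cls (p a) = swap 0 1 (cls a)}
  one_mem' := Or.inl fun a => rfl
  mul_mem' := by
    rintro p q (hp | hp) (hq | hq)
    · exact Or.inl fun a => by rw [Perm.mul_apply, hp, hq]
    · exact Or.inr fun a => by rw [Perm.mul_apply, hp, hq]
    · exact Or.inr fun a => by rw [Perm.mul_apply, hp, hq]
    · exact Or.inl fun a => by rw [Perm.mul_apply, hp, hq, swap_apply_self]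
  inv_mem' := by
    rintro p (hp | hp)
    · refine Or.inl fun a => ?_
      have := hp (p⁻¹ a)
      rw [← Perm.mul_apply, mul_inv_cancel, Perm.one_apply] at this
      exact this.symm
    · refine Or.inr fun a => ?_
      have := hp (p⁻¹ a)
      rw [← Perm.mul_apply, mul_inv_cancel, Perm.one_apply] at this
      rw [this, swap_apply_self]

/-- The basic contradiction for permutation groups.

Proof. `W = blk cls ∩ G` has `(∗)` (`StarIn.of_odd`). `x` and `y` are involutions and `y` commutes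
with `x y x⁻¹` (they act on different blocks, and in the same way on the class `2`), so
`⟨x, y⟩` is a 2-group (`{1, y, y', y y'}` with `y' = x y x⁻¹` is normalised by `x`); let `P` be a
Sylow 2-subgroup of `W` which contains it. Apply `swap_contra` with `E` = the elements of `W` which
fix all points of the class `1`, `C` = the elements of `W` which preserve the classes. (`xEx⁻¹`
fixes all points of the class `0`, so it commutes with `g`.) `g⁻¹ y g ∉ P` because otherwise `P`
contains the element `y (g⁻¹ y g)` of order 3. -/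
theorem fail_core (cls : Ω → Fin 3) (G : Subgroup (Perm Ω)) (hG : StarIn G)
    (hodd : ¬ 2 ∣ (blk cls ⊓ G).relIndex G) (x y g : Perm Ω) (hxG : x ∈ G) (hyG : y ∈ G)
    (hgG : g ∈ G) (hx : ∀ a, cls (x a) = swap 0 1 (cls a)) (hx2 : x * x = 1)
    (hxb : ∀ a, cls a = 2 → x a = a) (hy : ∀ a, cls (y a) = cls a)
    (hy1 : ∀ a, cls a = 1 → y a = a) (hy2 : y * y = 1) (hg : ∀ a, cls (g a) = cls a)
    (hg0 : ∀ a, cls a ≠ 0 → g a = a) (h3 : (y * (g⁻¹ * y * g)) ^ 3 = 1)
    (h1 : y * (g⁻¹ * y * g) ≠ 1) : False := by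
  have hxx : ∀ a, x (x a) = a := fun a => by
    rw [← Perm.mul_apply, hx2, Perm.one_apply]
  have hxi : x⁻¹ = x := inv_eq_of_mul_eq_one_left hx2
  have hW : StarIn (blk cls ⊓ G) := StarIn.of_odd hG inf_le_right hodd
  have hxW : x ∈ blk cls ⊓ G := ⟨Or.inr hx, hxG⟩
  have hyW : y ∈ blk cls ⊓ G := ⟨Or.inl hy, hyG⟩
  have hgW : g ∈ blk cls ⊓ G := ⟨Or.inl hg, hgG⟩
  -- the class of `x a`
  have hx0 : ∀ a, cls a = 0 → cls (x a) = 1 := fun a ha => by rw [hx, ha, swap_apply_left]
  have hx1 : ∀ a, cls a = 1 → cls (x a) = 0 := fun a ha => by rw [hx, ha, swap_apply_right]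
  have h012 : ∀ a, cls a = 0 ∨ cls a = 1 ∨ cls a = 2 := by
    intro a
    generalize cls a = c
    fin_cases c <;> simp
  have hy'0 : ∀ a, cls a = 0 → (x * y * x) a = a := fun a ha => by
    rw [Perm.mul_apply, Perm.mul_apply, hy1 _ (hx0 a ha), hxx]
  have hy'2 : ∀ a, cls a = 2 → (x * y * x) a = y a := fun a ha => by
    rw [Perm.mul_apply, Perm.mul_apply, hxb a ha, hxb _ ((hy a).trans ha)]
  have hy'c : ∀ a, cls a = 1 → cls ((x * y * x) a) = 1 := fun a ha => by
    rw [Perm.mul_apply, Perm.mul_apply]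
    exact hx0 _ ((hy _).trans (hx1 a ha))
  have hcom : y * (x * y * x) = (x * y * x) * y := by
    ext a
    rw [Perm.mul_apply, Perm.mul_apply (x * y * x) y]
    rcases h012 a with ha | ha | ha
    · rw [hy'0 a ha, hy'0 _ ((hy a).trans ha)]
    · rw [hy1 a ha, hy1 _ (hy'c a ha)]
    · rw [hy'2 a ha, hy'2 _ ((hy a).trans ha)]
  have hy'2' : (x * y * x) * (x * y * x) = 1 := by
    calc (x * y * x) * (x * y * x) = x * y * (x * x) * y * x := by group
      _ = x * (y * y) * x := by rw [hx2]; group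
      _ = 1 := by rw [hy2, mul_one, hx2]
  have hinv : ∀ z : Perm Ω, z * z = 1 → IsPGroup 2 (Subgroup.zpowers z) := by
    intro z hz
    rintro ⟨w, hw⟩
    obtain ⟨n, rfl⟩ := Subgroup.mem_zpowers_iff.mp hw
    refine ⟨1, Subtype.ext ?_⟩
    change (z ^ n) ^ (2 ^ 1) = 1
    rw [pow_one, ← zpow_natCast, ← zpow_mul, mul_comm, zpow_mul]
    have : z ^ ((2 : ℕ) : ℤ) = 1 := by rw [zpow_natCast, pow_two, hz]
    rw [this, one_zpow]
  have hA : IsPGroup 2 ((Subgroup.zpowers y ⊔ Subgroup.zpowers (x * y * x) : Subgroup (Perm Ω))) := by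
    refine IsPGroup.to_sup_of_normal_right' (hinv y hy2) (hinv _ hy'2') ?_
    rw [Subgroup.zpowers_le, Subgroup.mem_normalizer_iff]
    intro h
    have key : ∀ h ∈ Subgroup.zpowers (x * y * x), y * h * y⁻¹ = h := by
      intro h hh
      obtain ⟨n, rfl⟩ := Subgroup.mem_zpowers_iff.mp hh
      have h5 : Commute y ((x * y * x) ^ n) := (show Commute y (x * y * x) from hcom).zpow_right n
      rw [h5.eq, mul_inv_cancel_right]
    constructor
    · intro hh
      rw [key h hh]
      exact hh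
    · intro hh
      have h5 := key _ hh
      have h6 : y * h * y⁻¹ = h := by
        have : y * (y * h * y⁻¹) * y⁻¹ = (y * y) * h * (y * y)⁻¹ := by group
        rw [this, hy2, one_mul, inv_one, mul_one] at h5
        exact h5.symm
      rw [h6] at hh
      exact hh
  have hU : IsPGroup 2 ((Subgroup.zpowers x ⊔
      (Subgroup.zpowers y ⊔ Subgroup.zpowers (x * y * x)) : Subgroup (Perm Ω))) := by
    refine IsPGroup.to_sup_of_normal_right' (hinv x hx2) hA ?_
    rw [Subgroup.zpowers_le, Subgroup.mem_normalizer_iff]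
    have key : ∀ h ∈ Subgroup.zpowers y ⊔ Subgroup.zpowers (x * y * x),
        x * h * x⁻¹ ∈ Subgroup.zpowers y ⊔ Subgroup.zpowers (x * y * x) := by
      have hle : Subgroup.zpowers y ⊔ Subgroup.zpowers (x * y * x) ≤
          (Subgroup.zpowers y ⊔ Subgroup.zpowers (x * y * x)).comap
            (MulAut.conj x).toMonoidHom := by
        refine sup_le ?_ ?_
        · rw [Subgroup.zpowers_le, Subgroup.mem_comap]
          refine Subgroup.mem_sup_right ?_
          have : (MulAut.conj x).toMonoidHom y = x * y * x := by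
            change x * y * x⁻¹ = _
            rw [hxi]
          rw [this]
          exact Subgroup.mem_zpowers _
        · rw [Subgroup.zpowers_le, Subgroup.mem_comap]
          refine Subgroup.mem_sup_left ?_
          have : (MulAut.conj x).toMonoidHom (x * y * x) = y := by
            change x * (x * y * x) * x⁻¹ = _
            rw [hxi]
            calc x * (x * y * x) * x = (x * x) * y * (x * x) := by group
              _ = y := by rw [hx2, one_mul, mul_one]
          rw [this]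
          exact Subgroup.mem_zpowers _
      intro h hh
      exact hle hh
    intro h
    refine ⟨key h, fun hh => ?_⟩
    have h5 := key _ hh
    have : x * (x * h * x⁻¹) * x⁻¹ = (x * x) * h * (x * x)⁻¹ := by group
    rw [this, hx2, one_mul, inv_one, mul_one] at h5
    exact h5
  have hy'W : x * y * x ∈ blk cls ⊓ G :=
    (blk cls ⊓ G).mul_mem ((blk cls ⊓ G).mul_mem hxW hyW) hxW
  obtain ⟨P, hP, hUP⟩ := exists_sylIn_le (blk cls ⊓ G) _ hU
    (sup_le ((Subgroup.zpowers_le).mpr hxW)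
      (sup_le ((Subgroup.zpowers_le).mpr hyW) ((Subgroup.zpowers_le).mpr hy'W)))
  have hxP : x ∈ P := hUP (Subgroup.mem_sup_left (Subgroup.mem_zpowers x))
  have hyP : y ∈ P :=
    hUP (Subgroup.mem_sup_right (Subgroup.mem_sup_left (Subgroup.mem_zpowers y)))
  let E : Subgroup (Perm Ω) :=
    { carrier := {e | e ∈ blk cls ⊓ G ∧ ∀ a, cls a = 1 → e a = a}
      one_mem' := ⟨one_mem _, fun a _ => rfl⟩
      mul_mem' := by
        rintro e f ⟨he, he'⟩ ⟨hf, hf'⟩
        exact ⟨mul_mem he hf, fun a ha => by rw [Perm.mul_apply, hf' a ha, he' a ha]⟩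
      inv_mem' := by
        rintro e ⟨he, he'⟩
        refine ⟨inv_mem he, fun a ha => ?_⟩
        rw [Perm.inv_eq_iff_eq]
        exact (he' a ha).symm }
  let C : Subgroup (Perm Ω) :=
    { carrier := {c | c ∈ blk cls ⊓ G ∧ ∀ a, cls (c a) = cls a}
      one_mem' := ⟨one_mem _, fun a => rfl⟩
      mul_mem' := by
        rintro e f ⟨he, he'⟩ ⟨hf, hf'⟩
        exact ⟨mul_mem he hf, fun a => by rw [Perm.mul_apply, he', hf']⟩
      inv_mem' := by
        rintro e ⟨he, he'⟩
        refine ⟨inv_mem he, fun a => ?_⟩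
        have := he' (e⁻¹ a)
        rw [← Perm.mul_apply, mul_inv_cancel, Perm.one_apply] at this
        exact this.symm }
  have hEm : ∀ e, e ∈ E ↔ e ∈ blk cls ⊓ G ∧ ∀ a, cls a = 1 → e a = a := fun e => Iff.rfl
  have hCm : ∀ c, c ∈ C ↔ c ∈ blk cls ⊓ G ∧ ∀ a, cls (c a) = cls a := fun c => Iff.rfl
  refine swap_contra hW hP E C (fun c hc => hc.1) ?_ ?_ hxP (g := g) ⟨hgW, hg⟩ hyP
    ⟨hyW, hy1⟩ ?_ ?_
  · intro w hw c hc
    rw [hCm] at hc ⊢
    refine ⟨mul_mem (mul_mem hw hc.1) (inv_mem hw), fun a => ?_⟩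
    have h5 : w (w⁻¹ a) = a := by rw [← Perm.mul_apply, mul_inv_cancel, Perm.one_apply]
    rw [Perm.mul_apply, Perm.mul_apply]
    rcases hw.1 with h6 | h6
    · rw [h6, hc.2]
      conv_rhs => rw [← h5]
      exact (h6 _).symm
    · rw [h6, hc.2]
      conv_rhs => rw [← h5]
      exact (h6 _).symm
  · intro c hc e he
    rw [hCm] at hc
    rw [hEm] at he ⊢
    refine ⟨mul_mem (mul_mem hc.1 he.1) (inv_mem hc.1), fun a ha => ?_⟩
    have h5 : c (c⁻¹ a) = a := by rw [← Perm.mul_apply, mul_inv_cancel, Perm.one_apply]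
    have h6 : cls (c⁻¹ a) = 1 := by
      rw [← ha]
      conv_rhs => rw [← h5]
      exact (hc.2 _).symm
    rw [Perm.mul_apply, Perm.mul_apply, he.2 _ h6, h5]
  · intro hgP
    have hz : y * (g⁻¹ * y * g) ∈ P := mul_mem hyP hgP
    obtain ⟨n, hn⟩ := hP.2.1 ⟨_, hz⟩
    have hn' : (y * (g⁻¹ * y * g)) ^ (2 ^ n) = 1 := congrArg Subtype.val hn
    apply h1
    have hc : Nat.Coprime 3 (2 ^ n) := Nat.Coprime.pow_right n (by norm_num)
    have h6 : orderOf (y * (g⁻¹ * y * g)) ∣ Nat.gcd 3 (2 ^ n) :=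
      Nat.dvd_gcd (orderOf_dvd_of_pow_eq_one h3) (orderOf_dvd_of_pow_eq_one hn')
    rw [hc] at h6
    exact orderOf_eq_one_iff.mp (Nat.dvd_one.mp h6)
  · intro e heP heE
    rw [hEm] at heE
    have he0 : ∀ a, cls a = 0 → e a = a := by
      intro a ha
      have h5 := heE.2 (x a) (hx0 a ha)
      rw [Perm.mul_apply, Perm.mul_apply, hxx, hxi] at h5
      exact x.injective h5
    ext a
    rw [Perm.mul_apply, Perm.mul_apply]
    by_cases ha : cls a = 0
    · rw [he0 a ha, he0 (g a) ((hg a).trans ha)]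
    · rw [hg0 a ha]
      refine hg0 _ fun h5 => ha ?_
      have h6 := he0 _ h5
      have h7 := e.injective h6
      rwa [h7] at h5

end Pool.Agent.Lib.MP_e3cc28_alA
end

section

/-! job AH04: normal subgroups of type `NoOuter`; `Weak` is inherited by normal subgroups; direct
factors; Cayley. -/

set_option autoImplicit false

namespace Pool.Agent.Lib.MP_e3cc28_alH

open Subgroup Equiv
open Pool.Agent.Lib.MP_e3cc28_al (Star')
open Pool.Agent.Lib.MP_e3cc28_alA

universe u

section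

variable {K : Type u} [Group K] [Finite K]

/-- Proof. Let `C` be the centraliser of `N`. It is enough to show that every Sylow 2-subgroup `P`
of `K` is contained in `NC = N ⊔ C`. For `x ∈ P` the conjugation with `x` is an automorphism of `N`
of 2-power order (`MulAut.conjNormal`), so it is the conjugation with some `a ∈ N`, and
`a⁻¹ x ∈ C`. -/
theorem split_of_noOuter (hgen : O2' K = ⊤) {N : Subgroup K} (hN : N.Normal)
    (h : NoOuter N) (k : K) :
    ∃ n ∈ N, ∃ c : K, (∀ x ∈ N, c * x = x * c) ∧ k = n * c := by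
  haveI := hN
  have hle : O2' K ≤ N ⊔ Subgroup.centralizer (N : Set K) := by
    refine iSup_le fun P => ?_
    intro x hx
    obtain ⟨m, hm⟩ := P.isPGroup' ⟨x, hx⟩
    have hm' : x ^ 2 ^ m = 1 := congrArg Subtype.val hm
    have hφ : (MulAut.conjNormal x : MulAut N) ^ 2 ^ m = 1 := by
      rw [← map_pow, hm', map_one]
    obtain ⟨a, ha⟩ := h _ ⟨m, hφ⟩
    have key : ∀ y ∈ N, x * y * x⁻¹ = a * y * (a : K)⁻¹ := by
      intro y hy
      have h1 := congrArg (fun φ : MulAut N => ((φ ⟨y, hy⟩ : N) : K)) ha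
      simpa [MulAut.conjNormal_apply, MulAut.conj_apply] using h1
    have hc : (a : K)⁻¹ * x ∈ Subgroup.centralizer (N : Set K) := by
      rw [Subgroup.mem_centralizer_iff]
      intro y hy
      have h1 := key y hy
      have h2 : x * y = a * y * (a : K)⁻¹ * x := by
        rw [← h1]; group
      calc y * ((a : K)⁻¹ * x) = (a : K)⁻¹ * (a * y * (a : K)⁻¹ * x) := by group
        _ = (a : K)⁻¹ * (x * y) := by rw [h2]
        _ = (a : K)⁻¹ * x * y := by group
    have hx2 : x = (a : K) * ((a : K)⁻¹ * x) := by group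
    rw [hx2]
    exact Subgroup.mul_mem_sup a.2 hc
  have hk : k ∈ N ⊔ Subgroup.centralizer (N : Set K) := by
    apply hle
    rw [hgen]
    exact Subgroup.mem_top k
  rw [Subgroup.mem_sup_of_normal_left] at hk
  obtain ⟨n, hn, c, hc, hnc⟩ := hk
  refine ⟨n, hn, c, ?_, hnc.symm⟩
  intro x hx
  rw [Subgroup.mem_centralizer_iff] at hc
  exact (hc x hx).symm

/-- Proof. Let `P₀`, `Q₀` be Sylow 2-subgroups of `N`, `P`, `Q` Sylow 2-subgroups of `K` with
`P ∩ N = P₀`, `Q ∩ N = Q₀` (`exists_sylIn_inf`) and `S` a Sylow 2-subgroup of `K` which contains and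
normalises `P ∩ Q`. Then `S ∩ N` is a Sylow 2-subgroup of `N` which contains and normalises
`P ∩ Q ∩ N = P₀ ∩ Q₀`. -/
theorem weak_normal (hstar : Star' K) {N : Subgroup K} (hN : N.Normal) : Weak N := by
  intro P₀ Q₀
  have hn : ∀ h ∈ (⊤ : Subgroup K), ∀ x ∈ N, h * x * h⁻¹ ∈ N :=
    fun h _ x hx => hN.conj_mem x hx h
  obtain ⟨P, hP, hPN⟩ := exists_sylIn_inf (le_top) (sylIn_map N P₀) hn
  obtain ⟨Q, hQ, hQN⟩ := exists_sylIn_inf (le_top) (sylIn_map N Q₀) hn
  obtain ⟨S, hS, hSle, hSmem, hSconj⟩ := (starIn_top_iff.2 hstar) P Q hP hQ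
  have key : ∀ (R : Sylow 2 N) (x : N), x.1 ∈ (R : Subgroup N).map N.subtype ↔ x ∈ R := by
    intro R x
    constructor
    · rintro ⟨y, hy, hyx⟩
      have : y = x := Subtype.ext hyx
      rwa [← this]
    · intro hx
      exact ⟨x, hx, rfl⟩
  have keyP : ∀ x : N, x ∈ P₀ ↔ x.1 ∈ P := by
    intro x
    rw [← key P₀ x, ← hPN]
    exact ⟨fun h => h.1, fun h => ⟨h, x.2⟩⟩
  have keyQ : ∀ x : N, x ∈ Q₀ ↔ x.1 ∈ Q := by
    intro x
    rw [← key Q₀ x, ← hQN]
    exact ⟨fun h => h.1, fun h => ⟨h, x.2⟩⟩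
  obtain ⟨_, S', hS'⟩ := sylIn_iff.1 (hS.inf le_top hn)
  have keyS : ∀ x : N, x ∈ S' ↔ x.1 ∈ S := by
    intro x
    have h1 : x ∈ (S' : Subgroup N) ↔ x ∈ (S ⊓ N).subgroupOf N := by rw [hS']
    have h2 : x ∈ (S ⊓ N).subgroupOf N ↔ x.1 ∈ S ⊓ N := Subgroup.mem_subgroupOf
    exact (h1.trans h2).trans ⟨fun h => h.1, fun h => ⟨h, x.2⟩⟩
  refine ⟨S', ?_, ?_⟩
  · intro x hxP hxQ
    exact (keyS x).2 (hSmem x.1 ((keyP x).1 hxP) ((keyQ x).1 hxQ))
  · intro s hs d hdP hdQ
    have h1 := hSconj s.1 ((keyS s).1 hs) d.1 ((keyP d).1 hdP) ((keyQ d).1 hdQ)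
    exact ⟨(keyP (s * d * s⁻¹)).2 h1.1, (keyQ (s * d * s⁻¹)).2 h1.2⟩

end

/-- the projection onto a direct factor with trivial centre -/
theorem exists_proj {K : Type u} [Group K] {N : Subgroup K} (hN : N.Normal)
    (hz : ∀ x ∈ N, (∀ y ∈ N, x * y = y * x) → x = 1)
    (h : ∀ k : K, ∃ n ∈ N, ∃ c : K, (∀ x ∈ N, c * x = x * c) ∧ k = n * c) :
    ∃ f : K →* N, (∀ x : N, f x = x) ∧ ∀ k, f k = 1 ↔ ∀ x ∈ N, k * x = x * k := by
  choose n hn c hc hnc using h
  have uniq : ∀ k : K, ∀ m ∈ N, ∀ d : K, (∀ x ∈ N, d * x = x * d) → k = m * d → n k = m := by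
    intro k m hm d hd hk
    have h1 : m⁻¹ * n k ∈ N := mul_mem (inv_mem hm) (hn k)
    have h2 : m⁻¹ * n k = d * (c k)⁻¹ := by
      have h3 : n k * c k = m * d := (hnc k).symm.trans hk
      calc m⁻¹ * n k = m⁻¹ * (n k * c k) * (c k)⁻¹ := by group
        _ = m⁻¹ * (m * d) * (c k)⁻¹ := by rw [h3]
        _ = d * (c k)⁻¹ := by group
    have h4 : m⁻¹ * n k = 1 := by
      refine hz _ h1 ?_
      intro y hy
      rw [h2]
      have e1 : (c k)⁻¹ * y = y * (c k)⁻¹ := by
        have h5 := hc k y hy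
        calc (c k)⁻¹ * y = (c k)⁻¹ * (y * c k) * (c k)⁻¹ := by group
          _ = (c k)⁻¹ * (c k * y) * (c k)⁻¹ := by rw [h5]
          _ = y * (c k)⁻¹ := by group
      calc d * (c k)⁻¹ * y = d * ((c k)⁻¹ * y) := by group
        _ = d * (y * (c k)⁻¹) := by rw [e1]
        _ = d * y * (c k)⁻¹ := by group
        _ = y * d * (c k)⁻¹ := by rw [hd y hy]
        _ = y * (d * (c k)⁻¹) := by group
    exact (inv_mul_eq_one.1 h4).symm
  refine ⟨{ toFun := fun k => ⟨n k, hn k⟩, map_one' := ?_, map_mul' := ?_ }, ?_, ?_⟩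
  · exact Subtype.ext (uniq 1 1 (one_mem N) 1 (by intro x _; rw [one_mul, mul_one])
      (by rw [one_mul]))
  · intro k l
    refine Subtype.ext (uniq (k * l) (n k * n l) (mul_mem (hn k) (hn l)) (c k * c l) ?_ ?_)
    · intro x hx
      calc c k * c l * x = c k * (c l * x) := by group
        _ = c k * (x * c l) := by rw [hc l x hx]
        _ = (c k * x) * c l := by group
        _ = (x * c k) * c l := by rw [hc k x hx]
        _ = x * (c k * c l) := by group
    · calc k * l = (n k * c k) * (n l * c l) := by rw [← hnc k, ← hnc l]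
        _ = n k * (c k * n l) * c l := by group
        _ = n k * (n l * c k) * c l := by rw [hc k (n l) (hn l)]
        _ = n k * n l * (c k * c l) := by group
  · intro x
    refine Subtype.ext (uniq x x x.2 1 ?_ ?_)
    · intro y _
      rw [one_mul, mul_one]
    · rw [mul_one]
  · intro k
    constructor
    · intro h1 x hx
      have h2 : n k = 1 := congrArg Subtype.val h1
      have h3 : k = c k := by
        have h4 := hnc k
        rw [h2, one_mul] at h4
        exact h4
      rw [h3]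
      exact hc k x hx
    · intro h1
      exact Subtype.ext (uniq k 1 (one_mem N) k h1 (by rw [one_mul]))

/-- Cayley's theorem (`MulAction.toPermHom`, `Finite.equivFin`, `Equiv.permCongrHom`). -/
theorem exists_perm_model (X : Type u) [Group X] [Finite X] :
    ∃ (m : ℕ) (L : Subgroup (Perm (Fin m))), Nonempty (X ≃* L) := by
  let e : X ≃ Fin (Nat.card X) := Finite.equivFin X
  let f : X →* Perm (Fin (Nat.card X)) :=
    (e.permCongrHom.toMonoidHom).comp (MulAction.toPermHom X X)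
  have hf : Function.Injective f := by
    refine (e.permCongrHom.injective).comp ?_
    exact MulAction.toPerm_injective
  exact ⟨Nat.card X, f.range, ⟨f.ofInjective hf⟩⟩

end Pool.Agent.Lib.MP_e3cc28_alH
end

section

/-!
# MP_e3cc28, the condition on outer automorphisms of 2-power order
-/

set_option autoImplicit false

namespace Pool.Agent.Lib.MP_e3cc28_alI

open Subgroup Equiv
open Pool.Agent.Lib.MP_e3cc28_al (Star')
open Pool.Agent.Lib.MP_e3cc28_alA
open Pool.Agent.Lib.MP_e3cc28_alH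

universe u v

/-- For every automorphism `φ` of `X` of 2-power order which is not inner there is an inner
automorphism such that the product `ψ` of the two has 2-power order, preserves two Sylow
2-subgroups `T`, `U` with `T ∩ U = 1`, and centralises no Sylow 2-subgroup. -/
def Outer (X : Type u) [Group X] : Prop :=
  ∀ φ : MulAut X, (∃ k : ℕ, φ ^ 2 ^ k = 1) → (∀ a : X, φ ≠ MulAut.conj a) →
    ∃ (a : X) (T U : Sylow 2 X), (∃ k : ℕ, (MulAut.conj a * φ) ^ 2 ^ k = 1) ∧
      (∀ x, x ∈ T → x ∈ U → x = 1) ∧ (∀ x ∈ T, (MulAut.conj a * φ) x ∈ T) ∧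
      (∀ x ∈ U, (MulAut.conj a * φ) x ∈ U) ∧ ∀ V : Sylow 2 X, ∃ v ∈ V, (MulAut.conj a * φ) v ≠ v

/-- the simple groups which are treated -/
def Listed2 (X : Type u) [Group X] : Prop :=
  (∃ n, 5 ≤ n ∧ Nonempty (X ≃* alternatingGroup (Fin n))) ∨ Bender X ∨
    (2 ∣ Nat.card X ∧ Outer X) ∨ ¬ Weak X

/-- every nonabelian composition factor of `G` is `Listed2` -/
def ListedFactors2 (G : Type u) [Group G] : Prop :=
  ∀ (A B : Subgroup G) [(B.subgroupOf A).Normal], A.IsSubnormal → B ≤ A →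
    IsSimpleGroup (A ⧸ B.subgroupOf A) → (∃ x y : A ⧸ B.subgroupOf A, x * y ≠ y * x) →
    Listed2 (A ⧸ B.subgroupOf A)

/-- every nonabelian simple subnormal subgroup is `Listed2` -/
def ListedSub2 (G : Type u) [Group G] : Prop :=
  ∀ L : Subgroup G, L.IsSubnormal → IsSimpleGroup L → (∃ x ∈ L, ∃ y ∈ L, x * y ≠ y * x) →
    Listed2 L

end Pool.Agent.Lib.MP_e3cc28_alI
end
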