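import Pool.Agent.Lib.MP_e3cc28_alA.AF02
import Pool.Agent.Lib.MP_e3cc28_alA.AH03
import Pool.Agent.Lib.MP_e3cc28_alA.AI00
import Pool.Agent.Lib.MP_e3cc28_alA.AF07c
import Pool.Agent.Lib.MP_e3cc28_alA.AF07d

/-! job AF11: a normal subgroup `Alt(n)` of a group with `(∗)` has degree 5 or 6. -/

set_option autoImplicit false

namespace Pool.Agent.Lib.MP_e3cc28_alA

open Subgroup Equiv
open Pool.Agent.Lib.MP_e3cc28_al (Star' not_star_S5)

universe u

theorem not_star_perm {n : ℕ} (hn : 5 ≤ n) (h6 : n ≠ 6) : ¬ Star' (Perm (Fin n)) := by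
  rcases Nat.lt_or_ge n 8 with h | h
  · obtain rfl | rfl : n = 5 ∨ n = 7 := by omega
    · exact not_star_S5
    · exact not_star_perm_seven
  · exact not_star_perm_big n h

theorem not_star_alt {n : ℕ} (hn : 7 ≤ n) : ¬ Star' (alternatingGroup (Fin n)) := by
  rcases Nat.lt_or_ge n 10 with h | h
  · obtain rfl | rfl | rfl : n = 7 ∨ n = 8 ∨ n = 9 := by omega
    · exact not_star_alt_seven
    · exact not_star_alt_eight
    · exact fun h9 => not_star_alt_eight (star_alt_eight_of_nine h9)
  · exact not_star_alt_big n h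

theorem eq_alt_or_top' {n : ℕ} {G : Subgroup (Perm (Fin n))}
    (hG : alternatingGroup (Fin n) ≤ G) : G = alternatingGroup (Fin n) ∨ G = ⊤ := by
  rcases Nat.lt_or_ge n 2 with h | h
  · right
    have : Subsingleton (Fin n) := by
      rcases (by omega : n = 0 ∨ n = 1) with rfl | rfl <;> infer_instance
    have : Subsingleton (Perm (Fin n)) := inferInstance
    exact Subsingleton.elim _ _
  · have : Nontrivial (Fin n) := Fin.nontrivial_iff_two_le.mpr h
    have h1 : (alternatingGroup (Fin n)).index = 2 := alternatingGroup.index_eq_two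
    have h2 := Subgroup.relIndex_mul_index hG
    rw [h1] at h2
    have h3 : G.index ∣ 2 := ⟨_, by rw [mul_comm]; exact h2.symm⟩
    rcases (Nat.dvd_prime Nat.prime_two).mp h3 with h4 | h4
    · right
      exact Subgroup.index_eq_one.mp h4
    · left
      rw [h4] at h2
      have h5 : (alternatingGroup (Fin n)).relIndex G = 1 := by omega
      exact le_antisymm (Subgroup.relIndex_eq_one.mp h5) hG

/-- Proof. `three_pres` (`n ≠ 6`) or `three_pres_six` (`n = 6`) and `exists_hom` give `ψ`. The range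
of `ψ` contains `Alt(n)`, so it is `Alt(n)` or `Sym(n)`, and it has `(∗)` (`star_range`). -/
theorem comp_hom {K : Type u} [Group K] [Finite K] (hK : Star' K) (N : Subgroup K)
    (hN : N.Normal) {n : ℕ} (hn : 5 ≤ n) (θ : N ≃* alternatingGroup (Fin n)) :
    (n = 5 ∨ n = 6) ∧ ∃ ψ : K →* Perm (Fin n), (∀ x : N, ψ x = θ x) ∧
      (∀ k, ψ k = 1 ↔ ∀ x ∈ N, k * x = x * k) ∧
      (n = 5 → ∀ k, ψ k ∈ alternatingGroup (Fin n)) := by
  have h3 : ∀ (k : K) (c : N), (θ c : Perm (Fin n)).IsThreeCycle →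
      (θ ⟨k * c * k⁻¹, hN.conj_mem c c.2 k⟩ : Perm (Fin n)).IsThreeCycle := by
    intro k c hc
    by_cases h6 : n = 6
    · subst h6
      exact three_pres_six hK N hN θ k c hc
    · have h4 := three_pres (by simpa using hn) (by simpa using h6)
        (θ.symm.trans ((MulAut.conjNormal k : MulAut N).trans θ)) (θ c) hc
      have h5 : (θ.symm.trans ((MulAut.conjNormal k : MulAut N).trans θ)) (θ c) =
          θ ⟨k * c * k⁻¹, hN.conj_mem c c.2 k⟩ := by
        rw [MulEquiv.trans_apply, MulEquiv.trans_apply, MulEquiv.symm_apply_apply]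
        exact congrArg θ (Subtype.ext (MulAut.conjNormal_apply k c))
      rw [h5] at h4
      exact h4
  obtain ⟨ψ, h1, h2⟩ := exists_hom (by simpa using hn) N hN θ h3
  have hle : alternatingGroup (Fin n) ≤ ψ.range := by
    intro y hy
    refine ⟨(θ.symm ⟨y, hy⟩ : N), ?_⟩
    rw [h1, MulEquiv.apply_symm_apply]
  have hs : Star' ψ.range := star_range ψ hK
  rcases eq_alt_or_top' hle with h4 | h4
  · rw [h4] at hs
    have h5 : n = 5 ∨ n = 6 := by
      by_contra hne
      exact not_star_alt (by omega) hs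
    refine ⟨h5, ψ, h1, h2, fun _ k => ?_⟩
    rw [← h4]
    exact ⟨k, rfl⟩
  · rw [h4] at hs
    have h5 : n = 6 := by
      by_contra hne
      exact not_star_perm hn hne ((star_equiv Subgroup.topEquiv).mp hs)
    refine ⟨Or.inr h5, ψ, h1, h2, fun h => ?_⟩
    omega

end Pool.Agent.Lib.MP_e3cc28_alA
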