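import Mathlib

/-! job AF12: embedding in a product of two families. -/

set_option autoImplicit false

namespace Pool.Agent.Lib.MP_e3cc28_alA

open Subgroup Equiv

universe u

/-- Proof. Choose `Fin a ≃ ι`, `Fin b ≃ κ` (`Finite.equivFin`), and let `F` be the homomorphism
`x ↦ ((f_i x)_i, (g_j x)_j)`, `K'` its range (`MonoidHom.ofInjective`). By `hf` and `hg` the range
contains all elements with one nontrivial component (in `Alt(6)` in the second case), hence all
products of these (e.g. `Subgroup.pi_mem_of_mulSingle_mem`, or induction over a `Finset`). -/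
theorem embed_of_homs {K : Type u} [Group K] {ι κ : Type u} [Finite ι] [Finite κ]
    (f : ι → K →* alternatingGroup (Fin 5)) (g : κ → K →* Perm (Fin 6))
    (hinj : ∀ x, (∀ i, f i x = 1) → (∀ j, g j x = 1) → x = 1)
    (hf : ∀ i c, ∃ x, f i x = c ∧ (∀ i', i' ≠ i → f i' x = 1) ∧ ∀ j, g j x = 1)
    (hg : ∀ j, ∀ c ∈ alternatingGroup (Fin 6),
      ∃ x, g j x = c ∧ (∀ j', j' ≠ j → g j' x = 1) ∧ ∀ i, f i x = 1) :
    ∃ a b : ℕ, ∃ K' : Subgroup ((Fin a → alternatingGroup (Fin 5)) × (Fin b → Perm (Fin 6))),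
      (∀ x, (∀ j, x.2 j ∈ alternatingGroup (Fin 6)) → x ∈ K') ∧ Nonempty (K ≃* K') := by
  classical
  obtain ⟨a, ⟨ea⟩⟩ := Finite.exists_equiv_fin ι
  obtain ⟨b, ⟨eb⟩⟩ := Finite.exists_equiv_fin κ
  let F1 : K →* (Fin a → alternatingGroup (Fin 5)) := MonoidHom.pi fun i => f (ea.symm i)
  let F2 : K →* (Fin b → Perm (Fin 6)) := MonoidHom.pi fun j => g (eb.symm j)
  let F : K →* (Fin a → alternatingGroup (Fin 5)) × (Fin b → Perm (Fin 6)) := F1.prod F2
  have hF1 : ∀ x i, (F x).1 i = f (ea.symm i) x := fun _ _ => rfl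
  have hF2 : ∀ x j, (F x).2 j = g (eb.symm j) x := fun _ _ => rfl
  have hFinj : Function.Injective F := by
    rw [injective_iff_map_eq_one]
    intro x hx
    refine hinj x (fun i => ?_) (fun j => ?_)
    · have h1 := hF1 x (ea i)
      rw [Equiv.symm_apply_apply, hx] at h1
      exact h1.symm
    · have h1 := hF2 x (eb j)
      rw [Equiv.symm_apply_apply, hx] at h1
      exact h1.symm
  have hA : ∀ y : Fin a → alternatingGroup (Fin 5),
      y ∈ F.range.comap (MonoidHom.inl (Fin a → alternatingGroup (Fin 5))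
        (Fin b → Perm (Fin 6))) := by
    intro y
    refine Subgroup.pi_mem_of_mulSingle_mem y fun i => ?_
    obtain ⟨x, h1, h2, h3⟩ := hf (ea.symm i) (y i)
    rw [Subgroup.mem_comap, MonoidHom.mem_range]
    refine ⟨x, Prod.ext (funext fun k => ?_) (funext fun j => ?_)⟩
    · rw [hF1]
      change f (ea.symm k) x =
        (Pi.mulSingle i (y i) : Fin a → alternatingGroup (Fin 5)) k
      by_cases hk : k = i
      · subst hk
        rw [Pi.mulSingle_eq_same]
        exact h1
      · rw [Pi.mulSingle_eq_of_ne hk]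
        exact h2 _ fun h => hk (ea.symm.injective h)
    · rw [hF2]
      exact h3 _
  have hB : ∀ y : Fin b → Perm (Fin 6), (∀ j, y j ∈ alternatingGroup (Fin 6)) →
      y ∈ F.range.comap (MonoidHom.inr (Fin a → alternatingGroup (Fin 5))
        (Fin b → Perm (Fin 6))) := by
    intro y hy
    refine Subgroup.pi_mem_of_mulSingle_mem y fun j => ?_
    obtain ⟨x, h1, h2, h3⟩ := hg (eb.symm j) (y j) (hy j)
    rw [Subgroup.mem_comap, MonoidHom.mem_range]
    refine ⟨x, Prod.ext (funext fun i => ?_) (funext fun k => ?_)⟩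
    · rw [hF1]
      exact h3 _
    · rw [hF2]
      change g (eb.symm k) x = (Pi.mulSingle j (y j) : Fin b → Perm (Fin 6)) k
      by_cases hk : k = j
      · subst hk
        rw [Pi.mulSingle_eq_same]
        exact h1
      · rw [Pi.mulSingle_eq_of_ne hk]
        exact h2 _ fun h => hk (eb.symm.injective h)
  refine ⟨a, b, F.range, fun x hx => ?_, ⟨MonoidHom.ofInjective hFinj⟩⟩
  have h1 : x = MonoidHom.inl _ _ x.1 * MonoidHom.inr _ _ x.2 := by
    ext1 <;> simp
  rw [h1]
  exact F.range.mul_mem (hA x.1) (hB x.2 hx)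

end Pool.Agent.Lib.MP_e3cc28_alA
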