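import Pool.Agent.Lib.MP_e3cc28_alA.AF04b
import Pool.Agent.Lib.MP_e3cc28_alA.AF09a
import Pool.Agent.Lib.MP_e3cc28_alA.AF09d
import Pool.Agent.Lib.MP_e3cc28_alA.AF10
import Pool.Agent.Lib.MP_e3cc28_alA.AF11
import Pool.Agent.Lib.MP_e3cc28_alA.AF12
import Pool.Agent.Lib.MP_e3cc28_alA.AF13

/-! AF14: assembly -/

set_option autoImplicit false

namespace Pool.Agent.Lib.MP_e3cc28_alA

open Subgroup Equiv
open Pool.Agent.Lib.MP_e3cc28_al (Star')

universe u

/-- the subgroups of `Alt(5)^a × Sym(6)^b` which contain `Alt(5)^a × Alt(6)^b` -/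
def InClass (K : Type u) [Group K] : Prop :=
  ∃ a b : ℕ, ∃ K' : Subgroup ((Fin a → alternatingGroup (Fin 5)) × (Fin b → Perm (Fin 6))),
    (∀ x, (∀ j, x.2 j ∈ alternatingGroup (Fin 6)) → x ∈ K') ∧ Nonempty (K ≃* K')

theorem exists_embedding {K : Type u} [Group K] [Finite K] (hgen : O2' K = ⊤) (hstar : Star' K)
    (hab : NoAb K) (halt : AltSub K) : InClass K := by
  classical
  set Good5 : Subgroup K → Prop := fun N => ∃ ψ : K →* alternatingGroup (Fin 5),
    (∀ c, ∃ x ∈ N, ψ x = c) ∧ ∀ k, ψ k = 1 ↔ ∀ x ∈ N, k * x = x * k with hG5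
  have key : ∀ N : Subgroup K, MinN N → ¬ Good5 N → ∃ ψ : K →* Perm (Fin 6),
      (∀ c ∈ alternatingGroup (Fin 6), ∃ x ∈ N, ψ x = c) ∧
        ∀ k, ψ k = 1 ↔ ∀ x ∈ N, k * x = x * k := by
    intro N hN hnot
    obtain ⟨hs, hsub, hna⟩ := min_normal_simple hgen hstar hab halt hN
    obtain ⟨n, hn, ⟨θ⟩⟩ := halt N hsub hs (by
      obtain ⟨a, ha, b, hb, hne⟩ := hna
      exact ⟨a, ha, b, hb, hne⟩)
    obtain ⟨h56, ψ, h1, h2, h3⟩ := comp_hom hstar N hN.1 hn θ
    rcases h56 with rfl | rfl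
    · exfalso
      apply hnot
      refine ⟨ψ.codRestrict (alternatingGroup (Fin 5)) (h3 rfl), ?_, ?_⟩
      · intro c
        refine ⟨θ.symm c, (θ.symm c).2, ?_⟩
        apply Subtype.ext
        change ψ (θ.symm c : N) = c
        rw [h1, θ.apply_symm_apply]
      · intro k
        rw [← h2]
        constructor
        · intro h
          exact congrArg Subtype.val h
        · intro h
          exact Subtype.ext h
    · refine ⟨ψ, ?_, h2⟩
      intro c hc
      refine ⟨θ.symm ⟨c, hc⟩, (θ.symm ⟨c, hc⟩).2, ?_⟩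
      rw [h1, θ.apply_symm_apply]
  let ι : Type u := {N : Subgroup K // MinN N ∧ Good5 N}
  let κ : Type u := {N : Subgroup K // MinN N ∧ ¬ Good5 N}
  have hfin : Finite (Subgroup K) := inferInstance
  have hι : Finite ι := Subtype.finite
  have hκ : Finite κ := Subtype.finite
  choose f hf1 hf2 using fun i : ι => i.2.2
  choose g hg1 hg2 using fun j : κ => key j.1 j.2.1 j.2.2
  refine embed_of_homs (ι := ι) (κ := κ) f g ?_ ?_ ?_
  · intro x h5 h6
    refine eq_one_of_cent hab x fun N hN => ?_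
    by_cases h : Good5 N
    · exact (hf2 ⟨N, hN, h⟩ x).1 (h5 ⟨N, hN, h⟩)
    · exact (hg2 ⟨N, hN, h⟩ x).1 (h6 ⟨N, hN, h⟩)
  · intro i c
    obtain ⟨x, hx, hxc⟩ := hf1 i c
    refine ⟨x, hxc, fun i' hi' => ?_, fun j => ?_⟩
    · refine (hf2 i' x).2 fun y hy => ?_
      exact MinN.comm i.2.1 i'.2.1 (fun h => hi' (Subtype.ext h.symm)) x hx y hy
    · refine (hg2 j x).2 fun y hy => ?_
      refine MinN.comm i.2.1 j.2.1 (fun h => ?_) x hx y hy
      apply j.2.2
      rw [← h]
      exact i.2.2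
  · intro j c hc
    obtain ⟨x, hx, hxc⟩ := hg1 j c hc
    refine ⟨x, hxc, fun j' hj' => ?_, fun i => ?_⟩
    · refine (hg2 j' x).2 fun y hy => ?_
      exact MinN.comm j.2.1 j'.2.1 (fun h => hj' (Subtype.ext h.symm)) x hx y hy
    · refine (hf2 i x).2 fun y hy => ?_
      refine MinN.comm j.2.1 i.2.1 (fun h => ?_) x hx y hy
      apply j.2.2
      rw [h]
      exact i.2.2

/-- the degrees of the factors -/
def deg (a b : ℕ) : Fin a ⊕ Fin b → ℕ := Sum.elim (fun _ => 5) (fun _ => 6)

/-- the projections -/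
def proj {a b : ℕ} (K' : Subgroup ((Fin a → alternatingGroup (Fin 5)) × (Fin b → Perm (Fin 6)))) :
    ∀ i : Fin a ⊕ Fin b, K' →* Perm (Fin (deg a b i))
  | Sum.inl i => (alternatingGroup (Fin 5)).subtype.comp ((Pi.evalMonoidHom _ i).comp
      ((MonoidHom.fst _ _).comp K'.subtype))
  | Sum.inr j => (Pi.evalMonoidHom _ j).comp ((MonoidHom.snd _ _).comp K'.subtype)

theorem star_of_embedding {a b : ℕ}
    (K' : Subgroup ((Fin a → alternatingGroup (Fin 5)) × (Fin b → Perm (Fin 6))))
    (h : ∀ x, (∀ j, x.2 j ∈ alternatingGroup (Fin 6)) → x ∈ K') : Star' K' := by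
  classical
  have hA : ∀ i : Fin a ⊕ Fin b, ∀ c ∈ alternatingGroup (Fin (deg a b i)), ∃ x : K',
      proj K' i x = c ∧ ∀ j, j ≠ i → proj K' j x = 1 := by
    rintro (i | j) c hc
    · refine ⟨⟨(Pi.mulSingle i ⟨c, hc⟩, 1), h _ fun j => ?_⟩, ?_, ?_⟩
      · exact one_mem _
      · change ((Pi.mulSingle i (⟨c, hc⟩ : alternatingGroup (Fin 5)) :
          Fin a → alternatingGroup (Fin 5)) i : Perm (Fin 5)) = c
        rw [Pi.mulSingle_eq_same]
      · rintro (i' | j') hne
        · change ((Pi.mulSingle i (⟨c, hc⟩ : alternatingGroup (Fin 5)) :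
            Fin a → alternatingGroup (Fin 5)) i' : Perm (Fin 5)) = 1
          rw [Pi.mulSingle_eq_of_ne (fun h => hne (by rw [h]))]
          rfl
        · rfl
    · refine ⟨⟨(1, Pi.mulSingle j c), h _ fun j' => ?_⟩, ?_, ?_⟩
      · change (Pi.mulSingle j c : Fin b → Perm (Fin 6)) j' ∈ _
        by_cases hj : j' = j
        · subst hj
          rw [Pi.mulSingle_eq_same]
          exact hc
        · rw [Pi.mulSingle_eq_of_ne hj]
          exact one_mem _
      · change (Pi.mulSingle j c : Fin b → Perm (Fin 6)) j = c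
        rw [Pi.mulSingle_eq_same]
      · rintro (i' | j') hne
        · rfl
        · change (Pi.mulSingle j c : Fin b → Perm (Fin 6)) j' = 1
          rw [Pi.mulSingle_eq_of_ne (fun h => hne (by rw [h]))]
  refine star_of_family (proj K') ?_ (fun i => alternatingGroup (Fin (deg a b i))) hA ?_
  · intro x hx
    apply Subtype.ext
    refine Prod.ext (funext fun i => Subtype.ext ?_) (funext fun j => ?_)
    · exact hx (Sum.inl i)
    · exact hx (Sum.inr j)
  · intro i
    have hle : alternatingGroup (Fin (deg a b i)) ≤ (proj K' i).range := by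
      intro c hc
      obtain ⟨x, hx, -⟩ := hA i c hc
      exact ⟨x, hx⟩
    rcases i with i | j
    · have : (proj K' (Sum.inl i)).range = alternatingGroup (Fin 5) := by
        apply le_antisymm _ hle
        rintro _ ⟨x, rfl⟩
        exact (x.1.1 i).2
      rw [this]
      exact strong_five
    · exact strong_six hle

theorem InClass.star {K : Type u} [Group K] [Finite K] (h : InClass K) : Star' K := by
  obtain ⟨a, b, K', h1, ⟨e⟩⟩ := h
  exact (star_equiv e).2 (star_of_embedding K' h1)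

/-- groups without abelian normal subgroups -/
theorem star_iff_inClass {H : Type u} [Group H] [Finite H] (hab : NoAb H) (halt : AltSub H) :
    Star' H ↔ InClass (O2' H) := by
  rw [star_O2'_iff]
  refine ⟨fun h => ?_, InClass.star⟩
  exact exists_embedding O2'_O2' h (hab.normal _ O2'_normal) (halt.normal _ O2'_normal)

end Pool.Agent.Lib.MP_e3cc28_alA
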