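import Pool.Agent.Lib.MP_e3cc28_alA.AF00
import Pool.Agent.Lib.MP_e3cc28_alA.AF01b
import Pool.Agent.Lib.MP_e3cc28_alA.AF02

section

/-! job AF13: inheritance of the hypotheses `AltFactors`, `AltSub`, `NoAb`. -/

set_option autoImplicit false

namespace Pool.Agent.Lib.MP_e3cc28_alA

open Subgroup

universe u

/-- Proof. For a subnormal subgroup `L` of `G ⧸ R` take `A` = the preimage of `L` (subnormal,
`Subgroup.IsSubnormal.comap`) and `B = R`; `A ⧸ R ≅ L`. -/
theorem AltFactors.quot {G : Type u} [Group G] (h : AltFactors G) (R : Subgroup G) [R.Normal] :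
    AltSub (G ⧸ R) := by
  intro L hL hs hna
  obtain ⟨x, hx, y, hy, hxy⟩ := hna
  let A : Subgroup G := L.comap (QuotientGroup.mk' R)
  have hRA : R ≤ A := by
    intro r hr
    change (QuotientGroup.mk' R) r ∈ L
    have : (QuotientGroup.mk' R) r = 1 := by
      rw [QuotientGroup.mk'_apply, QuotientGroup.eq_one_iff]; exact hr
    rw [this]; exact L.one_mem
  let f : A →* L := (QuotientGroup.mk' R).subgroupComap L
  have hf : Function.Surjective f := by
    rintro ⟨l, hl⟩
    obtain ⟨g, rfl⟩ := QuotientGroup.mk'_surjective R l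
    exact ⟨⟨g, hl⟩, rfl⟩
  have hker : f.ker = R.subgroupOf A := by
    ext a
    rw [MonoidHom.mem_ker, Subgroup.mem_subgroupOf]
    constructor
    · intro h1
      have h2 : (QuotientGroup.mk' R) (a : G) = 1 := congrArg Subtype.val h1
      rw [QuotientGroup.mk'_apply, QuotientGroup.eq_one_iff] at h2
      exact h2
    · intro h1
      apply Subtype.ext
      change (QuotientGroup.mk' R) (a : G) = 1
      rw [QuotientGroup.mk'_apply, QuotientGroup.eq_one_iff]
      exact h1
  haveI : (R.subgroupOf A).Normal := inferInstance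
  let e : (A ⧸ R.subgroupOf A) ≃* L :=
    (QuotientGroup.quotientMulEquivOfEq hker.symm).trans
      (QuotientGroup.quotientKerEquivOfSurjective f hf)
  haveI := hs
  haveI : Nontrivial (A ⧸ R.subgroupOf A) := e.toEquiv.nontrivial
  have hsimp : IsSimpleGroup (A ⧸ R.subgroupOf A) :=
    IsSimpleGroup.isSimpleGroup_of_surjective e.symm.toMonoidHom e.symm.surjective
  obtain ⟨n, hn, ⟨φ⟩⟩ := h A R (hL.comap _) hRA hsimp (by
    refine ⟨e.symm ⟨x, hx⟩, e.symm ⟨y, hy⟩, ?_⟩
    intro heq
    rw [← map_mul, ← map_mul] at heq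
    have := e.symm.injective heq
    exact hxy (congrArg Subtype.val this))
  exact ⟨n, hn, ⟨e.symm.trans φ⟩⟩

/-- a subnormal subgroup of a normal subgroup `Y` is subnormal (`Subgroup.IsSubnormal.trans`...);
for `L ≤ Y` take `L.map Y.subtype`. -/
theorem AltSub.normal {H : Type u} [Group H] (h : AltSub H) (Y : Subgroup H) (hY : Y.Normal) :
    AltSub Y := by
  intro L hL hs hna
  obtain ⟨x, hx, y, hy, hxy⟩ := hna
  let e : L ≃* L.map Y.subtype := L.equivMapOfInjective Y.subtype Y.subtype_injective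
  haveI := hs
  haveI : Nontrivial (L.map Y.subtype) := e.symm.toEquiv.nontrivial
  have hsimp : IsSimpleGroup (L.map Y.subtype) :=
    IsSimpleGroup.isSimpleGroup_of_surjective e.toMonoidHom e.surjective
  have hsub : (L.map Y.subtype).IsSubnormal := hL.trans' hY.isSubnormal
  obtain ⟨n, hn, ⟨φ⟩⟩ := h _ hsub hsimp
    ⟨x, ⟨x, hx, rfl⟩, y, ⟨y, hy, rfl⟩, fun heq => hxy (Subtype.ext heq)⟩
  exact ⟨n, hn, ⟨e.trans φ⟩⟩

/-- The preimage in `G` of an abelian normal subgroup of `G ⧸ R` is soluble (extension of `R` by an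
abelian group) and normal, hence contained in `R`. -/
theorem noAb_quot {G : Type u} [Group G] (R : Subgroup G) [R.Normal] (hR : Group.IsSolvable R)
    (hmax : ∀ S : Subgroup G, S.Normal → Group.IsSolvable S → S ≤ R) : NoAb (G ⧸ R) := by
  intro N hN hab
  haveI := hN
  haveI := hR
  let A : Subgroup G := N.comap (QuotientGroup.mk' R)
  have hRA : R ≤ A := by
    intro r hr
    change (QuotientGroup.mk' R) r ∈ N
    have : (QuotientGroup.mk' R) r = 1 := by
      rw [QuotientGroup.mk'_apply, QuotientGroup.eq_one_iff]; exact hr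
    rw [this]; exact N.one_mem
  let f : A →* N := (QuotientGroup.mk' R).subgroupComap N
  haveI hNs : Group.IsSolvable N :=
    Group.isSolvable_of_comm fun a b => Subtype.ext (hab a a.2 b b.2)
  have hAs : Group.IsSolvable A := by
    refine Group.isSolvable_of_ker_le_range (Subgroup.inclusion hRA) f ?_
    intro a ha
    have h2 : (QuotientGroup.mk' R) (a : G) = 1 := congrArg Subtype.val (MonoidHom.mem_ker.mp ha)
    rw [QuotientGroup.mk'_apply, QuotientGroup.eq_one_iff] at h2
    exact ⟨⟨a, h2⟩, rfl⟩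
  have hle := hmax A inferInstance hAs
  rw [eq_bot_iff]
  intro n hn
  obtain ⟨g, rfl⟩ := QuotientGroup.mk'_surjective R n
  have : g ∈ R := hle hn
  rw [Subgroup.mem_bot, QuotientGroup.mk'_apply, QuotientGroup.eq_one_iff]
  exact this

/-- Proof. Suppose that `Y` has a nontrivial abelian normal subgroup; let `A` be a minimal one
(`Y` is finite). For `x ∈ H` the subgroup `x A x⁻¹` of `Y` is again a minimal nontrivial abelian
normal subgroup of `Y`. Two such subgroups `A`, `A'` are equal or intersect trivially, and in the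
second case they commute (commutators are in the intersection); in the first case they commute
because `A` is abelian. So the elements of all the conjugates `x A x⁻¹`, `x ∈ H`, commute, and the
subgroup generated by them is abelian, normal in `H` and nontrivial. -/
theorem NoAb.normal {H : Type u} [Group H] [Finite H] (h : NoAb H) (Y : Subgroup H)
    (hY : Y.Normal) : NoAb Y := by
  intro A₀ hA₀ hab₀
  by_contra hne₀
  -- the predicate
  let P : Subgroup H → Prop := fun B => B ≤ Y ∧ (∀ y ∈ Y, ∀ b ∈ B, y * b * y⁻¹ ∈ B) ∧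
    (∀ a ∈ B, ∀ b ∈ B, a * b = b * a) ∧ B ≠ ⊥
  have hP₀ : P (A₀.map Y.subtype) := by
    refine ⟨?_, ?_, ?_, ?_⟩
    · rintro _ ⟨a, _, rfl⟩; exact a.2
    · rintro y hy _ ⟨b, hb, rfl⟩
      exact ⟨⟨y, hy⟩ * b * ⟨y, hy⟩⁻¹, hA₀.conj_mem b hb _, rfl⟩
    · rintro _ ⟨a, ha, rfl⟩ _ ⟨b, hb, rfl⟩
      exact congrArg Subtype.val (hab₀ a ha b hb)
    · intro hbot
      exact hne₀ ((Subgroup.map_eq_bot_iff_of_injective A₀ Y.subtype_injective).mp hbot)
  obtain ⟨A, hA, hmin⟩ : ∃ A, P A ∧ ∀ B, P B → B ≤ A → B = A := by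
    have hfin : (Set.univ : Set (Subgroup H)).Finite := Set.finite_univ
    obtain ⟨A, hA⟩ := (Set.toFinite {B : Subgroup H | P B}).exists_minimal ⟨_, hP₀⟩
    refine ⟨A, hA.1, ?_⟩
    intro B hB hBA
    exact le_antisymm hBA (hA.2 hB hBA)
  obtain ⟨hAY, hAn, hAab, hAne⟩ := hA
  -- conjugates
  let K : H → Subgroup H := fun x => A.map (MulAut.conj x).toMonoidHom
  have hmemK : ∀ x a, a ∈ K x ↔ x⁻¹ * a * x ∈ A := by
    intro x a
    constructor
    · rintro ⟨b, hb, rfl⟩
      have : x⁻¹ * ((MulAut.conj x).toMonoidHom b) * x = b := by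
        simp [MulAut.conj_apply, mul_assoc]
      rw [this]; exact hb
    · intro ha
      refine ⟨_, ha, ?_⟩
      simp [MulAut.conj_apply, mul_assoc]
  have hKn : ∀ x, ∀ y ∈ Y, ∀ b ∈ K x, y * b * y⁻¹ ∈ K x := by
    intro x y hy b hb
    rw [hmemK] at hb ⊢
    have h1 : x⁻¹ * y * x ∈ Y := by
      have := hY.conj_mem y hy x⁻¹
      simpa using this
    have h2 := hAn _ h1 _ hb
    have h3 : x⁻¹ * (y * b * y⁻¹) * x = x⁻¹ * y * x * (x⁻¹ * b * x) * (x⁻¹ * y * x)⁻¹ := by group
    rw [h3]; exact h2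
  have hKY : ∀ x, K x ≤ Y := by
    intro x a ha
    rw [hmemK] at ha
    have := hY.conj_mem _ (hAY ha) x
    have h3 : x * (x⁻¹ * a * x) * x⁻¹ = a := by group
    rwa [h3] at this
  have hKab : ∀ x, ∀ a ∈ K x, ∀ b ∈ K x, a * b = b * a := by
    intro x a ha b hb
    rw [hmemK] at ha hb
    have h1 := hAab _ ha _ hb
    have h2 : x⁻¹ * (a * b) * x = x⁻¹ * (b * a) * x := by
      calc x⁻¹ * (a * b) * x = x⁻¹ * a * x * (x⁻¹ * b * x) := by group
        _ = x⁻¹ * b * x * (x⁻¹ * a * x) := h1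
        _ = x⁻¹ * (b * a) * x := by group
    have h3 := mul_right_cancel h2
    exact mul_left_cancel h3
  -- minimality of conjugates
  have hKmin : ∀ x, ∀ B : Subgroup H, B ≤ K x → (∀ y ∈ Y, ∀ b ∈ B, y * b * y⁻¹ ∈ B) → B ≠ ⊥ →
      B = K x := by
    intro x B hB hBn hBne
    let B' : Subgroup H := B.map (MulAut.conj x⁻¹).toMonoidHom
    have hmemB' : ∀ a, a ∈ B' ↔ x * a * x⁻¹ ∈ B := by
      intro a
      constructor
      · rintro ⟨b, hb, rfl⟩
        have : x * ((MulAut.conj x⁻¹).toMonoidHom b) * x⁻¹ = b := by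
          simp [MulAut.conj_apply, mul_assoc]
        rw [this]; exact hb
      · intro ha
        refine ⟨_, ha, ?_⟩
        simp [MulAut.conj_apply, mul_assoc]
    have hB'A : B' ≤ A := by
      intro a ha
      rw [hmemB'] at ha
      have := hB ha
      rw [hmemK] at this
      have h3 : x⁻¹ * (x * a * x⁻¹) * x = a := by group
      rwa [h3] at this
    have hPB' : P B' := by
      refine ⟨hB'A.trans hAY, ?_, fun a ha b hb => hAab a (hB'A ha) b (hB'A hb), ?_⟩
      · intro y hy b hb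
        rw [hmemB'] at hb ⊢
        have h2 := hBn _ (hY.conj_mem y hy x) _ hb
        have h3 : x * (y * b * y⁻¹) * x⁻¹ = x * y * x⁻¹ * (x * b * x⁻¹) * (x * y * x⁻¹)⁻¹ := by
          group
        rw [h3]; exact h2
      · intro hbot
        apply hBne
        rw [eq_bot_iff]
        intro b hb
        have h1 : x⁻¹ * b * x ∈ B' := by
          rw [hmemB']
          have h3 : x * (x⁻¹ * b * x) * x⁻¹ = b := by group
          rwa [h3]
        rw [hbot, Subgroup.mem_bot] at h1
        rw [Subgroup.mem_bot]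
        calc b = x * (x⁻¹ * b * x) * x⁻¹ := by group
          _ = 1 := by rw [h1]; group
    have hBA := hmin B' hPB' hB'A
    apply le_antisymm hB
    intro a ha
    rw [hmemK, ← hBA, hmemB'] at ha
    have h3 : x * (x⁻¹ * a * x) * x⁻¹ = a := by group
    rwa [h3] at ha
  -- elements of conjugates commute
  have hcomm : ∀ x x' a b, a ∈ K x → b ∈ K x' → a * b = b * a := by
    intro x x' a b ha hb
    by_cases hI : K x ⊓ K x' = ⊥
    · have hc : a * b * a⁻¹ * b⁻¹ ∈ K x ⊓ K x' := by
        constructor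
        · have h1 := hKn x b (hKY x' hb) a⁻¹ ((K x).inv_mem ha)
          have := (K x).mul_mem ha h1
          have h3 : a * (b * a⁻¹ * b⁻¹) = a * b * a⁻¹ * b⁻¹ := by group
          rwa [h3] at this
        · have h1 := hKn x' a (hKY x ha) b hb
          exact (K x').mul_mem h1 ((K x').inv_mem hb)
      rw [hI, Subgroup.mem_bot] at hc
      have h4 : a * b * (b * a)⁻¹ = 1 := by
        rw [← hc]; group
      exact mul_inv_eq_one.mp h4
    · have hn : ∀ y ∈ Y, ∀ c ∈ K x ⊓ K x', y * c * y⁻¹ ∈ K x ⊓ K x' :=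
        fun y hy c hc => ⟨hKn x y hy c hc.1, hKn x' y hy c hc.2⟩
      have h1 := hKmin x _ inf_le_left hn hI
      have h2 := hKmin x' _ inf_le_right hn hI
      have h3 : K x = K x' := h1.symm.trans h2
      rw [← h3] at hb
      exact hKab x a ha b hb
  -- the normal closure is abelian
  have hNab : ∀ a ∈ Subgroup.normalClosure (A : Set H), ∀ b ∈ Subgroup.normalClosure (A : Set H),
      a * b = b * a := by
    intro a ha b hb
    unfold Subgroup.normalClosure at ha hb
    have hgen : ∀ u ∈ Group.conjugatesOfSet (A : Set H), ∃ x, u ∈ K x := by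
      intro u hu
      rw [Group.mem_conjugatesOfSet_iff] at hu
      obtain ⟨a, ha, hc⟩ := hu
      rw [isConj_iff] at hc
      obtain ⟨c, hc⟩ := hc
      refine ⟨c, ?_⟩
      rw [hmemK, ← hc]
      have h3 : c⁻¹ * (c * a * c⁻¹) * c = a := by group
      rw [h3]; exact ha
    have hac : ∀ u ∈ Group.conjugatesOfSet (A : Set H), a * u = u * a := by
      intro u hu
      obtain ⟨x', hx'⟩ := hgen u hu
      have hle : Subgroup.closure (Group.conjugatesOfSet (A : Set H)) ≤
          Subgroup.centralizer {u} := by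
        rw [Subgroup.closure_le]
        intro v hv
        obtain ⟨x, hx⟩ := hgen v hv
        rw [SetLike.mem_coe, Subgroup.mem_centralizer_singleton_iff]
        exact hcomm x x' v u hx hx'
      exact Subgroup.mem_centralizer_singleton_iff.mp (hle ha)
    have hle : Subgroup.closure (Group.conjugatesOfSet (A : Set H)) ≤
        Subgroup.centralizer {a} := by
      rw [Subgroup.closure_le]
      intro v hv
      rw [SetLike.mem_coe, Subgroup.mem_centralizer_singleton_iff]
      exact (hac v hv).symm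
    exact (Subgroup.mem_centralizer_singleton_iff.mp (hle hb)).symm
  have hbot := h _ Subgroup.normalClosure_normal hNab
  apply hAne
  rw [eq_bot_iff, ← hbot]
  exact Subgroup.le_normalClosure

end Pool.Agent.Lib.MP_e3cc28_alA
end

section

/-! AG01: `(∗)` for subdirect products which contain the product of subgroups `A i` with the
strong form of `(∗)`, as AF10 but in all universes. -/

set_option autoImplicit false

namespace Pool.Agent.Lib.MP_e3cc28_alG

open Subgroup Equiv
open Pool.Agent.Lib.MP_e3cc28_al (Star')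
open Pool.Agent.Lib.MP_e3cc28_alA

universe u v w

section

variable {K : Type u} [Group K] [Finite K] {ι : Type v} [Finite ι] {Y : ι → Type w}
  [∀ i, Group (Y i)] [∀ i, Finite (Y i)]

/-- A Sylow 2-subgroup of `K` is determined by its images: the right-hand side is a subgroup of `K`
which contains `P` and is a 2-group (it embeds in the product of the 2-groups `π i (P)`), so it is
`P` by maximality. -/
theorem mem_sylow_iff (π : ∀ i, K →* Y i) (hinj : ∀ x, (∀ i, π i x = 1) → x = 1)
    (P : Sylow 2 K) (x : K) : x ∈ P ↔ ∀ i, π i x ∈ (P : Subgroup K).map (π i) := by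
  classical
  have hfin : Fintype ι := Fintype.ofFinite ι
  set R : Subgroup K := ⨅ i, ((P : Subgroup K).map (π i)).comap (π i) with hR
  have memR : ∀ y : K, y ∈ R ↔ ∀ i, π i y ∈ (P : Subgroup K).map (π i) := by
    intro y
    rw [hR, Subgroup.mem_iInf]
    rfl
  have hle : (P : Subgroup K) ≤ R := fun y hy => (memR y).2 fun i => ⟨y, hy, rfl⟩
  have hp : IsPGroup 2 R := by
    rintro ⟨y, hy⟩
    have h1 : ∀ i, ∃ k : ℕ, (π i y) ^ 2 ^ k = 1 := by
      intro i
      obtain ⟨k, hk⟩ := (P.isPGroup'.map (π i)) ⟨π i y, (memR y).1 hy i⟩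
      exact ⟨k, congrArg Subtype.val hk⟩
    choose k hk using h1
    refine ⟨∑ i, k i, Subtype.ext ?_⟩
    show y ^ 2 ^ (∑ i, k i) = 1
    apply hinj
    intro i
    rw [map_pow]
    have h2 : k i ≤ ∑ i, k i := Finset.single_le_sum (fun _ _ => Nat.zero_le _) (Finset.mem_univ i)
    obtain ⟨m, hm⟩ := Nat.exists_eq_add_of_le h2
    rw [hm, pow_add, pow_mul, hk i, one_pow]
  have h3 : R = P := P.is_maximal' hp hle
  have h4 : x ∈ P ↔ x ∈ R := by
    rw [h3]
    rfl
  rw [h4]
  exact memR x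

/-- one index: lifts with all the other components `1`. -/
private theorem exists_lift_one (π : ∀ i, K →* Y i) (hinj : ∀ x, (∀ i, π i x = 1) → x = 1)
    (A : ∀ i, Subgroup (Y i))
    (hA : ∀ i, ∀ a ∈ A i, ∃ x : K, π i x = a ∧ ∀ j, j ≠ i → π j x = 1) (P Q : Sylow 2 K)
    (i : ι) (a : Y i) (ha : a ∈ ((P : Subgroup K).map (π i) ⊓ A i) ⊔
      ((Q : Subgroup K).map (π i) ⊓ A i)) :
    ∃ g ∈ (P : Subgroup K) ⊔ Q, π i g = a ∧ ∀ j, j ≠ i → π j g = 1 := by
  have key : ∀ S : Sylow 2 K, ∀ b ∈ (S : Subgroup K).map (π i) ⊓ A i,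
      ∃ g ∈ S, π i g = b ∧ ∀ j, j ≠ i → π j g = 1 := by
    rintro S b ⟨hb1, hb2⟩
    obtain ⟨x, hx1, hx2⟩ := hA i b hb2
    refine ⟨x, (mem_sylow_iff π hinj S x).2 fun j => ?_, hx1, hx2⟩
    by_cases hj : j = i
    · subst hj
      rw [hx1]
      exact hb1
    · rw [hx2 j hj]
      exact one_mem _
  set T : Subgroup K := ((P : Subgroup K) ⊔ Q) ⊓ ⨅ j : {j : ι // j ≠ i}, (π j.1).ker with hT
  have memT : ∀ g : K, g ∈ T ↔ g ∈ (P : Subgroup K) ⊔ Q ∧ ∀ j, j ≠ i → π j g = 1 := by
    intro g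
    rw [hT, Subgroup.mem_inf, Subgroup.mem_iInf]
    constructor
    · rintro ⟨h1, h2⟩
      exact ⟨h1, fun j hj => MonoidHom.mem_ker.1 (h2 ⟨j, hj⟩)⟩
    · rintro ⟨h1, h2⟩
      exact ⟨h1, fun j => MonoidHom.mem_ker.2 (h2 j.1 j.2)⟩
  have hle : ((P : Subgroup K).map (π i) ⊓ A i) ⊔ ((Q : Subgroup K).map (π i) ⊓ A i) ≤
      T.map (π i) := by
    refine sup_le ?_ ?_
    · intro b hb
      obtain ⟨g, hg, h1, h2⟩ := key P b hb
      have hg' : g ∈ (P : Subgroup K) ⊔ Q := (le_sup_left : (P : Subgroup K) ≤ _) hg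
      exact ⟨g, (memT g).2 ⟨hg', h2⟩, h1⟩
    · intro b hb
      obtain ⟨g, hg, h1, h2⟩ := key Q b hb
      have hg' : g ∈ (P : Subgroup K) ⊔ Q := (le_sup_right : (Q : Subgroup K) ≤ _) hg
      exact ⟨g, (memT g).2 ⟨hg', h2⟩, h1⟩
  obtain ⟨g, hg, h1⟩ := hle ha
  exact ⟨g, ((memT g).1 hg).1, h1, ((memT g).1 hg).2⟩

/-- Elements `h i ∈ ⟨P_i ∩ A_i, Q_i ∩ A_i⟩` have a common lift in `⟨P, Q⟩`.

Proof. An element `a ∈ P_i ∩ A_i` has a lift `x ∈ K` (`hA`) with `π_j x = 1` for `j ≠ i`; by
`mem_sylow_iff` `x ∈ P`. So (closure induction) every element of `⟨P_i ∩ A_i, Q_i ∩ A_i⟩` has a lift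
in `⟨P, Q⟩` with all other components `1`. Induction over a `Finset` of indices: for every finset `s`
there is `g ∈ ⟨P, Q⟩` with `π_i g = h_i` for `i ∈ s` and `π_i g = 1` for `i ∉ s`. -/
theorem exists_common_lift (π : ∀ i, K →* Y i) (hinj : ∀ x, (∀ i, π i x = 1) → x = 1)
    (A : ∀ i, Subgroup (Y i))
    (hA : ∀ i, ∀ a ∈ A i, ∃ x : K, π i x = a ∧ ∀ j, j ≠ i → π j x = 1) (P Q : Sylow 2 K)
    (h : ∀ i, Y i) (hh : ∀ i, h i ∈ ((P : Subgroup K).map (π i) ⊓ A i) ⊔
      ((Q : Subgroup K).map (π i) ⊓ A i)) :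
    ∃ g ∈ (P : Subgroup K) ⊔ Q, ∀ i, π i g = h i := by
  classical
  have hfin : Fintype ι := Fintype.ofFinite ι
  have main : ∀ s : Finset ι, ∃ g ∈ (P : Subgroup K) ⊔ Q, (∀ i ∈ s, π i g = h i) ∧
      ∀ i, i ∉ s → π i g = 1 := by
    intro s
    induction s using Finset.induction_on with
    | empty => exact ⟨1, one_mem _, by simp, fun i _ => map_one _⟩
    | insert i s hi ih =>
      obtain ⟨g, hg, h1, h2⟩ := ih
      obtain ⟨x, hx, h3, h4⟩ := exists_lift_one π hinj A hA P Q i (h i) (hh i)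
      refine ⟨g * x, mul_mem hg hx, ?_, ?_⟩
      · intro j hj
        rw [map_mul]
        by_cases hji : j = i
        · subst hji
          rw [h2 j hi, h3, one_mul]
        · rw [h4 j hji, mul_one]
          exact h1 j ((Finset.mem_insert.1 hj).resolve_left hji)
      · intro j hj
        rw [Finset.mem_insert, not_or] at hj
        rw [map_mul, h2 j hj.2, h4 j hj.1, mul_one]
  obtain ⟨g, hg, h1, -⟩ := main Finset.univ
  exact ⟨g, hg, fun i => h1 i (Finset.mem_univ i)⟩

/-- Proof. Let `P`, `Q` be Sylow 2-subgroups of `K`; `π_i(P)`, `π_i(Q)` are Sylow 2-subgroups of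
`(π i).range` (`SylIn.map` for `H = ⊤`). Let `h_i` be the elements of `Strong`, `g ∈ ⟨P, Q⟩` their
common lift and `S = g P g⁻¹ ≤ ⟨P, Q⟩`. For `d ∈ P ∩ Q` all the components of `g⁻¹ d g` are in
`π_i(P)`, so `g⁻¹ d g ∈ P` (`mem_sylow_iff`) and `d ∈ S`; in the same way `S` normalises
`P ∩ Q`. -/
theorem star_of_family (π : ∀ i, K →* Y i) (hinj : ∀ x, (∀ i, π i x = 1) → x = 1)
    (A : ∀ i, Subgroup (Y i))
    (hA : ∀ i, ∀ a ∈ A i, ∃ x : K, π i x = a ∧ ∀ j, j ≠ i → π j x = 1)
    (hs : ∀ i, Strong (π i).range (A i)) : Star' K := by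
  rw [← starIn_top_iff]
  intro P' Q' hP' hQ'
  obtain ⟨P, rfl⟩ := sylIn_top_iff.1 hP'
  obtain ⟨Q, rfl⟩ := sylIn_top_iff.1 hQ'
  have hrange : ∀ i, (π i).range = (⊤ : Subgroup K).map (π i) := fun i => MonoidHom.range_eq_map _
  have hP : ∀ i, SylIn (π i).range ((P : Subgroup K).map (π i)) := by
    intro i
    rw [hrange]
    exact hP'.map (π i)
  have hQ : ∀ i, SylIn (π i).range ((Q : Subgroup K).map (π i)) := by
    intro i
    rw [hrange]
    exact hQ'.map (π i)
  choose h hh h1 h2 using fun i => hs i _ _ (hP i) (hQ i)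
  obtain ⟨g, hg, hgi⟩ := exists_common_lift π hinj A hA P Q h hh
  refine ⟨(P : Subgroup K).map (MulAut.conj g).toMonoidHom, hP'.conj (Subgroup.mem_top g),
    ?_, ?_, ?_⟩
  · intro x hx
    rw [mem_map_conj] at hx
    have hx' : g⁻¹ * x * g ∈ (P : Subgroup K) ⊔ Q := (le_sup_left : (P : Subgroup K) ≤ _) hx
    have h5 : g * (g⁻¹ * x * g) * g⁻¹ = x := by group
    rw [← h5]
    exact mul_mem (mul_mem hg hx') (inv_mem hg)
  · intro d hdP hdQ
    rw [mem_map_conj]
    refine (mem_sylow_iff π hinj P _).2 fun i => ?_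
    rw [map_mul, map_mul, map_inv, hgi]
    exact h1 i (π i d) ⟨d, hdP, rfl⟩ ⟨d, hdQ, rfl⟩
  · intro s hs' d hdP hdQ
    rw [mem_map_conj] at hs'
    have key : ∀ i, π i (s * d * s⁻¹) ∈ (P : Subgroup K).map (π i) ∧
        π i (s * d * s⁻¹) ∈ (Q : Subgroup K).map (π i) := by
      intro i
      have h6 := h2 i (π i (g⁻¹ * s * g)) ⟨_, hs', rfl⟩ (π i d) ⟨d, hdP, rfl⟩ ⟨d, hdQ, rfl⟩
      have h7 : h i * π i (g⁻¹ * s * g) * (h i)⁻¹ = π i s := by
        rw [← hgi i, map_mul, map_mul, map_inv]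
        group
      rw [h7] at h6
      rw [map_mul, map_mul, map_inv]
      exact h6
    exact ⟨(mem_sylow_iff π hinj P _).2 fun i => (key i).1,
      (mem_sylow_iff π hinj Q _).2 fun i => (key i).2⟩

end

end Pool.Agent.Lib.MP_e3cc28_alG
end

section

/-! AG02: reduction to almost simple groups. -/

set_option autoImplicit false

namespace Pool.Agent.Lib.MP_e3cc28_alG

open Subgroup Equiv
open Pool.Agent.Lib.MP_e3cc28_al (Star')
open Pool.Agent.Lib.MP_e3cc28_alA

universe u

/-- every nonabelian composition factor of `G` has even order -/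
def EvenFactors (G : Type u) [Group G] : Prop :=
  ∀ (A B : Subgroup G) [(B.subgroupOf A).Normal], A.IsSubnormal → B ≤ A →
    IsSimpleGroup (A ⧸ B.subgroupOf A) → (∃ x y : A ⧸ B.subgroupOf A, x * y ≠ y * x) →
    2 ∣ Nat.card (A ⧸ B.subgroupOf A)

/-- every nonabelian simple subnormal subgroup has even order -/
def EvenSub (G : Type u) [Group G] : Prop :=
  ∀ L : Subgroup G, L.IsSubnormal → IsSimpleGroup L → (∃ x ∈ L, ∃ y ∈ L, x * y ≠ y * x) →
    2 ∣ Nat.card L

theorem EvenFactors.quot {G : Type u} [Group G] (h : EvenFactors G) (R : Subgroup G) [R.Normal] :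
    EvenSub (G ⧸ R) := by
  intro L hL hs hna
  obtain ⟨x, hx, y, hy, hxy⟩ := hna
  let A : Subgroup G := L.comap (QuotientGroup.mk' R)
  have hRA : R ≤ A := by
    intro r hr
    change (QuotientGroup.mk' R) r ∈ L
    have : (QuotientGroup.mk' R) r = 1 := by
      rw [QuotientGroup.mk'_apply, QuotientGroup.eq_one_iff]; exact hr
    rw [this]; exact L.one_mem
  let f : A →* L := (QuotientGroup.mk' R).subgroupComap L
  have hf : Function.Surjective f := by
    rintro ⟨l, hl⟩
    obtain ⟨g, rfl⟩ := QuotientGroup.mk'_surjective R l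
    exact ⟨⟨g, hl⟩, rfl⟩
  have hker : f.ker = R.subgroupOf A := by
    ext a
    rw [MonoidHom.mem_ker, Subgroup.mem_subgroupOf]
    constructor
    · intro h1
      have h2 : (QuotientGroup.mk' R) (a : G) = 1 := congrArg Subtype.val h1
      rw [QuotientGroup.mk'_apply, QuotientGroup.eq_one_iff] at h2
      exact h2
    · intro h1
      apply Subtype.ext
      change (QuotientGroup.mk' R) (a : G) = 1
      rw [QuotientGroup.mk'_apply, QuotientGroup.eq_one_iff]
      exact h1
  haveI : (R.subgroupOf A).Normal := inferInstance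
  let e : (A ⧸ R.subgroupOf A) ≃* L :=
    (QuotientGroup.quotientMulEquivOfEq hker.symm).trans
      (QuotientGroup.quotientKerEquivOfSurjective f hf)
  haveI := hs
  haveI : Nontrivial (A ⧸ R.subgroupOf A) := e.toEquiv.nontrivial
  have hsimp : IsSimpleGroup (A ⧸ R.subgroupOf A) :=
    IsSimpleGroup.isSimpleGroup_of_surjective e.symm.toMonoidHom e.symm.surjective
  have h2 := h A R (hL.comap _) hRA hsimp (by
    refine ⟨e.symm ⟨x, hx⟩, e.symm ⟨y, hy⟩, ?_⟩
    intro heq
    rw [← map_mul, ← map_mul] at heq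
    have := e.symm.injective heq
    exact hxy (congrArg Subtype.val this))
  rwa [Nat.card_congr e.toEquiv] at h2

theorem EvenSub.normal {H : Type u} [Group H] (h : EvenSub H) (Y : Subgroup H) (hY : Y.Normal) :
    EvenSub Y := by
  intro L hL hs hna
  obtain ⟨x, hx, y, hy, hxy⟩ := hna
  let e : L ≃* L.map Y.subtype := L.equivMapOfInjective Y.subtype Y.subtype_injective
  haveI := hs
  haveI : Nontrivial (L.map Y.subtype) := e.symm.toEquiv.nontrivial
  have hsimp : IsSimpleGroup (L.map Y.subtype) :=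
    IsSimpleGroup.isSimpleGroup_of_surjective e.toMonoidHom e.surjective
  have hsub : (L.map Y.subtype).IsSubnormal := hL.trans' hY.isSubnormal
  have h2 := h _ hsub hsimp
    ⟨x, ⟨x, hx, rfl⟩, y, ⟨y, hy, rfl⟩, fun heq => hxy (Subtype.ext heq)⟩
  rwa [← Nat.card_congr e.toEquiv] at h2

section

variable {K : Type u} [Group K] [Finite K]

/-- the minimal normal subgroups of `K` are simple if `K` is generated by its Sylow 2-subgroups and
has `(∗)`. -/
theorem min_normal_simple' (hgen : O2' K = ⊤) (hstar : Star' K) (hab : NoAb K) (heven : EvenSub K)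
    {N : Subgroup K} (hN : MinN N) : IsSimpleGroup N := by
  obtain ⟨L, hLN, hL0, hLn, hs, hsub, hna, hdich⟩ := min_normal_factor hab hN
  have h2 : 2 ∣ Nat.card L := heven L hsub hs hna
  have hNn := hN.1
  -- every Sylow 2-subgroup normalises `L`
  have hP : ∀ P : Sylow 2 K, ∀ x ∈ P, ∀ l, l ∈ L ↔ x⁻¹ * l * x ∈ L := by
    intro P x hx
    rcases hdich x with h | h
    · exact h
    exfalso
    obtain ⟨y, hy, hyL, g, hg, hgy⟩ := exists_not_mem hNn hLN hLn hs h2 hna P
    exact swap_contra (starIn_top_iff.2 hstar) (sylIn_top_iff.2 ⟨P, rfl⟩) L N le_top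
      (fun w _ c hc => hNn.conj_mem c hc w) hLn hx (hLN hg) hy hyL hgy
      (fun e _ he => h g hg e he)
  have hLnorm : L.Normal := by
    have h1 : O2' K ≤ normalizer (L : Set K) := by
      refine iSup_le fun P x hx => ?_
      rw [mem_normalizer_iff'']
      intro l
      exact hP P x hx l
    rw [hgen, top_le_iff] at h1
    exact normalizer_eq_top_iff.1 h1
  have hLeq : L = N := (hN.2.2 L hLnorm hLN).resolve_left hL0
  subst hLeq
  exact hs

/-- `(∗)` for `K` from the strong form of `(∗)` for the quotients `K ⧸ C_K(N)`. -/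
theorem star_of_strong (hab : NoAb K)
    (hs : ∀ (N : Subgroup K) [N.Normal], MinN N →
      Strong (⊤ : Subgroup (K ⧸ centralizer (N : Set K)))
        (N.map (QuotientGroup.mk' (centralizer (N : Set K))))) : Star' K := by
  have hfin : Finite (Subgroup K) := inferInstance
  let ι : Type u := {N : Subgroup K // MinN N}
  have hι : Finite ι := Subtype.finite
  have hnorm : ∀ i : ι, i.1.Normal := fun i => i.2.1
  refine star_of_family (K := K) (ι := ι)
    (Y := fun i => K ⧸ centralizer (i.1 : Set K))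
    (fun i => QuotientGroup.mk' (centralizer (i.1 : Set K))) ?_
    (fun i => i.1.map (QuotientGroup.mk' (centralizer (i.1 : Set K)))) ?_ ?_
  · intro x hx
    refine eq_one_of_cent hab x fun N hN a ha => ?_
    have h1 := hx ⟨N, hN⟩
    rw [QuotientGroup.mk'_apply, QuotientGroup.eq_one_iff, mem_centralizer_iff] at h1
    exact (h1 a ha).symm
  · rintro i _ ⟨x, hx, rfl⟩
    refine ⟨x, rfl, fun j hj => ?_⟩
    rw [QuotientGroup.mk'_apply, QuotientGroup.eq_one_iff, mem_centralizer_iff]
    intro a ha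
    exact MinN.comm j.2 i.2 (fun h => hj (Subtype.ext h)) a ha x hx
  · intro i
    rw [MonoidHom.range_eq_top.2 (QuotientGroup.mk'_surjective _)]
    have := hnorm i
    exact hs i.1 i.2

end

end Pool.Agent.Lib.MP_e3cc28_alG
end
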