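import Pool.Agent.Lib.MP_e3cc28_alA.AH00
import Pool.Agent.Lib.MP_e3cc28_alA.AF02

/-! job AH01: the properties `Bender`, `NoOuter`, `Weak`, `Listed` are invariant under
isomorphisms, and small facts. -/

set_option autoImplicit false

namespace Pool.Agent.Lib.MP_e3cc28_alH

open Subgroup Equiv
open Pool.Agent.Lib.MP_e3cc28_al (Star')
open Pool.Agent.Lib.MP_e3cc28_alA

universe u v

/-- transport of Sylow subgroups along an isomorphism -/
private def tr {X : Type u} {Y : Type v} [Group X] [Group Y] (e : X ≃* Y) (P : Sylow 2 X) :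
    Sylow 2 Y :=
  P.comapOfInjective e.symm.toMonoidHom e.symm.injective (by
    intro x _
    exact ⟨e x, e.symm_apply_apply x⟩)

private theorem mem_tr {X : Type u} {Y : Type v} [Group X] [Group Y] (e : X ≃* Y) (P : Sylow 2 X)
    (y : Y) : y ∈ tr e P ↔ e.symm y ∈ P := Iff.rfl

private def trEquiv {X : Type u} {Y : Type v} [Group X] [Group Y] (e : X ≃* Y) :
    Sylow 2 X ≃ Sylow 2 Y where
  toFun := tr e
  invFun := tr e.symm
  left_inv P := by
    refine Sylow.ext (SetLike.ext fun x => ?_)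
    change e.symm (e.symm.symm x) ∈ P ↔ x ∈ P
    simp
  right_inv P := by
    refine Sylow.ext (SetLike.ext fun x => ?_)
    change e.symm.symm (e.symm x) ∈ P ↔ x ∈ P
    simp

private theorem card_tr {X : Type u} {Y : Type v} [Group X] [Group Y] (e : X ≃* Y)
    (P : Sylow 2 X) : Nat.card (tr e P) = Nat.card P := by
  refine Nat.card_congr ⟨fun y => ⟨e.symm y.1, (mem_tr e P y.1).1 y.2⟩,
    fun x => ⟨e x.1, (mem_tr e P _).2 (by simp)⟩, fun y => ?_, fun x => ?_⟩
  · exact Subtype.ext (e.apply_symm_apply y.1)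
  · exact Subtype.ext (e.symm_apply_apply x.1)

theorem Bender.equiv {X : Type u} {Y : Type v} [Group X] [Group Y] (e : X ≃* Y)
    (h : Bender X) : Bender Y := by
  refine ⟨fun P Q hPQ y hy hy' => ?_, fun P => ?_⟩
  · have h1 : tr e.symm P ≠ tr e.symm Q := fun h2 => hPQ ((trEquiv e.symm).injective h2)
    have h3 := h.1 _ _ h1 (e.symm y) (by rw [mem_tr]; simpa using hy)
      (by rw [mem_tr]; simpa using hy')
    exact (MulEquiv.map_eq_one_iff e.symm).1 h3
  · rw [← Nat.card_congr (trEquiv e), h.2 (tr e.symm P), card_tr]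

theorem NoOuter.equiv {X : Type u} {Y : Type v} [Group X] [Group Y] (e : X ≃* Y)
    (h : NoOuter X) : NoOuter Y := by
  rintro φ ⟨k, hk⟩
  obtain ⟨a, ha⟩ := h ((MulAut.congr e).symm φ) ⟨k, by rw [← map_pow, hk, map_one]⟩
  refine ⟨e a, ?_⟩
  have h1 : φ = MulAut.congr e (MulAut.conj a) := by
    rw [← ha]
    exact (MulEquiv.apply_symm_apply _ _).symm
  rw [h1]
  ext y
  simp [MulAut.congr]

theorem Weak.equiv {X : Type u} {Y : Type v} [Group X] [Group Y] (e : X ≃* Y)
    (h : Weak X) : Weak Y := by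
  intro P Q
  obtain ⟨S, h1, h2⟩ := h (tr e.symm P) (tr e.symm Q)
  refine ⟨tr e S, fun y hy hy' => ?_, fun s hs d hd hd' => ?_⟩
  · rw [mem_tr]
    exact h1 _ (by rw [mem_tr]; simpa using hy) (by rw [mem_tr]; simpa using hy')
  · have h3 := h2 (e.symm s) ((mem_tr e S s).1 hs) (e.symm d) (by rw [mem_tr]; simpa using hd)
      (by rw [mem_tr]; simpa using hd')
    rw [mem_tr, mem_tr] at h3
    simpa using h3

theorem Listed.equiv {X : Type u} {Y : Type v} [Group X] [Group Y] (e : X ≃* Y)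
    (h : Listed X) : Listed Y := by
  rcases h with ⟨n, hn, ⟨f⟩⟩ | h | ⟨h2, h⟩ | h
  · exact Or.inl ⟨n, hn, ⟨e.symm.trans f⟩⟩
  · exact Or.inr (Or.inl (h.equiv e))
  · exact Or.inr (Or.inr (Or.inl ⟨by rwa [← Nat.card_congr e.toEquiv], h.equiv e⟩))
  · exact Or.inr (Or.inr (Or.inr fun h' => h (h'.equiv e.symm)))

private theorem sylow_odd {X : Type u} [Group X] [Finite X] (h : ¬ 2 ∣ Nat.card X)
    (P : Sylow 2 X) : (P : Subgroup X) = ⊥ := by
  have : Fact (Nat.Prime 2) := ⟨Nat.prime_two⟩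
  obtain ⟨n, hn⟩ := IsPGroup.iff_card.1 P.2
  rw [← Subgroup.card_eq_one, hn]
  rcases Nat.eq_zero_or_pos n with h0 | h0
  · rw [h0, pow_zero]
  · exfalso
    apply h
    have h1 : Nat.card (P : Subgroup X) ∣ Nat.card X := Subgroup.card_subgroup_dvd_card _
    rw [hn] at h1
    exact (dvd_pow_self 2 (by omega)).trans h1

/-- A listed group has even order. (`Bender`: in a group of odd order the Sylow 2-subgroups are
trivial, so there is only one. `¬ Weak`: a group of odd order has `Weak`. Alternating groups: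
`two_dvd_card_alt`.) -/
theorem Listed.even {X : Type u} [Group X] [Finite X] (h : Listed X) : 2 ∣ Nat.card X := by
  rcases h with ⟨n, hn, ⟨f⟩⟩ | h | ⟨h2, -⟩ | h
  · rw [Nat.card_congr f.toEquiv]
    exact two_dvd_card_alt n hn
  · by_contra h2
    obtain ⟨P⟩ : Nonempty (Sylow 2 X) := inferInstance
    have h3 : Nat.card (Sylow 2 X) = 1 := by
      have : Subsingleton (Sylow 2 X) :=
        ⟨fun A B => Sylow.ext ((sylow_odd h2 A).trans (sylow_odd h2 B).symm)⟩
      exact Nat.card_eq_one_iff_unique.2 ⟨this, ⟨P⟩⟩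
    have h4 := h.2 P
    have h5 : 0 < Nat.card P := Nat.card_pos
    omega
  · exact h2
  · by_contra h2
    apply h
    intro P Q
    have key : ∀ d, d ∈ P → d = 1 := by
      intro d hd
      have h3 : d ∈ (P : Subgroup X) := hd
      rw [sylow_odd h2 P] at h3
      exact Subgroup.mem_bot.1 h3
    refine ⟨P, fun x hx _ => hx, fun s _ d hd _ => ?_⟩
    rw [key d hd, mul_one, mul_inv_cancel]
    exact ⟨one_mem _, one_mem _⟩

/-- the groups of type `Bender` have `(∗)` (`S = P`). -/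
theorem Bender.star {X : Type u} [Group X] (h : Bender X) : Star' X := by
  intro P Q
  refine ⟨P, le_sup_left, fun x hx _ => hx, fun s hs d hd hd' => ?_⟩
  by_cases hPQ : P = Q
  · subst hPQ
    have h1 : s * d * s⁻¹ ∈ P := mul_mem (mul_mem hs hd) (inv_mem hs)
    exact ⟨h1, h1⟩
  · rw [h.1 P Q hPQ d hd hd', mul_one, mul_inv_cancel]
    exact ⟨one_mem _, one_mem _⟩

theorem weak_of_star {X : Type u} [Group X] (h : Star' X) : Weak X := by
  intro P Q
  obtain ⟨S, -, h1, h2⟩ := h P Q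
  exact ⟨S, h1, h2⟩

end Pool.Agent.Lib.MP_e3cc28_alH
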