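import Pool.Agent.Lib.MP_e3cc28_alA.AH01
import Pool.Agent.Lib.MP_e3cc28_alA.AG02

/-! AH02: inheritance of `ListedFactors`, `ListedSub`. -/

set_option autoImplicit false

namespace Pool.Agent.Lib.MP_e3cc28_alH

open Subgroup Equiv
open Pool.Agent.Lib.MP_e3cc28_al (Star')
open Pool.Agent.Lib.MP_e3cc28_alA
open Pool.Agent.Lib.MP_e3cc28_alG

universe u

theorem ListedFactors.quot {G : Type u} [Group G] (h : ListedFactors G) (R : Subgroup G)
    [R.Normal] : ListedSub (G ⧸ R) := by
  intro L hL hs hna
  obtain ⟨x, hx, y, hy, hxy⟩ := hna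
  let A : Subgroup G := L.comap (QuotientGroup.mk' R)
  have hRA : R ≤ A := by
    intro r hr
    change (QuotientGroup.mk' R) r ∈ L
    have : (QuotientGroup.mk' R) r = 1 := by
      rw [QuotientGroup.mk'_apply, QuotientGroup.eq_one_iff]; exact hr
    rw [this]; exact L.one_mem
  let f : A →* L := (QuotientGroup.mk' R).subgroupComap L
  have hf : Function.Surjective f := by
    rintro ⟨l, hl⟩
    obtain ⟨g, rfl⟩ := QuotientGroup.mk'_surjective R l
    exact ⟨⟨g, hl⟩, rfl⟩
  have hker : f.ker = R.subgroupOf A := by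
    ext a
    rw [MonoidHom.mem_ker, Subgroup.mem_subgroupOf]
    constructor
    · intro h1
      have h2 : (QuotientGroup.mk' R) (a : G) = 1 := congrArg Subtype.val h1
      rw [QuotientGroup.mk'_apply, QuotientGroup.eq_one_iff] at h2
      exact h2
    · intro h1
      apply Subtype.ext
      change (QuotientGroup.mk' R) (a : G) = 1
      rw [QuotientGroup.mk'_apply, QuotientGroup.eq_one_iff]
      exact h1
  haveI : (R.subgroupOf A).Normal := inferInstance
  let e : (A ⧸ R.subgroupOf A) ≃* L :=
    (QuotientGroup.quotientMulEquivOfEq hker.symm).trans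
      (QuotientGroup.quotientKerEquivOfSurjective f hf)
  haveI := hs
  haveI : Nontrivial (A ⧸ R.subgroupOf A) := e.toEquiv.nontrivial
  have hsimp : IsSimpleGroup (A ⧸ R.subgroupOf A) :=
    IsSimpleGroup.isSimpleGroup_of_surjective e.symm.toMonoidHom e.symm.surjective
  have h2 := h A R (hL.comap _) hRA hsimp (by
    refine ⟨e.symm ⟨x, hx⟩, e.symm ⟨y, hy⟩, ?_⟩
    intro heq
    rw [← map_mul, ← map_mul] at heq
    have := e.symm.injective heq
    exact hxy (congrArg Subtype.val this))
  exact h2.equiv e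

theorem ListedSub.normal {H : Type u} [Group H] (h : ListedSub H) (Y : Subgroup H)
    (hY : Y.Normal) : ListedSub Y := by
  intro L hL hs hna
  obtain ⟨x, hx, y, hy, hxy⟩ := hna
  let e : L ≃* L.map Y.subtype := L.equivMapOfInjective Y.subtype Y.subtype_injective
  haveI := hs
  haveI : Nontrivial (L.map Y.subtype) := e.symm.toEquiv.nontrivial
  have hsimp : IsSimpleGroup (L.map Y.subtype) :=
    IsSimpleGroup.isSimpleGroup_of_surjective e.toMonoidHom e.surjective
  have hsub : (L.map Y.subtype).IsSubnormal := hL.trans' hY.isSubnormal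
  have h2 := h _ hsub hsimp
    ⟨x, ⟨x, hx, rfl⟩, y, ⟨y, hy, rfl⟩, fun heq => hxy (Subtype.ext heq)⟩
  exact h2.equiv e.symm

theorem ListedSub.even {K : Type u} [Group K] [Finite K] (h : ListedSub K) : EvenSub K :=
  fun L hL hs hna => (h L hL hs hna).even

end Pool.Agent.Lib.MP_e3cc28_alH
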