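import Pool.Agent.Lib.MP_e3cc28_alA.AF09d
import Pool.Agent.Lib.MP_e3cc28_alA.AI00
import Pool.Agent.Lib.MP_e3cc28_alA.AF02

/-! AH07: `(∗)` for the groups of the class. -/

set_option autoImplicit false

namespace Pool.Agent.Lib.MP_e3cc28_alH

open Subgroup Equiv
open Pool.Agent.Lib.MP_e3cc28_al (Star')
open Pool.Agent.Lib.MP_e3cc28_alA

/-- `(∗)` is the strong form for `A = G`. -/
theorem strong_self {Y : Type} [Group Y] [Finite Y] {G : Subgroup Y} (h : Star' G) :
    Strong G G := by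
  rw [← starIn_iff] at h
  intro P Q hP hQ
  obtain ⟨S, hS, hSle, hSD, hSn⟩ := h P Q hP hQ
  have hPH : SylIn (P ⊔ Q) P := hP.down le_sup_left (sup_le hP.1 hQ.1)
  have hSH : SylIn (P ⊔ Q) S := hS.down hSle (sup_le hP.1 hQ.1)
  obtain ⟨g, hg, hgS⟩ := hPH.exists_conj hSH
  have e1 : P ⊓ G = P := inf_eq_left.2 hP.1
  have e2 : Q ⊓ G = Q := inf_eq_left.2 hQ.1
  refine ⟨g, by rw [e1, e2]; exact hg, fun d hd hd' => (hgS d).1 (hSD d hd hd'), ?_⟩
  intro s hs d hd hd'
  refine hSn (g * s * g⁻¹) ((hgS _).2 ?_) d hd hd'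
  have : g⁻¹ * (g * s * g⁻¹) * g = s := by group
  rw [this]
  exact hs

/-- the degrees of the factors -/
def deg' {a : ℕ} (m : Fin a → ℕ) (b : ℕ) : Fin a ⊕ Fin b → ℕ := Sum.elim m (fun _ => 6)

/-- the subgroups `L i`, `Alt(6)` -/
def fac {a : ℕ} {m : Fin a → ℕ} (L : ∀ i, Subgroup (Perm (Fin (m i)))) (b : ℕ) :
    ∀ i : Fin a ⊕ Fin b, Subgroup (Perm (Fin (deg' m b i)))
  | Sum.inl i => L i
  | Sum.inr _ => alternatingGroup (Fin 6)

/-- the projections -/
def proj' {a b : ℕ} {m : Fin a → ℕ} {L : ∀ i, Subgroup (Perm (Fin (m i)))}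
    (K' : Subgroup ((∀ i, L i) × (Fin b → Perm (Fin 6)))) :
    ∀ i : Fin a ⊕ Fin b, K' →* Perm (Fin (deg' m b i))
  | Sum.inl i => (L i).subtype.comp ((Pi.evalMonoidHom (fun i => L i) i).comp
      ((MonoidHom.fst _ _).comp K'.subtype))
  | Sum.inr j => (Pi.evalMonoidHom _ j).comp ((MonoidHom.snd _ _).comp K'.subtype)

theorem star_of_embedding' {a b : ℕ} {m : Fin a → ℕ} (L : ∀ i, Subgroup (Perm (Fin (m i))))
    (hL : ∀ i, Star' (L i))
    (K' : Subgroup ((∀ i, L i) × (Fin b → Perm (Fin 6))))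
    (h : ∀ x, (∀ j, x.2 j ∈ alternatingGroup (Fin 6)) → x ∈ K') : Star' K' := by
  classical
  have hA : ∀ i : Fin a ⊕ Fin b, ∀ c ∈ fac L b i, ∃ x : K',
      proj' K' i x = c ∧ ∀ j, j ≠ i → proj' K' j x = 1 := by
    rintro (i | j) c hc
    · refine ⟨⟨(Pi.mulSingle i ⟨c, hc⟩, 1), h _ fun j => ?_⟩, ?_, ?_⟩
      · exact one_mem _
      · change ((Pi.mulSingle i (⟨c, hc⟩ : L i) : ∀ i, L i) i : Perm (Fin (m i))) = c
        rw [Pi.mulSingle_eq_same]
      · rintro (i' | j') hne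
        · change ((Pi.mulSingle i (⟨c, hc⟩ : L i) : ∀ i, L i) i' : Perm (Fin (m i'))) = 1
          rw [Pi.mulSingle_eq_of_ne (fun h => hne (by rw [h]))]
          rfl
        · rfl
    · refine ⟨⟨(1, Pi.mulSingle j c), h _ fun j' => ?_⟩, ?_, ?_⟩
      · change (Pi.mulSingle j c : Fin b → Perm (Fin 6)) j' ∈ _
        by_cases hj : j' = j
        · subst hj
          rw [Pi.mulSingle_eq_same]
          exact hc
        · rw [Pi.mulSingle_eq_of_ne hj]
          exact one_mem _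
      · change (Pi.mulSingle j c : Fin b → Perm (Fin 6)) j = c
        rw [Pi.mulSingle_eq_same]
      · rintro (i' | j') hne
        · rfl
        · change (Pi.mulSingle j c : Fin b → Perm (Fin 6)) j' = 1
          rw [Pi.mulSingle_eq_of_ne (fun h => hne (by rw [h]))]
  refine star_of_family (proj' K') ?_ (fac L b) hA ?_
  · intro x hx
    apply Subtype.ext
    refine Prod.ext (funext fun i => Subtype.ext ?_) (funext fun j => ?_)
    · exact hx (Sum.inl i)
    · exact hx (Sum.inr j)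
  · intro i
    have hle : fac L b i ≤ (proj' K' i).range := by
      intro c hc
      obtain ⟨x, hx, -⟩ := hA i c hc
      exact ⟨x, hx⟩
    rcases i with i | j
    · have : (proj' K' (Sum.inl i)).range = L i := by
        apply le_antisymm _ hle
        rintro _ ⟨x, rfl⟩
        exact (x.1.1 i).2
      rw [this]
      exact strong_self (hL i)
    · exact strong_six hle

end Pool.Agent.Lib.MP_e3cc28_alH
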