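import Pool.Agent.Lib.MP_e3cc28_alA.AI00
import Pool.Agent.Lib.MP_e3cc28_alA.AH01

/-! job AI01: invariance of `Outer`, `Listed2` under isomorphisms. -/

set_option autoImplicit false

namespace Pool.Agent.Lib.MP_e3cc28_alI

open Subgroup Equiv
open Pool.Agent.Lib.MP_e3cc28_al (Star')
open Pool.Agent.Lib.MP_e3cc28_alA
open Pool.Agent.Lib.MP_e3cc28_alH

universe u v

/-- a Sylow 2-subgroup transported along an isomorphism -/
private theorem exists_tr {X : Type u} {Y : Type v} [Group X] [Group Y] (e : X ≃* Y)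
    (P : Sylow 2 X) : ∃ Q : Sylow 2 Y, ∀ y : Y, y ∈ Q ↔ e.symm y ∈ P :=
  ⟨P.comapOfInjective e.symm.toMonoidHom e.symm.injective
    (fun x _ => ⟨e x, e.symm_apply_apply x⟩), fun _ => Iff.rfl⟩

theorem Outer.equiv {X : Type u} {Y : Type v} [Group X] [Group Y] (e : X ≃* Y)
    (h : Outer X) : Outer Y := by
  rintro φ ⟨k, hk⟩ hφ
  obtain ⟨ψ, hψ⟩ : ∃ ψ : MulAut X, MulAut.congr e ψ = φ := (MulAut.congr e).surjective φ
  have hcong : ∀ (χ : MulAut X) (y : Y), (MulAut.congr e χ) y = e (χ (e.symm y)) :=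
    fun χ y => rfl
  have hconj : ∀ a : X, MulAut.congr e (MulAut.conj a) = MulAut.conj (e a) := by
    intro a
    ext y
    rw [hcong, MulAut.conj_apply, MulAut.conj_apply, map_mul, map_mul, map_inv,
      e.apply_symm_apply]
  have hψk : ψ ^ 2 ^ k = 1 := by
    apply (MulAut.congr e).injective
    rw [map_pow, hψ, hk, map_one]
  have hψa : ∀ a : X, ψ ≠ MulAut.conj a := by
    intro a ha
    exact hφ (e a) (by rw [← hψ, ha, hconj])
  obtain ⟨a, T, U, ⟨m, hm⟩, hTU, hT, hU, hV⟩ := h ψ ⟨k, hψk⟩ hψa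
  obtain ⟨T', hT'⟩ := exists_tr e T
  obtain ⟨U', hU'⟩ := exists_tr e U
  have hprod : MulAut.conj (e a) * φ = MulAut.congr e (MulAut.conj a * ψ) := by
    rw [map_mul, hconj, hψ]
  refine ⟨e a, T', U', ⟨m, ?_⟩, ?_, ?_, ?_, ?_⟩
  · rw [hprod, ← map_pow, hm, map_one]
  · intro y hy1 hy2
    have h1 := hTU (e.symm y) ((hT' y).1 hy1) ((hU' y).1 hy2)
    exact e.symm.injective (by rw [h1, map_one])
  · intro y hy
    rw [hprod, hcong, hT', e.symm_apply_apply]
    exact hT _ ((hT' y).1 hy)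
  · intro y hy
    rw [hprod, hcong, hU', e.symm_apply_apply]
    exact hU _ ((hU' y).1 hy)
  · intro V
    obtain ⟨V', hV'⟩ := exists_tr e.symm V
    obtain ⟨v, hv, hne⟩ := hV V'
    refine ⟨e v, (hV' v).1 hv, ?_⟩
    rw [hprod, hcong, e.symm_apply_apply]
    exact fun h1 => hne (e.injective h1)

/-- use `Outer.equiv`, `Bender.equiv`, `Weak.equiv` (AH01) -/
theorem Listed2.equiv {X : Type u} {Y : Type v} [Group X] [Group Y] (e : X ≃* Y)
    (h : Listed2 X) : Listed2 Y := by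
  rcases h with ⟨n, hn, ⟨f⟩⟩ | h | ⟨h1, h2⟩ | h
  · exact Or.inl ⟨n, hn, ⟨e.symm.trans f⟩⟩
  · exact Or.inr (Or.inl (h.equiv e))
  · refine Or.inr (Or.inr (Or.inl ⟨?_, h2.equiv e⟩))
    rw [← Nat.card_congr e.toEquiv]
    exact h1
  · exact Or.inr (Or.inr (Or.inr fun h' => h (h'.equiv e.symm)))

/-- A listed group has even order (as `Listed.even` of AH01). -/
theorem Listed2.even {X : Type u} [Group X] [Finite X] (h : Listed2 X) : 2 ∣ Nat.card X := by
  rcases h with h | h | ⟨h1, _⟩ | h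
  · exact Listed.even (Or.inl h)
  · exact Listed.even (Or.inr (Or.inl h))
  · exact h1
  · exact Listed.even (Or.inr (Or.inr (Or.inr h)))

end Pool.Agent.Lib.MP_e3cc28_alI
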