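import Pool.Agent.Lib.MP_e3cc28_alA.AI00
import Pool.Agent.Lib.MP_e3cc28_alA.AF01b

/-! job AI04: in a group with `(∗)` which is generated by its Sylow 2-subgroups, a normal subgroup
with the property `Outer` is a direct factor. -/

set_option autoImplicit false

namespace Pool.Agent.Lib.MP_e3cc28_alI

open Subgroup Equiv
open Pool.Agent.Lib.MP_e3cc28_al (Star')
open Pool.Agent.Lib.MP_e3cc28_alA
open Pool.Agent.Lib.MP_e3cc28_alH

universe u

variable {K : Type u} [Group K] [Finite K]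

/-- Let `y ∈ K` act on the normal subgroup `N` as an automorphism of 2-power order. Then there is a
2-element `z` (a power `z = y ^ m`) which acts on `N` in the same way: `orderOf y = 2 ^ i * r` with
`r` odd; take `m = 1 mod 2 ^ max i k` and `m = 0 mod r`. -/
theorem exists_two_part {N : Subgroup K} (y : K) (k : ℕ)
    (hy : ∀ x ∈ N, y ^ 2 ^ k * x = x * y ^ 2 ^ k) :
    ∃ z : K, (∃ j : ℕ, z ^ 2 ^ j = 1) ∧ ∀ x ∈ N, z * x * z⁻¹ = y * x * y⁻¹ := by
  obtain ⟨i, r, hr, hn⟩ := Nat.exists_eq_two_pow_mul_odd (orderOf_pos y).ne'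
  have hco : (2 ^ k).Coprime r := (Nat.coprime_two_left.2 hr).pow_left k
  obtain ⟨m, hm1, hm0⟩ := Nat.chineseRemainder hco 1 0
  have hrm : r ∣ m := (Nat.modEq_zero_iff_dvd).1 hm0
  have hrpos : 0 < r := hr.pos
  have hge : 1 ≤ m + 2 ^ k * r := by
    have : 0 < 2 ^ k * r := by positivity
    omega
  have h1 : 2 ^ k ∣ (m + 2 ^ k * r) - 1 := by
    refine (Nat.modEq_iff_dvd' hge).1 ?_
    calc 1 ≡ m [MOD 2 ^ k] := hm1.symm
      _ ≡ m + 2 ^ k * r [MOD 2 ^ k] := by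
        have h2 : 0 ≡ 2 ^ k * r [MOD 2 ^ k] :=
          ((Nat.modEq_zero_iff_dvd).2 (dvd_mul_right _ _)).symm
        simpa using Nat.ModEq.add_left m h2
  obtain ⟨t, ht⟩ := h1
  have hm' : m + 2 ^ k * r = 1 + 2 ^ k * t := by omega
  refine ⟨y ^ (m + 2 ^ k * r), ⟨i, ?_⟩, ?_⟩
  · rw [← pow_mul, ← orderOf_dvd_iff_pow_eq_one, hn, mul_comm]
    exact mul_dvd_mul (dvd_add hrm (dvd_mul_left _ _)) dvd_rfl
  · intro x hx
    have hc : Commute ((y ^ 2 ^ k) ^ t) x := Commute.pow_left (hy x hx) t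
    have h2 : (y ^ 2 ^ k) ^ t * x * ((y ^ 2 ^ k) ^ t)⁻¹ = x := by
      rw [hc.eq, mul_inv_cancel_right]
    rw [hm', pow_add, pow_one, pow_mul]
    calc y * (y ^ 2 ^ k) ^ t * x * (y * (y ^ 2 ^ k) ^ t)⁻¹
        = y * ((y ^ 2 ^ k) ^ t * x * ((y ^ 2 ^ k) ^ t)⁻¹) * y⁻¹ := by
          rw [mul_inv_rev]; simp only [mul_assoc]
      _ = y * x * y⁻¹ := by rw [h2]

/-- Proof. Let `C` be the centraliser of `N`. It is enough to show that every Sylow 2-subgroup `P`
of `K` is contained in `NC = N ⊔ C`. Let `x ∈ P`, `x ∉ NC`, `φ` = the conjugation with `x` on `N`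
(`MulAut.conjNormal`), an automorphism of 2-power order. It is not inner (if `φ` is the conjugation
with `b ∈ N`, then `b⁻¹ x ∈ C`). Let `a ∈ N`, `T`, `U` be as in `Outer`; `y = ax` acts on `N` as
`ψ = conj a * φ`. By `exists_two_part` there is a 2-element `z ∈ K` which acts on `N` as `ψ`. `z`
normalises `T` and `U` (as subgroups of `K`), so `T⟨z⟩`, `U⟨z⟩` are 2-groups; let `P'`, `Q'` be
Sylow 2-subgroups of `K` which contain them. By maximality `P' ∩ N = T`, `Q' ∩ N = U`, so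
`P' ∩ Q' ∩ N = 1`, and `z ∈ P' ∩ Q'`. Let `S` be the Sylow subgroup of `(∗)` for `P'`, `Q'`. For
`s ∈ S ∩ N` the element `s z s⁻¹ z⁻¹` is in `P' ∩ Q'` (which `S` normalises) and in `N` (normal), so
it is trivial. Hence `z` centralises the Sylow 2-subgroup `V = S ∩ N` of `N` (`SylIn.inf`,
`sylIn_iff`), a contradiction to the last property in `Outer`. -/
theorem split_of_outer (hgen : O2' K = ⊤) (hstar : Star' K) {N : Subgroup K} (hN : N.Normal)
    (h : Outer N) (k : K) :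
    ∃ n ∈ N, ∃ c : K, (∀ x ∈ N, c * x = x * c) ∧ k = n * c := by
  have : Fact (Nat.Prime 2) := ⟨Nat.prime_two⟩
  -- it is enough to show that everything is in the product
  suffices hall : (⊤ : Subgroup K) ≤ N ⊔ centralizer (N : Set K) by
    have h1 := hall (Subgroup.mem_top k)
    rw [Subgroup.mem_sup_of_normal_left] at h1
    obtain ⟨n, hn, c, hc, hk⟩ := h1
    refine ⟨n, hn, c, ?_, hk.symm⟩
    intro x hx
    exact (mem_centralizer_iff.1 hc x hx).symm
  rw [← hgen]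
  refine iSup_le fun P => ?_
  intro x hx
  by_contra hcon
  have hcj : ∀ (g : K) (v : N), ((MulAut.conjNormal g v : N) : K) = g * v * g⁻¹ := fun g v => rfl
  -- the automorphism of x
  obtain ⟨j, hj⟩ : ∃ j : ℕ, x ^ 2 ^ j = 1 := by
    obtain ⟨j, hj⟩ := P.isPGroup' ⟨x, hx⟩
    exact ⟨j, congrArg Subtype.val hj⟩
  have hφ2 : ∃ k : ℕ, (MulAut.conjNormal x : MulAut N) ^ 2 ^ k = 1 :=
    ⟨j, by rw [← map_pow, hj, map_one]⟩
  have hφn : ∀ a : N, (MulAut.conjNormal x : MulAut N) ≠ MulAut.conj a := by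
    intro a ha
    apply hcon
    have h1 : x = (a : K) * ((a : K)⁻¹ * x) := by group
    rw [h1]
    refine mul_mem (Subgroup.mem_sup_left a.2) (Subgroup.mem_sup_right ?_)
    rw [mem_centralizer_iff]
    intro v hv
    have h2 : (MulAut.conjNormal x : MulAut N) ⟨v, hv⟩ = MulAut.conj a ⟨v, hv⟩ := by rw [ha]
    have h3 : x * v * x⁻¹ = a * v * (a : K)⁻¹ := congrArg Subtype.val h2
    calc v * ((a : K)⁻¹ * x) = (a : K)⁻¹ * (a * v * (a : K)⁻¹) * x := by group
      _ = (a : K)⁻¹ * (x * v * x⁻¹) * x := by rw [h3]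
      _ = (a : K)⁻¹ * x * v := by group
  obtain ⟨a, T, U, ⟨l, hl⟩, hTU, hT, hU, hV⟩ := h _ hφ2 hφn
  have hψ : ∀ v : N, (((MulAut.conj a * MulAut.conjNormal x : MulAut N) v : N) : K) =
      (a * x) * v * ((a : K) * x)⁻¹ := by
    intro v
    change (a : K) * (x * v * x⁻¹) * (a : K)⁻¹ = _
    rw [mul_inv_rev]
    simp only [mul_assoc]
  have hconj : (MulAut.conj a * MulAut.conjNormal x : MulAut N) = MulAut.conjNormal (a * x) := by
    ext v
    rw [hψ, hcj]
  have hyl : ∀ v ∈ N, ((a : K) * x) ^ 2 ^ l * v = v * ((a : K) * x) ^ 2 ^ l := by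
    intro v hv
    have h1 : (MulAut.conjNormal (((a : K) * x) ^ 2 ^ l) : MulAut N) = 1 := by
      rw [map_pow, ← hconj, hl]
    have h2 : ((MulAut.conjNormal (((a : K) * x) ^ 2 ^ l) : MulAut N) ⟨v, hv⟩ : N) =
      (⟨v, hv⟩ : N) := by rw [h1]; rfl
    have h3 : ((a : K) * x) ^ 2 ^ l * v * (((a : K) * x) ^ 2 ^ l)⁻¹ = v := congrArg Subtype.val h2
    calc ((a : K) * x) ^ 2 ^ l * v
        = ((a : K) * x) ^ 2 ^ l * v * (((a : K) * x) ^ 2 ^ l)⁻¹ * ((a : K) * x) ^ 2 ^ l := by group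
      _ = v * ((a : K) * x) ^ 2 ^ l := by rw [h3]
  obtain ⟨z, ⟨i, hzi⟩, hz⟩ := exists_two_part (N := N) ((a : K) * x) l hyl
  have hzψ : ∀ v : N, (((MulAut.conj a * MulAut.conjNormal x : MulAut N) v : N) : K) =
      z * v * z⁻¹ := by
    intro v
    rw [hψ, hz v v.2]
  have hzp : IsPGroup 2 (zpowers z) := by
    refine IsPGroup.of_card_dvd_pow (n := i) ?_
    rw [Nat.card_zpowers]
    exact orderOf_dvd_of_pow_eq_one hzi
  -- Sylow subgroups which contain T and z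
  have key : ∀ T : Sylow 2 N, (∀ v ∈ T, (MulAut.conj a * MulAut.conjNormal x : MulAut N) v ∈ T) →
      ∃ P' : Sylow 2 K, z ∈ P' ∧ ∀ v : N, (v : K) ∈ P' → v ∈ T := by
    intro T hT
    have hsyl := sylIn_map N T
    have hst : ∀ t ∈ (T : Subgroup N).map N.subtype,
        z * t * z⁻¹ ∈ (T : Subgroup N).map N.subtype := by
      rintro _ ⟨t, ht, rfl⟩
      refine ⟨(MulAut.conj a * MulAut.conjNormal x : MulAut N) t, hT t ht, ?_⟩
      exact hzψ t
    have hnorm : z ∈ Subgroup.normalizer (((T : Subgroup N).map N.subtype : Subgroup K) : Set K) := by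
      rw [Subgroup.mem_normalizer_iff]
      intro t
      refine ⟨hst t, fun ht => ?_⟩
      let f : ↥((T : Subgroup N).map N.subtype) → ↥((T : Subgroup N).map N.subtype) :=
        fun t => ⟨z * t * z⁻¹, hst t t.2⟩
      have hf : Function.Injective f := by
        intro t1 t2 h12
        have h1 : z * t1 * z⁻¹ = z * t2 * z⁻¹ := congrArg Subtype.val h12
        exact Subtype.ext (mul_left_cancel (mul_right_cancel h1))
      obtain ⟨t', ht'⟩ := (Finite.injective_iff_surjective.1 hf) ⟨_, ht⟩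
      have h1 : z * t' * z⁻¹ = z * t * z⁻¹ := congrArg Subtype.val ht'
      have h2 : (t' : K) = t := mul_left_cancel (mul_right_cancel h1)
      rw [← h2]
      exact t'.2
    have hp : IsPGroup 2 (zpowers z ⊔ (T : Subgroup N).map N.subtype : Subgroup K) := by
      refine IsPGroup.to_sup_of_normal_right' hzp hsyl.2.1 ?_
      rw [zpowers_le]
      exact hnorm
    obtain ⟨P', hP'⟩ := hp.exists_le_sylow
    refine ⟨P', hP' (Subgroup.mem_sup_left (mem_zpowers z)), ?_⟩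
    intro v hv
    have h1 : (P' : Subgroup K) ⊓ N = (T : Subgroup N).map N.subtype :=
      hsyl.eq_of_le (P'.isPGroup'.to_le inf_le_left) inf_le_right
        (le_inf (le_sup_right.trans hP') hsyl.1)
    have h2 : (v : K) ∈ (T : Subgroup N).map N.subtype := by
      rw [← h1]
      exact Subgroup.mem_inf.2 ⟨hv, v.2⟩
    obtain ⟨t, ht, htv⟩ := h2
    have h3 : t = v := Subtype.ext htv
    rw [← h3]
    exact ht
  obtain ⟨P', hzP, hPN⟩ := key T hT
  obtain ⟨Q', hzQ, hQN⟩ := key U hU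
  obtain ⟨S, _, _, hS3⟩ := hstar P' Q'
  have hSN : SylIn N ((S : Subgroup K) ⊓ N) :=
    SylIn.inf (H := ⊤) (sylIn_top_iff.2 ⟨S, rfl⟩) le_top (fun g _ v hv => hN.conj_mem v hv g)
  obtain ⟨_, V, hVS⟩ := sylIn_iff.1 hSN
  obtain ⟨v, hvV, hv⟩ := hV V
  apply hv
  have hvS : (v : K) ∈ S := by
    have h1 : v ∈ (V : Subgroup N) := hvV
    rw [hVS, Subgroup.mem_subgroupOf] at h1
    exact (Subgroup.mem_inf.1 h1).1
  have h1 := hS3 v hvS z hzP hzQ
  have hwN : (v : K) * z * (v : K)⁻¹ * z⁻¹ ∈ N := by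
    have h2 : (v : K) * z * (v : K)⁻¹ * z⁻¹ = v * (z * (v : K)⁻¹ * z⁻¹) := by
      simp only [mul_assoc]
    rw [h2]
    exact mul_mem v.2 (hN.conj_mem _ (inv_mem v.2) z)
  have h2 : (⟨(v : K) * z * (v : K)⁻¹ * z⁻¹, hwN⟩ : N) = 1 := by
    refine hTU _ (hPN _ ?_) (hQN _ ?_)
    · exact mul_mem h1.1 (inv_mem hzP)
    · exact mul_mem h1.2 (inv_mem hzQ)
  have h3 : (v : K) * z * (v : K)⁻¹ * z⁻¹ = 1 := congrArg Subtype.val h2
  apply Subtype.ext
  rw [hzψ]
  calc z * v * z⁻¹ = ((v : K) * z * (v : K)⁻¹ * z⁻¹)⁻¹ * v := by group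
    _ = v := by rw [h3, inv_one, one_mul]

end Pool.Agent.Lib.MP_e3cc28_alI
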