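import Pool.Agent.Lib.MP_e3cc28_alA.AF11
import Pool.Agent.Lib.MP_e3cc28_alA.AI02
import Pool.Agent.Lib.MP_e3cc28_alA.AH03
import Pool.Agent.Lib.MP_e3cc28_alA.AI00
import Pool.Agent.Lib.MP_e3cc28_alA.AH07
import Pool.Agent.Lib.MP_e3cc28_alA.AI04

/-! AI08: assembly -/

set_option autoImplicit false

namespace Pool.Agent.Lib.MP_e3cc28_alI

open Subgroup Equiv
open Pool.Agent.Lib.MP_e3cc28_al (Star')
open Pool.Agent.Lib.MP_e3cc28_alA
open Pool.Agent.Lib.MP_e3cc28_alG
open Pool.Agent.Lib.MP_e3cc28_alH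

universe u v

/-- the simple direct factors -/
def SplitType (X : Type u) [Group X] : Prop :=
  Nonempty (X ≃* alternatingGroup (Fin 5)) ∨ Bender X ∨ Outer X

theorem SplitType.equiv {X : Type u} {Y : Type v} [Group X] [Group Y] (e : X ≃* Y)
    (h : SplitType X) : SplitType Y := by
  rcases h with ⟨⟨f⟩⟩ | h | h
  · exact Or.inl ⟨e.symm.trans f⟩
  · exact Or.inr (Or.inl (h.equiv e))
  · exact Or.inr (Or.inr (h.equiv e))

/-- the class of the groups `O^{2'}(G/R)` -/
def InClass' (K : Type u) [Group K] : Prop :=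
  ∃ (a b : ℕ) (m : Fin a → ℕ) (L : ∀ i, Subgroup (Perm (Fin (m i)))),
    (∀ i, IsSimpleGroup (L i) ∧ (∃ x y : L i, x * y ≠ y * x) ∧ Star' (L i) ∧ SplitType (L i)) ∧
    ∃ K' : Subgroup ((∀ i, L i) × (Fin b → Perm (Fin 6))),
      (∀ x, (∀ j, x.2 j ∈ alternatingGroup (Fin 6)) → x ∈ K') ∧ Nonempty (K ≃* K')

theorem InClass'.star {K : Type u} [Group K] [Finite K] (h : InClass' K) : Star' K := by
  obtain ⟨a, b, m, L, hL, K', h1, ⟨e⟩⟩ := h
  exact (star_equiv e).2 (star_of_embedding' L (fun i => (hL i).2.2.1) K' h1)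

theorem exists_embedding' {K : Type u} [Group K] [Finite K] (hgen : O2' K = ⊤)
    (hstar : Star' K) (hab : NoAb K) (hlist : ListedSub2 K) : InClass' K := by
  classical
  set Good6 : Subgroup K → Prop := fun N => ∃ ψ : K →* Perm (Fin 6),
    (∀ c ∈ alternatingGroup (Fin 6), ∃ x ∈ N, ψ x = c) ∧
      ∀ k, ψ k = 1 ↔ ∀ x ∈ N, k * x = x * k with hG6
  have hna : ∀ N : Subgroup K, MinN N → ∃ a ∈ N, ∃ b ∈ N, a * b ≠ b * a := by
    intro N hN
    by_contra hcon
    push Not at hcon
    exact hN.2.1 (hab N hN.1 hcon)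
  have hz : ∀ N : Subgroup K, MinN N → ∀ x ∈ N, (∀ y ∈ N, x * y = y * x) → x = 1 := by
    intro N hN x hx hxy
    have hNn := hN.1
    have h1 : N ⊓ centralizer (N : Set K) = ⊥ := by
      refine hab _ inferInstance ?_
      rintro a ⟨ha, ha'⟩ b ⟨hb, hb'⟩
      exact (mem_centralizer_iff.1 ha' b hb).symm
    have h2 : x ∈ N ⊓ centralizer (N : Set K) :=
      ⟨hx, mem_centralizer_iff.2 fun y hy => (hxy y hy).symm⟩
    rw [h1] at h2
    exact mem_bot.1 h2
  have key : ∀ N : Subgroup K, MinN N → ¬ Good6 N →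
      (∃ f : K →* N, (∀ x : N, f x = x) ∧ ∀ k, f k = 1 ↔ ∀ x ∈ N, k * x = x * k) ∧
        SplitType N ∧ IsSimpleGroup N := by
    intro N hN hnot
    have hNn := hN.1
    have hs := min_normal_simple' hgen hstar hab hlist.even hN
    have hsub : N.IsSubnormal := hNn.isSubnormal
    rcases hlist N hsub hs (hna N hN) with ⟨n, hn, ⟨θ⟩⟩ | hB | ⟨-, hO⟩ | hW
    · obtain ⟨h56, ψ, h1, h2, h3⟩ := comp_hom hstar N hN.1 hn θ
      rcases h56 with rfl | rfl
      · refine ⟨⟨θ.symm.toMonoidHom.comp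
          (ψ.codRestrict (alternatingGroup (Fin 5)) (h3 rfl)), ?_, ?_⟩, Or.inl ⟨θ⟩, hs⟩
        · intro x
          change θ.symm (ψ.codRestrict (alternatingGroup (Fin 5)) (h3 rfl) x) = x
          rw [MulEquiv.symm_apply_eq]
          apply Subtype.ext
          exact h1 x
        · intro k
          rw [← h2]
          change θ.symm (ψ.codRestrict (alternatingGroup (Fin 5)) (h3 rfl) k) = 1 ↔ _
          rw [MulEquiv.symm_apply_eq, map_one]
          constructor
          · intro h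
            exact congrArg Subtype.val h
          · intro h
            exact Subtype.ext h
      · exfalso
        apply hnot
        refine ⟨ψ, ?_, h2⟩
        intro c hc
        refine ⟨θ.symm ⟨c, hc⟩, (θ.symm ⟨c, hc⟩).2, ?_⟩
        rw [h1, θ.apply_symm_apply]
    · exact ⟨exists_proj hNn (hz N hN) (split_of_bender hgen hstar hNn hs hB),
        Or.inr (Or.inl hB), hs⟩
    · exact ⟨exists_proj hNn (hz N hN) (split_of_outer hgen hstar hNn hO),
        Or.inr (Or.inr hO), hs⟩
    · exact absurd (weak_normal hstar hNn) hW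
  let ι : Type u := {N : Subgroup K // MinN N ∧ ¬ Good6 N}
  let κ : Type u := {N : Subgroup K // MinN N ∧ Good6 N}
  have hfin : Finite (Subgroup K) := inferInstance
  have hι : Finite ι := Subtype.finite
  have hκ : Finite κ := Subtype.finite
  choose f hf1 hf2 using fun i : ι => (key i.1 i.2.1 i.2.2).1
  choose g hg1 hg2 using fun j : κ => j.2.2
  choose m L e' using fun i : ι => exists_perm_model i.1
  have e : ∀ i : ι, i.1 ≃* L i := fun i => (e' i).some
  have H : ∃ (a b : ℕ) (ea : Fin a ≃ ι), ∃ K' : Subgroup ((∀ i : Fin a, L (ea i)) ×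
      (Fin b → Perm (Fin 6))),
      (∀ x, (∀ j, x.2 j ∈ alternatingGroup (Fin 6)) → x ∈ K') ∧ Nonempty (K ≃* K') := by
    refine embed_of_homs' (ι := ι) (κ := κ) L
      (fun i => (e i).toMonoidHom.comp (f i)) g ?_ ?_ ?_
    · intro x h5 h6
      refine eq_one_of_cent hab x fun N hN => ?_
      by_cases h : Good6 N
      · exact (hg2 ⟨N, hN, h⟩ x).1 (h6 ⟨N, hN, h⟩)
      · refine (hf2 ⟨N, hN, h⟩ x).1 ?_
        have h7 := h5 ⟨N, hN, h⟩
        change e ⟨N, hN, h⟩ (f ⟨N, hN, h⟩ x) = 1 at h7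
        exact (map_eq_one_iff _ (e ⟨N, hN, h⟩).injective).1 h7
    · intro i c
      refine ⟨((e i).symm c : i.1), ?_, fun i' hi' => ?_, fun j => ?_⟩
      · change e i (f i _) = c
        rw [hf1, (e i).apply_symm_apply]
      · change e i' (f i' _) = 1
        rw [(hf2 i' _).2, map_one]
        intro y hy
        exact MinN.comm i.2.1 i'.2.1 (fun h => hi' (Subtype.ext h.symm)) _ ((e i).symm c).2 y hy
      · refine (hg2 j _).2 fun y hy => ?_
        refine MinN.comm i.2.1 j.2.1 (fun h => ?_) _ ((e i).symm c).2 y hy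
        apply i.2.2
        rw [h]
        exact j.2.2
    · intro j c hc
      obtain ⟨x, hx, hxc⟩ := hg1 j c hc
      refine ⟨x, hxc, fun j' hj' => ?_, fun i => ?_⟩
      · refine (hg2 j' x).2 fun y hy => ?_
        exact MinN.comm j.2.1 j'.2.1 (fun h => hj' (Subtype.ext h.symm)) x hx y hy
      · change e i (f i _) = 1
        rw [(hf2 i _).2, map_one]
        intro y hy
        refine MinN.comm j.2.1 i.2.1 (fun h => ?_) x hx y hy
        apply i.2.2
        rw [← h]
        exact j.2.2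
  obtain ⟨a, b, ea, K', hK', hKe⟩ := H
  refine ⟨a, b, fun i => m (ea i), fun i => L (ea i), fun i => ?_, K', hK', hKe⟩
  have hs := (key (ea i).1 (ea i).2.1 (ea i).2.2).2
  have hsimp := hs.2
  have hstarN : Star' (ea i).1 := by
    refine star_quot_any (f (ea i)) (fun x => ⟨x, hf1 (ea i) x⟩) hstar
  refine ⟨?_, ?_, (star_equiv (e (ea i))).1 hstarN, hs.1.equiv (e (ea i))⟩
  · have hnt : Nontrivial (L (ea i)) := (e (ea i)).symm.toEquiv.nontrivial
    exact IsSimpleGroup.isSimpleGroup_of_surjective (e (ea i)).toMonoidHom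
      (e (ea i)).surjective
  · obtain ⟨x, hx, y, hy, hxy⟩ := hna (ea i).1 (ea i).2.1
    refine ⟨e (ea i) ⟨x, hx⟩, e (ea i) ⟨y, hy⟩, fun heq => hxy ?_⟩
    rw [← map_mul, ← map_mul] at heq
    exact congrArg Subtype.val ((e (ea i)).injective heq)

/-- groups without abelian normal subgroups -/
theorem star_iff_inClass' {H : Type u} [Group H] [Finite H] (hab : NoAb H)
    (hlist : ListedSub2 H) : Star' H ↔ InClass' (O2' H) := by
  rw [star_O2'_iff]
  refine ⟨fun h => ?_, InClass'.star⟩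
  exact exists_embedding' O2'_O2' h (hab.normal _ O2'_normal) (hlist.normal _ O2'_normal)

end Pool.Agent.Lib.MP_e3cc28_alI
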